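import Pool.Agent.NH7.Cub.Step
import Pool.Agent.W309.TD.Main

/-!
The curve `y ^ 2 = x ^ 3 + a x ^ 2 + b x + c - s` over `k(s)`.
-/

set_option autoImplicit false
set_option linter.all false

open WithZero Polynomial IsDedekindDomain

namespace Pool.Agent.NH7.Cub

section base

variable {k K : Type} [Field k] [Field K] [Algebra k[X] K] [IsFractionRing k[X] K] (a b c : k)

/-- The coefficients. -/
noncomputable def cf (K : Type) [Field K] [Algebra k[X] K] (a : k) : K := algebraMap k[X] K (C a)

noncomputable def cs (K : Type) [Field K] [Algebra k[X] K] (c : k) : K :=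
  algebraMap k[X] K (C c - X)

include k in
theorem cub_irr : Irreducible (cub (cf K a) (cf K b) (cs K c)) := by
  rw [(cub_monic _ _ _).irreducible_iff_roots_eq_zero_of_degree_le_three
    (by rw [cub_natDegree]; norm_num) (by rw [cub_natDegree])]
  rw [Multiset.eq_zero_iff_forall_notMem]
  intro x hx
  have hx1 := (mem_roots'.1 hx).2
  have hx2 : x ^ 3 + cf K a * x ^ 2 + cf K b * x + cs K c = 0 := by
    have : eval x (cub (cf K a) (cf K b) (cs K c)) = 0 := hx1
    simpa [cub] using this
  have hint : IsIntegral k[X] x := by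
    refine ⟨X ^ 3 + C (C a) * X ^ 2 + C (C b) * X + C (C c - X), by monicity!, ?_⟩
    simp only [eval₂_add, eval₂_mul, eval₂_pow, eval₂_X, eval₂_C]
    exact hx2
  obtain ⟨p, rfl⟩ := IsIntegrallyClosed.isIntegral_iff.1 hint
  have h1 : p ^ 3 + C a * p ^ 2 + C b * p + C c = X := by
    apply IsFractionRing.injective k[X] K
    simp only [cf, cs] at hx2
    simp only [map_add, map_mul, map_pow]
    rw [map_sub] at hx2
    linear_combination hx2
  by_cases hp : p.natDegree = 0
  · obtain ⟨t, rfl⟩ := natDegree_eq_zero.1 hp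
    have h2 : C (t ^ 3 + a * t ^ 2 + b * t + c) = (X : k[X]) := by
      rw [← h1]; simp
    have h3 := congrArg natDegree h2
    rw [natDegree_C, natDegree_X] at h3
    norm_num at h3
  · have h2 : (p ^ 3).natDegree = 3 * p.natDegree := natDegree_pow p 3
    have h3 : (C a * p ^ 2 + C b * p + C c).natDegree ≤ 2 * p.natDegree := by
      refine (natDegree_add_le _ _).trans (max_le ((natDegree_add_le _ _).trans (max_le ?_ ?_)) ?_)
      · refine (natDegree_C_mul_le _ _).trans ?_
        rw [natDegree_pow]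
      · refine (natDegree_C_mul_le _ _).trans ?_
        omega
      · rw [natDegree_C]; omega
    have h4 : (p ^ 3 + (C a * p ^ 2 + C b * p + C c)).natDegree = 3 * p.natDegree := by
      rw [natDegree_add_eq_left_of_natDegree_lt (by rw [h2]; omega), h2]
    have h5 : p ^ 3 + (C a * p ^ 2 + C b * p + C c) = X := by rw [← h1]; ring
    rw [h5, natDegree_X] at h4
    omega

include k in
theorem cub_sepb (h2 : (2 : k) ≠ 0) (hab : a ^ 2 ≠ 3 * b) :
    (cub (cf K a) (cf K b) (cs K c)).Separable := by
  rw [separable_iff_derivative_ne_zero (cub_irr a b c)]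
  intro h0
  apply hab
  have h1 : derivative (cub (cf K a) (cf K b) (cs K c)) =
      C 3 * X ^ 2 + C (2 * cf K a) * X + C (cf K b) := by
    simp only [cub, derivative_add, derivative_mul, derivative_C, derivative_X, derivative_pow,
      derivative_X_pow, map_mul, map_ofNat]
    simp
    have c2 : (C (2 : K) : K[X]) = 2 := map_ofNat C 2
    have c3 : (C (3 : K) : K[X]) = 3 := map_ofNat C 3
    simp only [c2, c3]
    ring
  rw [h1] at h0
  have e2 := congrArg (fun p => coeff p 2) h0
  have e1 := congrArg (fun p => coeff p 1) h0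
  have e0 := congrArg (fun p => coeff p 0) h0
  simp [coeff_X, coeff_C] at e2 e1 e0
  have hinj : Function.Injective (algebraMap k[X] K) := IsFractionRing.injective k[X] K
  have h2K : (2 : K) ≠ 0 := by
    have h3 : algebraMap k[X] K (C (2 : k)) ≠ 0 := by
      rw [Ne, map_eq_zero_iff _ hinj, C_eq_zero]
      exact h2
    rwa [map_ofNat, map_ofNat] at h3
  have ha : a = 0 := by
    rcases e1 with e1 | e1
    · exact absurd e1 h2K
    · have : algebraMap k[X] K (C a) = 0 := e1
      rw [map_eq_zero_iff _ hinj, C_eq_zero] at this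
      exact this
  have hb : b = 0 := by
    have : algebraMap k[X] K (C b) = 0 := e0
    rw [map_eq_zero_iff _ hinj, C_eq_zero] at this
    exact this
  rw [ha, hb]; ring

/-- The discriminant is squarefree. -/
theorem disc_cond (h2 : (2 : k) ≠ 0) (hab : a ^ 2 ≠ 3 * b) (v : HeightOneSpectrum k[X]) :
    exp (-1) ≤ v.valuation K (disc3 (cf K a) (cf K b) (cs K c)) := by
  set D : k[X] := C a ^ 2 * C b ^ 2 - 4 * C b ^ 3 - 4 * C a ^ 3 * (C c - X) +
    18 * C a * C b * (C c - X) - 27 * (C c - X) ^ 2 with hD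
  have hDK : disc3 (cf K a) (cf K b) (cs K c) = algebraMap k[X] K D := by
    simp only [disc3, cf, cs, hD, map_sub, map_add, map_mul, map_pow, map_ofNat]
  rw [hDK, v.valuation_of_algebraMap]
  by_contra hcon
  rw [not_le] at hcon
  have h3 : v.intValuation D ≤ exp (-2) := by
    by_cases h0 : v.intValuation D = 0
    · rw [h0]; exact zero_le'
    · have h4 : v.intValuation D = exp (log (v.intValuation D)) := (exp_log h0).symm
      rw [h4, exp_lt_exp] at hcon
      rw [h4, exp_le_exp]
      omega
  have h4 : D ∈ v.asIdeal ^ 2 := by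
    rw [← v.intValuation_le_pow_iff_mem]
    exact_mod_cast h3
  obtain ⟨π, hπ, hv⟩ := Pool.Agent.W309.TD.exists_gen v
  rw [hv, Ideal.span_singleton_pow, Ideal.mem_span_singleton] at h4
  obtain ⟨q, hq⟩ := h4
  have h5 : π ∣ D := ⟨π * q, by rw [hq]; ring⟩
  have h6 : π ∣ derivative D := by
    rw [hq]
    simp only [derivative_mul, derivative_pow]
    refine dvd_add ?_ ?_
    · exact ⟨C ((2 : ℕ) : k) * derivative π * q, by simp; ring⟩
    · exact ⟨π * derivative q, by ring⟩
  have h7 : derivative D = 4 * C a ^ 3 - 18 * C a * C b + 54 * (C c - X) := by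
    rw [hD]
    simp only [derivative_sub, derivative_add, derivative_mul, derivative_pow, derivative_C,
      derivative_X, derivative_ofNat]
    simp
    have c2 : (C (2 : k) : k[X]) = 2 := map_ofNat C 2
    simp only [c2]
    ring
  have h8 : (derivative D) ^ 2 + 108 * D = C (16 * (a ^ 2 - 3 * b) ^ 3) := by
    rw [h7, hD]
    simp only [map_mul, map_pow, map_sub, map_ofNat]
    ring
  have h9 : π ∣ C (16 * (a ^ 2 - 3 * b) ^ 3) := by
    rw [← h8]
    exact dvd_add (dvd_pow h6 two_ne_zero) (h5.mul_left _)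
  have h10 : (16 * (a ^ 2 - 3 * b) ^ 3 : k) ≠ 0 := by
    have : (16 : k) = 2 ^ 4 := by norm_num
    rw [this]
    exact mul_ne_zero (pow_ne_zero _ h2) (pow_ne_zero _ (sub_ne_zero.2 hab))
  exact hπ.not_isUnit (isUnit_of_dvd_unit h9 (isUnit_C.2 h10.isUnit))

theorem base_aux {B A : Type} [CommRing B] [IsDedekindDomain B] [IsPrincipalIdealRing B] [Field A]
    [Algebra B A] [IsFractionRing B A] {α : A} (hα : α ≠ 0)
    (h : ∀ v : HeightOneSpectrum B, IsSquare (v.valuation A α)) :
    ∃ (w : Bˣ) (s : A), s ≠ 0 ∧ α = algebraMap B A w * s ^ 2 :=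
  Pool.Agent.W309.TD.even_rep Pool.Agent.W309.TD.noTwo_of_pid hα h

/-- The two-descent condition over the rational function field. -/
theorem base_H1 : H1 k[X] K (cf K a) (cf K b) (cs K c) := by
  intro A _ _ θ hθ h3 α hα hN hEv
  have hinj : Function.Injective (algebraMap k[X] K) := IsFractionRing.injective k[X] K
  have hinjA : Function.Injective (algebraMap K A) := (algebraMap K A).injective
  haveI : FiniteDimensional K A := FiniteDimensional.of_finrank_pos (by rw [h3]; norm_num)
  let ψ : k[X] →+* A := (algebraMap K A).comp (algebraMap k[X] K)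
  have hψinj : Function.Injective ψ := hinjA.comp hinj
  let φ : k[X] →+* A := eval₂RingHom (ψ.comp C) θ
  have hφC : ∀ t : k, φ (C t) = ψ (C t) := fun t => by simp [φ]
  have hφX : φ X = θ := by simp [φ]
  set h : k[X] := X ^ 3 + C a * X ^ 2 + C b * X + C c with hh
  have hφh : φ h = ψ X := by
    have e1 : ψ (C a) = algebraMap K A (cf K a) := rfl
    have e2 : ψ (C b) = algebraMap K A (cf K b) := rfl
    have e3 : ψ (C c) - ψ X = algebraMap K A (cs K c) := by
      rw [← map_sub]; rfl
    rw [hh]
    simp only [map_add, map_mul, map_pow, hφC, hφX]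
    rw [e1, e2]
    linear_combination hθ + e3
  have hψφ : ∀ p : k[X], ψ p = φ (p.comp h) := by
    intro p
    induction p using Polynomial.induction_on' with
    | add p q hp hq => rw [map_add, add_comp, map_add, hp, hq]
    | monomial n t =>
      rw [← C_mul_X_pow_eq_monomial, mul_comp, C_comp, X_pow_comp, map_mul, map_mul, map_pow,
        map_pow, hφC, hφh]
  have hφinj : Function.Injective φ := by
    rw [injective_iff_map_eq_zero]
    intro p hp
    by_contra hp0
    letI : Algebra k A := (ψ.comp C).toAlgebra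
    have h1 : IsAlgebraic k θ := ⟨p, hp0, hp⟩
    have h2 : IsAlgebraic k (aeval θ h) := by
      exact (Algebra.isAlgebraic_adjoin_singleton_iff.2 h1) (aeval θ h)
        (aeval_mem_adjoin_singleton k θ)
    obtain ⟨q, hq0, hq⟩ := h2
    have h3 : aeval θ h = ψ X := hφh
    rw [h3] at hq
    apply hq0
    apply hψinj
    rw [map_zero, ← hq]
    conv_lhs => rw [← Polynomial.eval₂_C_X (p := q)]
    rw [Polynomial.hom_eval₂]
    rfl
  letI : Algebra k[X] A := φ.toAlgebra
  have halg : ∀ p : k[X], algebraMap k[X] A p = φ p := fun _ => rfl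
  haveI : FaithfulSMul k[X] A := by
    rw [faithfulSMul_iff_algebraMap_injective]
    exact hφinj
  have hfracK : ∀ x : K, ∃ n d : k[X], φ d ≠ 0 ∧ algebraMap K A x = φ n / φ d := by
    intro x
    obtain ⟨n, d, hd, rfl⟩ := IsFractionRing.div_surjective (A := k[X]) x
    have hd0 : d ≠ 0 := nonZeroDivisors.ne_zero hd
    refine ⟨n.comp h, d.comp h, ?_, ?_⟩
    · rw [← hψφ]
      intro h0
      exact hd0 (hψinj (by rw [h0, map_zero]))
    · rw [← hψφ, ← hψφ, map_div₀]
      rfl
  haveI : IsFractionRing k[X] A := by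
    apply IsFractionRing.of_field
    intro z
    obtain ⟨x0, x1, x2, hx⟩ := exists_basis (cub_irr (K := K) a b c) h3 hθ z
    obtain ⟨n0, d0, e0, f0⟩ := hfracK x0
    obtain ⟨n1, d1, e1, f1⟩ := hfracK x1
    obtain ⟨n2, d2, e2, f2⟩ := hfracK x2
    refine ⟨n0 * d1 * d2 + n1 * d0 * d2 * X + n2 * d0 * d1 * X ^ 2, d0 * d1 * d2, ?_⟩
    rw [halg, halg, hx, f0, f1, f2]
    simp only [map_add, map_mul, map_pow, hφX]
    field_simp
  obtain ⟨w, t, ht0, hwt⟩ := base_aux (B := k[X]) hα (fun v => by
    apply hEv (v.valuation A) (v.valuation_surjective A)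
    intro r
    have e1 : algebraMap K A (algebraMap k[X] K r) = algebraMap k[X] A (r.comp h) := by
      rw [halg, ← hψφ]
      rfl
    rw [e1]
    exact v.valuation_le_one _)
  obtain ⟨κ, hκ, hκw⟩ := Polynomial.isUnit_iff.1 w.isUnit
  have hκ0 : κ ≠ 0 := hκ.ne_zero
  set κ' : K := algebraMap k[X] K (C κ) with hκ'
  have hκ'0 : κ' ≠ 0 := by
    rw [hκ', Ne, map_eq_zero_iff _ hinj, C_eq_zero]
    exact hκ0
  have hα2 : α = algebraMap K A κ' * t ^ 2 := by
    rw [hwt, halg, ← hκw, hφC]
    rfl
  obtain ⟨m, hm⟩ := hN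
  rw [hα2, map_mul, Algebra.norm_algebraMap, h3, map_pow] at hm
  have hNt : Algebra.norm K t ≠ 0 := Algebra.norm_ne_zero_iff.2 ht0
  have hsq : κ' = (m / (κ' * Algebra.norm K t)) ^ 2 := by
    rw [div_pow]
    field_simp
    linear_combination hm
  refine ⟨algebraMap K A (m / (κ' * Algebra.norm K t)) * t, ?_⟩
  rw [hα2]
  nth_rewrite 1 [hsq]
  rw [map_pow]
  ring

end base

end Pool.Agent.NH7.Cub
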