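import Mathlib

/-!
Group law formulas for the curves `y ^ 2 = (x - p) (x - q) (x - r)` over a field in which `2 ≠ 0`.
-/

set_option autoImplicit false
set_option linter.all false

open WeierstrassCurve WeierstrassCurve.Affine

namespace Pool.Agent.NH7.Cub

/-- The Weierstrass curve `y ^ 2 = (x - p) (x - q) (x - r)`. -/
structure IsCub {F : Type*} [Field F] (W : Affine F) (p q r : F) : Prop where
  a1 : W.a₁ = 0
  a2 : W.a₂ = -(p + q + r)
  a3 : W.a₃ = 0
  a4 : W.a₄ = p * q + q * r + r * p
  a6 : W.a₆ = -(p * q * r)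
  two : (2 : F) ≠ 0
  pq : p ≠ q
  qr : q ≠ r
  rp : r ≠ p

section curve

variable {F : Type*} [Field F] {W : Affine F} {p q r : F}

theorem IsCub.rot (h : IsCub W p q r) : IsCub W q r p where
  a1 := h.a1
  a2 := by rw [h.a2]; ring
  a3 := h.a3
  a4 := by rw [h.a4]; ring
  a6 := by rw [h.a6]; ring
  two := h.two
  pq := h.qr
  qr := h.rp
  rp := h.pq

theorem IsCub.swap (h : IsCub W p q r) : IsCub W p r q where
  a1 := h.a1
  a2 := by rw [h.a2]; ring
  a3 := h.a3
  a4 := by rw [h.a4]; ring
  a6 := by rw [h.a6]; ring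
  two := h.two
  pq := h.rp.symm
  qr := h.qr.symm
  rp := h.pq.symm

theorem IsCub.equation (h : IsCub W p q r) {x y : F} :
    W.Equation x y ↔ y ^ 2 = (x - p) * (x - q) * (x - r) := by
  rw [W.equation_iff, h.a1, h.a2, h.a3, h.a4, h.a6]
  constructor <;> intro h' <;> linear_combination h'

theorem IsCub.nonsingular (h : IsCub W p q r) {x y : F} :
    W.Nonsingular x y ↔ y ^ 2 = (x - p) * (x - q) * (x - r) := by
  rw [W.nonsingular_iff, h.equation, h.a1, h.a2, h.a3, h.a4]
  refine ⟨fun h' => h'.1, fun h' => ⟨h', ?_⟩⟩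
  have n1 := sub_ne_zero.2 h.pq
  have n2 := sub_ne_zero.2 h.qr
  have n3 := sub_ne_zero.2 h.rp
  by_cases hy : y = 0
  · left
    subst hy
    have h0 : (x - p) * (x - q) * (x - r) = 0 := by rw [← h']; ring
    intro hd
    rcases mul_eq_zero.1 h0 with h1 | h1
    · rcases mul_eq_zero.1 h1 with h2 | h2
      · obtain rfl : x = p := by linear_combination h2
        have : (x - q) * (r - x) = 0 := by linear_combination hd
        rcases mul_eq_zero.1 this with h3 | h3
        · exact n1 h3
        · exact n3 h3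
      · obtain rfl : x = q := by linear_combination h2
        have : (p - x) * (x - r) = 0 := by linear_combination hd
        rcases mul_eq_zero.1 this with h3 | h3
        · exact n1 h3
        · exact n2 h3
    · obtain rfl : x = r := by linear_combination h1
      have : (q - x) * (x - p) = 0 := by linear_combination hd
      rcases mul_eq_zero.1 this with h3 | h3
      · exact n2 h3
      · exact n3 h3
  · right
    intro hd
    have : (2 : F) * y = 0 := by linear_combination hd
    rcases mul_eq_zero.1 this with h2 | h2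
    · exact h.two h2
    · exact hy h2

theorem IsCub.negY (h : IsCub W p q r) (x y : F) : W.negY x y = -y := by
  simp [WeierstrassCurve.Affine.negY, h.a1, h.a3]

theorem IsCub.Dp (h : IsCub W p q r) :
    3 * p ^ 2 + 2 * W.a₂ * p + W.a₄ = (p - q) * (p - r) := by
  rw [h.a2, h.a4]; ring

theorem IsCub.Dp_ne (h : IsCub W p q r) : 3 * p ^ 2 + 2 * W.a₂ * p + W.a₄ ≠ 0 := by
  rw [h.Dp]
  exact mul_ne_zero (sub_ne_zero.2 h.pq) (sub_ne_zero.2 h.rp.symm)

/-- The function attached to the root `e`. -/
noncomputable def rt (W : Affine F) (e : F) : W.Point → F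
  | .zero => 0
  | .some x y _ => ((x - e) ^ 2 - (3 * e ^ 2 + 2 * W.a₂ * e + W.a₄)) / (2 * y)

open scoped Classical in
/-- The sign at the root `e`. -/
noncomputable def sg (W : Affine F) (e : F) : W.Point → F
  | .zero => 1
  | .some x _ _ => if x = e then 1 else -1

/-- The first coordinate minus the root. -/
noncomputable def xm (W : Affine F) (e : F) : W.Point → F
  | .zero => 1
  | .some x _ _ => x - e

open scoped Classical in
/-- Representative of `x(Q) - e` modulo squares. -/
noncomputable def dl (W : Affine F) (e : F) : W.Point → F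
  | .zero => 1
  | .some x _ _ => if x = e then 3 * e ^ 2 + 2 * W.a₂ * e + W.a₄ else x - e

theorem sg_zero (e : F) : sg W e 0 = 1 := rfl

theorem sg_or (e : F) (T : W.Point) : sg W e T = 1 ∨ sg W e T = -1 := by
  rcases T with _ | ⟨x, y, hxy⟩
  · left; rfl
  · simp only [sg]; split_ifs <;> simp

theorem sg_ne (e : F) (T : W.Point) : sg W e T ≠ 0 := by
  rcases sg_or e T with h | h <;> rw [h] <;> simp

theorem sg_mul_self (e : F) (T : W.Point) : sg W e T * sg W e T = 1 := by
  rcases sg_or e T with h | h <;> rw [h] <;> ring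

theorem IsCub.root_of_tor (h : IsCub W p q r) {x y : F} (hP : W.Nonsingular x y) (hy : y = 0) :
    x = p ∨ x = q ∨ x = r := by
  have := h.nonsingular.1 hP
  rw [hy] at this
  have h0 : (x - p) * (x - q) * (x - r) = 0 := by rw [← this]; ring
  rcases mul_eq_zero.1 h0 with h1 | h1
  · rcases mul_eq_zero.1 h1 with h2 | h2
    · exact Or.inl (by linear_combination h2)
    · exact Or.inr (Or.inl (by linear_combination h2))
  · exact Or.inr (Or.inr (by linear_combination h1))

variable [DecidableEq F]

/-- Addition of the point of order two at the root `p`. -/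
theorem IsCub.add_tor (h : IsCub W p q r) {x y : F} (hP : W.Nonsingular x y) (hy : y ≠ 0)
    (ha : W.Nonsingular p 0) :
    x - p ≠ 0 ∧ ∃ hQ, Point.some x y hP + Point.some p 0 ha =
      Point.some (p + (p - q) * (p - r) / (x - p))
        (-((p - q) * (p - r) * y) / (x - p) ^ 2) hQ := by
  have hxa : x ≠ p := by
    rintro rfl
    apply hy
    have := h.nonsingular.1 hP
    rw [sub_self, zero_mul, zero_mul] at this
    exact pow_eq_zero_iff (two_ne_zero) |>.1 this
  have hxa' : x - p ≠ 0 := sub_ne_zero.2 hxa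
  refine ⟨hxa', ?_⟩
  rw [Point.add_of_X_ne hxa]
  have he := h.nonsingular.1 hP
  have h1 : W.addX x p (W.slope x p y 0) =
      p + (p - q) * (p - r) / (x - p) := by
    rw [slope_of_X_ne hxa, addX, h.a1, h.a2]
    field_simp
    linear_combination he
  have h2 : W.addY x p y (W.slope x p y 0) =
      -((p - q) * (p - r) * y) / (x - p) ^ 2 := by
    rw [addY, negAddY, h1, slope_of_X_ne hxa, h.negY]
    field_simp
    ring
  have hh : W.Nonsingular (p + (p - q) * (p - r) / (x - p))
      (-((p - q) * (p - r) * y) / (x - p) ^ 2) := by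
    rw [← h1, ← h2]
    exact nonsingular_add hP ha fun hxy => hxa hxy.1
  refine ⟨hh, ?_⟩
  simp only [h1, h2]

theorem IsCub.add_self_eq_zero_iff (h : IsCub W p q r) {x y : F} (hP : W.Nonsingular x y) :
    Point.some x y hP + Point.some x y hP = 0 ↔ y = 0 := by
  constructor
  · intro h0
    by_contra hy
    have : y ≠ W.negY x y := by
      rw [h.negY]
      intro h1
      have : (2 : F) * y = 0 := by linear_combination h1
      rcases mul_eq_zero.1 this with h2 | h2
      · exact h.two h2
      · exact hy h2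
    rw [Point.add_self_of_Y_ne this] at h0
    exact Point.some_ne_zero _ h0
  · rintro rfl
    exact Point.add_self_of_Y_eq (by rw [h.negY]; ring)

/-- Translation by the point at the root `p`: the functions at `p`, `q`. -/
theorem IsCub.translate_p (h : IsCub W p q r) {x y : F} (hP : W.Nonsingular x y) (hy : y ≠ 0)
    (ha : W.Nonsingular p 0) :
    rt W p (Point.some x y hP + Point.some p 0 ha) = rt W p (Point.some x y hP) ∧
    rt W q (Point.some x y hP + Point.some p 0 ha) = - rt W q (Point.some x y hP) := by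
  obtain ⟨hxa, hQ, hadd⟩ := h.add_tor hP hy ha
  rw [hadd]
  have h2 := h.two
  have n1 := sub_ne_zero.2 h.pq
  have n2 := sub_ne_zero.2 h.rp.symm
  simp only [rt]
  rw [h.Dp, h.rot.Dp]
  constructor
  · field_simp
    ring
  · field_simp
    ring

/-- Doubling. -/
theorem IsCub.double (h : IsCub W p q r) {P : W.Point} (hP : P + P ≠ 0) :
    ∃ X Y hQ, P + P = Point.some X Y hQ ∧ rt W p P ^ 2 = X - p ∧ rt W q P ^ 2 = X - q ∧
      rt W r P ^ 2 = X - r ∧ rt W p P * rt W q P * rt W r P = Y := by
  rcases P with _ | ⟨x, y, hxy⟩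
  · exact absurd (add_zero (0 : W.Point)) hP
  have hy : y ≠ 0 := fun h0 => hP ((h.add_self_eq_zero_iff hxy).2 h0)
  have h2y : (2 : F) * y ≠ 0 := mul_ne_zero h.two hy
  have h2 := h.two
  have hne : y ≠ W.negY x y := by
    rw [h.negY]
    intro h1
    apply h2y
    linear_combination h1
  have hs : W.slope x x y y = (3 * x ^ 2 - 2 * (p + q + r) * x + (p * q + q * r + r * p)) / (2 * y)
      := by
    rw [slope_of_Y_ne rfl hne, h.negY, h.a1, h.a2, h.a4]
    congr 1 <;> ring
  have he := h.nonsingular.1 hxy
  have key : ∀ e : F, W.addX x x (W.slope x x y y) - e = ((3 * x ^ 2 - 2 * (p + q + r) * x +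
      (p * q + q * r + r * p)) ^ 2 - 4 * y ^ 2 * (2 * x + e - (p + q + r))) / (2 * y) ^ 2 := by
    intro e
    rw [hs, addX, h.a1, h.a2]
    field_simp
    ring
  refine ⟨_, _, _, Point.add_self_of_Y_ne hne, ?_, ?_, ?_, ?_⟩
  · rw [key]
    simp only [rt]
    rw [h.Dp, div_pow]
    congr 1
    rw [he]
    ring
  · rw [key]
    simp only [rt]
    rw [h.rot.Dp, div_pow]
    congr 1
    rw [he]
    ring
  · rw [key]
    simp only [rt]
    rw [h.rot.rot.Dp, div_pow]
    congr 1
    rw [he]
    ring
  · have hX := key 0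
    rw [sub_zero] at hX
    rw [addY, negAddY, hX, h.negY, hs]
    simp only [rt]
    rw [h.Dp, h.rot.Dp, h.rot.rot.Dp]
    rw [div_mul_div_comm, div_mul_div_comm]
    rw [show -((3 * x ^ 2 - 2 * (p + q + r) * x + (p * q + q * r + r * p)) / (2 * y) *
      (((3 * x ^ 2 - 2 * (p + q + r) * x + (p * q + q * r + r * p)) ^ 2 -
        4 * y ^ 2 * (2 * x + 0 - (p + q + r))) / (2 * y) ^ 2 - x) + y) =
      -((3 * x ^ 2 - 2 * (p + q + r) * x + (p * q + q * r + r * p)) *
      (((3 * x ^ 2 - 2 * (p + q + r) * x + (p * q + q * r + r * p)) ^ 2 -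
        4 * y ^ 2 * (2 * x + 0 - (p + q + r))) - x * (4 * y ^ 2)) + 8 * (y ^ 2) ^ 2) /
      (2 * y * (2 * y) * (2 * y)) by field_simp; ring]
    congr 1
    rw [he]
    ring

/-- Halving. -/
theorem IsCub.halve (h : IsCub W p q r) {X Y : F} (hQ : W.Nonsingular X Y) {u v w : F}
    (hu : u ^ 2 = X - p) (hv : v ^ 2 = X - q) (hw : w ^ 2 = X - r) :
    ∃ P : W.Point, P + P = Point.some X Y hQ := by
  wlog hY : Y = u * v * w generalizing w with H
  · apply H (w := -w) (by rw [neg_sq, hw])
    have h1 : Y ^ 2 = (u * v * w) ^ 2 := by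
      rw [h.nonsingular.1 hQ, mul_pow, mul_pow, hu, hv, hw]
    rcases sq_eq_sq_iff_eq_or_eq_neg.1 h1 with h2 | h2
    · exact absurd h2 hY
    · rw [h2]; ring
  have huv : u + v ≠ 0 := by
    intro h0
    have : u ^ 2 = v ^ 2 := by rw [show u = -v by linear_combination h0]; ring
    rw [hu, hv] at this
    exact h.pq (by linear_combination -this)
  have huw : u + w ≠ 0 := by
    intro h0
    have : u ^ 2 = w ^ 2 := by rw [show u = -w by linear_combination h0]; ring
    rw [hu, hw] at this
    exact h.rp (by linear_combination this)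
  have hvw : v + w ≠ 0 := by
    intro h0
    have : v ^ 2 = w ^ 2 := by rw [show v = -w by linear_combination h0]; ring
    rw [hv, hw] at this
    exact h.qr (by linear_combination -this)
  have hP : W.Nonsingular (X + u * v + u * w + v * w) ((u + v) * (u + w) * (v + w)) := by
    rw [h.nonsingular]
    have e1 : X + u * v + u * w + v * w - p = (u + v) * (u + w) := by linear_combination -hu
    have e2 : X + u * v + u * w + v * w - q = (v + u) * (v + w) := by
      linear_combination -hv
    have e3 : X + u * v + u * w + v * w - r = (w + u) * (w + v) := by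
      linear_combination -hw
    rw [e2, e3, e1]; ring
  have hne : (u + v) * (u + w) * (v + w) ≠ 0 := mul_ne_zero (mul_ne_zero huv huw) hvw
  have hne2 : Point.some _ _ hP + Point.some _ _ hP ≠ 0 := fun h0 =>
    hne ((h.add_self_eq_zero_iff hP).1 h0)
  obtain ⟨X', Y', hQ', h1, h2, h3, h4, h5⟩ := h.double hne2
  refine ⟨_, h1.trans ?_⟩
  have h2' := h.two
  have epq : p - q = v ^ 2 - u ^ 2 := by rw [hu, hv]; ring
  have epr : p - r = w ^ 2 - u ^ 2 := by rw [hu, hw]; ring
  have eqr : q - r = w ^ 2 - v ^ 2 := by rw [hv, hw]; ring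
  have e0 : rt W p (Point.some _ _ hP) = u := by
    simp only [rt]
    rw [div_eq_iff (mul_ne_zero h.two hne), h.Dp, epq, epr]
    have e1 : X + u * v + u * w + v * w - p = (u + v) * (u + w) := by linear_combination -hu
    rw [e1]
    ring
  have e1 : rt W q (Point.some _ _ hP) = v := by
    simp only [rt]
    rw [div_eq_iff (mul_ne_zero h.two hne), h.rot.Dp, show q - p = -(p - q) by ring, epq, eqr]
    have e2 : X + u * v + u * w + v * w - q = (v + u) * (v + w) := by
      linear_combination -hv
    rw [e2]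
    ring
  have e2 : rt W r (Point.some _ _ hP) = w := by
    simp only [rt]
    rw [div_eq_iff (mul_ne_zero h.two hne), h.rot.rot.Dp, show r - p = -(p - r) by ring,
      show r - q = -(q - r) by ring, epr, eqr]
    have e3 : X + u * v + u * w + v * w - r = (w + u) * (w + v) := by
      linear_combination -hw
    rw [e3]
    ring
  rw [e0] at h2
  rw [e0, e1, e2, ← hY] at h5
  have hX : X' = X := by linear_combination -h2 + hu
  subst hX
  subst h5
  rfl

end curve

end Pool.Agent.NH7.Cub
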