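import Pool.Agent.NH7.Cub.Crv

/-!
Signs of the points of order two and square roots of the coordinates of a double.
-/

set_option autoImplicit false
set_option linter.all false

open WeierstrassCurve WeierstrassCurve.Affine
open scoped Classical

namespace Pool.Agent.NH7.Cub

section curve

variable {F : Type*} [Field F] {W : Affine F} {p q r : F}

theorem IsCub.nsP (h : IsCub W p q r) : W.Nonsingular p 0 := h.nonsingular.2 (by ring)

theorem IsCub.tor_cases (h : IsCub W p q r) {T : W.Point} (hT : T + T = 0) :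
    T = 0 ∨ T = Point.some p 0 h.nsP ∨ T = Point.some q 0 h.rot.nsP ∨
      T = Point.some r 0 h.rot.rot.nsP := by
  rcases T with _ | ⟨a, b, hab⟩
  · left; rfl
  · right
    obtain rfl : b = 0 := (h.add_self_eq_zero_iff hab).1 hT
    rcases h.root_of_tor hab rfl with rfl | rfl | rfl
    · left; rfl
    · right; left; rfl
    · right; right; rfl

theorem sg_some (e : F) {x y : F} (hxy : W.Nonsingular x y) :
    sg W e (Point.some x y hxy) = if x = e then 1 else -1 := rfl

theorem sg_self {x y : F} (hxy : W.Nonsingular x y) :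
    sg W x (Point.some x y hxy) = 1 := by
  rw [sg_some, if_pos rfl]

theorem sg_of_ne {e x y : F} (hxy : W.Nonsingular x y) (h : x ≠ e) :
    sg W e (Point.some x y hxy) = -1 := by
  rw [sg_some, if_neg h]

theorem IsCub.tor_add (h : IsCub W p q r) :
    Point.some p 0 h.nsP + Point.some q 0 h.rot.nsP = Point.some r 0 h.rot.rot.nsP := by
  rw [Point.add_of_X_ne h.pq]
  have h1 : W.addX p q (W.slope p q 0 0) = r := by
    rw [slope_of_X_ne h.pq, addX, h.a1, h.a2]
    simp
    ring
  have h2 : W.addY p q 0 (W.slope p q 0 0) = 0 := by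
    rw [addY, negAddY, h1, slope_of_X_ne h.pq, h.negY]
    simp
  simp only [h1, h2]

theorem IsCub.sg_add (h : IsCub W p q r) {S T : W.Point} (hS : S + S = 0) (hT : T + T = 0) :
    sg W p (S + T) = sg W p S * sg W p T := by
  have e11 : ∀ U : W.Point, sg W p (U + U) = 1 ∨ U + U ≠ 0 := by
    intro U
    by_cases hU : U + U = 0
    · left; rw [hU]; rfl
    · right; exact hU
  have s1 : sg W p (Point.some p 0 h.nsP) = 1 := sg_self _
  have s2 : sg W p (Point.some q 0 h.rot.nsP) = -1 := sg_of_ne _ h.pq.symm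
  have s3 : sg W p (Point.some r 0 h.rot.rot.nsP) = -1 := sg_of_ne _ h.rp
  have t12 := h.tor_add
  have t23 := h.rot.tor_add
  have t31 := h.rot.rot.tor_add
  have t21 := t12; rw [add_comm] at t21
  have t32 := t23; rw [add_comm] at t32
  have t13 := t31; rw [add_comm] at t13
  rcases h.tor_cases hS with c | c | c | c
  · rw [c, zero_add, sg_zero, one_mul]
  · rcases h.tor_cases hT with d | d | d | d
    · rw [d, add_zero, sg_zero, mul_one]
    · rw [d, ← c, hS, sg_zero, c, s1, mul_one]
    · rw [d, c, t12, s1, s2, s3]; ring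
    · rw [d, c, t13, s1, s2, s3]; ring
  · rcases h.tor_cases hT with d | d | d | d
    · rw [d, add_zero, sg_zero, mul_one]
    · rw [d, c, t21, s1, s2, s3]; ring
    · rw [d, ← c, hS, sg_zero, c, s2]; ring
    · rw [d, c, t23, s1, s2, s3]; ring
  · rcases h.tor_cases hT with d | d | d | d
    · rw [d, add_zero, sg_zero, mul_one]
    · rw [d, c, t31, s1, s2, s3]; ring
    · rw [d, c, t32, s1, s2, s3]; ring
    · rw [d, ← c, hS, sg_zero, c, s3]; ring

theorem IsCub.sg_prod (h : IsCub W p q r) {T : W.Point} (hT : T + T = 0) :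
    sg W p T * sg W q T * sg W r T = 1 := by
  rcases h.tor_cases hT with d | d | d | d
  · rw [d]; simp [sg_zero]
  · rw [d, sg_self, sg_of_ne _ h.pq, sg_of_ne _ h.rp.symm]; ring
  · rw [d, sg_self, sg_of_ne _ h.pq.symm, sg_of_ne _ h.qr]; ring
  · rw [d, sg_self, sg_of_ne _ h.rp, sg_of_ne _ h.qr.symm]; ring

theorem IsCub.tor_ext (h : IsCub W p q r) {S T : W.Point} (hS : S + S = 0) (hT : T + T = 0)
    (e0 : sg W p S = sg W p T) (e1 : sg W q S = sg W q T) : S = T := by
  have h11 : (1 : F) ≠ -1 := by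
    intro h'
    exact h.two (by linear_combination h')
  have hU : (S + T) + (S + T) = 0 := by rw [add_add_add_comm, hS, hT, add_zero]
  have f0 := h.sg_add hS hT
  have f1 := h.rot.sg_add hS hT
  rw [e0, sg_mul_self] at f0
  rw [e1, sg_mul_self] at f1
  have key : S + T = 0 := by
    rcases h.tor_cases hU with d | d | d | d
    · exact d
    · rw [d, sg_of_ne _ h.pq] at f1
      exact absurd f1.symm h11
    · rw [d, sg_of_ne _ h.pq.symm] at f0
      exact absurd f0.symm h11
    · rw [d, sg_of_ne _ h.rp] at f0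
      exact absurd f0.symm h11
  have : S = S + (T + T) := by rw [hT, add_zero]
  rw [this, ← add_assoc, key, zero_add]

theorem IsCub.tor_exists (h : IsCub W p q r) {x y z : F} (hx : x = 1 ∨ x = -1)
    (hy : y = 1 ∨ y = -1) (hz : z = 1 ∨ z = -1) (hxyz : x * y * z = 1) :
    ∃ T : W.Point, T + T = 0 ∧ sg W p T = x ∧ sg W q T = y ∧ sg W r T = z := by
  have h11 : (1 : F) ≠ -1 := by
    intro h'
    exact h.two (by linear_combination h')
  rcases hx with rfl | rfl <;> rcases hy with rfl | rfl <;> rcases hz with rfl | rfl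
  · exact ⟨0, add_zero _, rfl, rfl, rfl⟩
  · exact absurd (by linear_combination -hxyz) h11
  · exact absurd (by linear_combination -hxyz) h11
  · exact ⟨Point.some p 0 h.nsP, (h.add_self_eq_zero_iff _).2 rfl, sg_self _, sg_of_ne _ h.pq,
      sg_of_ne _ h.rp.symm⟩
  · exact absurd (by linear_combination -hxyz) h11
  · exact ⟨Point.some q 0 h.rot.nsP, (h.add_self_eq_zero_iff _).2 rfl, sg_of_ne _ h.pq.symm,
      sg_self _, sg_of_ne _ h.qr⟩
  · exact ⟨Point.some r 0 h.rot.rot.nsP, (h.add_self_eq_zero_iff _).2 rfl, sg_of_ne _ h.rp,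
      sg_of_ne _ h.qr.symm, sg_self _⟩
  · exact absurd (by linear_combination -hxyz) h11

/-- The square root of `dl`. -/
noncomputable def hh (W : Affine F) (e : F) (P : W.Point) : F :=
  if P + P = 0 then sg W e P else if rt W e P = 0 then xm W e P else rt W e P

theorem IsCub.hh_sq (h : IsCub W p q r) (P : W.Point) : hh W p P ^ 2 = dl W p (P + P) := by
  unfold hh
  split_ifs with c1 c2
  · rw [c1, pow_two, sg_mul_self]; rfl
  · obtain ⟨X, Y, hQ, e1, e2, e3, e4, -⟩ := h.double c1
    rcases P with _ | ⟨x, y, hxy⟩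
    · exact absurd (add_zero (0 : W.Point)) c1
    have hy : y ≠ 0 := fun h0 => c1 ((h.add_self_eq_zero_iff hxy).2 h0)
    rw [e1]
    rw [c2] at e2
    have hX : X = p := by linear_combination -e2
    simp only [xm, dl, hX, if_true]
    have c2' : ((x - p) ^ 2 - (3 * p ^ 2 + 2 * W.a₂ * p + W.a₄)) / (2 * y) = 0 := c2
    rw [div_eq_zero_iff] at c2'
    rcases c2' with c3 | c3
    · linear_combination c3
    · exact absurd c3 (mul_ne_zero h.two hy)
  · obtain ⟨X, Y, hQ, e1, e2, e3, e4, -⟩ := h.double c1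
    rw [e1]
    have hX : X ≠ p := by
      intro hX
      apply c2
      rw [hX, sub_self] at e2
      exact pow_eq_zero_iff (two_ne_zero) |>.1 e2
    simp only [dl, hX, if_false, e2]

theorem IsCub.dl_ne (h : IsCub W p q r) (Q : W.Point) : dl W p Q ≠ 0 := by
  rcases Q with _ | ⟨x, y, hxy⟩
  · simp [dl]
  · simp only [dl]
    split_ifs with c
    · exact h.Dp_ne
    · exact sub_ne_zero.2 c

theorem IsCub.hh_ne (h : IsCub W p q r) (P : W.Point) : hh W p P ≠ 0 := by
  intro h'
  apply h.dl_ne (P + P)
  rw [← h.hh_sq, h']; ring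

theorem IsCub.hh_translate (h : IsCub W p q r) {P T : W.Point} (hT : T + T = 0) :
    hh W p (P + T) = sg W p T * hh W p P := by
  by_cases hP : P + P = 0
  · have h2 : (P + T) + (P + T) = 0 := by rw [add_add_add_comm, hP, hT, add_zero]
    unfold hh
    rw [if_pos h2, if_pos hP, h.sg_add hP hT, mul_comm]
  · have h2 : (P + T) + (P + T) = P + P := by rw [add_add_add_comm, hT, add_zero]
    rcases P with _ | ⟨x, y, hxy⟩
    · exact absurd (add_zero (0 : W.Point)) hP
    have hy : y ≠ 0 := fun h0 => hP ((h.add_self_eq_zero_iff hxy).2 h0)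
    have h2y : (2 : F) * y ≠ 0 := mul_ne_zero h.two hy
    -- the value of `rt`
    have rtT : rt W p (Point.some x y hxy + T) = sg W p T * rt W p (Point.some x y hxy) := by
      rcases h.tor_cases hT with d | d | d | d
      · rw [d, add_zero, sg_zero, one_mul]
      · rw [d, (h.translate_p hxy hy _).1, sg_self, one_mul]
      · rw [d, (h.rot.rot.rot.swap.rot.rot.translate_p hxy hy _).2, sg_of_ne _ h.pq.symm]
        ring
      · rw [d, (h.rot.rot.translate_p hxy hy _).2, sg_of_ne _ h.rp]
        ring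
    have e0 : sg W p T * rt W p (Point.some x y hxy) = 0 ↔ rt W p (Point.some x y hxy) = 0 := by
      simp [sg_ne p T]
    unfold hh
    rw [h2, if_neg hP, if_neg hP, rtT]
    simp only [e0]
    split_ifs with c
    · have c' : ((x - p) ^ 2 - (3 * p ^ 2 + 2 * W.a₂ * p + W.a₄)) / (2 * y) = 0 := c
      rw [div_eq_zero_iff] at c'
      have c3 : (x - p) ^ 2 = (p - q) * (p - r) := by
        rw [← h.Dp]
        rcases c' with c4 | c4
        · linear_combination c4
        · exact absurd c4 h2y
      rcases h.tor_cases hT with d | d | d | d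
      · rw [d, add_zero, sg_zero, one_mul]
      · obtain ⟨hxa, hQ, hadd⟩ := h.add_tor hxy hy h.nsP
        rw [d, hadd, sg_self, one_mul]
        show p + (p - q) * (p - r) / (x - p) - p = x - p
        rw [← c3]
        field_simp
        ring
      · obtain ⟨hxa, hQ, hadd⟩ := h.rot.add_tor hxy hy h.rot.nsP
        rw [d, hadd, sg_of_ne _ h.pq.symm]
        show q + (q - r) * (q - p) / (x - q) - p = -1 * (x - p)
        field_simp
        linear_combination c3
      · obtain ⟨hxa, hQ, hadd⟩ := h.rot.rot.add_tor hxy hy h.rot.rot.nsP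
        rw [d, hadd, sg_of_ne _ h.rp]
        show r + (r - p) * (r - q) / (x - r) - p = -1 * (x - p)
        field_simp
        linear_combination c3
    · rfl

theorem IsCub.halve_sep [IsSepClosed F] (h : IsCub W p q r) (Q : W.Point) :
    ∃ P : W.Point, P + P = Q := by
  rcases Q with _ | ⟨x, y, hxy⟩
  · exact ⟨0, by rw [add_zero, Point.zero_def]⟩
  · haveI : NeZero ((2 : ℕ) : F) := ⟨by exact_mod_cast h.two⟩
    obtain ⟨u, hu⟩ := IsSepClosed.exists_pow_nat_eq (x - p) 2
    obtain ⟨v, hv⟩ := IsSepClosed.exists_pow_nat_eq (x - q) 2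
    obtain ⟨w, hw⟩ := IsSepClosed.exists_pow_nat_eq (x - r) 2
    exact h.halve hxy hu hv hw

end curve

end Pool.Agent.NH7.Cub
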