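import Pool.Agent.NH7.Cub.Nrm
import Pool.Agent.R431.SG.Cnt

/-!
Values of a cubic polynomial over a finite field.
-/

set_option autoImplicit false
set_option linter.all false

open scoped Classical
open Polynomial Finset

namespace Pool.Agent.NH7.Cub

section count

variable {E : Type} [Field E] [Fintype E]

/-- The map given by the cubic polynomial. -/
def cv3 (a b c : E) (x : E) : E := x ^ 3 + a * x ^ 2 + b * x + c

theorem fib_le (a b c : E) (v : E) : (univ.filter fun x => cv3 a b c x = v).card ≤ 3 := by
  have h1 : (univ.filter fun x => cv3 a b c x = v) ⊆ (cub a b (c - v)).roots.toFinset := by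
    intro x hx
    rw [mem_filter] at hx
    rw [Multiset.mem_toFinset, mem_roots (cub_monic _ _ _).ne_zero]
    have := hx.2
    simp only [cv3] at this
    simp only [cub, IsRoot.def, eval_add, eval_mul, eval_pow, eval_C, eval_X]
    linear_combination this
  refine (card_le_card h1).trans ((Multiset.toFinset_card_le _).trans ((card_roots' _).trans ?_))
  rw [cub_natDegree]

/-- Pairs of different elements with the same value. -/
noncomputable def prs (a b c : E) : Finset (E × E) :=
  univ.filter fun q => q.1 ≠ q.2 ∧ cv3 a b c q.1 = cv3 a b c q.2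

theorem prs_le (a b c : E) :
    (prs a b c).card + 3 * (univ.image (cv3 a b c)).card ≤ 3 * Fintype.card E := by
  have h1 : (univ : Finset E).card = ∑ v ∈ univ.image (cv3 a b c),
      (univ.filter fun x => cv3 a b c x = v).card := by
    apply card_eq_sum_card_image
  have h2 : (prs a b c).card = ∑ v ∈ univ.image (cv3 a b c),
      ((prs a b c).filter fun q => cv3 a b c q.1 = v).card := by
    apply card_eq_sum_card_fiberwise
    intro q _
    rw [mem_coe, mem_image]
    exact ⟨q.1, mem_univ _, rfl⟩
  have h3 : ∀ v ∈ univ.image (cv3 a b c),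
      ((prs a b c).filter fun q => cv3 a b c q.1 = v).card + 3 ≤
        3 * (univ.filter fun x => cv3 a b c x = v).card := by
    intro v hv
    have e1 : ((prs a b c).filter fun q => cv3 a b c q.1 = v) =
        (univ.filter fun x => cv3 a b c x = v).offDiag := by
      ext q
      simp only [prs, mem_filter, mem_univ, true_and, mem_offDiag]
      constructor
      · rintro ⟨⟨h1, h2⟩, h3⟩
        exact ⟨h3, by rw [← h2]; exact h3, h1⟩
      · rintro ⟨h1, h2, h3⟩
        exact ⟨⟨h3, by rw [h1, h2]⟩, h1⟩
    rw [e1, offDiag_card]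
    have e2 := fib_le a b c v
    have e3 : 1 ≤ (univ.filter fun x => cv3 a b c x = v).card := by
      rw [mem_image] at hv
      obtain ⟨x, _, hx⟩ := hv
      exact card_pos.2 ⟨x, mem_filter.2 ⟨mem_univ _, hx⟩⟩
    generalize (univ.filter fun x => cv3 a b c x = v).card = r at e2 e3 ⊢
    interval_cases r <;> norm_num
  have h4 := Finset.sum_le_sum h3
  rw [Finset.sum_add_distrib, ← h2, ← Finset.mul_sum, ← h1, sum_const, smul_eq_mul, card_univ] at h4
  omega

/-- There are many such pairs. -/
theorem prs_ge (h2 : (2 : E) ≠ 0) (h3 : (3 : E) ≠ 0) (hodd : Fintype.card E % 2 = 1) (a b c : E)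
    (hab : a ^ 2 ≠ 3 * b) : Fintype.card E ≤ (prs a b c).card + 4 := by
  set κ : E := 4 * (a ^ 2 - 3 * b) with hκ
  have h4 : (4 : E) ≠ 0 := by
    have : (4 : E) = 2 * 2 := by norm_num
    rw [this]; exact mul_ne_zero h2 h2
  have hκ0 : κ ≠ 0 := mul_ne_zero h4 (sub_ne_zero.2 hab)
  obtain ⟨U₀, w₀, hUw⟩ := FiniteField.exists_root_sum_quadratic (R := E)
    (f := X ^ 2 - C κ) (g := C 3 * X ^ 2)
    (degree_X_pow_sub_C (by norm_num) _) (degree_C_mul_X_pow 2 h3) hodd
  have hUw' : U₀ ^ 2 + 3 * w₀ ^ 2 = κ := by
    simp only [eval_sub, eval_pow, eval_X, eval_C, eval_mul] at hUw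
    linear_combination hUw
  -- the parametrisation
  let den : E → E := fun t => 1 + 3 * t ^ 2
  let al : E → E := fun t => (1 - 3 * t ^ 2) / den t
  let be : E → E := fun t => 2 * t / den t
  let U : E → E := fun t => U₀ * al t - 3 * w₀ * be t
  let w : E → E := fun t => U₀ * be t + w₀ * al t
  let T : Finset E := univ.filter fun t => den t ≠ 0 ∧ w t ≠ 0
  let φ : E → E × E := fun t =>
    (((U t - 2 * a) / 3 + w t) / 2, ((U t - 2 * a) / 3 - w t) / 2)
  have hab1 : ∀ t ∈ T, al t ^ 2 + 3 * be t ^ 2 = 1 := by
    intro t ht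
    rw [mem_filter] at ht
    have hd : den t ≠ 0 := ht.2.1
    have : (al t ^ 2 + 3 * be t ^ 2) = ((1 - 3 * t ^ 2) ^ 2 + 3 * (2 * t) ^ 2) / den t ^ 2 := by
      simp only [al, be]
      field_simp
    rw [this]
    have e : (1 - 3 * t ^ 2) ^ 2 + 3 * (2 * t) ^ 2 = den t ^ 2 := by simp only [den]; ring
    rw [e, div_self (pow_ne_zero 2 hd)]
  have hUw1 : ∀ t ∈ T, U t ^ 2 + 3 * w t ^ 2 = κ := by
    intro t ht
    have h5 := hab1 t ht
    have : U t ^ 2 + 3 * w t ^ 2 = (U₀ ^ 2 + 3 * w₀ ^ 2) * (al t ^ 2 + 3 * be t ^ 2) := by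
      simp only [U, w]; ring
    rw [this, h5, hUw', mul_one]
  have hmaps : ∀ t ∈ T, φ t ∈ prs a b c := by
    intro t ht
    have h5 := hUw1 t ht
    have hw0 : w t ≠ 0 := (mem_filter.1 ht).2.2
    rw [prs, mem_filter]
    refine ⟨mem_univ _, ?_, ?_⟩
    · intro h6
      apply hw0
      have h7 : (φ t).1 - (φ t).2 = w t := by
        simp only [φ]; field_simp; ring
      rw [← h7, h6, sub_self]
    · have h8 : ((φ t).1) ^ 2 + (φ t).1 * (φ t).2 + (φ t).2 ^ 2 + a * ((φ t).1 + (φ t).2) + b = 0 := by
        have h9 : 12 * (((φ t).1) ^ 2 + (φ t).1 * (φ t).2 + (φ t).2 ^ 2 +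
            a * ((φ t).1 + (φ t).2) + b) = U t ^ 2 + 3 * w t ^ 2 - κ := by
          simp only [φ, hκ]
          field_simp
          ring
        rw [h5, sub_self] at h9
        have h12 : (12 : E) ≠ 0 := by
          have : (12 : E) = 4 * 3 := by norm_num
          rw [this]; exact mul_ne_zero h4 h3
        exact (mul_eq_zero.1 h9).resolve_left h12
      simp only [cv3]
      linear_combination ((φ t).1 - (φ t).2) * h8
  have hinj : Set.InjOn φ T := by
    intro t ht t' ht' h
    have hd : den t ≠ 0 := (mem_filter.1 ht).2.1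
    have hd' : den t' ≠ 0 := (mem_filter.1 ht').2.1
    have e1 : w t = w t' := by
      have i1 : (φ t).1 - (φ t).2 = w t := by simp only [φ]; field_simp; ring
      have i2 : (φ t').1 - (φ t').2 = w t' := by simp only [φ]; field_simp; ring
      rw [← i1, ← i2, h]
    have e2 : U t = U t' := by
      have i1 : 3 * ((φ t).1 + (φ t).2) + 2 * a = U t := by simp only [φ]; field_simp; ring
      have i2 : 3 * ((φ t').1 + (φ t').2) + 2 * a = U t' := by simp only [φ]; field_simp; ring
      rw [← i1, ← i2, h]
    have e3 : al t = al t' := by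
      have i1 : κ * al t = U t * U₀ + 3 * w t * w₀ := by simp only [U, w, ← hUw']; ring
      have i2 : κ * al t' = U t' * U₀ + 3 * w t' * w₀ := by simp only [U, w, ← hUw']; ring
      apply mul_left_cancel₀ hκ0
      rw [i1, i2, e1, e2]
    have e4 : be t = be t' := by
      have i1 : κ * be t = w t * U₀ - U t * w₀ := by simp only [U, w, ← hUw']; ring
      have i2 : κ * be t' = w t' * U₀ - U t' * w₀ := by simp only [U, w, ← hUw']; ring
      apply mul_left_cancel₀ hκ0
      rw [i1, i2, e1, e2]
    have f1 : (1 + al t) * den t = 2 := by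
      simp only [al]
      rw [add_mul, div_mul_cancel₀ _ hd]
      simp only [den]; ring
    have f2 : (1 + al t') * den t' = 2 := by
      simp only [al]
      rw [add_mul, div_mul_cancel₀ _ hd']
      simp only [den]; ring
    have f3 : t * (1 + al t) = be t := by
      apply mul_right_cancel₀ hd
      rw [mul_assoc, f1]
      simp only [be]
      rw [div_mul_cancel₀ _ hd]
      ring
    have f4 : t' * (1 + al t') = be t' := by
      apply mul_right_cancel₀ hd'
      rw [mul_assoc, f2]
      simp only [be]
      rw [div_mul_cancel₀ _ hd']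
      ring
    have f5 : (1 + al t) ≠ 0 := by
      intro h0
      rw [h0, zero_mul] at f1
      exact h2 f1.symm
    apply mul_right_cancel₀ f5
    rw [f3, e4, ← f4, e3]
  have hcard : T.card ≤ (prs a b c).card := card_le_card_of_injOn φ hmaps hinj
  -- the exceptional parameters
  set P₁ : E[X] := C 3 * X ^ 2 + 1 with hP1
  set P₂ : E[X] := C (-3 * w₀) * X ^ 2 + C (2 * U₀) * X + C w₀ with hP2
  have hP10 : P₁ ≠ 0 := by
    intro h0
    have := congrArg (fun f => coeff f 0) h0
    simp [hP1, coeff_one] at this
  have hP20 : P₂ ≠ 0 := by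
    intro h0
    have i0 := congrArg (fun f => coeff f 0) h0
    have i1 := congrArg (fun f => coeff f 1) h0
    simp only [hP2, coeff_add, coeff_C_mul, coeff_X_pow, coeff_X, coeff_C, coeff_zero] at i0 i1
    norm_num at i0 i1
    have hU : U₀ = 0 := i1.resolve_left h2
    apply hκ0
    rw [← hUw', i0, hU]; ring
  have hd1 : P₁.natDegree ≤ 2 := by
    rw [hP1]; compute_degree
  have hd2 : P₂.natDegree ≤ 2 := by
    rw [hP2]; compute_degree
  have hcompl : (univ \ T).card ≤ 4 := by
    have hsub : univ \ T ⊆ P₁.roots.toFinset ∪ P₂.roots.toFinset := by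
      intro t ht
      rw [mem_sdiff] at ht
      have ht2 : ¬ (den t ≠ 0 ∧ w t ≠ 0) := fun h => ht.2 (mem_filter.2 ⟨mem_univ _, h⟩)
      rw [mem_union, Multiset.mem_toFinset, Multiset.mem_toFinset, mem_roots hP10, mem_roots hP20]
      by_cases hd : den t = 0
      · left
        simp only [hP1, IsRoot.def, eval_add, eval_mul, eval_pow, eval_C, eval_X, eval_one]
        simp only [den] at hd
        linear_combination hd
      · right
        have hw : w t = 0 := by
          by_contra hw
          exact ht2 ⟨hd, hw⟩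
        have h6 : w t * den t = U₀ * (2 * t) + w₀ * (1 - 3 * t ^ 2) := by
          simp only [w, al, be]
          field_simp
        rw [hw, zero_mul] at h6
        simp only [hP2, IsRoot.def, eval_add, eval_mul, eval_pow, eval_C, eval_X]
        linear_combination -h6
    refine (card_le_card hsub).trans ((card_union_le _ _).trans ?_)
    have j1 : P₁.roots.toFinset.card ≤ 2 :=
      (Multiset.toFinset_card_le _).trans ((card_roots' _).trans hd1)
    have j2 : P₂.roots.toFinset.card ≤ 2 :=
      (Multiset.toFinset_card_le _).trans ((card_roots' _).trans hd2)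
    omega
  have h7 : (univ \ T).card + T.card = Fintype.card E := by
    rw [card_sdiff_add_card_eq_card (subset_univ _), card_univ]
  omega

/-- Many elements are not values of the cubic. -/
theorem nonval_ge (h2 : (2 : E) ≠ 0) (h3 : (3 : E) ≠ 0) (hodd : Fintype.card E % 2 = 1) (a b c : E)
    (hab : a ^ 2 ≠ 3 * b) :
    Fintype.card E ≤ 3 * (univ.filter fun x => ∀ y, cv3 a b c y ≠ x).card + 4 := by
  have h4 := prs_le a b c
  have h5 := prs_ge h2 h3 hodd a b c hab
  have h6 : (univ.filter fun x => ∀ y, cv3 a b c y ≠ x) = univ \ univ.image (cv3 a b c) := by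
    ext x
    simp only [mem_filter, mem_univ, true_and, mem_sdiff, mem_image, not_exists]
  have h7 : (univ \ univ.image (cv3 a b c)).card + (univ.image (cv3 a b c)).card =
      Fintype.card E := by
    rw [card_sdiff_add_card_eq_card (subset_univ _), card_univ]
  rw [h6]
  omega

end count

end Pool.Agent.NH7.Cub
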