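import Pool.Agent.NH7.Cub.Den1
import Pool.Agent.R431.SG.Dens

/-!
Many polynomials over a finite prime field remain irreducible after composition with a cubic
polynomial; lifting to a number field.
-/

set_option autoImplicit false
set_option linter.all false

open scoped Classical
open Polynomial Finset

namespace Pool.Agent.NH7.Cub

open Pool.Agent.R431.SG NumberField IntermediateField

section comp

/-- An irreducible polynomial modulo which the cubic has no root. -/
theorem comp_irr {F : Type} [Field F] {f : F[X]} (hm : f.Monic) (hf : Irreducible f) {a b c : F}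
    (hs : ∀ g : F[X], ¬ f ∣ g ^ 3 + C a * g ^ 2 + C b * g + C c - X) :
    Irreducible (f.comp (cub a b c)) := by
  refine irreducible_comp hm (cub_monic a b c) hf (fun E _ _ x hx => ?_)
  have hint : IsIntegral F x := by
    rw [← minpoly.ne_zero_iff, hx]
    exact hf.ne_zero
  have e1 : (cub a b c).map (algebraMap F F⟮x⟯) - C (AdjoinSimple.gen F x) =
      cub (algebraMap F F⟮x⟯ a) (algebraMap F F⟮x⟯ b)
        (algebraMap F F⟮x⟯ c - AdjoinSimple.gen F x) := by
    rw [cub_map]
    simp only [cub, C_sub]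
    ring
  rw [e1, (cub_monic _ _ _).irreducible_iff_roots_eq_zero_of_degree_le_three
    (by rw [cub_natDegree]; norm_num) (by rw [cub_natDegree]), Multiset.eq_zero_iff_forall_notMem]
  intro r hr
  rw [mem_roots (cub_monic _ _ _).ne_zero] at hr
  obtain ⟨g, hg⟩ := (adjoin.powerBasis hint).exists_eq_aeval' r
  rw [adjoin.powerBasis_gen] at hg
  apply hs g
  rw [← hx, ← minpoly_gen F x]
  apply minpoly.dvd
  simp only [cub, IsRoot.def, eval_add, eval_mul, eval_pow, eval_C, eval_X] at hr
  simp only [map_add, map_sub, map_mul, map_pow, aeval_C, aeval_X]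
  rw [← hg]
  linear_combination hr

/-- The converse. -/
theorem silent_of_comp {F : Type} [Field F] {f : F[X]} (hn : f.natDegree ≠ 0) {a b c : F}
    (h : Irreducible (f.comp (cub a b c))) (g : F[X]) :
    ¬ f ∣ g ^ 3 + C a * g ^ 2 + C b * g + C c - X := by
  rintro ⟨r, hr⟩
  obtain ⟨θ, hθ⟩ := IsAlgClosed.exists_aeval_eq_zero (AlgebraicClosure F) f (by
    intro h0
    exact hn (natDegree_eq_of_degree_eq_some h0))
  have h1 := congrArg (aeval θ) hr
  rw [map_mul, hθ, zero_mul] at h1
  simp only [map_add, map_sub, map_mul, map_pow, aeval_C, aeval_X] at h1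
  set φ := aeval θ g with hφ
  have h2 : aeval φ (cub a b c) = θ := by
    rw [cub_aeval]
    linear_combination h1
  have h3 : aeval φ (f.comp (cub a b c)) = 0 := by
    rw [aeval_comp, h2, hθ]
  have hf0 : f ≠ 0 := fun h0 => hn (by rw [h0, natDegree_zero])
  have hmem : φ ∈ F⟮θ⟯ := by
    rw [hφ]
    exact algebra_adjoin_le_adjoin F _ (aeval_mem_adjoin_singleton F θ)
  have hθi : IsIntegral F θ := IsAlgebraic.isIntegral ⟨f, hf0, hθ⟩
  haveI : FiniteDimensional F F⟮θ⟯ := adjoin.finiteDimensional hθi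
  have h4 : (minpoly F φ).natDegree ≤ (minpoly F θ).natDegree := by
    have h5 := minpoly.natDegree_le (A := F) (B := F⟮θ⟯) (⟨φ, hmem⟩ : F⟮θ⟯)
    rw [adjoin.finrank hθi] at h5
    have h6 : minpoly F (⟨φ, hmem⟩ : F⟮θ⟯) = minpoly F φ :=
      minpoly_eq (⟨φ, hmem⟩ : F⟮θ⟯)
    rwa [h6] at h5
  have h5 : (minpoly F θ).natDegree ≤ f.natDegree :=
    natDegree_le_of_dvd (minpoly.dvd F θ hθ) hf0
  have h6 := minpoly.eq_of_irreducible h h3
  have h7 : (minpoly F φ).natDegree = f.natDegree * 3 := by
    rw [← h6, natDegree_mul_C (inv_ne_zero (leadingCoeff_ne_zero.2 h.ne_zero)), natDegree_comp,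
      cub_natDegree]
  omega

end comp

section count

/-- The good polynomials. -/
def goodPol (p n : ℕ) (a b c : ZMod p) [Fact p.Prime] : Set (Fin (n + 1) → ZMod p) :=
  {d | (pol d).natDegree = n ∧ Irreducible ((pol d).comp (cub a b c))}

/-- Few elements have small degree. -/
theorem card_small' (p : ℕ) [Fact p.Prime] {E : Type} [Field E] [Fintype E] [Algebra (ZMod p) E]
    {n : ℕ} (hn : 1 ≤ n) (hE : Module.finrank (ZMod p) E = n) :
    (univ.filter fun x : E => (minpoly (ZMod p) x).natDegree ≠ n).card ≤ p ^ (n - 1) := by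
  haveI : FiniteDimensional (ZMod p) E := Module.Finite.of_finite
  have hint : ∀ x : E, IsIntegral (ZMod p) x := fun x => Algebra.IsIntegral.isIntegral x
  have hle : ∀ x : E, (minpoly (ZMod p) x).natDegree ≤ n := fun x => by
    rw [← hE]; exact minpoly.natDegree_le x
  have hpos : ∀ x : E, 0 < (minpoly (ZMod p) x).natDegree := fun x => minpoly.natDegree_pos (hint x)
  by_cases h3 : 3 ≤ n
  · have h1 := Pool.Agent.R939.FF.card_small (F := ZMod p) (E := E)
    rw [hE, ZMod.card] at h1
    exact h1.trans (Nat.pow_le_pow_right (Fact.out : p.Prime).pos (by omega))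
  · by_cases h1 : n = 1
    · subst h1
      have : (univ.filter fun x : E => (minpoly (ZMod p) x).natDegree ≠ 1) = ∅ := by
        rw [filter_eq_empty_iff]
        intro x _
        have := hle x
        have := hpos x
        omega
      rw [this]
      simp
    · have h2 : n = 2 := by omega
      subst h2
      have hsub : (univ.filter fun x : E => (minpoly (ZMod p) x).natDegree ≠ 2) ⊆
          univ.image (algebraMap (ZMod p) E) := by
        intro x hx
        rw [mem_filter] at hx
        have h4 : (minpoly (ZMod p) x).natDegree = 1 := by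
          have := hle x
          have := hpos x
          have := hx.2
          omega
        rw [minpoly.natDegree_eq_one_iff] at h4
        obtain ⟨y, hy⟩ := h4
        exact mem_image.2 ⟨y, mem_univ _, hy⟩
      refine (card_le_card hsub).trans (card_image_le.trans ?_)
      rw [card_univ, ZMod.card]
      simp

theorem card_good (p : ℕ) [Fact p.Prime] {n : ℕ} (hn : 1 ≤ n) (hp : 17 ≤ p) (a b c : ZMod p)
    (hab : a ^ 2 ≠ 3 * b) :
    (1 / (12 * n : ℝ)) * (p : ℝ) ^ (n + 1) ≤ (((goodPol p n a b c).ncard : ℕ) : ℝ) := by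
  have hn0 : n ≠ 0 := by omega
  let E := GaloisField p n
  haveI : Fintype E := Fintype.ofFinite _
  have hE : Module.finrank (ZMod p) E = n := GaloisField.finrank p hn0
  have hcE : Fintype.card E = p ^ n := by
    rw [← Nat.card_eq_fintype_card]
    exact GaloisField.card p n hn0
  haveI : CharP E p := inferInstance
  have hne : ∀ m : ℕ, 0 < m → m < p → (m : E) ≠ 0 := by
    intro m h1 h2 h3
    rw [CharP.cast_eq_zero_iff E p] at h3
    exact absurd (Nat.le_of_dvd h1 h3) (by omega)
  have h2E : (2 : E) ≠ 0 := by exact_mod_cast hne 2 (by norm_num) (by omega)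
  have h3E : (3 : E) ≠ 0 := by exact_mod_cast hne 3 (by norm_num) (by omega)
  have hodd : Fintype.card E % 2 = 1 := by
    rw [hcE]
    have : p % 2 = 1 := by
      rcases (Fact.out : p.Prime).eq_two_or_odd with h | h
      · omega
      · exact h
    rw [Nat.pow_mod, this, one_pow]
    norm_num
  set a' : E := algebraMap (ZMod p) E a
  set b' : E := algebraMap (ZMod p) E b
  set c' : E := algebraMap (ZMod p) E c
  have hab' : a' ^ 2 ≠ 3 * b' := by
    intro h
    apply hab
    apply (algebraMap (ZMod p) E).injective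
    rw [map_pow, map_mul, map_ofNat]
    exact h
  have hnv := nonval_ge h2E h3E hodd a' b' c' hab'
  set NV : Finset E := univ.filter fun x => ∀ y, cv3 a' b' c' y ≠ x with hNV
  set Gd : Finset E := NV.filter fun x => (minpoly (ZMod p) x).natDegree = n with hGd
  have h1 : (univ.filter fun x : E => (minpoly (ZMod p) x).natDegree ≠ n).card ≤
      p ^ (n - 1) := card_small' p hn hE
  have h2 : NV.card ≤ Gd.card +
      (univ.filter fun x : E => (minpoly (ZMod p) x).natDegree ≠ n).card := by
    have h3 : Gd.card + (NV.filter fun x : E => ¬ (minpoly (ZMod p) x).natDegree = n).card =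
      NV.card := by
      rw [hGd, Finset.card_filter_add_card_filter_not]
    have h4 : (NV.filter fun x : E => ¬ (minpoly (ZMod p) x).natDegree = n).card ≤
        (univ.filter fun x : E => (minpoly (ZMod p) x).natDegree ≠ n).card := by
      apply card_le_card
      intro x hx
      rw [mem_filter] at hx ⊢
      exact ⟨mem_univ _, hx.2⟩
    omega
  have h4 : p ^ n = p ^ (n - 1) * p := by
    rw [← pow_succ]
    congr 1
    omega
  have hQ : 1 ≤ p ^ (n - 1) := Nat.one_le_pow _ _ (by omega)
  have hG : p ^ n ≤ 6 * Gd.card := by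
    rw [hcE] at hnv
    have h5 : 17 * p ^ (n - 1) ≤ p ^ n := by
      rw [h4, Nat.mul_comm]
      exact Nat.mul_le_mul_left _ hp
    omega
  let s : Finset (ZMod p × E) := (univ.erase 0) ×ˢ Gd
  let f : ZMod p × E → (Fin (n + 1) → ZMod p) := fun q j =>
    (C q.1 * minpoly (ZMod p) q.2).coeff j
  have hint : ∀ x : E, IsIntegral (ZMod p) x := fun x => Algebra.IsIntegral.isIntegral x
  have hdeg : ∀ q ∈ s, (C q.1 * minpoly (ZMod p) q.2).natDegree = n := by
    intro q hq
    rw [mem_product, mem_erase] at hq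
    rw [natDegree_C_mul hq.1.1]
    have := hq.2
    rw [hGd, mem_filter] at this
    exact this.2
  have hpol : ∀ q ∈ s, pol (f q) = C q.1 * minpoly (ZMod p) q.2 := fun q hq =>
    pol_of (hdeg q hq).le
  have hfib : ∀ b ∈ s.image f, (s.filter fun q => f q = b).card ≤ n := by
    intro b hb
    obtain ⟨q0, hq0, rfl⟩ := mem_image.1 hb
    set P := C q0.1 * minpoly (ZMod p) q0.2 with hP
    have hPd : P.natDegree = n := hdeg q0 hq0
    have hP0 : P ≠ 0 := by
      intro h
      rw [h, natDegree_zero] at hPd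
      omega
    have hsub : (s.filter fun q => f q = f q0).card ≤ (P.aroots E).toFinset.card := by
      refine Finset.card_le_card_of_injOn (fun q => q.2) ?_ ?_
      · intro q hq
        rw [Finset.mem_coe, mem_filter] at hq
        rw [Finset.mem_coe, Multiset.mem_toFinset, mem_aroots]
        refine ⟨hP0, ?_⟩
        have h5 : P = C q.1 * minpoly (ZMod p) q.2 := by
          rw [← hpol q hq.1, hq.2, hpol q0 hq0]
        rw [h5, map_mul, minpoly.aeval, mul_zero]
      · intro q hq q' hq' hqq
        rw [Finset.mem_coe, mem_filter] at hq hq'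
        have h5 : C q.1 * minpoly (ZMod p) q.2 = C q'.1 * minpoly (ZMod p) q'.2 := by
          rw [← hpol q hq.1, hq.2, ← hq'.2, hpol q' hq'.1]
        have h6 := congrArg leadingCoeff h5
        rw [leadingCoeff_mul, leadingCoeff_mul, leadingCoeff_C, leadingCoeff_C,
          (minpoly.monic (hint _)).leadingCoeff, (minpoly.monic (hint _)).leadingCoeff, mul_one,
          mul_one] at h6
        exact Prod.ext h6 hqq
    refine hsub.trans ((Multiset.toFinset_card_le _).trans ?_)
    rw [aroots]
    refine (card_roots' _).trans ?_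
    rw [natDegree_map, hPd]
  have h7 := Finset.card_le_mul_card_image s n hfib
  have h8 : (s.image f).card ≤ (goodPol p n a b c).ncard := by
    rw [← Set.ncard_coe_finset]
    refine Set.ncard_le_ncard ?_ (Set.toFinite _)
    intro d hd
    rw [Finset.mem_coe, mem_image] at hd
    obtain ⟨q, hq, rfl⟩ := hd
    rw [goodPol, Set.mem_setOf_eq, hpol q hq]
    refine ⟨hdeg q hq, ?_⟩
    rw [mem_product, mem_erase, hGd, mem_filter, hNV, mem_filter] at hq
    rw [mul_comp, C_comp]
    refine (irreducible_isUnit_mul (isUnit_C.2 (isUnit_iff_ne_zero.2 hq.1.1))).2 ?_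
    refine comp_irr (minpoly.monic (hint _)) (minpoly.irreducible (hint _)) (fun g hg => ?_)
    obtain ⟨r, hr⟩ := hg
    have h9 := congrArg (aeval q.2) hr
    rw [map_mul, minpoly.aeval, zero_mul] at h9
    simp only [map_add, map_sub, map_mul, map_pow, aeval_C, aeval_X] at h9
    apply hq.2.1.2 (aeval q.2 g)
    simp only [cv3]
    linear_combination h9
  have h9 : s.card = (p - 1) * Gd.card := by
    rw [card_product, card_erase_of_mem (mem_univ _), card_univ, ZMod.card]
  have h10 : ((p : ℝ) - 1) * Gd.card ≤ n * (((goodPol p n a b c).ncard : ℕ) : ℝ) := by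
    have h11 : (p - 1) * Gd.card ≤ n * (goodPol p n a b c).ncard := by
      rw [← h9]
      exact h7.trans (Nat.mul_le_mul_left _ h8)
    have h12 : (((p - 1) * Gd.card : ℕ) : ℝ) ≤ ((n * (goodPol p n a b c).ncard : ℕ) : ℝ) := by
      exact_mod_cast h11
    rw [Nat.cast_mul, Nat.cast_mul, Nat.cast_sub (by omega), Nat.cast_one] at h12
    exact h12
  have hp1 : (p : ℝ) / 2 ≤ (p : ℝ) - 1 := by
    have : (17 : ℝ) ≤ p := by exact_mod_cast hp
    linarith
  have hG' : (p : ℝ) ^ n ≤ 6 * (Gd.card : ℝ) := by exact_mod_cast hG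
  have hnpos : (0 : ℝ) < n := by exact_mod_cast (by omega : 0 < n)
  have h13 : (p : ℝ) / 2 * ((p : ℝ) ^ n / 6) ≤ ((p : ℝ) - 1) * Gd.card :=
    mul_le_mul hp1 (by linarith) (by positivity)
      (by linarith [show (17 : ℝ) ≤ p from by exact_mod_cast hp])
  rw [div_mul_eq_mul_div, one_mul, div_le_iff₀ (by positivity)]
  calc (p : ℝ) ^ (n + 1) = 12 * ((p : ℝ) / 2 * ((p : ℝ) ^ n / 6)) := by ring
    _ ≤ 12 * (n * (((goodPol p n a b c).ncard : ℕ) : ℝ)) := by linarith
    _ = _ := by ring

end count

section lift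

variable {k : Type} [Field k] [NumberField k]

/-- Elements of `k` are integral at large primes. -/
theorem ext_int (x : k) : ∃ N : ℕ, ∀ (p : ℕ) [Fact p.Prime] (σ : 𝓞 k →+* ℤ_[p]), N ≤ p →
    ‖ext σ x‖ ≤ 1 := by
  obtain ⟨α, β, hβ, rfl⟩ := IsFractionRing.div_surjective (A := 𝓞 k) x
  have hβ0 : β ≠ 0 := nonZeroDivisors.ne_zero hβ
  obtain ⟨m, hm, γ, hγ⟩ := exists_dvd_int hβ0
  refine ⟨m.natAbs + 1, fun p _ σ hp => ?_⟩
  have h1 : algebraMap (𝓞 k) k α / algebraMap (𝓞 k) k β =
      algebraMap (𝓞 k) k (α * γ) / (m : k) := by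
    have h2 : algebraMap (𝓞 k) k β * algebraMap (𝓞 k) k γ = (m : k) := by
      rw [← map_mul, ← hγ, map_intCast]
    have h3 : algebraMap (𝓞 k) k β ≠ 0 := by
      rw [Ne, map_eq_zero_iff _ (IsFractionRing.injective (𝓞 k) k)]; exact hβ0
    have h4 : (m : k) ≠ 0 := by exact_mod_cast hm
    rw [div_eq_div_iff h3 h4, map_mul, ← h2]
    ring
  rw [h1, map_div₀, ext_alg, map_intCast, norm_div]
  have h5 : ‖(m : ℚ_[p])‖ = 1 := by
    apply le_antisymm (Padic.norm_int_le_one m)
    rw [← not_lt, Padic.norm_intCast_lt_one_iff]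
    intro h6
    have h7 := Int.le_of_dvd (Int.natAbs_pos.2 hm |> fun h => by exact_mod_cast h)
      (Int.dvd_natAbs.2 h6)
    omega
  rw [h5, div_one]
  exact (σ (α * γ)).norm_le_one

/-- The reduction of an element of `k`. -/
noncomputable def redk {p : ℕ} [Fact p.Prime] (σ : 𝓞 k →+* ℤ_[p]) (x : k) : ZMod p :=
  if h : ‖ext σ x‖ ≤ 1 then PadicInt.toZMod (⟨ext σ x, h⟩ : ℤ_[p]) else 0

/-- Irreducibility of a composition over `k` from its reduction. -/
theorem comp_lift {p : ℕ} [Fact p.Prime] (σ : 𝓞 k →+* ℤ_[p]) {n : ℕ} (hn : n ≠ 0)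
    (d : Fin (n + 1) → 𝓞 k) {a b c : k} (ha : ‖ext σ a‖ ≤ 1) (hb : ‖ext σ b‖ ≤ 1)
    (hc : ‖ext σ c‖ ≤ 1)
    (h : (fun j => red σ (d j)) ∈ goodPol p n (redk σ a) (redk σ b) (redk σ c)) :
    Irreducible ((pol fun j => algebraMap (𝓞 k) k (d j)).comp (cub a b c)) := by
  set a₀ : ℤ_[p] := ⟨ext σ a, ha⟩ with ha0
  set b₀ : ℤ_[p] := ⟨ext σ b, hb⟩ with hb0
  set c₀ : ℤ_[p] := ⟨ext σ c, hc⟩ with hc0
  have ra : redk σ a = PadicInt.toZMod a₀ := by rw [redk, dif_pos ha]
  have rb : redk σ b = PadicInt.toZMod b₀ := by rw [redk, dif_pos hb]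
  have rc : redk σ c = PadicInt.toZMod c₀ := by rw [redk, dif_pos hc]
  rw [ra, rb, rc] at h
  obtain ⟨hd, hirr⟩ := h
  set G : ℤ_[p][X] := X ^ 3 + C a₀ * X ^ 2 + C b₀ * X + C c₀ with hG
  set f : ℤ_[p][X] := (pol fun j => σ (d j)).comp G with hf
  have hGd : G.natDegree ≤ 3 := by rw [hG]; compute_degree
  have e1 : f.map (PadicInt.toZMod (p := p)) = (pol fun j => red σ (d j)).comp
      (cub (PadicInt.toZMod a₀) (PadicInt.toZMod b₀) (PadicInt.toZMod c₀)) := by
    rw [hf, Polynomial.map_comp, pol_map]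
    congr 1
    simp only [hG, cub, Polynomial.map_add, Polynomial.map_mul, Polynomial.map_pow,
      Polynomial.map_C, Polynomial.map_X]
  have e2 : f.map (algebraMap ℤ_[p] ℚ_[p]) =
      ((pol fun j => algebraMap (𝓞 k) k (d j)).comp (cub a b c)).map (ext σ) := by
    rw [hf, Polynomial.map_comp, Polynomial.map_comp, pol_map, pol_map, cub_map]
    have e3 : (fun j => (algebraMap ℤ_[p] ℚ_[p]) (σ (d j))) =
        fun j => ext σ (algebraMap (𝓞 k) k (d j)) := by
      funext j
      rw [ext_alg]
    rw [e3]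
    congr 1
    simp only [hG, cub, Polynomial.map_add, Polynomial.map_mul, Polynomial.map_pow,
      Polynomial.map_C, Polynomial.map_X]
    rfl
  apply irr_of_map (ext σ)
  rw [← e2]
  refine irr_padic (n := n * 3) ?_ ?_ (by omega) ?_
  · rw [hf]
    refine natDegree_comp_le.trans ?_
    exact Nat.mul_le_mul (pol_degree _) hGd
  · rw [e1, natDegree_comp, hd, cub_natDegree]
  · rw [e1]; exact hirr

end lift

end Pool.Agent.NH7.Cub
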