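import Pool.Agent.NH7.Cub.Loc

/-!
Local analysis of the coordinates of points of a quadratic twist.
-/

set_option autoImplicit false
set_option linter.all false

open WithZero

namespace Pool.Agent.NH7.Cub

section local_

variable {F M : Type} [Field F] [Field M] (j : F →+* M) (v : Valuation F ℤᵐ⁰)
  (w : Valuation M ℤᵐ⁰) (h1 : ∀ x, v x ≤ 1 → w (j x) ≤ 1) (h2 : ∀ x, v x < 1 → w (j x) < 1)
  {π : F} (hπ : v π = exp (-1))

include h1 h2 hπ in
/-- The local lemma. -/
theorem loc_sq_tw {D : F} (hD0 : D ≠ 0) {a b c : F} (ha : v a ≤ 1) (hb : v b ≤ 1)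
    (hc : v c ≤ 1)
    (hcase : Sil a b c v ∨ (exp (-1) ≤ v (disc3 a b c) ∧ IsSquare (v D))) {θ : M}
    (hθ : θ ^ 3 + j a * θ ^ 2 + j b * θ + j c = 0) {x : F}
    (hxy : IsSquare (v D * v (x ^ 3 + a * x ^ 2 + b * x + c))) :
    (j x ≠ θ → IsSquare (w (j D) * w (j x - θ))) ∧
      (j x = θ → IsSquare (w (3 * θ ^ 2 + 2 * j a * θ + j b))) := by
  have hvD0 : v D ≠ 0 := (Valuation.ne_zero_iff _).2 hD0
  have hθ1 : w θ ≤ 1 := le_of_cubic w (h1 _ ha) (h1 _ hb) (h1 _ hc) (by rw [hθ, map_zero]; simp)
  by_cases hx : v x ≤ 1
  · have hxw := h1 x hx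
    -- integral first coordinate
    rcases hcase with hs | ⟨hd, hDsq⟩
    · -- silent case
      have e0 := hs x hx
      have hDsq : IsSquare (w (j D)) := by
        apply sq_map j v w h1 hπ
        rw [e0, mul_one] at hxy
        exact hxy
      have e1 := map_one_of j v w h1 e0
      have e2 : j (x ^ 3 + a * x ^ 2 + b * x + c) = (j x - θ) *
          (j x ^ 2 + (θ + j a) * j x + (θ ^ 2 + j a * θ + j b)) := by
        simp only [map_add, map_mul, map_pow]
        linear_combination hθ
      rw [e2, map_mul] at e1
      have f1 : w (j x - θ) ≤ 1 := le_sub' w hxw hθ1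
      have f2 : w (j x ^ 2 + (θ + j a) * j x + (θ ^ 2 + j a * θ + j b)) ≤ 1 :=
        le_add' w (le_add' w (le_pow' w hxw 2) (le_mul' w (le_add' w hθ1 (h1 _ ha)) hxw))
          (le_add' w (le_add' w (le_pow' w hθ1 2) (le_mul' w (h1 _ ha) hθ1)) (h1 _ hb))
      have f3 : w (j x - θ) = 1 := by
        apply le_antisymm f1
        rw [← e1]
        exact mul_le_of_le_one_right' f2
      refine ⟨fun _ => by rw [f3, mul_one]; exact hDsq, fun h => ?_⟩
      rw [h, sub_self, map_zero] at f3
      exact absurd f3 zero_ne_one
    · -- discriminant case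
      set p := 3 * x + a with hp
      set q := 3 * x ^ 2 + 2 * a * x + b with hq
      set r := x ^ 3 + a * x ^ 2 + b * x + c with hr
      have n3 : v (3 : F) ≤ 1 := le_ofNat' v 3
      have n2 : v (2 : F) ≤ 1 := le_ofNat' v 2
      have n4 : v (4 : F) ≤ 1 := le_ofNat' v 4
      have n18 : v (18 : F) ≤ 1 := le_ofNat' v 18
      have n27 : v (27 : F) ≤ 1 := le_ofNat' v 27
      have vp : v p ≤ 1 := le_add' v (le_mul' v n3 hx) ha
      have vq : v q ≤ 1 := le_add' v (le_add' v (le_mul' v n3 (le_pow' v hx 2))
        (le_mul' v (le_mul' v n2 ha) hx)) hb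
      have vr : v r ≤ 1 := le_add' v (le_add' v (le_add' v (le_pow' v hx 3)
        (le_mul' v ha (le_pow' v hx 2))) (le_mul' v hb hx)) hc
      have hdisc : disc3 a b c = q * (q * (p ^ 2 - 4 * q)) +
          r * (-(4 * p ^ 3) + 18 * p * q - 27 * r) := by
        rw [disc3, hp, hq, hr]; ring
      have hwD : IsSquare (w (j D)) := sq_map j v w h1 hπ hDsq
      have hrsq : IsSquare (v r) := by
        obtain ⟨s, hs⟩ := hDsq
        obtain ⟨t, ht⟩ := hxy
        refine ⟨t / s, ?_⟩
        rw [div_mul_div_comm, ← hs, ← ht, mul_comm, mul_div_assoc, div_self hvD0, mul_one]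
      -- if `v r < 1` then `v q = 1`
      have hkey : v r < 1 → v q = 1 := by
        intro hlt
        by_contra hne
        have hq1 : v q ≤ exp (-1) := lt_one_iff.1 (lt_of_le_of_ne vq hne)
        have hr2 : v r ≤ exp (-2) := by
          by_cases hr0 : r = 0
          · rw [hr0, map_zero]; exact zero_le'
          · obtain ⟨n, hn⟩ := exists_exp v hr0
            have hev := hrsq
            rw [hn, isSquare_exp] at hev
            obtain ⟨m, hm⟩ := hev
            have e1 : v r = exp (2 * m) := by
              rw [hn, hm]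
              congr 1
              ring
            rw [e1] at hlt ⊢
            rw [← exp_zero, exp_lt_exp] at hlt
            rw [exp_le_exp]
            omega
        have g1 : v (q * (q * (p ^ 2 - 4 * q))) ≤ exp (-2) := by
          have t1 : v (p ^ 2 - 4 * q) ≤ 1 := le_sub' v (le_pow' v vp 2) (le_mul' v n4 vq)
          rw [map_mul, map_mul]
          calc v q * (v q * v (p ^ 2 - 4 * q)) ≤ exp (-1) * (exp (-1) * 1) := by gcongr
            _ = exp (-2) := by rw [mul_one, ← exp_add]; norm_num
        have g2 : v (r * (-(4 * p ^ 3) + 18 * p * q - 27 * r)) ≤ exp (-2) := by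
          have t1 : v (-(4 * p ^ 3) + 18 * p * q - 27 * r) ≤ 1 :=
            le_sub' v (le_add' v (le_neg' v (le_mul' v n4 (le_pow' v vp 3)))
              (le_mul' v (le_mul' v n18 vp) vq)) (le_mul' v n27 vr)
          rw [map_mul]
          calc v r * v (-(4 * p ^ 3) + 18 * p * q - 27 * r) ≤ exp (-2) * 1 := by gcongr
            _ = exp (-2) := by rw [mul_one]
        have g3 : v (disc3 a b c) ≤ exp (-2) := by
          rw [hdisc]
          exact (v.map_add _ _).trans (max_le g1 g2)
        have g4 := hd.trans g3
        rw [exp_le_exp] at g4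
        omega
      -- the polynomial relation for `η = θ - x`
      set η := θ - j x with hη
      have hηrel : η * (η ^ 2 + j p * η + j q) = - j r := by
        have : j r = j x ^ 3 + j a * j x ^ 2 + j b * j x + j c := by
          simp only [hr, map_add, map_mul, map_pow]
        rw [this, hη, hp, hq]
        simp only [map_add, map_mul, map_pow, map_ofNat]
        linear_combination hθ
      have wη : w η ≤ 1 := le_sub' w hθ1 hxw
      have wpq : w (η ^ 2 + j p * η) ≤ 1 :=
        le_add' w (le_pow' w wη 2) (le_mul' w (h1 _ vp) wη)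
      have hsym : j x - θ = -η := by rw [hη]; ring
      have main : IsSquare (w η) ∧ (v r < 1 → w (j q) = 1) := by
        constructor
        · rcases wη.eq_or_lt with e | e
          · rw [e]; exact sq_one
          · have hr1 : v r < 1 := by
              by_contra hcon
              have t1 := map_one_of j v w h1 (le_antisymm vr (not_lt.1 hcon))
              have t2 : w (η * (η ^ 2 + j p * η + j q)) < 1 :=
                lt_mul_left' w e (le_add' w wpq (h1 _ vq))
              rw [hηrel, Valuation.map_neg, t1] at t2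
              exact lt_irrefl _ t2
            have hq1 := map_one_of j v w h1 (hkey hr1)
            have t3 : w (η ^ 2 + j p * η + j q) = 1 := by
              have t4 : w (η ^ 2 + j p * η) < w (j q) := by
                rw [hq1]
                have : η ^ 2 + j p * η = η * (η + j p) := by ring
                rw [this]
                exact lt_mul_left' w e (le_add' w wη (h1 _ vp))
              rw [Valuation.map_add_eq_of_lt_right w t4, hq1]
            have t5 : w η = w (j r) := by
              have := congrArg w hηrel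
              rw [map_mul, t3, mul_one, Valuation.map_neg] at this
              exact this
            rw [t5]
            exact sq_map j v w h1 hπ hrsq
        · intro hr1
          exact map_one_of j v w h1 (hkey hr1)
      refine ⟨fun _ => by rw [hsym, Valuation.map_neg]; exact hwD.mul main.1, fun h => ?_⟩
      have hη0 : η = 0 := by rw [hη, h, sub_self]
      have hr0 : r = 0 := by
        have t1 := hηrel
        rw [hη0, zero_mul] at t1
        have : j r = 0 := by linear_combination t1
        exact (map_eq_zero j).1 this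
      have t1 := main.2 (by rw [hr0, map_zero]; exact zero_lt_one)
      have t2 : 3 * θ ^ 2 + 2 * j a * θ + j b = j q := by
        rw [hq, ← h]
        simp only [map_add, map_mul, map_pow, map_ofNat]
      rw [t2, t1]
      exact sq_one
  · -- non-integral first coordinate
    rw [not_le] at hx
    have hx0 : x ≠ 0 := by
      rintro rfl
      rw [map_zero] at hx
      exact not_lt_of_ge zero_le_one hx
    have hi : v x⁻¹ < 1 := by
      rw [map_inv₀]
      exact inv_lt_one_of_one_lt₀ hx
    have hwi : w (j x)⁻¹ < 1 := by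
      have := h2 _ hi
      rwa [map_inv₀] at this
    have hjx0 : j x ≠ 0 := (map_ne_zero j).2 hx0
    have hwx : 1 < w (j x) := by
      rw [map_inv₀] at hwi
      exact (inv_lt_one₀ (zero_lt_iff.2 ((Valuation.ne_zero_iff _).2 hjx0))).1 hwi
    have hlt : w θ < w (j x) := lt_of_le_of_lt hθ1 hwx
    have e1 : w (j x - θ) = w (j x) := Valuation.map_sub_eq_of_lt_left w hlt
    have hxsq : IsSquare (v (D * x)) := by
      have hi2 : v (x⁻¹ ^ 2) < 1 := by rw [map_pow]; exact pow_lt_one' hi (by norm_num)
      have hi3 : v (x⁻¹ ^ 3) < 1 := by rw [map_pow]; exact pow_lt_one' hi (by norm_num)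
      have t1 : v (a * x⁻¹ + b * x⁻¹ ^ 2 + c * x⁻¹ ^ 3) < 1 :=
        lt_add' v (lt_add' v (lt_mul_right' v ha hi) (lt_mul_right' v hb hi2))
          (lt_mul_right' v hc hi3)
      have t2 : v (1 + (a * x⁻¹ + b * x⁻¹ ^ 2 + c * x⁻¹ ^ 3)) = 1 := by
        rw [Valuation.map_add_eq_of_lt_left v (by rw [map_one]; exact t1), map_one]
      have t3 : x ^ 3 + a * x ^ 2 + b * x + c =
          x ^ 3 * (1 + (a * x⁻¹ + b * x⁻¹ ^ 2 + c * x⁻¹ ^ 3)) := by
        field_simp
        ring
      rw [t3, map_mul, t2, mul_one, map_pow] at hxy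
      have hvx : v x ≠ 0 := (Valuation.ne_zero_iff _).2 hx0
      obtain ⟨t, ht⟩ := hxy
      refine ⟨t / v x, ?_⟩
      rw [div_mul_div_comm, ← ht, map_mul]
      field_simp
    refine ⟨fun _ => by rw [e1, ← map_mul, ← map_mul]; exact sq_map j v w h1 hπ hxsq, fun h => ?_⟩
    rw [h] at hlt
    exact absurd hlt (lt_irrefl _)

end local_

end Pool.Agent.NH7.Cub
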