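import Pool.Agent.NH7.Cub.Desc3
import Pool.Agent.NH7.Cub.Loc2

/-!
Locally trivial cocycles for a quadratic twist: the valuation of the attached element.
-/

set_option autoImplicit false
set_option linter.all false

open WeierstrassCurve WeierstrassCurve.Affine Polynomial WithZero
open scoped Classical Pointwise

namespace Pool.Agent.NH7.Cub

open Pool.Agent.W309.TD (Pt act act_some act_inj act_act act_zero two_act au au_apply au_mul IsCoc
  IsCob cob_isCoc locConst_apply exists_root compare rs rs_apply incl fixed_point rs_act_incl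
  LocTriv exists_restrict)

/-- `W` is the twist by `D` of the curve with coefficients `a, b, c`. -/
structure IsTw {K : Type} [Field K] (W : WeierstrassCurve K) (D a b c : K) : Prop where
  a1 : W.a₁ = 0
  a2 : W.a₂ = D * a
  a3 : W.a₃ = 0
  a4 : W.a₄ = D ^ 2 * b
  a6 : W.a₆ = D ^ 3 * c
  ne : D ≠ 0

section loc

variable {K Ω F Ω' M : Type} [Field K] [Field Ω] [Algebra K Ω] [IsGalois K Ω] [Field F]
  [Field Ω'] [Algebra K F] [Algebra F Ω'] [Algebra K Ω'] [IsScalarTower K F Ω'] [IsGalois F Ω']
  [IsSepClosed Ω'] [Field M] [Algebra K M] {W : WeierstrassCurve K} {p q r : Ω}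
  (hC : IsCub (cv W Ω) p q r)

include hC in
/-- The valuation of the element attached to a locally trivial cocycle is even. -/
theorem loc_even_tw {D a b c : K} (hW : IsTw W D a b c)
    {f : (Ω ≃ₐ[K] Ω) → Pt W Ω} (hf2 : ∀ σ, f σ + f σ = 0)
    (hloc : LocTriv W F Ω' f) {ρ : Ω → Ω} (hρ0 : ∀ e, Rt W e → ρ e ≠ 0)
    (hρ : ∀ (σ : Ω ≃ₐ[K] Ω) (e : Ω), Rt W e → σ (ρ e) = sg (cv W Ω) (σ e) (f σ) * ρ (σ e))
    {g : K[X]} (hg : ∀ e, Rt W e → aeval e g = ρ e ^ 2) (j : F →ₐ[K] M) {θ : M} (hθ : Rt W θ)
    (v : Valuation F ℤᵐ⁰) (w : Valuation M ℤᵐ⁰) (h1 : ∀ x, v x ≤ 1 → w (j x) ≤ 1)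
    (h2 : ∀ x, v x < 1 → w (j x) < 1) {π : F} (hπ : v π = exp (-1))
    (ha : v (algebraMap K F a) ≤ 1) (hb : v (algebraMap K F b) ≤ 1)
    (hc : v (algebraMap K F c) ≤ 1)
    (hcase : Sil (algebraMap K F a) (algebraMap K F b) (algebraMap K F c) v ∨
      (exp (-1) ≤ v (disc3 (algebraMap K F a) (algebraMap K F b) (algebraMap K F c)) ∧
        IsSquare (v (algebraMap K F D)))) :
    IsSquare (w (aeval θ g)) := by
  obtain ⟨c', Q, hcQ⟩ := loc_identity hC hf2 hloc hρ0 hρ hg j hθ
  have hjc : ∀ t : K, j (algebraMap K F t) = algebraMap K M t := j.commutes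
  set D' := algebraMap K F D with hD'
  have hD0 : D' ≠ 0 := (_root_.map_ne_zero _).2 hW.ne
  have hjD0 : j D' ≠ 0 := (_root_.map_ne_zero j).2 hD0
  have hDM : algebraMap K M D = j D' := (hjc D).symm
  have hθ0 : θ ^ 3 + algebraMap K M W.a₂ * θ ^ 2 + algebraMap K M W.a₄ * θ +
    algebraMap K M W.a₆ = 0 := hθ
  rw [hW.a2, hW.a4, hW.a6, map_mul, map_mul, map_mul, map_pow, map_pow, hDM] at hθ0
  have hθ' : (θ / j D') ^ 3 + (j : F →+* M) (algebraMap K F a) * (θ / j D') ^ 2 +
      (j : F →+* M) (algebraMap K F b) * (θ / j D') + (j : F →+* M) (algebraMap K F c) = 0 := by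
    show (θ / j D') ^ 3 + j (algebraMap K F a) * (θ / j D') ^ 2 +
      j (algebraMap K F b) * (θ / j D') + j (algebraMap K F c) = 0
    rw [hjc a, hjc b, hjc c]
    field_simp
    linear_combination hθ0
  have key : IsSquare (w (dl (cv W M) θ (act W j Q))) := by
    rcases Q with _ | ⟨x, y, hxy⟩
    · rw [act_zero]
      show IsSquare (w 1)
      rw [map_one]; exact sq_one
    · obtain ⟨h, hh'⟩ := act_some W j hxy
      rw [hh']
      have heq : y ^ 2 = x ^ 3 + D' * algebraMap K F a * x ^ 2 + D' ^ 2 * algebraMap K F b * x +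
          D' ^ 3 * algebraMap K F c := by
        have h3 := hxy.1
        rw [WeierstrassCurve.Affine.equation_iff] at h3
        have e1 : (W.baseChange F).toAffine.a₁ = 0 := by
          show algebraMap K F W.a₁ = 0
          rw [hW.a1, map_zero]
        have e2 : (W.baseChange F).toAffine.a₂ = D' * algebraMap K F a := by
          show algebraMap K F W.a₂ = _
          rw [hW.a2, map_mul]
        have e3 : (W.baseChange F).toAffine.a₃ = 0 := by
          show algebraMap K F W.a₃ = 0
          rw [hW.a3, map_zero]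
        have e4 : (W.baseChange F).toAffine.a₄ = D' ^ 2 * algebraMap K F b := by
          show algebraMap K F W.a₄ = _
          rw [hW.a4, map_mul, map_pow]
        have e6 : (W.baseChange F).toAffine.a₆ = D' ^ 3 * algebraMap K F c := by
          show algebraMap K F W.a₆ = _
          rw [hW.a6, map_mul, map_pow]
        rw [e1, e2, e3, e4, e6] at h3
        linear_combination h3
      have hsq : IsSquare (v D' * v ((x / D') ^ 3 + algebraMap K F a * (x / D') ^ 2 +
          algebraMap K F b * (x / D') + algebraMap K F c)) := by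
        refine ⟨v (y / D'), ?_⟩
        rw [← map_mul, ← map_mul]
        congr 1
        field_simp
        linear_combination -heq
      have h5 := loc_sq_tw (j : F →+* M) v w h1 h2 hπ hD0 ha hb hc hcase hθ' hsq
      have h6 : j (x / D') = j x / j D' := map_div₀ j x D'
      have hiff : j (x / D') = θ / j D' ↔ j x = θ := by
        rw [h6]
        constructor
        · intro h7
          field_simp at h7
          exact h7
        · intro h7
          rw [h7]
      have h8 : (j : F →+* M) (x / D') = j (x / D') := rfl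
      simp only [dl]
      split_ifs with hcc
      · have h7 := h5.2 (by rw [h8]; exact hiff.2 hcc)
        have h9 : 3 * θ ^ 2 + 2 * (cv W M).a₂ * θ + (cv W M).a₄ = j D' ^ 2 *
            (3 * (θ / j D') ^ 2 + 2 * (j : F →+* M) (algebraMap K F a) * (θ / j D') +
              (j : F →+* M) (algebraMap K F b)) := by
          show 3 * θ ^ 2 + 2 * algebraMap K M W.a₂ * θ + algebraMap K M W.a₄ = j D' ^ 2 *
            (3 * (θ / j D') ^ 2 + 2 * j (algebraMap K F a) * (θ / j D') + j (algebraMap K F b))
          rw [hW.a2, hW.a4, map_mul, map_mul, map_pow, hDM, hjc a, hjc b]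
          field_simp
        rw [h9, map_mul, map_pow]
        exact IsSquare.mul ⟨w (j D'), pow_two _⟩ h7
      · have h7 := h5.1 (by rw [h8]; exact fun h => hcc (hiff.1 h))
        have h9 : j x - θ = j D' * ((j : F →+* M) (x / D') - θ / j D') := by
          rw [h8, h6]
          field_simp
        rw [h9, map_mul]
        exact h7
  rw [hcQ, map_mul, map_pow]
  obtain ⟨z, hz⟩ := key
  exact ⟨w c' * z, by rw [hz, pow_two, mul_mul_mul_comm]⟩

end loc

end Pool.Agent.NH7.Cub
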