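import Pool.Agent.NH7.Cub.Glob
import Pool.Agent.NH7.Cub.Desc4

/-!
Two-descent for the quadratic twists of an elliptic curve whose cubic is irreducible.
-/

set_option autoImplicit false
set_option linter.all false

open WeierstrassCurve WeierstrassCurve.Affine Polynomial WithZero IsDedekindDomain
open scoped Classical Pointwise

namespace Pool.Agent.NH7.Cub.Tw

open Pool.Agent.W309.TD (Pt act act_some act_inj act_act act_zero two_act au au_apply au_mul IsCoc
  IsCob cob_isCoc locConst_apply exists_root compare rs rs_apply incl fixed_point rs_act_incl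
  LocTriv exists_restrict ab1 Concl TwoPow)

theorem tw_irr {F : Type} [Field F] {D a b c : F} (hD : D ≠ 0) (h : Irreducible (cub a b c)) :
    Irreducible (cub (D * a) (D ^ 2 * b) (D ^ 3 * c)) := by
  rw [(cub_monic _ _ _).irreducible_iff_roots_eq_zero_of_degree_le_three
    (by rw [cub_natDegree]; norm_num) (by rw [cub_natDegree]), Multiset.eq_zero_iff_forall_notMem]
    at h ⊢
  intro x hx
  have hx1 := (mem_roots'.1 hx).2
  have hx2 : x ^ 3 + D * a * x ^ 2 + D ^ 2 * b * x + D ^ 3 * c = 0 := by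
    have : eval x (cub (D * a) (D ^ 2 * b) (D ^ 3 * c)) = 0 := hx1
    simpa [cub] using this
  apply h (x / D)
  rw [mem_roots (cub_monic _ _ _).ne_zero]
  have h3 : (x / D) ^ 3 + a * (x / D) ^ 2 + b * (x / D) + c = 0 := by
    field_simp
    linear_combination hx2
  simpa [cub] using h3

theorem tw_sep {F : Type} [Field F] {D a b c : F} (hD : D ≠ 0) (h : (cub a b c).Separable) :
    (cub (D * a) (D ^ 2 * b) (D ^ 3 * c)).Separable := by
  let E := AlgebraicClosure F
  obtain ⟨p, q, r, e1, e2, e3, pq, qr, rp⟩ := exists_roots (E := E) h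
  set D' := algebraMap F E D with hD'
  have hD0 : D' ≠ 0 := (_root_.map_ne_zero _).2 hD
  refine cub_sep (E := E) (p := D' * p) (q := D' * q) (r := D' * r) ?_ ?_ ?_ ?_ ?_ ?_
  · rw [map_mul, e1]; ring
  · rw [map_mul, map_pow, e2]; ring
  · rw [map_mul, map_pow, e3]; ring
  · exact fun h => pq (mul_left_cancel₀ hD0 h)
  · exact fun h => qr (mul_left_cancel₀ hD0 h)
  · exact fun h => rp (mul_left_cancel₀ hD0 h)

section sel

variable {R S L : Type} [CommRing R] [CommRing S] [IsDedekindDomain S] [Field L] [Algebra S L]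
  [IsFractionRing S L] [Algebra R S] [Algebra R L] [IsScalarTower R S L] [Algebra.IsIntegral R S]
  {W : WeierstrassCurve L} {D a b c : L} (hW : IsTw W D a b c) (h2 : (2 : L) ≠ 0)
  (hirr0 : Irreducible (cub a b c)) (hsep0 : (cub a b c).Separable)
  (hint : ∀ v : HeightOneSpectrum S, v.valuation L a ≤ 1 ∧ v.valuation L b ≤ 1 ∧
    v.valuation L c ≤ 1)
  (hcond : ∀ v : HeightOneSpectrum S, Sil a b c (v.valuation L) ∨
    (exp (-1) ≤ v.valuation L (disc3 a b c) ∧ IsSquare (v.valuation L D)))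
  (H : H1 R L a b c)

variable {Ω : Type} [Field Ω] [Algebra L Ω] [IsGalois L Ω] [IsSepClosed Ω]
  (Ω' : HeightOneSpectrum S → Type) [∀ v, Field (Ω' v)] [∀ v, Algebra (v.adicCompletion L) (Ω' v)]
  [∀ v, Algebra L (Ω' v)] [∀ v, IsScalarTower L (v.adicCompletion L) (Ω' v)]
  [∀ v, IsGalois (v.adicCompletion L) (Ω' v)] [∀ v, IsSepClosed (Ω' v)]

include R hW h2 hirr0 hsep0 hint hcond H in
/-- The two-Selmer group is trivial. -/
theorem sel_triv {f : (Ω ≃ₐ[L] Ω) → Pt W Ω}
    (hf : IsCoc W f) (hf2 : ∀ σ, f σ + f σ = 0)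
    (hloc : ∀ v : HeightOneSpectrum S, LocTriv W (v.adicCompletion L) (Ω' v) f) :
    ∃ T : Pt W Ω, T + T = 0 ∧ ∀ σ, f σ = act W (au σ) T - T := by
  have hirr : Irreducible (cub W.a₂ W.a₄ W.a₆) := by
    rw [hW.a2, hW.a4, hW.a6]; exact tw_irr hW.ne hirr0
  obtain ⟨p, q, r, hC⟩ := exists_cub (Ω := Ω) hW.a1 hW.a3 h2 (by rw [hW.a2, hW.a4, hW.a6]; exact tw_sep hW.ne hsep0)
  have hp : Rt W p := (rt_iff hC).2 (Or.inl rfl)
  have hq : Rt W q := (rt_iff hC).2 (Or.inr (Or.inl rfl))
  have hr : Rt W r := (rt_iff hC).2 (Or.inr (Or.inr rfl))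
  have htr : ∀ e : Ω, Rt W e →
      ∃ σ : Ω ≃ₐ[L] Ω, σ p = e :=
    fun e he => exists_conj_root hirr hp he
  obtain ⟨ρ, hρ0, hρ⟩ := exists_rho hC htr hf hf2
  obtain ⟨g, hg⟩ := exists_alpha hC htr hρ0 hρ
  obtain ⟨ν, hν⟩ := exists_nu hC hf2 hρ
  let A := IntermediateField.adjoin L {p}
  let θ : A := ⟨p, IntermediateField.mem_adjoin_simple_self L p⟩
  have hpint : IsIntegral L p := Algebra.IsIntegral.isIntegral p
  haveI : FiniteDimensional L A := IntermediateField.adjoin.finiteDimensional hpint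
  have hmin : minpoly L p = cub W.a₂ W.a₄ W.a₆ := by
    refine (minpoly.eq_of_irreducible_of_monic hirr ?_ (cub_monic _ _ _)).symm
    rw [cub_aeval]
    exact hp
  have h3 : Module.finrank L A = 3 := by
    rw [IntermediateField.adjoin.finrank hpint, hmin, cub_natDegree]
  have hinj : Function.Injective (algebraMap A Ω) :=
    (algebraMap A Ω).injective
  have hθ : θ ^ 3 + algebraMap L A W.a₂ * θ ^ 2 + algebraMap L A W.a₄ * θ + algebraMap L A W.a₆ = 0
      := by
    apply hinj
    rw [map_zero]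
    exact hp
  have hval : algebraMap A Ω (aeval θ g) = aeval p g := by
    rw [← aeval_algebraMap_apply]
    rfl
  have hα0 : aeval θ g ≠ 0 := by
    intro h0
    rw [h0, map_zero, hg p hp] at hval
    exact pow_ne_zero 2 (hρ0 p hp) hval.symm
  have hN : IsSquare (Algebra.norm L (aeval θ g)) := by
    refine ⟨ν, ?_⟩
    apply (algebraMap L Ω).injective
    rw [norm_prod (E := Ω) hirr h3 hθ hC.a2 hC.a4 hC.a6 hC.pq hC.qr hC.rp g,
      hg p hp, hg q hq, hg r hr, map_mul, hν]
    ring
  have hEv : Ev R L A (aeval θ g) := by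
    intro u hu huR
    obtain ⟨B, _, _, _, _, w, hw⟩ := exists_spec u hu
    obtain ⟨v₀, e, hv₀, he, hve⟩ := exists_res (F := L) u hu
    have hR : ∀ r : R, v₀ (algebraMap R L r) ≤ 1 := by
      intro r
      apply of_pow_le he
      rw [← hve]
      exact huR r
    obtain ⟨v, hv⟩ := exists_center (S := S) v₀ hv₀ (int_of_int v₀ hR)
    obtain ⟨j0, hj0, hj1, hj2⟩ := Pool.Agent.TH115.GD.exists_compl_map v w (algebraMap L A)
      (fun x hx => by
        rw [hv] at hx
        rw [hw, hve]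
        exact pow_le_one' hx e)
      (fun x hx => by
        rw [hv] at hx
        rw [hw, hve]
        exact pow_lt_one' hx he.ne')
    let j : v.adicCompletion L →ₐ[L] w.adicCompletion A :=
      { j0 with
        commutes' := fun x => by
          have := hj0 x
          show j0 (algebraMap L (v.adicCompletion L) x) = _
          rw [this, ← IsScalarTower.algebraMap_apply] }
    have hθ' : Rt W (algebraMap A (w.adicCompletion A) θ) := by
      have h1 := congrArg (algebraMap A (w.adicCompletion A)) hθ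
      rw [map_zero] at h1
      simp only [map_add, map_mul, map_pow, ← IsScalarTower.algebraMap_apply] at h1
      exact h1
    have hvv : ∀ x : L, Valued.v (R := v.adicCompletion L) (Γ₀ := ℤᵐ⁰)
        (algebraMap L (v.adicCompletion L) x) = v.valuation L x :=
      fun x => HeightOneSpectrum.adicCompletion.valued_coe L v x
    obtain ⟨π, hπ⟩ := v.valuation_exists_uniformizer L
    obtain ⟨i1, i2, i3⟩ := hint v
    have h5 := loc_even_tw hC hW hf2 (hloc v) hρ0 hρ hg j hθ'
      (Valued.v (R := v.adicCompletion L) (Γ₀ := ℤᵐ⁰))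
      (Valued.v (R := w.adicCompletion A) (Γ₀ := ℤᵐ⁰)) hj1 hj2
      (π := algebraMap L (v.adicCompletion L) π) (by rw [hvv, hπ])
      (by rw [hvv]; exact i1) (by rw [hvv]; exact i2) (by rw [hvv]; exact i3)
      (by
        rcases hcond v with h | ⟨h, h'⟩
        · left
          exact sil_compl v i1 i2 h
        · right
          have : disc3 (algebraMap L (v.adicCompletion L) a)
            (algebraMap L (v.adicCompletion L) b) (algebraMap L (v.adicCompletion L) c) =
            algebraMap L (v.adicCompletion L) (disc3 a b c) := by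
            simp only [disc3, map_add, map_sub, map_mul, map_pow, map_ofNat]
          rw [this, hvv, hvv]
          exact ⟨h, h'⟩)
    have h6 : aeval (algebraMap A (w.adicCompletion A) θ) g =
        algebraMap A (w.adicCompletion A) (aeval θ g) := by
      rw [aeval_algebraMap_apply]
    rw [h6] at h5
    have h7 : Valued.v (R := w.adicCompletion A) (Γ₀ := ℤᵐ⁰)
        (algebraMap A (w.adicCompletion A) (aeval θ g)) = w.valuation A (aeval θ g) :=
      HeightOneSpectrum.adicCompletion.valued_coe A w _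
    rw [h7, hw] at h5
    exact h5
  have hθD : (θ / algebraMap L A D) ^ 3 + algebraMap L A a * (θ / algebraMap L A D) ^ 2 +
      algebraMap L A b * (θ / algebraMap L A D) + algebraMap L A c = 0 := by
    have hD0 : algebraMap L A D ≠ 0 := (_root_.map_ne_zero _).2 hW.ne
    have hθ2 := hθ
    rw [hW.a2, hW.a4, hW.a6, map_mul, map_mul, map_mul, map_pow, map_pow] at hθ2
    field_simp
    linear_combination hθ2
  obtain ⟨β, hβ⟩ := H A (θ / algebraMap L A D) hθD h3 _ hα0 hN hEv
  obtain ⟨x0, x1, x2, hx⟩ := exists_basis hirr h3 hθ β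
  set g' : L[X] := C x0 + C x1 * X + C x2 * X ^ 2 with hg'
  have h8 : aeval θ g' = β := by rw [hx]; simp [hg']
  have h9 : (aeval p g') ^ 2 = ρ p ^ 2 := by
    rw [← hg p hp, ← hval, hβ, map_mul, ← h8]
    rw [← aeval_algebraMap_apply]
    rw [pow_two]
    rfl
  exact cob_of_sq hC htr hf2 hρ0 hρ h9

include R hW h2 hirr0 hsep0 hint hcond H in
theorem two_coc {f : (Ω ≃ₐ[L] Ω) → Pt W Ω} (hf : IsCoc W f)
    (h2' : IsCob W (fun σ => f σ + f σ))
    (hloc : ∀ v : HeightOneSpectrum S, LocTriv W (v.adicCompletion L) (Ω' v) f) : IsCob W f := by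
  obtain ⟨p, q, r, hC⟩ := exists_cub (Ω := Ω) hW.a1 hW.a3 h2 (by rw [hW.a2, hW.a4, hW.a6]; exact tw_sep hW.ne hsep0)
  obtain ⟨Q, hQ⟩ := h2'
  obtain ⟨R', hR⟩ := hC.halve_sep Q
  set f' : (Ω ≃ₐ[L] Ω) → Pt W Ω := fun σ => f σ - (act W (au σ) R' - R') with hf'
  have hf'c : IsCoc W f' := hf.sub W (cob_isCoc W R')
  have hf'2 : ∀ σ, f' σ + f' σ = 0 := by
    intro σ
    have h3 := hQ σ
    simp only at h3
    have : f' σ + f' σ = (f σ + f σ) - (act W (au σ) (R' + R') - (R' + R')) := by
      rw [map_add]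
      exact ab1 _ _ _
    rw [this, hR, h3, sub_self]
  have hf'loc : ∀ v : HeightOneSpectrum S, LocTriv W (v.adicCompletion L) (Ω' v) f' := by
    intro v
    obtain ⟨ι, P, hP⟩ := hloc v
    refine ⟨ι, P - act W ι R', fun τ σ hc => ?_⟩
    have h3 := hP τ σ hc
    have h4 : act W ι (act W (au σ) R') = act W (rs L τ) (act W ι R') := by
      rw [act_act, act_act, ← hc]
    rw [hf', map_sub, map_sub, h3, map_sub, h4]
    abel
  obtain ⟨T, hT, hTf⟩ := sel_triv (R := R) (S := S) hW h2 hirr0 hsep0 hint hcond H Ω' hf'c hf'2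
    hf'loc
  refine ⟨T + R', fun σ => ?_⟩
  have h5 := hTf σ
  have h6 : f σ = f' σ + (act W (au σ) R' - R') := (sub_add_cancel _ _).symm
  rw [h6, h5, map_add]
  abel

include R hW h2 hirr0 hsep0 hint hcond H in
theorem pow_coc {f : (Ω ≃ₐ[L] Ω) → Pt W Ω} (hf : IsCoc W f) (m : ℕ)
    (hm : IsCob W (fun σ => 2 ^ m • f σ))
    (hloc : ∀ v : HeightOneSpectrum S, LocTriv W (v.adicCompletion L) (Ω' v) f) : IsCob W f := by
  induction m with
  | zero => simpa using hm
  | succ m ih =>
    apply ih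
    apply two_coc (R := R) (S := S) hW h2 hirr0 hsep0 hint hcond H Ω' (hf.nsmul W (2 ^ m))
    · obtain ⟨Q, hQ⟩ := hm
      refine ⟨Q, fun σ => ?_⟩
      have := hQ σ
      simp only at this ⊢
      rw [← this, ← two_nsmul, smul_smul, pow_succ']
    · intro v
      obtain ⟨ι, P, hP⟩ := hloc v
      refine ⟨ι, 2 ^ m • P, fun τ σ hc => ?_⟩
      rw [map_nsmul, hP τ σ hc, map_nsmul, nsmul_sub]

include R Ω Ω' hW h2 hirr0 hsep0 hint hcond H in
theorem pts (P : Pt W L) : ∃ Q T : Pt W L, T + T = 0 ∧ P = Q + Q + T := by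
  obtain ⟨p, q, r, hC⟩ := exists_cub (Ω := Ω) hW.a1 hW.a3 h2 (by rw [hW.a2, hW.a4, hW.a6]; exact tw_sep hW.ne hsep0)
  obtain ⟨H', hH⟩ := hC.halve_sep (act W (incl L L Ω) P)
  have fixP : ∀ (σ : Ω ≃ₐ[L] Ω), act W (au σ) (act W (incl L L Ω) P) = act W (incl L L Ω) P :=
    fun σ => rs_act_incl (K := L) (F := L) W σ P
  have k : ∀ σ : Ω ≃ₐ[L] Ω, (act W (au σ) H' - H') + (act W (au σ) H' - H') = 0 := by
    intro σ
    rw [sub_add_sub_comm, ← map_add, hH, fixP, sub_self]
  obtain ⟨T, hT, hTf⟩ := sel_triv (R := R) (S := S) hW h2 hirr0 hsep0 hint hcond H Ω'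
    (cob_isCoc W H') k (fun v => by
    let ι : Ω →ₐ[L] Ω' v := IsSepClosed.lift
    refine ⟨ι, act W ι H', fun τ σ hc => ?_⟩
    rw [map_sub, act_act, act_act, ← hc])
  obtain ⟨Q, hQ⟩ := fixed_point (K := L) (F := L) (Ω := Ω) W (H' - T)
    (fun σ => by
      have h1 := hTf σ
      show act W (au σ) (H' - T) = H' - T
      rw [map_sub]
      have h2 : act W (au σ) H' = (act W (au σ) T - T) + H' := by rw [← h1]; abel
      rw [h2]; abel)
  refine ⟨Q, 0, add_zero _, ?_⟩
  apply act_inj W (incl L L Ω)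
  rw [map_add, map_add, map_zero, hQ, ← hH, add_zero]
  have : H' - T + (H' - T) = (H' + H') - (T + T) := by abel
  rw [this, hT, sub_zero]

omit Ω Ω' in
include R hW h2 hirr0 hsep0 hint hcond H in
/-- The conclusion of the descent. -/
theorem concl : Concl S L W := by
  refine ⟨pts (R := R) (S := S) (Ω := SeparableClosure L) hW h2 hirr0 hsep0 hint hcond H
    (fun v => SeparableClosure (v.adicCompletion L)), ?_⟩
  rintro f hf hloc ⟨m, hm⟩
  exact pow_coc (R := R) (S := S) hW h2 hirr0 hsep0 hint hcond H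
    (fun v => SeparableClosure (v.adicCompletion L)) hf m hm hloc

end sel

end Pool.Agent.NH7.Cub.Tw
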