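import Pool.Agent.NH7.Cub.Fin
import Pool.Agent.NH7.Cub.Glob2

/-!
The descent for quadratic twists over a tower of quadratic extensions of `k(s)`.
-/

set_option autoImplicit false
set_option linter.all false

open WithZero Polynomial IsDedekindDomain

namespace Pool.Agent.NH7.Cub

open Pool.Agent.W309.Sha (PointsComplete ShaTwoTrivial ShaTateTrivial Points)

/-- The twist by `D` of the curve `y ^ 2 = x ^ 3 + a x ^ 2 + b x + c - s`. -/
noncomputable def crvD (k L : Type) [Field k] [Field L] [Algebra k[X] L] (a b c : k) (D : L) :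
    WeierstrassCurve L where
  a₁ := 0
  a₂ := D * algebraMap k[X] L (C a)
  a₃ := 0
  a₄ := D ^ 2 * algebraMap k[X] L (C b)
  a₆ := D ^ 3 * algebraMap k[X] L (C c - X)

section fin

variable {k K L S : Type} [Field k] [Field K] [Algebra k[X] K] [IsFractionRing k[X] K] [Field L]
  [Algebra K L] [Algebra k[X] L] [IsScalarTower k[X] K L] [CommRing S] [IsDedekindDomain S]
  [Algebra S L] [IsFractionRing S L] [Algebra k[X] S] [IsScalarTower k[X] S L]

open scoped Classical in
theorem main_tw [Algebra.IsIntegral k[X] S] (h2 : (2 : k) ≠ 0) (hL : TwoTower K L) (a b c : k)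
    (hab : a ^ 2 ≠ 3 * b) (D : L) (hD : D ≠ 0)
    (hram : ∀ w : HeightOneSpectrum S,
      ((w.asIdeal.under k[X]).map (algebraMap k[X] S) ≤ w.asIdeal ^ 2 ∨
        ¬ IsSquare (w.valuation L D)) →
      ∀ g : k[X], g ^ 3 + C a * g ^ 2 + C b * g + C c - X ∉ w.asIdeal.under k[X]) :
    (∀ P : Points (crvD k L a b c D) L, ∃! Q, Q + Q = P) ∧
      ShaTwoTrivial S (crvD k L a b c D) ∧ ShaTateTrivial S (crvD k L a b c D) := by
  have hinj : Function.Injective (algebraMap k[X] K) := IsFractionRing.injective k[X] K
  have h2R : IsUnit (2 : k[X]) := by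
    have : (2 : k[X]) = C 2 := (map_ofNat C 2).symm
    rw [this]
    exact isUnit_C.2 h2.isUnit
  have h2L : (2 : L) ≠ 0 := by
    have : (2 : L) = algebraMap k[X] L 2 := (map_ofNat _ 2).symm
    rw [this]
    exact (h2R.map (algebraMap k[X] L)).ne_zero
  have hirr := cub_irr (K := K) a b c
  have hsep := cub_sepb (K := K) a b c h2 hab
  have claim := claim_tower (R := k[X]) h2R hirr hsep ⟨C a, rfl⟩ ⟨C b, rfl⟩ ⟨C c - X, rfl⟩
    (base_H1 a b c) L hL
  haveI hfd0 : Algebra.IsAlgebraic K L := by
    haveI : Algebra.IsAlgebraic k[X] L := by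
      haveI : Algebra.IsAlgebraic k[X] S := inferInstance
      have h1 : ∀ s : S, IsAlgebraic k[X] (algebraMap S L s) := fun s =>
        (Algebra.IsAlgebraic.isAlgebraic (R := k[X]) s).algebraMap
      refine ⟨fun x => ?_⟩
      obtain ⟨n, d, hd, rfl⟩ := IsFractionRing.div_surjective (A := S) x
      rw [div_eq_mul_inv]
      exact (h1 n).mul (h1 d).inv
    exact ⟨fun x => (Algebra.IsAlgebraic.isAlgebraic (R := k[X]) x).extendScalars hinj⟩
  have hgood : ∀ v : Valuation L ℤᵐ⁰, Function.Surjective v → Int' k[X] v →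
      Good (cf K a) (cf K b) (cs K c) v := by
    intro v hv hR
    obtain ⟨w, hw⟩ := exists_center (S := S) v hv (int_of_int v hR)
    rw [← hw]
    apply good_of a b c w
    by_cases h : (w.asIdeal.under k[X]).map (algebraMap k[X] S) ≤ w.asIdeal ^ 2
    · exact Or.inr (hram w (Or.inl h))
    · exact Or.inl h
  obtain ⟨hirrL, hfd, HL, hsil⟩ := claim hgood
  have ea : algebraMap K L (cf K a) = algebraMap k[X] L (C a) :=
    (IsScalarTower.algebraMap_apply k[X] K L (C a)).symm
  have eb : algebraMap K L (cf K b) = algebraMap k[X] L (C b) :=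
    (IsScalarTower.algebraMap_apply k[X] K L (C b)).symm
  have ec : algebraMap K L (cs K c) = algebraMap k[X] L (C c - X) :=
    (IsScalarTower.algebraMap_apply k[X] K L (C c - X)).symm
  have hsepL : (cub (algebraMap K L (cf K a)) (algebraMap K L (cf K b))
      (algebraMap K L (cs K c))).Separable := by
    rw [← cub_map]
    exact hsep.map
  have hRS : ∀ v : HeightOneSpectrum S, Int' k[X] (v.valuation L) := by
    intro v r
    rw [IsScalarTower.algebraMap_apply k[X] S L]
    exact v.valuation_le_one _
  rw [ea, eb, ec] at hirrL HL hsepL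
  have hTw : IsTw (crvD k L a b c D) D (algebraMap k[X] L (C a)) (algebraMap k[X] L (C b))
      (algebraMap k[X] L (C c - X)) :=
    { a1 := rfl
      a2 := rfl
      a3 := rfl
      a4 := rfl
      a6 := rfl
      ne := hD }
  have hconcl := Tw.concl (R := k[X]) (S := S) hTw h2L hirrL hsepL
    (fun v => ⟨hRS v _, hRS v _, hRS v _⟩) (fun v => by
      by_cases hs : ∀ g : k[X], g ^ 3 + C a * g ^ 2 + C b * g + C c - X ∉ v.asIdeal.under k[X]
      · left
        have := hsil (v.valuation L) (v.valuation_surjective L) (hRS v)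
          (sil_of (K := K) a b c v hs)
        rw [ea, eb, ec] at this
        exact this
      · right
        have h1 : ¬ ((v.asIdeal.under k[X]).map (algebraMap k[X] S) ≤ v.asIdeal ^ 2 ∨
            ¬ IsSquare (v.valuation L D)) := fun h => hs (hram v h)
        rw [not_or, not_not] at h1
        obtain ⟨hun, hsq⟩ := h1
        refine ⟨?_, hsq⟩
        obtain ⟨x, hx⟩ := unr_of (K := K) (L := L) v hun
        obtain ⟨p, e, he, hp, -⟩ := exists_below (K := K) (v.valuation L)
          (v.valuation_surjective L) (hRS v)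
        have he1 : e = 1 := by
          rw [hp] at hx
          have hx0 : p.valuation K x ≠ 0 := by
            intro h0
            rw [h0, zero_pow he.ne'] at hx
            exact exp_ne_zero hx.symm
          have h1 : p.valuation K x = exp (log (p.valuation K x)) := (exp_log hx0).symm
          rw [h1, ← exp_nsmul, exp_inj, nsmul_eq_mul] at hx
          have he1 : (e : ℤ) ∣ 1 := ⟨-(log (p.valuation K x)), by linarith⟩
          have := Int.le_of_dvd (by norm_num) he1
          omega
        have h3 : disc3 (algebraMap k[X] L (C a)) (algebraMap k[X] L (C b))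
            (algebraMap k[X] L (C c - X)) =
            algebraMap K L (disc3 (cf K a) (cf K b) (cs K c)) := by
          rw [← ea, ← eb, ← ec]
          simp only [disc3, map_add, map_sub, map_mul, map_pow, map_ofNat]
        rw [h3, hp, he1, pow_one]
        exact disc_cond a b c h2 hab p) HL
  obtain ⟨hp, hs, ht⟩ := Pool.Agent.W309.Sha.of_concl _ hconcl
  refine ⟨bij_of _ (tor_zero _ rfl rfl h2L ?_) hp, hs, ht⟩
  exact Tw.tw_irr hD hirrL

end fin

end Pool.Agent.NH7.Cub
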