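import Pool.Agent.NH7.Cub.Den2
import Pool.Agent.NH7.Cub.Fin2

/-!
Almost all tuples of polynomials over a number field are silent.
-/

set_option autoImplicit false
set_option linter.all false

open scoped Classical
open Polynomial Finset IsDedekindDomain

namespace Pool.Agent.NH7.Cub

open Pool.Agent.R431.SG NumberField

section dens

variable {k : Type} [Field k] [NumberField k]

theorem redk_ne {p : ℕ} [Fact p.Prime] (σ : 𝓞 k →+* ℤ_[p]) {a b : k} (hab : a ^ 2 ≠ 3 * b)
    (ha : ‖ext σ a‖ ≤ 1) (hb : ‖ext σ b‖ ≤ 1) (he : ‖ext σ (a ^ 2 - 3 * b)⁻¹‖ ≤ 1) :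
    redk σ a ^ 2 ≠ 3 * redk σ b := by
  set a₀ : ℤ_[p] := ⟨ext σ a, ha⟩ with ha0
  set b₀ : ℤ_[p] := ⟨ext σ b, hb⟩ with hb0
  set e₀ : ℤ_[p] := ⟨ext σ (a ^ 2 - 3 * b)⁻¹, he⟩ with he0
  have ra : redk σ a = PadicInt.toZMod a₀ := by rw [redk, dif_pos ha]
  have rb : redk σ b = PadicInt.toZMod b₀ := by rw [redk, dif_pos hb]
  have h1 : (a₀ ^ 2 - 3 * b₀) * e₀ = 1 := by
    apply PadicInt.ext
    push_cast
    show (ext σ a ^ 2 - 3 * ext σ b) * ext σ (a ^ 2 - 3 * b)⁻¹ = 1
    have h2 : ext σ a ^ 2 - 3 * ext σ b = ext σ (a ^ 2 - 3 * b) := by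
      rw [map_sub, map_pow, map_mul, map_ofNat]
    rw [h2, ← map_mul, mul_inv_cancel₀ (sub_ne_zero.2 hab), map_one]
  intro h
  have h2 := congrArg (PadicInt.toZMod (p := p)) h1
  rw [map_mul, map_sub, map_pow, map_mul, map_one, map_ofNat, ← ra, ← rb, h, sub_self,
    zero_mul] at h2
  exact zero_ne_one h2

/-- Restriction to a row. -/
def row {m n p : ℕ} (i : Fin m) : (Fin m × Fin (n + 1) → ZMod p) →+ (Fin (n + 1) → ZMod p) where
  toFun d := fun j => d (i, j)
  map_zero' := rfl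
  map_add' _ _ := rfl

theorem row_surj {m n p : ℕ} (i : Fin m) : Function.Surjective (row (n := n) (p := p) i) := by
  intro z
  exact ⟨fun q => z q.2, rfl⟩

theorem dens_main {I : Type} [Fintype I] (B : Module.Basis I ℤ (𝓞 k)) {a b : k} (c : k)
    (hab : a ^ 2 ≠ 3 * b) (m : ℕ) {n : ℕ} (hn : 1 ≤ n) {η : ℝ} (hη : 0 < η) :
    ∃ H0 : ℕ, ∀ H : ℕ, H0 ≤ H → ∀ Bad : Set (Fin m × Fin (n + 1) → 𝓞 k),
      (∀ d ∈ Bad, (∀ i j, |B.repr (d i) j| ≤ (H : ℤ)) ∧ ∃ i : Fin m,
        ¬ Irreducible ((pol fun j : Fin (n + 1) =>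
          algebraMap (𝓞 k) k (d (i, j))).comp (cub a b c))) →
      (Bad.ncard : ℝ) ≤ η * (2 * H + 1) ^ (Fintype.card (Fin m × Fin (n + 1)) *
        Fintype.card I) := by
  obtain ⟨N1, h1⟩ := ext_int a
  obtain ⟨N2, h2⟩ := ext_int b
  obtain ⟨N3, h3⟩ := ext_int c
  obtain ⟨N4, h4⟩ := ext_int (a ^ 2 - 3 * b)⁻¹
  set p0 := 17 + N1 + N2 + N3 + N4 with hp0
  have hnpos : (0 : ℝ) < n := by exact_mod_cast (by omega : 0 < n)
  have hδ0 : (0 : ℝ) < 1 / (12 * n : ℝ) := by positivity
  have hδ1 : 1 / (12 * n : ℝ) ≤ 1 := by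
    rw [div_le_one (by positivity)]
    have : (1 : ℝ) ≤ n := by exact_mod_cast hn
    linarith
  obtain ⟨H0, hH0⟩ := density (I := Fin m × Fin (n + 1)) B (Finset.univ : Finset (Fin m)) hδ0 hδ1 p0
    (fun i p _ σ => {d | row i d ∈ goodPol p n (redk σ a) (redk σ b) (redk σ c)})
    (fun i _ p _ σ hp => by
      have hne := redk_ne σ hab (h1 p σ (by omega)) (h2 p σ (by omega)) (h4 p σ (by omega))
      have h5 := card_good p hn (by omega) (redk σ a) (redk σ b) (redk σ c) hne
      have h6 := proportion (row (n := n) (p := p) i) (row_surj i)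
        (goodPol p n (redk σ a) (redk σ b) (redk σ c)) (δ := 1 / (12 * n : ℝ))
        (Ω := {d | row i d ∈ goodPol p n (redk σ a) (redk σ b) (redk σ c)}) (by
          rw [Fintype.card_fun, ZMod.card, Fintype.card_fin, Nat.cast_pow]
          exact h5) (fun x hx => hx)
      rw [Fintype.card_fun, ZMod.card, Nat.cast_pow] at h6
      exact h6) hη
  refine ⟨H0, fun H hH Bad hBad => hH0 H hH Bad (fun d hd => ?_)⟩
  obtain ⟨hbox, i, hi⟩ := hBad d hd
  refine ⟨hbox, i, Finset.mem_univ _, fun p _ σ hp hmem => hi ?_⟩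
  exact comp_lift σ (by omega) (fun j => d (i, j)) (h1 p σ (by omega)) (h2 p σ (by omega))
    (h3 p σ (by omega)) hmem

end dens

section under

variable {k : Type} [Field k]

/-- If the composition is irreducible then the primes above the polynomial are silent. -/
theorem sil_of_comp {S : Type} [CommRing S] [IsDedekindDomain S] [Algebra k[X] S] {a b c : k}
    {P : k[X]} (hP0 : P.natDegree ≠ 0) (hP : Irreducible (P.comp (cub a b c)))
    (w : HeightOneSpectrum S) (hw : algebraMap k[X] S P ∈ w.asIdeal) (g : k[X]) :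
    g ^ 3 + C a * g ^ 2 + C b * g + C c - X ∉ w.asIdeal.under k[X] := by
  have hirr : Irreducible P := by
    refine ⟨fun hu => ?_, fun s t hst => ?_⟩
    · exact hP0 (natDegree_eq_zero_of_isUnit hu)
    · rw [hst, mul_comp] at hP
      have key : ∀ f : k[X], IsUnit (f.comp (cub a b c)) → IsUnit f := by
        intro f hf
        have h1 := natDegree_eq_zero_of_isUnit hf
        rw [natDegree_comp, cub_natDegree] at h1
        have h2 : f.natDegree = 0 := by omega
        rw [eq_C_of_natDegree_eq_zero h2, C_comp] at hf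
        rw [eq_C_of_natDegree_eq_zero h2]
        exact hf
      exact (hP.isUnit_or_isUnit rfl).imp (key s) (key t)
  intro hg
  have hPm : P ∈ w.asIdeal.under k[X] := hw
  haveI hprime : (w.asIdeal.under k[X]).IsPrime := inferInstance
  have hmax : (Ideal.span {P} : Ideal k[X]).IsMaximal :=
    PrincipalIdealRing.isMaximal_of_irreducible hirr
  have heq : Ideal.span {P} = w.asIdeal.under k[X] :=
    hmax.eq_of_le hprime.ne_top ((Ideal.span_singleton_le_iff_mem _).2 hPm)
  rw [← heq, Ideal.mem_span_singleton] at hg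
  exact silent_of_comp hP0 hP g hg

end under

end Pool.Agent.NH7.Cub
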