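import Pool.Agent.NH7.Cub.Nrm

/-!
Elements of square norm at a place where the cubic has no root.
-/

set_option autoImplicit false
set_option linter.all false

open WithZero Polynomial

namespace Pool.Agent.NH7.Cub

theorem exists_roots {F E : Type} [Field F] [Field E] [Algebra F E] [IsSepClosed E] {a b c : F}
    (hsep : (cub a b c).Separable) :
    ∃ p q r : E, algebraMap F E a = -(p + q + r) ∧ algebraMap F E b = p * q + q * r + r * p ∧
      algebraMap F E c = -(p * q * r) ∧ p ≠ q ∧ q ≠ r ∧ r ≠ p := by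
  classical
  set P : Cubic F := ⟨1, a, b, c⟩ with hP
  have hPc : P.toPoly = cub a b c := by
    simp [hP, Cubic.toPoly, cub]
  have hP1 : P.a ≠ 0 := one_ne_zero
  have hsep' : ((cub a b c).map (algebraMap F E)).Separable := hsep.map
  have hspl := IsSepClosed.splits_of_separable _ hsep'
  rw [← hPc] at hspl
  obtain ⟨x, y, z, h⟩ := (Cubic.splits_iff_roots_eq_three (φ := algebraMap F E) hP1).1 hspl
  have hb := Cubic.b_eq_three_roots hP1 h
  have hc := Cubic.c_eq_three_roots hP1 h
  have hd := Cubic.d_eq_three_roots hP1 h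
  have hnd : (Cubic.map (algebraMap F E) P).roots.Nodup := by
    rw [Cubic.map_roots, hPc]
    exact nodup_roots hsep'
  rw [h] at hnd
  have hb' : algebraMap F E a = algebraMap F E 1 * -(x + y + z) := hb
  have hc' : algebraMap F E b = algebraMap F E 1 * (x * y + x * z + y * z) := hc
  have hd' : algebraMap F E c = algebraMap F E 1 * -(x * y * z) := hd
  rw [map_one, one_mul] at hb' hc' hd'
  refine ⟨x, y, z, hb', by rw [hc']; ring, hd', ?_, ?_, ?_⟩
  · rintro rfl
    simp at hnd
  · rintro rfl
    simp at hnd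
  · rintro rfl
    simp at hnd

theorem root_of_split {E : Type*} [Field E] {a b c p q r : E} (ha : a = -(p + q + r))
    (hb : b = p * q + q * r + r * p) (hc : c = -(p * q * r)) :
    p ^ 3 + a * p ^ 2 + b * p + c = 0 := by
  rw [ha, hb, hc]; ring

theorem sil_norm {F A : Type} [Field F] [Field A] [Algebra F A] {a b c : F}
    (hirr : Irreducible (cub a b c)) (hsep : (cub a b c).Separable)
    (h3 : Module.finrank F A = 3) {θ : A}
    (hθ : θ ^ 3 + algebraMap F A a * θ ^ 2 + algebraMap F A b * θ + algebraMap F A c = 0)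
    (v : Valuation F ℤᵐ⁰) (hv : Function.Surjective v) (ha : v a ≤ 1) (hb : v b ≤ 1)
    (hc : v c ≤ 1) (hs : Sil a b c v) (u : Valuation A ℤᵐ⁰)
    (h1 : ∀ x, v x ≤ 1 → u (algebraMap F A x) ≤ 1) (h2 : ∀ x, v x < 1 → u (algebraMap F A x) < 1)
    {α : A} (hα : α ≠ 0) (hN : IsSquare (Algebra.norm F α)) : IsSquare (u α) := by
  obtain ⟨x, y, z, hxyz⟩ := exists_basis hirr h3 hθ α
  obtain ⟨π, hπ0, hπ⟩ := surj_unif v hv
  set m := max (v x) (max (v y) (v z)) with hm
  have hm0 : m ≠ 0 := by
    intro h0
    apply hα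
    have e1 : v x = 0 := le_antisymm (h0 ▸ le_max_left _ _) zero_le'
    have e2 : v y = 0 := le_antisymm (h0 ▸ (le_max_left _ _).trans (le_max_right _ _)) zero_le'
    have e3 : v z = 0 := le_antisymm (h0 ▸ (le_max_right _ _).trans (le_max_right _ _)) zero_le'
    rw [Valuation.zero_iff] at e1 e2 e3
    rw [hxyz, e1, e2, e3]; simp
  have hmlog : m = exp (log m) := (exp_log hm0).symm
  set n := log m with hn
  set κ : F := π ^ n with hκ
  have hκ0 : κ ≠ 0 := zpow_ne_zero _ hπ0
  have hvκ : v κ = exp (-n) := by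
    rw [hκ, map_zpow₀, hπ, ← exp_zsmul]; simp
  have hmul : ∀ t, v (t * κ) = v t * exp (-n) := fun t => by rw [map_mul, hvκ]
  have hexp : m * exp (-n) = 1 := by rw [hmlog, ← exp_add]; simp
  have hle : ∀ t, v t ≤ m → v (t * κ) ≤ 1 := fun t ht => by
    rw [hmul, ← hexp]; exact mul_le_mul' ht le_rfl
  have hx1 := hle x (le_max_left _ _)
  have hy1 := hle y ((le_max_left _ _).trans (le_max_right _ _))
  have hz1 := hle z ((le_max_right _ _).trans (le_max_right _ _))
  have hp : v (x * κ) = 1 ∨ v (y * κ) = 1 ∨ v (z * κ) = 1 := by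
    rcases max_choice (v x) (max (v y) (v z)) with h | h
    · left
      rw [hmul, ← h, ← hm, hexp]
    · rcases max_choice (v y) (v z) with h' | h'
      · right; left
        rw [hmul, ← h', ← h, ← hm, hexp]
      · right; right
        rw [hmul, ← h', ← h, ← hm, hexp]
  set β : A := α * algebraMap F A κ with hβ
  have hβ' : β = algebraMap F A (x * κ) + algebraMap F A (y * κ) * θ +
      algebraMap F A (z * κ) * θ ^ 2 := by
    rw [hβ, hxyz]
    simp only [map_mul]
    ring
  have huβ : u β = 1 := by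
    rw [hβ']
    exact prim_unit (algebraMap F A) v u h1 h2 ha hb hc hs
      (by rw [hθ, map_zero]; exact zero_lt_one) hx1 hy1 hz1 hp
  -- the norm of `β` is a unit
  have hNβ : v (Algebra.norm F β) = 1 := by
    let E := AlgebraicClosure F
    obtain ⟨p, q, r, e1, e2, e3, pq, qr, rp⟩ := exists_roots (E := E) hsep
    obtain ⟨B, B1, B2⟩ := exists_dom v (algebraMap F E)
    set g : F[X] := C (x * κ) + C (y * κ) * X + C (z * κ) * X ^ 2 with hg
    have hgE : ∀ t : E, aeval t g = algebraMap F E (x * κ) + algebraMap F E (y * κ) * t +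
        algebraMap F E (z * κ) * t ^ 2 := fun t => by simp [hg]
    have hgA : aeval θ g = β := by
      rw [hβ']; simp [hg]
    have e4 := norm_prod (E := E) hirr h3 hθ e1 e2 e3 pq qr rp g
    rw [hgA] at e4
    have hroot : ∀ t : E, t ^ 3 + algebraMap F E a * t ^ 2 + algebraMap F E b * t +
        algebraMap F E c = 0 → B.valuation (aeval t g) = 1 := by
      intro t ht
      rw [hgE]
      exact prim_unit (algebraMap F E) v B.valuation B1 B2 ha hb hc hs
        (by rw [ht, map_zero]; exact zero_lt_one) hx1 hy1 hz1 hp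
    have f1 := hroot p (root_of_split e1 e2 e3)
    have f2 := hroot q (root_of_split (p := q) (q := r) (r := p) (by rw [e1]; ring)
      (by rw [e2]; ring) (by rw [e3]; ring))
    have f3 := hroot r (root_of_split (p := r) (q := p) (r := q) (by rw [e1]; ring)
      (by rw [e2]; ring) (by rw [e3]; ring))
    have f4 : B.valuation (algebraMap F E (Algebra.norm F β)) = 1 := by
      rw [e4, map_mul, map_mul, f1, f2, f3]; simp
    rcases lt_trichotomy (v (Algebra.norm F β)) 1 with h | h | h
    · have := B2 _ h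
      rw [f4] at this
      exact absurd this (lt_irrefl _)
    · exact h
    · have h' : v (Algebra.norm F β)⁻¹ < 1 := by
        rw [map_inv₀]; exact inv_lt_one_of_one_lt₀ h
      have := B2 _ h'
      rw [map_inv₀, map_inv₀, f4, inv_one] at this
      exact absurd this (lt_irrefl _)
  haveI : FiniteDimensional F A := FiniteDimensional.of_finrank_pos (by rw [h3]; norm_num)
  have hNκ : Algebra.norm F (algebraMap F A κ) = κ ^ 3 := by
    rw [Algebra.norm_algebraMap, h3]
  rw [hβ, map_mul, hNκ, map_mul, map_pow, hvκ] at hNβ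
  -- hence `n` is even
  obtain ⟨s, hs'⟩ := hN
  have hs0 : s ≠ 0 := by
    rintro rfl
    rw [hs', mul_zero, map_zero, zero_mul] at hNβ
    exact zero_ne_one hNβ
  obtain ⟨k, hk⟩ := exists_exp v hs0
  rw [hs', map_mul, hk, ← exp_add, ← exp_nsmul, ← exp_add, ← exp_zero, exp_inj] at hNβ
  have hneven : Even n := by
    rw [nsmul_eq_mul] at hNβ
    push_cast at hNβ
    rw [Int.even_iff]
    omega
  have h5 : IsSquare (u (algebraMap F A κ)) := by
    apply sq_map (algebraMap F A) v u h1 hπ
    rw [hvκ, isSquare_exp]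
    exact hneven.neg
  obtain ⟨l, hl⟩ := h5
  rw [hβ, map_mul, hl] at huβ
  refine ⟨l⁻¹, ?_⟩
  rw [← mul_inv]
  exact eq_inv_of_mul_eq_one_left huβ

end Pool.Agent.NH7.Cub
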