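import Pool.Agent.NH7.Cub.Crv2
import Pool.Agent.NH7.Cub.Sil
import Pool.Agent.W309.TD.Des

/-!
Cocycles with values in the points of order two and functions on the roots of the cubic.
-/

set_option autoImplicit false
set_option linter.all false

open WeierstrassCurve WeierstrassCurve.Affine Polynomial
open scoped Classical Pointwise

namespace Pool.Agent.NH7.Cub

open Pool.Agent.W309.TD (Pt act act_some act_inj act_act act_zero two_act au au_apply au_mul IsCoc
  IsCob cob_isCoc locConst_apply exists_root compare rs rs_apply incl fixed_point rs_act_incl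
  LocTriv exists_restrict)

/-- The curve over an extension. -/
abbrev cv {K : Type} [Field K] (W : WeierstrassCurve K) (Ω : Type) [Field Ω] [Algebra K Ω] :
    Affine Ω := (W.baseChange Ω).toAffine

/-- `e` is the first coordinate of a point of order two. -/
def Rt {K : Type} [Field K] (W : WeierstrassCurve K) {Ω : Type} [Field Ω] [Algebra K Ω] (e : Ω) :
    Prop :=
  e ^ 3 + algebraMap K Ω W.a₂ * e ^ 2 + algebraMap K Ω W.a₄ * e + algebraMap K Ω W.a₆ = 0

section equiv

variable {K Ω Ω' : Type} [Field K] [Field Ω] [Field Ω'] [Algebra K Ω] [Algebra K Ω']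
  (W : WeierstrassCurve K) (φ : Ω →ₐ[K] Ω')

theorem cv_a2 : (cv W Ω).a₂ = algebraMap K Ω W.a₂ := rfl
theorem cv_a4 : (cv W Ω).a₄ = algebraMap K Ω W.a₄ := rfl

theorem rt_map {W : WeierstrassCurve K} {e : Ω} (h : Rt W e) : Rt W (φ e) := by
  have := congrArg φ h
  simp only [map_add, map_mul, map_pow, AlgHom.commutes, map_zero] at this
  exact this

theorem sg_act (e : Ω) (P : Pt W Ω) : sg (cv W Ω') (φ e) (act W φ P) = φ (sg (cv W Ω) e P) := by
  rcases P with _ | ⟨x, y, hxy⟩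
  · rw [act_zero]; simp [sg]
  · obtain ⟨h, hh⟩ := act_some W φ hxy
    rw [hh]
    have : φ x = φ e ↔ x = e := φ.injective.eq_iff
    simp only [sg, this]
    split_ifs <;> simp

theorem rt_act (e : Ω) (P : Pt W Ω) : rt (cv W Ω') (φ e) (act W φ P) = φ (rt (cv W Ω) e P) := by
  rcases P with _ | ⟨x, y, hxy⟩
  · rw [act_zero]; simp [rt]
  · obtain ⟨h, hh⟩ := act_some W φ hxy
    rw [hh]
    simp only [rt, map_div₀, map_sub, map_pow, map_mul, map_ofNat, map_add, cv_a2, cv_a4,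
      AlgHom.commutes]

theorem xm_act (e : Ω) (P : Pt W Ω) : xm (cv W Ω') (φ e) (act W φ P) = φ (xm (cv W Ω) e P) := by
  rcases P with _ | ⟨x, y, hxy⟩
  · rw [act_zero]; simp [xm]
  · obtain ⟨h, hh⟩ := act_some W φ hxy
    rw [hh]
    simp only [xm, map_sub]

theorem dl_act (e : Ω) (P : Pt W Ω) : dl (cv W Ω') (φ e) (act W φ P) = φ (dl (cv W Ω) e P) := by
  rcases P with _ | ⟨x, y, hxy⟩
  · rw [act_zero]; simp [dl]
  · obtain ⟨h, hh⟩ := act_some W φ hxy
    rw [hh]
    have : φ x = φ e ↔ x = e := φ.injective.eq_iff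
    simp only [dl, this]
    split_ifs
    · simp only [map_add, map_mul, map_pow, map_ofNat, cv_a2, cv_a4, AlgHom.commutes]
    · simp only [map_sub]

theorem hh_act (e : Ω) (P : Pt W Ω) : hh (cv W Ω') (φ e) (act W φ P) = φ (hh (cv W Ω) e P) := by
  unfold hh
  rw [sg_act, rt_act, xm_act]
  simp only [two_act, map_eq_zero]
  split_ifs <;> simp

theorem sg_fix (e : Ω) (P : Pt W Ω) (ψ : Ω →ₐ[K] Ω) :
    ψ (sg (cv W Ω) e P) = sg (cv W Ω) e P := by
  rcases sg_or (W := cv W Ω) e P with h | h <;> rw [h] <;> simp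

end equiv

section roots

variable {K Ω : Type} [Field K] [Field Ω] [Algebra K Ω] {W : WeierstrassCurve K} {p q r : Ω}
  (hC : IsCub (cv W Ω) p q r)

include hC in
theorem rt_iff {e : Ω} : Rt W e ↔ e = p ∨ e = q ∨ e = r := by
  have h2 : algebraMap K Ω W.a₂ = -(p + q + r) := hC.a2
  have h4 : algebraMap K Ω W.a₄ = p * q + q * r + r * p := hC.a4
  have h6 : algebraMap K Ω W.a₆ = -(p * q * r) := hC.a6
  have key : e ^ 3 + algebraMap K Ω W.a₂ * e ^ 2 + algebraMap K Ω W.a₄ * e + algebraMap K Ω W.a₆ =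
      (e - p) * ((e - q) * (e - r)) := by
    rw [h2, h4, h6]; ring
  unfold Rt
  rw [key, mul_eq_zero, mul_eq_zero, sub_eq_zero, sub_eq_zero, sub_eq_zero]

include hC in
theorem root_cub {e : Ω} (he : Rt W e) : ∃ q' r', IsCub (cv W Ω) e q' r' := by
  rcases (rt_iff hC).1 he with rfl | rfl | rfl
  · exact ⟨_, _, hC⟩
  · exact ⟨_, _, hC.rot⟩
  · exact ⟨_, _, hC.rot.rot⟩

theorem exists_cub [IsSepClosed Ω] (h1 : W.a₁ = 0) (h3 : W.a₃ = 0) (h2 : (2 : K) ≠ 0)
    (hsep : (cub W.a₂ W.a₄ W.a₆).Separable) : ∃ p q r : Ω, IsCub (cv W Ω) p q r := by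
  obtain ⟨p, q, r, e1, e2, e3, pq, qr, rp⟩ := exists_roots (E := Ω) hsep
  refine ⟨p, q, r, ?_⟩
  exact
    { a1 := by show algebraMap K Ω W.a₁ = 0; rw [h1, map_zero]
      a2 := e1
      a3 := by show algebraMap K Ω W.a₃ = 0; rw [h3, map_zero]
      a4 := e2
      a6 := e3
      two := by
        have : (2 : Ω) = algebraMap K Ω 2 := (map_ofNat _ 2).symm
        rw [this]
        exact (_root_.map_ne_zero _).2 h2
      pq := pq
      qr := qr
      rp := rp }

include hC in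
theorem prod_perm (σ : Ω ≃ₐ[K] Ω) (G : Ω → Ω) : G (σ p) * G (σ q) * G (σ r) = G p * G q * G r := by
  have hZ : ∀ x, x ∈ ({p, q, r} : Finset Ω) ↔ Rt W x := by
    intro x
    rw [rt_iff hC]
    simp
  have hmem : ∀ x ∈ ({p, q, r} : Finset Ω), σ x ∈ ({p, q, r} : Finset Ω) := by
    intro x hx
    rw [hZ] at hx ⊢
    exact rt_map (σ : Ω →ₐ[K] Ω) hx
  have h1 : ∀ H : Ω → Ω, H p * H q * H r = ∏ x ∈ ({p, q, r} : Finset Ω), H x := by
    intro H
    rw [Finset.prod_insert, Finset.prod_insert, Finset.prod_singleton, mul_assoc]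
    · rw [Finset.mem_singleton]; exact hC.qr
    · rw [Finset.mem_insert, Finset.mem_singleton]
      rintro (h | h)
      · exact hC.pq h
      · exact hC.rp h.symm
  rw [h1 (fun x => G (σ x)), h1 G]
  have himg : ({p, q, r} : Finset Ω).image σ = {p, q, r} := by
    apply Finset.eq_of_subset_of_card_le
    · intro x hx
      obtain ⟨y, hy, rfl⟩ := Finset.mem_image.1 hx
      exact hmem y hy
    · rw [Finset.card_image_of_injective _ σ.injective]
  conv_rhs => rw [← himg]
  rw [Finset.prod_image (fun x _ y _ h => σ.injective h)]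

end roots

section rho

variable {K Ω : Type} [Field K] [Field Ω] [Algebra K Ω] [IsGalois K Ω]

theorem cont_rs (F' : Type) [Field F'] [Algebra K F'] [Algebra F' Ω] [IsScalarTower K F' Ω] :
    Continuous (fun σ : Ω ≃ₐ[F'] Ω => σ.restrictScalars K) := by
  haveI : Algebra.IsIntegral F' Ω := ⟨fun x => (Algebra.IsIntegral.isIntegral (R := K) x).tower_top⟩
  let g : (Ω ≃ₐ[F'] Ω) →* (Ω ≃ₐ[K] Ω) :=
    { toFun := fun σ => σ.restrictScalars K
      map_one' := rfl
      map_mul' := fun _ _ => rfl }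
  show Continuous g
  apply continuous_of_continuousAt_one
  rw [ContinuousAt, map_one]
  intro s hs
  rw [krullTopology_mem_nhds_one_iff] at hs
  obtain ⟨E, hE, hEs⟩ := hs
  let b := Module.finBasis K E
  have hU : IsOpen (⋂ i, {σ : Ω ≃ₐ[F'] Ω | σ (b i : Ω) = (b i : Ω)}) :=
    isOpen_iInter_of_finite fun i => stabilizer_isOpen_of_isIntegral (K := F') (b i : Ω)
  have h1 : (1 : Ω ≃ₐ[F'] Ω) ∈ (⋂ i, {σ : Ω ≃ₐ[F'] Ω | σ (b i : Ω) = (b i : Ω)}) := by
    rw [Set.mem_iInter]
    intro i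
    rfl
  rw [Filter.mem_map]
  refine Filter.mem_of_superset (hU.mem_nhds h1) ?_
  intro σ hσ
  apply hEs
  rw [SetLike.mem_coe, IntermediateField.mem_fixingSubgroup_iff]
  intro x hx
  rw [Set.mem_iInter] at hσ
  have h2 : (g σ) (((⟨x, hx⟩ : E) : Ω)) = ((⟨x, hx⟩ : E) : Ω) := by
    rw [← b.sum_repr ⟨x, hx⟩]
    rw [AddSubmonoidClass.coe_finset_sum, map_sum]
    refine Finset.sum_congr rfl fun i _ => ?_
    rw [IntermediateField.coe_smul, map_smul]
    congr 1
    exact hσ i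
  exact h2

variable {W : WeierstrassCurve K} {p q r : Ω} (hC : IsCub (cv W Ω) p q r)

include hC in
/-- The function on the roots attached to a cocycle. -/
theorem exists_rho (htr : ∀ e : Ω, Rt W e → ∃ σ : Ω ≃ₐ[K] Ω, σ p = e)
    {f : (Ω ≃ₐ[K] Ω) → Pt W Ω} (hf : IsCoc W f) (hf2 : ∀ σ, f σ + f σ = 0) :
    ∃ ρ : Ω → Ω, (∀ e, Rt W e → ρ e ≠ 0) ∧
      ∀ (σ : Ω ≃ₐ[K] Ω) (e : Ω), Rt W e → σ (ρ e) = sg (cv W Ω) (σ e) (f σ) * ρ (σ e) := by
  let F' := IntermediateField.adjoin K {p}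
  have hp : Rt W p := (rt_iff hC).2 (Or.inl rfl)
  have hpF : ∀ τ : Ω ≃ₐ[F'] Ω, τ p = p := fun τ =>
    τ.commutes ⟨p, IntermediateField.mem_adjoin_simple_self K p⟩
  have hsgσ : ∀ (σ : Ω ≃ₐ[K] Ω) (e : Ω) (T : Pt W Ω),
      sg (cv W Ω) (σ e) (act W (au σ) T) = sg (cv W Ω) e T := by
    intro σ e T
    have := sg_act W (au σ) e T
    rw [sg_fix] at this
    exact this
  obtain ⟨t, a, ht0, hta, ht⟩ := exists_root (K := F') (Ω := Ω) hC.two
    (fun τ => sg (cv W Ω) p (f (τ.restrictScalars K))) (fun τ => sg_or _ _)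
    (fun σ τ => by
      have e1 : f ((σ * τ).restrictScalars K) = f (σ.restrictScalars K) +
          act W (au (σ.restrictScalars K)) (f (τ.restrictScalars K)) :=
        hf.mul (σ.restrictScalars K) (τ.restrictScalars K)
      show sg (cv W Ω) p (f ((σ * τ).restrictScalars K)) = _
      have e2 : act W (au (σ.restrictScalars K)) (f (τ.restrictScalars K)) +
          act W (au (σ.restrictScalars K)) (f (τ.restrictScalars K)) = 0 :=
        (two_act W _ _).2 (hf2 _)
      rw [e1, hC.sg_add (hf2 _) e2]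
      congr 1
      have e3 := hsgσ (σ.restrictScalars K) p (f (τ.restrictScalars K))
      have e4 : (σ.restrictScalars K) p = p := hpF σ
      rw [e4] at e3
      exact e3)
    ((hf.lc.comp (sg (cv W Ω) p)).comp_continuous (cont_rs (K := K) (Ω := Ω) F'))
  -- elements of the group fixing `p`
  have hfixp : ∀ g : Ω ≃ₐ[K] Ω, g p = p → g t = sg (cv W Ω) p (f g) * t := by
    intro g hg
    have hfix : ∀ x : F', g (x : Ω) = (x : Ω) := by
      rintro ⟨x, hx⟩
      show g x = x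
      induction hx using IntermediateField.adjoin_induction with
      | mem x hx =>
        rw [Set.mem_singleton_iff] at hx
        rw [hx, hg]
      | algebraMap x => exact g.commutes x
      | add x y _ _ h1 h2 => rw [map_add, h1, h2]
      | inv x _ h1 => rw [map_inv₀, h1]
      | mul x y _ _ h1 h2 => rw [map_mul, h1, h2]
    let g' : Ω ≃ₐ[F'] Ω := AlgEquiv.ofRingEquiv (f := (g : Ω ≃+* Ω)) hfix
    have := ht g'
    exact this
  choose! s hs using htr
  let ρ : Ω → Ω := fun e => sg (cv W Ω) e (f (s e)) * (s e) t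
  have hρ : ∀ τ : Ω ≃ₐ[K] Ω, ρ (τ p) = sg (cv W Ω) (τ p) (f τ) * τ t := by
    intro τ
    have hτp : Rt W (τ p) := rt_map (τ : Ω →ₐ[K] Ω) hp
    set e := τ p with he
    have hse : (s e) p = e := hs e hτp
    set g : Ω ≃ₐ[K] Ω := (s e)⁻¹ * τ with hg
    have hgp : g p = p := by
      have h5 : (s e)⁻¹ ((s e) p) = p := (s e).symm_apply_apply p
      rw [hse] at h5
      rw [hg, AlgEquiv.mul_apply, ← he]
      exact h5
    have hτ : τ = s e * g := by rw [hg, mul_inv_cancel_left]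
    have h1 := hfixp g hgp
    obtain ⟨q', r', hCe⟩ := root_cub hC hτp
    have h2 : sg (cv W Ω) e (f τ) = sg (cv W Ω) e (f (s e)) * sg (cv W Ω) p (f g) := by
      rw [hτ, hf.mul, hCe.sg_add (hf2 _) ((two_act W _ _).2 (hf2 _))]
      congr 1
      have := hsgσ (s e) p (f g)
      rw [hse] at this
      exact this
    have h3 : τ t = sg (cv W Ω) p (f g) * (s e) t := by
      rw [hτ, AlgEquiv.mul_apply, h1, map_mul]
      congr 1
      exact sg_fix W p (f g) (s e : Ω →ₐ[K] Ω)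
    show sg (cv W Ω) e (f (s e)) * (s e) t = _
    rw [h2, h3]
    have h4 := sg_mul_self (W := cv W Ω) p (f g)
    linear_combination (-(sg (cv W Ω) e (f (s e)) * (s e) t)) * h4
  refine ⟨ρ, fun e he => ?_, fun σ e he => ?_⟩
  · exact mul_ne_zero (sg_ne _ _) ((_root_.map_ne_zero _).2 ht0)
  · have hse : (s e) p = e := hs e he
    set τ := s e with hτ
    have h1 := hρ τ
    have h2 := hρ (σ * τ)
    have h3 : (σ * τ) p = σ e := by rw [AlgEquiv.mul_apply, hse]
    rw [hse] at h1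
    rw [h3, AlgEquiv.mul_apply] at h2
    have hσe : Rt W (σ e) := rt_map (σ : Ω →ₐ[K] Ω) he
    obtain ⟨q', r', hCe⟩ := root_cub hC hσe
    have h4 : sg (cv W Ω) (σ e) (f (σ * τ)) = sg (cv W Ω) (σ e) (f σ) * sg (cv W Ω) e (f τ) := by
      rw [hf.mul, hCe.sg_add (hf2 _) ((two_act W _ _).2 (hf2 _))]
      congr 1
      exact hsgσ σ e (f τ)
    rw [h1, h2, h4, map_mul]
    have h5 : σ (sg (cv W Ω) e (f τ)) = sg (cv W Ω) e (f τ) :=
      sg_fix W e (f τ) (σ : Ω →ₐ[K] Ω)
    rw [h5]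
    have h6 := sg_mul_self (W := cv W Ω) (σ e) (f σ)
    linear_combination (-(sg (cv W Ω) e (f τ) * σ (τ t))) * h6

end rho

end Pool.Agent.NH7.Cub
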