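import Pool.Agent.NH7.Cub.Desc

/-!
The element of the cubic extension attached to a cocycle.
-/

set_option autoImplicit false
set_option linter.all false

open WeierstrassCurve WeierstrassCurve.Affine Polynomial
open scoped Classical Pointwise

namespace Pool.Agent.NH7.Cub

open Pool.Agent.W309.TD (Pt act act_some act_inj act_act act_zero two_act au au_apply au_mul IsCoc
  IsCob cob_isCoc locConst_apply exists_root compare rs rs_apply incl fixed_point rs_act_incl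
  LocTriv exists_restrict)

section glob

variable {K Ω : Type} [Field K] [Field Ω] [Algebra K Ω] [IsGalois K Ω] {W : WeierstrassCurve K}
  {p q r : Ω} (hC : IsCub (cv W Ω) p q r)

theorem sg_conj (σ : Ω ≃ₐ[K] Ω) (e : Ω) (T : Pt W Ω) :
    sg (cv W Ω) (σ e) (act W (au σ) T) = sg (cv W Ω) e T := by
  have := sg_act W (au σ) e T
  rw [sg_fix] at this
  exact this

theorem aeval_conj (σ : Ω ≃ₐ[K] Ω) (e : Ω) (g : K[X]) : σ (aeval e g) = aeval (σ e) g :=
  (Polynomial.aeval_algHom_apply (σ : Ω →ₐ[K] Ω) e g).symm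

include hC in
theorem exists_nu {f : (Ω ≃ₐ[K] Ω) → Pt W Ω} (hf2 : ∀ σ, f σ + f σ = 0) {ρ : Ω → Ω}
    (hρ : ∀ (σ : Ω ≃ₐ[K] Ω) (e : Ω), Rt W e → σ (ρ e) = sg (cv W Ω) (σ e) (f σ) * ρ (σ e)) :
    ∃ ν : K, algebraMap K Ω ν = ρ p * ρ q * ρ r := by
  have hp : Rt W p := (rt_iff hC).2 (Or.inl rfl)
  have hq : Rt W q := (rt_iff hC).2 (Or.inr (Or.inl rfl))
  have hr : Rt W r := (rt_iff hC).2 (Or.inr (Or.inr rfl))
  have : ρ p * ρ q * ρ r ∈ Set.range (algebraMap K Ω) := by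
    rw [InfiniteGalois.mem_range_algebraMap_iff_fixed]
    intro σ
    rw [map_mul, map_mul, hρ σ p hp, hρ σ q hq, hρ σ r hr,
      prod_perm hC σ (fun x => sg (cv W Ω) x (f σ) * ρ x)]
    have := hC.sg_prod (hf2 σ)
    linear_combination (ρ p * ρ q * ρ r) * this
  exact this

include hC in
theorem exists_alpha (htr : ∀ e : Ω, Rt W e → ∃ σ : Ω ≃ₐ[K] Ω, σ p = e)
    {f : (Ω ≃ₐ[K] Ω) → Pt W Ω} {ρ : Ω → Ω}
    (hρ0 : ∀ e, Rt W e → ρ e ≠ 0)
    (hρ : ∀ (σ : Ω ≃ₐ[K] Ω) (e : Ω), Rt W e → σ (ρ e) = sg (cv W Ω) (σ e) (f σ) * ρ (σ e)) :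
    ∃ g : K[X], ∀ e, Rt W e → aeval e g = ρ e ^ 2 := by
  have hp : Rt W p := (rt_iff hC).2 (Or.inl rfl)
  let F' := IntermediateField.adjoin K {p}
  have h1 : ρ p ^ 2 ∈ Set.range (algebraMap F' Ω) := by
    rw [InfiniteGalois.mem_range_algebraMap_iff_fixed]
    intro σ
    have hσp : σ p = p := σ.commutes ⟨p, IntermediateField.mem_adjoin_simple_self K p⟩
    have h2 := hρ (σ.restrictScalars K) p hp
    have h3 : (σ.restrictScalars K) p = p := hσp
    rw [h3] at h2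
    have h4 : σ (ρ p) = sg (cv W Ω) p (f (σ.restrictScalars K)) * ρ p := h2
    rw [map_pow, h4, mul_pow, pow_two (sg _ _ _), sg_mul_self, one_mul]
  obtain ⟨α, hα⟩ := h1
  have h2 : (α : Ω) ∈ (IntermediateField.adjoin K {p}).toSubalgebra := α.2
  rw [IntermediateField.adjoin_simple_toSubalgebra_of_isAlgebraic
    (Algebra.IsAlgebraic.isAlgebraic p), Algebra.adjoin_singleton_eq_range_aeval] at h2
  obtain ⟨g, hg⟩ := h2
  have hg' : aeval p g = ρ p ^ 2 := hg.trans hα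
  refine ⟨g, fun e he => ?_⟩
  obtain ⟨σ, rfl⟩ := htr e he
  rw [← aeval_conj, hg', map_pow, hρ σ p hp, mul_pow, pow_two (sg _ _ _), sg_mul_self, one_mul]

include hC in
theorem cob_of_sq (htr : ∀ e : Ω, Rt W e → ∃ σ : Ω ≃ₐ[K] Ω, σ p = e)
    {f : (Ω ≃ₐ[K] Ω) → Pt W Ω} (hf2 : ∀ σ, f σ + f σ = 0) {ρ : Ω → Ω}
    (hρ0 : ∀ e, Rt W e → ρ e ≠ 0)
    (hρ : ∀ (σ : Ω ≃ₐ[K] Ω) (e : Ω), Rt W e → σ (ρ e) = sg (cv W Ω) (σ e) (f σ) * ρ (σ e))
    {g : K[X]} (hg : (aeval p g) ^ 2 = ρ p ^ 2) :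
    ∃ T : Pt W Ω, T + T = 0 ∧ ∀ σ, f σ = act W (au σ) T - T := by
  have hp : Rt W p := (rt_iff hC).2 (Or.inl rfl)
  have hq : Rt W q := (rt_iff hC).2 (Or.inr (Or.inl rfl))
  have hr : Rt W r := (rt_iff hC).2 (Or.inr (Or.inr rfl))
  have hge : ∀ e, Rt W e → (aeval e g) ^ 2 = ρ e ^ 2 := by
    intro e he
    obtain ⟨σ, rfl⟩ := htr e he
    rw [← aeval_conj, ← map_pow, hg, map_pow, hρ σ p hp, mul_pow, pow_two (sg _ _ _), sg_mul_self,
      one_mul]
  have hε : ∀ e, Rt W e → ∃ ε : Ω, (ε = 1 ∨ ε = -1) ∧ ρ e = ε * aeval e g := by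
    intro e he
    rcases sq_eq_sq_iff_eq_or_eq_neg.1 (hge e he) with h | h
    · exact ⟨1, Or.inl rfl, by rw [h]; ring⟩
    · exact ⟨-1, Or.inr rfl, by rw [h]; ring⟩
  have hg0 : ∀ e : Ω, Rt W e → aeval e g ≠ 0 := by
    intro e he h0
    have := hge e he
    rw [h0] at this
    apply hρ0 e he
    exact pow_eq_zero_iff (two_ne_zero) |>.1 (by rw [← this]; ring)
  obtain ⟨x, hx, hx'⟩ := hε p hp
  obtain ⟨y, hy, hy'⟩ := hε q hq
  obtain ⟨z, hz, hz'⟩ := hε r hr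
  -- a sign making the product equal to one
  obtain ⟨η, hη, hηp⟩ : ∃ η : Ω, (η = 1 ∨ η = -1) ∧ (η * x) * (η * y) * (η * z) = 1 := by
    have h1 : x * y * z = 1 ∨ x * y * z = -1 := by
      rcases hx with rfl | rfl <;> rcases hy with rfl | rfl <;> rcases hz with rfl | rfl <;> simp
    rcases h1 with h | h
    · exact ⟨1, Or.inl rfl, by rw [one_mul, one_mul, one_mul, h]⟩
    · exact ⟨-1, Or.inr rfl, by linear_combination -h⟩
  have hpm : ∀ a b : Ω, (a = 1 ∨ a = -1) → (b = 1 ∨ b = -1) → (a * b = 1 ∨ a * b = -1) := by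
    rintro a b (rfl | rfl) (rfl | rfl) <;> simp
  obtain ⟨T, hT, tp, tq, tr⟩ := hC.tor_exists (hpm _ _ hη hx) (hpm _ _ hη hy) (hpm _ _ hη hz) hηp
  have hηη : η * η = 1 := by rcases hη with rfl | rfl <;> ring
  have hρT : ∀ e, Rt W e → ρ e = sg (cv W Ω) e T * (η * aeval e g) := by
    intro e he
    rcases (rt_iff hC).1 he with rfl | rfl | rfl
    · rw [tp, hx']; linear_combination (-(x * aeval e g)) * hηη
    · rw [tq, hy']; linear_combination (-(y * aeval e g)) * hηη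
    · rw [tr, hz']; linear_combination (-(z * aeval e g)) * hηη
  have hη0 : η ≠ 0 := by rcases hη with rfl | rfl <;> simp
  have key : ∀ (σ : Ω ≃ₐ[K] Ω) (e : Ω), Rt W e →
      sg (cv W Ω) (σ e) (f σ) = sg (cv W Ω) (σ e) (act W (au σ) T - T) := by
    intro σ e he
    have hσe : Rt W (σ e) := rt_map (σ : Ω →ₐ[K] Ω) he
    obtain ⟨q', r', hCe⟩ := root_cub hC hσe
    have h1 := hρ σ e he
    rw [hρT e he, hρT (σ e) hσe, map_mul, map_mul, aeval_conj] at h1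
    have h2 : σ (sg (cv W Ω) e T) = sg (cv W Ω) e T := sg_fix W e T (σ : Ω →ₐ[K] Ω)
    have h3 : σ η = η := by rcases hη with rfl | rfl <;> simp
    rw [h2, h3] at h1
    have h4 : sg (cv W Ω) e T = sg (cv W Ω) (σ e) (f σ) * sg (cv W Ω) (σ e) T := by
      have h5 : η * aeval (σ e) g ≠ 0 := mul_ne_zero hη0 (hg0 _ hσe)
      apply mul_right_cancel₀ h5
      rw [h1]; ring
    have hneg : -T = T := by
      rw [neg_eq_iff_add_eq_zero]; exact hT
    rw [sub_eq_add_neg, hneg, hCe.sg_add ((two_act W _ _).2 hT) hT, sg_conj, h4]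
    have h6 := sg_mul_self (W := cv W Ω) (σ e) T
    linear_combination (-sg (cv W Ω) (σ e) (f σ)) * h6
  refine ⟨T, hT, fun σ => ?_⟩
  have hTT : (act W (au σ) T - T) + (act W (au σ) T - T) = 0 := by
    rw [sub_add_sub_comm, (two_act W _ _).2 hT, hT, sub_zero]
  apply hC.tor_ext (hf2 σ) hTT
  · obtain ⟨e, he⟩ : ∃ e, σ e = p := ⟨σ.symm p, σ.apply_symm_apply p⟩
    have hee : Rt W e := by
      have := rt_map (σ.symm : Ω →ₐ[K] Ω) hp
      rw [← he] at this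
      have h7 : (σ.symm : Ω →ₐ[K] Ω) (σ e) = e := σ.symm_apply_apply e
      rwa [h7] at this
    have := key σ e hee
    rwa [he] at this
  · obtain ⟨e, he⟩ : ∃ e, σ e = q := ⟨σ.symm q, σ.apply_symm_apply q⟩
    have hee : Rt W e := by
      have := rt_map (σ.symm : Ω →ₐ[K] Ω) hq
      rw [← he] at this
      have h7 : (σ.symm : Ω →ₐ[K] Ω) (σ e) = e := σ.symm_apply_apply e
      rwa [h7] at this
    have := key σ e hee
    rwa [he] at this

end glob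

end Pool.Agent.NH7.Cub
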