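import Pool.Agent.NH7.Cub.Desc2

/-!
Locally trivial cocycles: the valuation of the attached element.
-/

set_option autoImplicit false
set_option linter.all false

open WeierstrassCurve WeierstrassCurve.Affine Polynomial WithZero
open scoped Classical Pointwise

namespace Pool.Agent.NH7.Cub

open Pool.Agent.W309.TD (Pt act act_some act_inj act_act act_zero two_act au au_apply au_mul IsCoc
  IsCob cob_isCoc locConst_apply exists_root compare rs rs_apply incl fixed_point rs_act_incl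
  LocTriv exists_restrict)

section loc

variable {K Ω F Ω' M : Type} [Field K] [Field Ω] [Algebra K Ω] [IsGalois K Ω] [Field F]
  [Field Ω'] [Algebra K F] [Algebra F Ω'] [Algebra K Ω'] [IsScalarTower K F Ω'] [IsGalois F Ω']
  [IsSepClosed Ω'] [Field M] [Algebra K M] {W : WeierstrassCurve K} {p q r : Ω}
  (hC : IsCub (cv W Ω) p q r)

include hC in
theorem cub_map' (ι : Ω →ₐ[K] Ω') : IsCub (cv W Ω') (ι p) (ι q) (ι r) where
  a1 := by
    have h := congrArg ι hC.a1
    have h' : ι (algebraMap K Ω W.a₁) = ι 0 := h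
    show algebraMap K Ω' W.a₁ = 0
    rw [← ι.commutes, h', map_zero]
  a2 := by
    have h' : ι (algebraMap K Ω W.a₂) = ι (-(p + q + r)) := congrArg ι hC.a2
    show algebraMap K Ω' W.a₂ = _
    rw [← ι.commutes, h']; simp
  a3 := by
    have h' : ι (algebraMap K Ω W.a₃) = ι 0 := congrArg ι hC.a3
    show algebraMap K Ω' W.a₃ = 0
    rw [← ι.commutes, h', map_zero]
  a4 := by
    have h' : ι (algebraMap K Ω W.a₄) = ι (p * q + q * r + r * p) := congrArg ι hC.a4
    show algebraMap K Ω' W.a₄ = _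
    rw [← ι.commutes, h']; simp
  a6 := by
    have h' : ι (algebraMap K Ω W.a₆) = ι (-(p * q * r)) := congrArg ι hC.a6
    show algebraMap K Ω' W.a₆ = _
    rw [← ι.commutes, h']; simp
  two := by
    have : (2 : Ω') = ι 2 := (map_ofNat _ 2).symm
    rw [this]
    exact (_root_.map_ne_zero _).2 hC.two
  pq := fun h => hC.pq (ι.injective h)
  qr := fun h => hC.qr (ι.injective h)
  rp := fun h => hC.rp (ι.injective h)

include hC in
theorem loc_identity {f : (Ω ≃ₐ[K] Ω) → Pt W Ω} (hf2 : ∀ σ, f σ + f σ = 0)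
    (hloc : LocTriv W F Ω' f) {ρ : Ω → Ω} (hρ0 : ∀ e, Rt W e → ρ e ≠ 0)
    (hρ : ∀ (σ : Ω ≃ₐ[K] Ω) (e : Ω), Rt W e → σ (ρ e) = sg (cv W Ω) (σ e) (f σ) * ρ (σ e))
    {g : K[X]} (hg : ∀ e, Rt W e → aeval e g = ρ e ^ 2) (j : F →ₐ[K] M) {θ : M} (hθ : Rt W θ) :
    ∃ (c : M) (Q : Pt W F), aeval θ g = c ^ 2 * dl (cv W M) θ (act W j Q) := by
  obtain ⟨ι, P, hP⟩ := hloc
  have hC' := cub_map' (Ω' := Ω') hC ι
  -- the root `θ'`
  letI : Algebra F M := j.toRingHom.toAlgebra
  haveI : IsScalarTower K F M := IsScalarTower.of_algebraMap_eq fun x => (j.commutes x).symm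
  set a := algebraMap K F W.a₂ with ha
  set b := algebraMap K F W.a₄ with hb
  set d := algebraMap K F W.a₆ with hd
  have hcub : aeval θ (cub a b d) = 0 := by
    rw [cub_aeval, ha, hb, hd, ← IsScalarTower.algebraMap_apply, ← IsScalarTower.algebraMap_apply,
      ← IsScalarTower.algebraMap_apply]
    exact hθ
  have hint : IsIntegral F θ := ⟨cub a b d, cub_monic _ _ _, by
    rw [← aeval_def]; exact hcub⟩
  have hdvd : minpoly F θ ∣ cub a b d := minpoly.dvd F θ hcub
  have hsep : (cub a b d).Separable := by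
    have e1 : algebraMap F Ω' a = -(ι p + ι q + ι r) := by
      rw [ha, ← IsScalarTower.algebraMap_apply]; exact hC'.a2
    have e2 : algebraMap F Ω' b = ι p * ι q + ι q * ι r + ι r * ι p := by
      rw [hb, ← IsScalarTower.algebraMap_apply]; exact hC'.a4
    have e3 : algebraMap F Ω' d = -(ι p * ι q * ι r) := by
      rw [hd, ← IsScalarTower.algebraMap_apply]; exact hC'.a6
    exact cub_sep e1 e2 e3 hC'.pq hC'.qr hC'.rp
  have hmsep : (minpoly F θ).Separable := hsep.of_dvd hdvd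
  obtain ⟨θ', hθ'⟩ := IsSepClosed.exists_aeval_eq_zero Ω' (minpoly F θ)
    (minpoly.degree_pos hint).ne' hmsep
  have hmin : minpoly F θ' = minpoly F θ :=
    (minpoly.eq_of_irreducible_of_monic (minpoly.irreducible hint) hθ' (minpoly.monic hint)).symm
  have hθ'R : Rt W θ' := by
    have h1 : aeval θ' (cub a b d) = 0 := by
      obtain ⟨h, hh⟩ := hdvd
      rw [hh, map_mul, hθ', zero_mul]
    rw [cub_aeval, ha, hb, hd, ← IsScalarTower.algebraMap_apply, ← IsScalarTower.algebraMap_apply,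
      ← IsScalarTower.algebraMap_apply] at h1
    exact h1
  obtain ⟨e, heR, he⟩ : ∃ e : Ω, Rt W e ∧ ι e = θ' := by
    rcases (rt_iff hC').1 hθ'R with h | h | h
    · exact ⟨p, (rt_iff hC).2 (Or.inl rfl), h.symm⟩
    · exact ⟨q, (rt_iff hC).2 (Or.inr (Or.inl rfl)), h.symm⟩
    · exact ⟨r, (rt_iff hC).2 (Or.inr (Or.inr rfl)), h.symm⟩
  obtain ⟨q', r', hCe⟩ := root_cub hC' hθ'R
  let F₁ := IntermediateField.adjoin F {θ'}
  have hint' : IsIntegral F θ' := by
    refine ⟨minpoly F θ, minpoly.monic hint, ?_⟩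
    rw [← aeval_def]; exact hθ'
  let pb := IntermediateField.adjoin.powerBasis hint'
  have hgen : (pb.gen : Ω') = θ' := by
    have h1 : pb.gen = IntermediateField.AdjoinSimple.gen F θ' :=
      IntermediateField.adjoin.powerBasis_gen hint'
    rw [h1]; rfl
  have hpbmin : aeval θ (minpoly F pb.gen) = 0 := by
    have h1 : minpoly F pb.gen = minpoly F θ' :=
      (minpoly.algebraMap_eq (algebraMap F₁ Ω').injective pb.gen).symm.trans
        (congrArg (minpoly F) hgen)
    rw [h1, hmin]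
    exact minpoly.aeval F θ
  let jh : F₁ →ₐ[F] M := pb.lift θ hpbmin
  have hjgen : jh pb.gen = θ := pb.lift_gen θ hpbmin
  -- Galois action over `F₁`
  choose res hres using exists_restrict (K := K) (Ω := Ω) (F := F) (Ω' := Ω') ι
  have hT : ∀ τ : Ω' ≃ₐ[F] Ω', act W ι (f (res τ)) = act W (rs K τ) P - P :=
    fun τ => hP τ (res τ) (hres τ)
  have hTT : ∀ τ : Ω' ≃ₐ[F] Ω', act W ι (f (res τ)) + act W ι (f (res τ)) = 0 :=
    fun τ => (two_act W ι _).2 (hf2 _)
  have hTP : ∀ τ : Ω' ≃ₐ[F] Ω', act W (rs K τ) P = P + act W ι (f (res τ)) := by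
    intro τ; rw [hT]; abel
  have hPP : ∀ τ : Ω' ≃ₐ[F] Ω', act W (rs K τ) (P + P) = P + P := by
    intro τ
    rw [map_add, hTP, add_add_add_comm, hTT, add_zero]
  obtain ⟨Q, hQ⟩ := fixed_point (K := K) (F := F) W (P + P) hPP
  let rF : (Ω' ≃ₐ[F₁] Ω') → (Ω' ≃ₐ[F] Ω') := fun τ => τ.restrictScalars F
  have hfix : ∀ τ : Ω' ≃ₐ[F₁] Ω', τ θ' = θ' := fun τ =>
    τ.commutes ⟨θ', IntermediateField.mem_adjoin_simple_self F θ'⟩
  have m0 : ∀ τ : Ω' ≃ₐ[F₁] Ω', τ (hh (cv W Ω') θ' P) =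
      sg (cv W Ω') θ' (act W ι (f (res (rF τ)))) * hh (cv W Ω') θ' P := by
    intro τ
    have h1 := hh_act W (rs K (rF τ)) θ' P
    have h2 : rs K (rF τ) θ' = θ' := hfix τ
    rw [h2, hTP, hCe.hh_translate (hTT _)] at h1
    exact h1.symm
  have l0 : ∀ τ : Ω' ≃ₐ[F₁] Ω', τ (ι (ρ e)) =
      sg (cv W Ω') θ' (act W ι (f (res (rF τ)))) * ι (ρ e) := by
    intro τ
    have h2 : ∀ x, τ (ι x) = ι ((res (rF τ)) x) := fun x =>
      congrArg (fun φ : Ω →ₐ[K] Ω' => φ x) (hres (rF τ))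
    have h3 : (res (rF τ)) e = e := by
      have h5 : ι ((res (rF τ)) e) = ι e := by rw [← h2, he, hfix]
      exact ι.injective h5
    have h4 := hρ (res (rF τ)) e heR
    rw [h3] at h4
    rw [h2, h4, map_mul, ← he, sg_act]
  have ιn0 : ι (ρ e) ≠ 0 := (_root_.map_ne_zero ι).2 (hρ0 e heR)
  haveI : IsGalois F₁ Ω' := inferInstance
  obtain ⟨c, hc0, hc⟩ := compare (K := F₁) (Ω := Ω') ιn0 (hCe.hh_ne P) _ (fun τ => sg_ne _ _) l0 m0
  -- the identity in `F₁`
  let iF : F →ₐ[K] F₁ := IsScalarTower.toAlgHom K F F₁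
  let iΩ : F₁ →ₐ[K] Ω' := (IntermediateField.val F₁).restrictScalars K
  let jK : F₁ →ₐ[K] M := jh.restrictScalars K
  have hid : aeval pb.gen g = c ^ 2 * dl (cv W F₁) pb.gen (act W iF Q) := by
    have h1 : iΩ (aeval pb.gen g) = aeval θ' g := by
      rw [← Polynomial.aeval_algHom_apply]
      exact congrArg (fun t => aeval t g) hgen
    have h2 : aeval θ' g = ι (ρ e) ^ 2 := by
      rw [← he, Polynomial.aeval_algHom_apply, hg e heR, map_pow]
    have h3 : iΩ pb.gen = θ' := hgen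
    have h4 : iΩ.comp iF = incl K F Ω' := AlgHom.ext fun x => rfl
    have h5 : iΩ (dl (cv W F₁) pb.gen (act W iF Q)) = dl (cv W Ω') θ' (P + P) := by
      rw [← dl_act, act_act, h3, h4, hQ]
    have h6 : iΩ (aeval pb.gen g) = iΩ (c ^ 2 * dl (cv W F₁) pb.gen (act W iF Q)) := by
      rw [h1, h2, hc, mul_pow, hCe.hh_sq, map_mul, map_pow, h5]
      rfl
    exact iΩ.injective h6
  refine ⟨jK c, Q, ?_⟩
  have h5 := congrArg jK hid
  have h6 : jK pb.gen = θ := hjgen
  have h7 : jK.comp iF = j := AlgHom.ext fun x => jh.commutes x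
  rw [← Polynomial.aeval_algHom_apply, h6, map_mul, map_pow, ← dl_act, h6, act_act, h7] at h5
  exact h5

include hC in
/-- The valuation of the element attached to a locally trivial cocycle is even. -/
theorem loc_even {f : (Ω ≃ₐ[K] Ω) → Pt W Ω} (hf2 : ∀ σ, f σ + f σ = 0)
    (hloc : LocTriv W F Ω' f) {ρ : Ω → Ω} (hρ0 : ∀ e, Rt W e → ρ e ≠ 0)
    (hρ : ∀ (σ : Ω ≃ₐ[K] Ω) (e : Ω), Rt W e → σ (ρ e) = sg (cv W Ω) (σ e) (f σ) * ρ (σ e))
    {g : K[X]} (hg : ∀ e, Rt W e → aeval e g = ρ e ^ 2) (j : F →ₐ[K] M) {θ : M} (hθ : Rt W θ)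
    (v : Valuation F ℤᵐ⁰) (w : Valuation M ℤᵐ⁰) (h1 : ∀ x, v x ≤ 1 → w (j x) ≤ 1)
    (h2 : ∀ x, v x < 1 → w (j x) < 1) {π : F} (hπ : v π = exp (-1))
    (ha : v (algebraMap K F W.a₂) ≤ 1) (hb : v (algebraMap K F W.a₄) ≤ 1)
    (hc : v (algebraMap K F W.a₆) ≤ 1)
    (hcase : Sil (algebraMap K F W.a₂) (algebraMap K F W.a₄) (algebraMap K F W.a₆) v ∨
      exp (-1) ≤ v (disc3 (algebraMap K F W.a₂) (algebraMap K F W.a₄) (algebraMap K F W.a₆)))
    (hW1 : W.a₁ = 0) (hW3 : W.a₃ = 0) :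
    IsSquare (w (aeval θ g)) := by
  obtain ⟨c, Q, hcQ⟩ := loc_identity hC hf2 hloc hρ0 hρ hg j hθ
  have key : IsSquare (w (dl (cv W M) θ (act W j Q))) := by
    rcases Q with _ | ⟨x, y, hxy⟩
    · rw [act_zero]
      show IsSquare (w 1)
      rw [map_one]; exact sq_one
    · obtain ⟨h, hh'⟩ := act_some W j hxy
      rw [hh']
      have heq : y ^ 2 = x ^ 3 + algebraMap K F W.a₂ * x ^ 2 + algebraMap K F W.a₄ * x +
          algebraMap K F W.a₆ := by
        have h3 := hxy.1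
        rw [WeierstrassCurve.Affine.equation_iff] at h3
        have e1 : (W.baseChange F).toAffine.a₁ = 0 := by
          show algebraMap K F W.a₁ = 0
          rw [hW1, map_zero]
        have e3 : (W.baseChange F).toAffine.a₃ = 0 := by
          show algebraMap K F W.a₃ = 0
          rw [hW3, map_zero]
        rw [e1, e3] at h3
        have h4 : y ^ 2 + 0 * x * y + 0 * y = x ^ 3 + algebraMap K F W.a₂ * x ^ 2 +
          algebraMap K F W.a₄ * x + algebraMap K F W.a₆ := h3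
        linear_combination h4
      have hjc : ∀ t : K, j (algebraMap K F t) = algebraMap K M t := j.commutes
      have h5 := loc_sq (j : F →+* M) v w h1 h2 hπ ha hb hc hcase (θ := θ) (x := x) (y := y)
        (by
          show θ ^ 3 + j _ * θ ^ 2 + j _ * θ + j _ = 0
          rw [hjc, hjc, hjc]
          exact hθ) heq
      simp only [dl]
      split_ifs with hcc
      · exact (by
          have h6 := h5.2 hcc
          have h7 : (3 * θ ^ 2 + 2 * (j : F →+* M) (algebraMap K F W.a₂) * θ +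
            (j : F →+* M) (algebraMap K F W.a₄)) = 3 * θ ^ 2 + 2 * (cv W M).a₂ * θ + (cv W M).a₄
            := by
            show 3 * θ ^ 2 + 2 * j (algebraMap K F W.a₂) * θ + j (algebraMap K F W.a₄) = _
            rw [hjc, hjc]
            rfl
          rw [h7] at h6
          exact h6)
      · exact h5.1 hcc
  rw [hcQ, map_mul, map_pow]
  obtain ⟨z, hz⟩ := key
  exact ⟨w c * z, by rw [hz, pow_two, mul_mul_mul_comm]⟩

end loc

end Pool.Agent.NH7.Cub
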