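import Pool.Agent.NH7.Cub.Loc2
import Pool.Agent.NH7.Cub.Crv

/-!
The points of a ramified quadratic twist which reduce to the singular point.
-/

set_option autoImplicit false
set_option linter.all false

open WeierstrassCurve WeierstrassCurve.Affine WithZero

namespace Pool.Agent.NH7.Cub

section comp

variable {F : Type} [Field F] {W : Affine F}

/-- The point reduces to the singular point of the twist by `D`. -/
def Sg (v : Valuation F ℤᵐ⁰) (D : F) : W.Point → Prop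
  | .zero => False
  | .some x _ _ => v x ≤ v D

/-- A place at which the cubic polynomial has exactly one root, which is simple. -/
structure One (v : Valuation F ℤᵐ⁰) (a b c : F) : Prop where
  uniq : ∀ x x', v x ≤ 1 → v x' ≤ 1 → v (x ^ 3 + a * x ^ 2 + b * x + c) < 1 →
    v (x' ^ 3 + a * x' ^ 2 + b * x' + c) < 1 → v (x - x') < 1
  simple : ∀ x, v x ≤ 1 → v (x ^ 3 + a * x ^ 2 + b * x + c) < 1 →
    v (3 * x ^ 2 + 2 * a * x + b) = 1

variable (v : Valuation F ℤᵐ⁰) {D a b c : F}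
  (hW1 : W.a₁ = 0) (hW2 : W.a₂ = D * a) (hW3 : W.a₃ = 0) (hW4 : W.a₄ = D ^ 2 * b)
  (hW6 : W.a₆ = D ^ 3 * c) (hD0 : D ≠ 0) (h2 : v (2 : F) = 1) (ha : v a ≤ 1) (hb : v b ≤ 1)
  (hc : v c ≤ 1) (hDodd : ¬ IsSquare (v D)) (hone : One v a b c)

include hW1 hW2 hW3 hW4 hW6 hD0 in
theorem tw_eq {X Y : F} (h : W.Nonsingular X Y) :
    Y ^ 2 = D ^ 3 * ((X / D) ^ 3 + a * (X / D) ^ 2 + b * (X / D) + c) := by
  have h3 := h.1
  rw [WeierstrassCurve.Affine.equation_iff, hW1, hW2, hW3, hW4, hW6] at h3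
  field_simp
  linear_combination h3

include hW1 hW2 hW3 hW4 hW6 hD0 ha hb hc hDodd in
theorem sg_lt {X Y : F} (h : W.Nonsingular X Y) (hX : v X ≤ v D) :
    v (X / D) ≤ 1 ∧ v ((X / D) ^ 3 + a * (X / D) ^ 2 + b * (X / D) + c) < 1 := by
  have hvD : v D ≠ 0 := (Valuation.ne_zero_iff _).2 hD0
  have hx : v (X / D) ≤ 1 := by
    rw [map_div₀]
    exact div_le_one_of_le₀ hX zero_le'
  refine ⟨hx, ?_⟩
  set x := X / D with hxd
  have hle : v (x ^ 3 + a * x ^ 2 + b * x + c) ≤ 1 :=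
    le_add' v (le_add' v (le_add' v (le_pow' v hx 3) (le_mul' v ha (le_pow' v hx 2)))
      (le_mul' v hb hx)) hc
  refine lt_of_le_of_ne hle fun h1 => hDodd ?_
  have h4 := congrArg v (tw_eq hW1 hW2 hW3 hW4 hW6 hD0 h)
  rw [map_mul, ← hxd, h1, mul_one, map_pow, map_pow] at h4
  refine ⟨v Y / v D, ?_⟩
  rw [div_mul_div_comm, ← pow_two, ← pow_two, h4, pow_succ, mul_div_assoc]
  field_simp

variable [DecidableEq F]

include hW1 hW2 hW3 hW4 hW6 hD0 ha hb hc hDodd hone in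
/-- The sum of two points which reduce to the singular point. -/
theorem sg_add {P P' : W.Point} (hP : Sg v D P) (hP' : Sg v D P') : ¬ Sg v D (P + P') := by
  rcases P with _ | ⟨X, Y, hXY⟩
  · exact absurd hP id
  rcases P' with _ | ⟨X', Y', hXY'⟩
  · exact absurd hP' id
  have hvD : v D ≠ 0 := (Valuation.ne_zero_iff _).2 hD0
  obtain ⟨hx, hfx⟩ := sg_lt v hW1 hW2 hW3 hW4 hW6 hD0 ha hb hc hDodd hXY hP
  obtain ⟨hx', hfx'⟩ := sg_lt v hW1 hW2 hW3 hW4 hW6 hD0 ha hb hc hDodd hXY' hP'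
  have he := tw_eq hW1 hW2 hW3 hW4 hW6 hD0 hXY
  have he' := tw_eq hW1 hW2 hW3 hW4 hW6 hD0 hXY'
  set x := X / D with hxd
  set x' := X' / D with hxd'
  have hX : X = D * x := by rw [hxd]; field_simp
  have hX' : X' = D * x' := by rw [hxd']; field_simp
  have hdiff := hone.uniq x x' hx hx' hfx hfx'
  have hder := hone.simple x hx hfx
  set G := x ^ 2 + x * x' + x' ^ 2 + a * (x + x') + b with hG
  have n2 : v (2 : F) ≤ 1 := le_ofNat' v 2
  have hvG : v G = 1 := by
    have e1 : G = (3 * x ^ 2 + 2 * a * x + b) + -((x - x') * (x' + 2 * x + a)) := by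
      rw [hG]; ring
    have e2 : v (-((x - x') * (x' + 2 * x + a))) < 1 := by
      rw [Valuation.map_neg]
      exact lt_mul_left' v hdiff (le_add' v (le_add' v hx' (le_mul' v n2 hx)) ha)
    rw [e1, Valuation.map_add_eq_of_lt_left v (by rw [hder]; exact e2), hder]
  have hG0 : G ≠ 0 := by
    intro h0
    rw [h0, map_zero] at hvG
    exact zero_ne_one hvG
  have hneg : ∀ s t : F, W.negY s t = -t := fun s t => by
    simp [WeierstrassCurve.Affine.negY, hW1, hW3]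
  by_cases hcase : X = X' ∧ Y = W.negY X' Y'
  · rw [Point.add_of_Y_eq hcase.1 hcase.2]
    exact id
  · rw [Point.add_some hcase]
    show ¬ v (W.addX X X' (W.slope X X' Y Y')) ≤ v D
    rw [not_le]
    set l := W.slope X X' Y Y' with hl
    have hlG : l * (Y + Y') = D ^ 2 * G := by
      by_cases hXX : X = X'
      · have hYne : Y ≠ W.negY X' Y' := fun h => hcase ⟨hXX, h⟩
        have hxx : x = x' := by rw [hxd, hxd', hXX]
        have hYY : Y = Y' := by
          have h5 : Y ^ 2 = Y' ^ 2 := by rw [he, he', hxx]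
          rcases sq_eq_sq_iff_eq_or_eq_neg.1 h5 with h | h
          · exact h
          · exact absurd (by rw [h, hneg]) hYne
        have hY2 : Y + Y' ≠ 0 := by
          intro h0
          apply hYne
          rw [hneg]
          linear_combination h0
        rw [hl, slope_of_Y_ne hXX hYne, hneg, hW1, hW2, hW4, ← hYY]
        rw [← hYY] at hY2
        rw [sub_neg_eq_add, div_mul_cancel₀ _ hY2, hG, ← hxx, hX]
        ring
      · have hne : X - X' ≠ 0 := sub_ne_zero.2 hXX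
        rw [hl, slope_of_X_ne hXX, div_mul_eq_mul_div, div_eq_iff hne, hG, hX, hX']
        linear_combination he - he'
    have hY0 : Y + Y' ≠ 0 := by
      intro h0
      rw [h0, mul_zero] at hlG
      exact mul_ne_zero (pow_ne_zero 2 hD0) hG0 hlG.symm
    have hl0 : l ≠ 0 := by
      intro h0
      rw [h0, zero_mul] at hlG
      exact mul_ne_zero (pow_ne_zero 2 hD0) hG0 hlG.symm
    have hYlt : ∀ {Z z : F}, Z ^ 2 = D ^ 3 * (z ^ 3 + a * z ^ 2 + b * z + c) →
        v (z ^ 3 + a * z ^ 2 + b * z + c) < 1 → v Z ^ 2 < v D ^ 3 := by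
      intro Z z h3 h4
      rw [← map_pow, h3, map_mul, map_pow]
      exact mul_lt_of_lt_one_right (pow_pos (zero_lt_iff.2 hvD) 3) h4
    have hsum : v (Y + Y') ^ 2 < v D ^ 3 := by
      rcases le_total (v Y) (v Y') with h | h
      · calc v (Y + Y') ^ 2 ≤ v Y' ^ 2 := by
              gcongr
              exact (v.map_add _ _).trans (max_le h le_rfl)
          _ < v D ^ 3 := hYlt he' hfx'
      · calc v (Y + Y') ^ 2 ≤ v Y ^ 2 := by
              gcongr
              exact (v.map_add _ _).trans (max_le le_rfl h)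
          _ < v D ^ 3 := hYlt he hfx
    have hlval : v D < v (l ^ 2) := by
      have h5 := congrArg v hlG
      rw [map_mul, map_mul, hvG, mul_one, map_pow] at h5
      have h6 : v l ^ 2 * v (Y + Y') ^ 2 = v D ^ 4 := by
        rw [← mul_pow, h5, ← pow_mul]
      have hvl : v l ≠ 0 := (Valuation.ne_zero_iff _).2 hl0
      have h7 : v D ^ 4 < v l ^ 2 * v D ^ 3 := by
        rw [← h6]
        exact mul_lt_mul_of_pos_left hsum (pow_pos (zero_lt_iff.2 hvl) 2)
      rw [map_pow]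
      have h8 : v D * v D ^ 3 < v l ^ 2 * v D ^ 3 := by
        rw [← pow_succ']; exact h7
      exact lt_of_mul_lt_mul_right h8 zero_le'
    have hrest : v (-(D * a + X + X')) ≤ v D := by
      rw [Valuation.map_neg]
      refine (v.map_add _ _).trans (max_le ((v.map_add _ _).trans (max_le ?_ hP)) hP')
      rw [map_mul]
      exact mul_le_of_le_one_right' ha
    have haddX : W.addX X X' l = l ^ 2 + -(D * a + X + X') := by
      rw [WeierstrassCurve.Affine.addX, hW1, hW2]; ring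
    rw [haddX, Valuation.map_add_eq_of_lt_left v (lt_of_le_of_lt hrest hlval)]
    exact hlval

include hW1 hW2 hW3 hW4 hW6 hD0 h2 ha hb hc hDodd hone in
/-- Doubles do not reduce to the singular point. -/
theorem sg_double (P : W.Point) : ¬ Sg v D (P + P) := by
  by_cases hP : Sg v D P
  · exact sg_add v hW1 hW2 hW3 hW4 hW6 hD0 ha hb hc hDodd hone hP hP
  rcases P with _ | ⟨X, Y, hXY⟩
  · exact id
  have hvD : v D ≠ 0 := (Valuation.ne_zero_iff _).2 hD0
  have hP' : v D < v X := not_le.1 hP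
  have he := tw_eq hW1 hW2 hW3 hW4 hW6 hD0 hXY
  set z := X / D with hz
  have hX : X = D * z := by rw [hz]; field_simp
  have hz1 : 1 < v z := by
    rw [hz, map_div₀]
    exact (one_lt_div₀ (zero_lt_iff.2 hvD)).2 hP'
  have hz0 : z ≠ 0 := by
    intro h0
    rw [h0, map_zero] at hz1
    exact not_lt_of_ge zero_le' hz1
  have hi : v z⁻¹ < 1 := by
    rw [map_inv₀]
    exact inv_lt_one_of_one_lt₀ hz1
  have hi2 : v (z⁻¹ ^ 2) < 1 := by rw [map_pow]; exact pow_lt_one' hi (by norm_num)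
  have hi3 : v (z⁻¹ ^ 3) < 1 := by rw [map_pow]; exact pow_lt_one' hi (by norm_num)
  have hi4 : v (z⁻¹ ^ 4) < 1 := by rw [map_pow]; exact pow_lt_one' hi (by norm_num)
  have n2 : v (2 : F) ≤ 1 := le_ofNat' v 2
  have n4 : v (4 : F) ≤ 1 := le_ofNat' v 4
  have n8 : v (8 : F) ≤ 1 := le_ofNat' v 8
  have t1 : v (a * z⁻¹ + b * z⁻¹ ^ 2 + c * z⁻¹ ^ 3) < 1 :=
    lt_add' v (lt_add' v (lt_mul_right' v ha hi) (lt_mul_right' v hb hi2)) (lt_mul_right' v hc hi3)
  have t2 : v (1 + (a * z⁻¹ + b * z⁻¹ ^ 2 + c * z⁻¹ ^ 3)) = 1 := by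
    rw [Valuation.map_add_eq_of_lt_left v (by rw [map_one]; exact t1), map_one]
  have t3 : z ^ 3 + a * z ^ 2 + b * z + c =
      z ^ 3 * (1 + (a * z⁻¹ + b * z⁻¹ ^ 2 + c * z⁻¹ ^ 3)) := by
    field_simp
    ring
  have hf : v (z ^ 3 + a * z ^ 2 + b * z + c) = v z ^ 3 := by
    rw [t3, map_mul, t2, mul_one, map_pow]
  have hvz : v z ≠ 0 := (Valuation.ne_zero_iff _).2 hz0
  have hf0 : z ^ 3 + a * z ^ 2 + b * z + c ≠ 0 := by
    intro h0
    rw [h0, map_zero] at hf
    exact pow_ne_zero 3 hvz hf.symm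
  have hY0 : Y ≠ 0 := by
    intro h0
    rw [h0] at he
    have : D ^ 3 * (z ^ 3 + a * z ^ 2 + b * z + c) = 0 := by rw [← he]; ring
    exact mul_ne_zero (pow_ne_zero 3 hD0) hf0 this
  have h20 : (2 : F) ≠ 0 := by
    intro h0
    rw [h0, map_zero] at h2
    exact zero_ne_one h2
  have hneg : ∀ s t : F, W.negY s t = -t := fun s t => by
    simp [WeierstrassCurve.Affine.negY, hW1, hW3]
  have hne : Y ≠ W.negY X Y := by
    rw [hneg]
    intro h1
    have : (2 : F) * Y = 0 := by linear_combination h1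
    exact mul_ne_zero h20 hY0 this
  rw [Point.add_self_of_Y_ne hne]
  show ¬ v (W.addX X X (W.slope X X Y Y)) ≤ v D
  rw [not_le]
  have hadd : W.addX X X (W.slope X X Y Y) = D * ((z ^ 4 - 2 * b * z ^ 2 - 8 * c * z +
      (b ^ 2 - 4 * a * c)) / (4 * (z ^ 3 + a * z ^ 2 + b * z + c))) := by
    have h4f : 4 * (D ^ 3 * (z ^ 3 + a * z ^ 2 + b * z + c)) ≠ 0 := by
      have : (4 : F) = 2 * 2 := by norm_num
      rw [this]
      exact mul_ne_zero (mul_ne_zero h20 h20) (mul_ne_zero (pow_ne_zero 3 hD0) hf0)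
    have hs : W.slope X X Y Y = (3 * X ^ 2 + 2 * (D * a) * X + D ^ 2 * b) / (2 * Y) := by
      rw [slope_of_Y_ne rfl hne, hneg, hW1, hW2, hW4]
      congr 1 <;> ring
    have hs2 : (W.slope X X Y Y) ^ 2 * (4 * (D ^ 3 * (z ^ 3 + a * z ^ 2 + b * z + c))) =
        (3 * X ^ 2 + 2 * (D * a) * X + D ^ 2 * b) ^ 2 := by
      rw [← he, hs]
      field_simp
      ring
    rw [WeierstrassCurve.Affine.addX, hW1, hW2]
    have h4 : (4 : F) * (z ^ 3 + a * z ^ 2 + b * z + c) ≠ 0 := by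
      have : (4 : F) = 2 * 2 := by norm_num
      rw [this]
      exact mul_ne_zero (mul_ne_zero h20 h20) hf0
    rw [← mul_div_assoc, eq_div_iff h4]
    apply mul_left_cancel₀ (pow_ne_zero 3 hD0)
    have h6 : D ^ 3 * (((W.slope X X Y Y) ^ 2 + 0 * W.slope X X Y Y - D * a - X - X) *
        (4 * (z ^ 3 + a * z ^ 2 + b * z + c))) =
        (W.slope X X Y Y) ^ 2 * (4 * (D ^ 3 * (z ^ 3 + a * z ^ 2 + b * z + c))) -
          (D * a + X + X) * (4 * (D ^ 3 * (z ^ 3 + a * z ^ 2 + b * z + c))) := by ring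
    rw [h6, hs2, hX]
    ring
  have s1 : v (-(2 * b * z⁻¹ ^ 2) - 8 * c * z⁻¹ ^ 3 + (b ^ 2 - 4 * a * c) * z⁻¹ ^ 4) < 1 := by
    refine lt_add' v (lt_sub' v ?_ ?_) ?_
    · rw [Valuation.map_neg]
      exact lt_mul_right' v (le_mul' v n2 hb) hi2
    · exact lt_mul_right' v (le_mul' v n8 hc) hi3
    · exact lt_mul_right' v (le_sub' v (le_pow' v hb 2) (le_mul' v (le_mul' v n4 ha) hc)) hi4
  have s2 : z ^ 4 - 2 * b * z ^ 2 - 8 * c * z + (b ^ 2 - 4 * a * c) =
      z ^ 4 * (1 + (-(2 * b * z⁻¹ ^ 2) - 8 * c * z⁻¹ ^ 3 + (b ^ 2 - 4 * a * c) * z⁻¹ ^ 4)) := by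
    field_simp
    ring
  have hnum : v (z ^ 4 - 2 * b * z ^ 2 - 8 * c * z + (b ^ 2 - 4 * a * c)) = v z ^ 4 := by
    rw [s2, map_mul, Valuation.map_add_eq_of_lt_left v (by rw [map_one]; exact s1), map_one,
      mul_one, map_pow]
  have h4v : v (4 : F) = 1 := by
    have : (4 : F) = 2 * 2 := by norm_num
    rw [this, map_mul, h2, one_mul]
  rw [hadd, map_mul, map_div₀, hnum, map_mul, h4v, one_mul, hf]
  have h7 : v z ^ 4 / v z ^ 3 = v z := by
    rw [pow_succ, mul_comm, mul_div_assoc, div_self (pow_ne_zero 3 hvz), mul_one]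
  rw [h7]
  exact lt_mul_of_one_lt_right (zero_lt_iff.2 hvD) hz1

end comp

section nonint

variable {F M : Type} [Field F] [Field M] (j : F →+* M) (v : Valuation F ℤᵐ⁰)
  (w : Valuation M ℤᵐ⁰) (h1 : ∀ x, v x ≤ 1 → w (j x) ≤ 1) (h2 : ∀ x, v x < 1 → w (j x) < 1)
  {π : F} (hπ : v π = exp (-1))

include h1 h2 hπ in
/-- The local lemma for points with non-integral coordinate. -/
theorem loc_sq_nonint {D : F} (hD0 : D ≠ 0) {a b c : F} (ha : v a ≤ 1) (hb : v b ≤ 1)
    (hc : v c ≤ 1) {θ : M} (hθ : θ ^ 3 + j a * θ ^ 2 + j b * θ + j c = 0) {x : F}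
    (hx : 1 < v x) (hxy : IsSquare (v D * v (x ^ 3 + a * x ^ 2 + b * x + c))) :
    j x ≠ θ ∧ IsSquare (w (j D) * w (j x - θ)) := by
  have hθ1 : w θ ≤ 1 := le_of_cubic w (h1 _ ha) (h1 _ hb) (h1 _ hc) (by rw [hθ, map_zero]; simp)
  have hx0 : x ≠ 0 := by
    rintro rfl
    rw [map_zero] at hx
    exact not_lt_of_ge zero_le_one hx
  have hi : v x⁻¹ < 1 := by
    rw [map_inv₀]
    exact inv_lt_one_of_one_lt₀ hx
  have hwi : w (j x)⁻¹ < 1 := by
    have := h2 _ hi
    rwa [map_inv₀] at this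
  have hjx0 : j x ≠ 0 := (map_ne_zero j).2 hx0
  have hwx : 1 < w (j x) := by
    rw [map_inv₀] at hwi
    exact (inv_lt_one₀ (zero_lt_iff.2 ((Valuation.ne_zero_iff _).2 hjx0))).1 hwi
  have hlt : w θ < w (j x) := lt_of_le_of_lt hθ1 hwx
  have e1 : w (j x - θ) = w (j x) := Valuation.map_sub_eq_of_lt_left w hlt
  have hxsq : IsSquare (v (D * x)) := by
    have hi2 : v (x⁻¹ ^ 2) < 1 := by rw [map_pow]; exact pow_lt_one' hi (by norm_num)
    have hi3 : v (x⁻¹ ^ 3) < 1 := by rw [map_pow]; exact pow_lt_one' hi (by norm_num)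
    have t1 : v (a * x⁻¹ + b * x⁻¹ ^ 2 + c * x⁻¹ ^ 3) < 1 :=
      lt_add' v (lt_add' v (lt_mul_right' v ha hi) (lt_mul_right' v hb hi2))
        (lt_mul_right' v hc hi3)
    have t2 : v (1 + (a * x⁻¹ + b * x⁻¹ ^ 2 + c * x⁻¹ ^ 3)) = 1 := by
      rw [Valuation.map_add_eq_of_lt_left v (by rw [map_one]; exact t1), map_one]
    have t3 : x ^ 3 + a * x ^ 2 + b * x + c =
        x ^ 3 * (1 + (a * x⁻¹ + b * x⁻¹ ^ 2 + c * x⁻¹ ^ 3)) := by
      field_simp
      ring
    rw [t3, map_mul, t2, mul_one, map_pow] at hxy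
    have hvx : v x ≠ 0 := (Valuation.ne_zero_iff _).2 hx0
    obtain ⟨t, ht⟩ := hxy
    refine ⟨t / v x, ?_⟩
    rw [div_mul_div_comm, ← ht, map_mul]
    field_simp
  refine ⟨fun h => ?_, ?_⟩
  · rw [h] at hlt
    exact absurd hlt (lt_irrefl _)
  · rw [e1, ← map_mul, ← map_mul]
    exact sq_map j v w h1 hπ hxsq

end nonint

end Pool.Agent.NH7.Cub
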