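import Pool.Agent.NH7.Cub.Desc4
import Pool.Agent.NH7.Cub.Loc3

/-!
Locally trivial cocycles at a place where the twist is ramified and the cubic has one root.
-/

set_option autoImplicit false
set_option linter.all false

open WeierstrassCurve WeierstrassCurve.Affine Polynomial WithZero
open scoped Classical Pointwise

namespace Pool.Agent.NH7.Cub

open Pool.Agent.W309.TD (Pt act act_some act_inj act_act act_zero two_act au au_apply au_mul IsCoc
  IsCob cob_isCoc locConst_apply exists_root compare rs rs_apply incl fixed_point rs_act_incl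
  LocTriv exists_restrict)

section loc

variable {K Ω F Ω' M : Type} [Field K] [Field Ω] [Algebra K Ω] [IsGalois K Ω] [Field F]
  [Field Ω'] [Algebra K F] [Algebra F Ω'] [Algebra K Ω'] [IsScalarTower K F Ω'] [IsGalois F Ω']
  [IsSepClosed Ω'] [Field M] [Algebra K M] {W : WeierstrassCurve K} {p q r : Ω}
  (hC : IsCub (cv W Ω) p q r)

include hC in
theorem loc_identity_pt {f : (Ω ≃ₐ[K] Ω) → Pt W Ω} (hf2 : ∀ σ, f σ + f σ = 0)
    {ι : Ω →ₐ[K] Ω'} {P : Pt W Ω'} (hP : ∀ (τ : Ω' ≃ₐ[F] Ω') (σ : Ω ≃ₐ[K] Ω),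
      (rs K τ).comp ι = ι.comp (au σ) → act W ι (f σ) = act W (rs K τ) P - P)
    {Q : Pt W F} (hQ : act W (incl K F Ω') Q = P + P) {ρ : Ω → Ω} (hρ0 : ∀ e, Rt W e → ρ e ≠ 0)
    (hρ : ∀ (σ : Ω ≃ₐ[K] Ω) (e : Ω), Rt W e → σ (ρ e) = sg (cv W Ω) (σ e) (f σ) * ρ (σ e))
    {g : K[X]} (hg : ∀ e, Rt W e → aeval e g = ρ e ^ 2) (j : F →ₐ[K] M) {θ : M} (hθ : Rt W θ) :
    ∃ c : M, aeval θ g = c ^ 2 * dl (cv W M) θ (act W j Q) := by
  have hC' := cub_map' (Ω' := Ω') hC ι
  -- the root `θ'`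
  letI : Algebra F M := j.toRingHom.toAlgebra
  haveI : IsScalarTower K F M := IsScalarTower.of_algebraMap_eq fun x => (j.commutes x).symm
  set a := algebraMap K F W.a₂ with ha
  set b := algebraMap K F W.a₄ with hb
  set d := algebraMap K F W.a₆ with hd
  have hcub : aeval θ (cub a b d) = 0 := by
    rw [cub_aeval, ha, hb, hd, ← IsScalarTower.algebraMap_apply, ← IsScalarTower.algebraMap_apply,
      ← IsScalarTower.algebraMap_apply]
    exact hθ
  have hint : IsIntegral F θ := ⟨cub a b d, cub_monic _ _ _, by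
    rw [← aeval_def]; exact hcub⟩
  have hdvd : minpoly F θ ∣ cub a b d := minpoly.dvd F θ hcub
  have hsep : (cub a b d).Separable := by
    have e1 : algebraMap F Ω' a = -(ι p + ι q + ι r) := by
      rw [ha, ← IsScalarTower.algebraMap_apply]; exact hC'.a2
    have e2 : algebraMap F Ω' b = ι p * ι q + ι q * ι r + ι r * ι p := by
      rw [hb, ← IsScalarTower.algebraMap_apply]; exact hC'.a4
    have e3 : algebraMap F Ω' d = -(ι p * ι q * ι r) := by
      rw [hd, ← IsScalarTower.algebraMap_apply]; exact hC'.a6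
    exact cub_sep e1 e2 e3 hC'.pq hC'.qr hC'.rp
  have hmsep : (minpoly F θ).Separable := hsep.of_dvd hdvd
  obtain ⟨θ', hθ'⟩ := IsSepClosed.exists_aeval_eq_zero Ω' (minpoly F θ)
    (minpoly.degree_pos hint).ne' hmsep
  have hmin : minpoly F θ' = minpoly F θ :=
    (minpoly.eq_of_irreducible_of_monic (minpoly.irreducible hint) hθ' (minpoly.monic hint)).symm
  have hθ'R : Rt W θ' := by
    have h1 : aeval θ' (cub a b d) = 0 := by
      obtain ⟨h, hh⟩ := hdvd
      rw [hh, map_mul, hθ', zero_mul]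
    rw [cub_aeval, ha, hb, hd, ← IsScalarTower.algebraMap_apply, ← IsScalarTower.algebraMap_apply,
      ← IsScalarTower.algebraMap_apply] at h1
    exact h1
  obtain ⟨e, heR, he⟩ : ∃ e : Ω, Rt W e ∧ ι e = θ' := by
    rcases (rt_iff hC').1 hθ'R with h | h | h
    · exact ⟨p, (rt_iff hC).2 (Or.inl rfl), h.symm⟩
    · exact ⟨q, (rt_iff hC).2 (Or.inr (Or.inl rfl)), h.symm⟩
    · exact ⟨r, (rt_iff hC).2 (Or.inr (Or.inr rfl)), h.symm⟩
  obtain ⟨q', r', hCe⟩ := root_cub hC' hθ'R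
  let F₁ := IntermediateField.adjoin F {θ'}
  have hint' : IsIntegral F θ' := by
    refine ⟨minpoly F θ, minpoly.monic hint, ?_⟩
    rw [← aeval_def]; exact hθ'
  let pb := IntermediateField.adjoin.powerBasis hint'
  have hgen : (pb.gen : Ω') = θ' := by
    have h1 : pb.gen = IntermediateField.AdjoinSimple.gen F θ' :=
      IntermediateField.adjoin.powerBasis_gen hint'
    rw [h1]; rfl
  have hpbmin : aeval θ (minpoly F pb.gen) = 0 := by
    have h1 : minpoly F pb.gen = minpoly F θ' :=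
      (minpoly.algebraMap_eq (algebraMap F₁ Ω').injective pb.gen).symm.trans
        (congrArg (minpoly F) hgen)
    rw [h1, hmin]
    exact minpoly.aeval F θ
  let jh : F₁ →ₐ[F] M := pb.lift θ hpbmin
  have hjgen : jh pb.gen = θ := pb.lift_gen θ hpbmin
  -- Galois action over `F₁`
  choose res hres using exists_restrict (K := K) (Ω := Ω) (F := F) (Ω' := Ω') ι
  have hT : ∀ τ : Ω' ≃ₐ[F] Ω', act W ι (f (res τ)) = act W (rs K τ) P - P :=
    fun τ => hP τ (res τ) (hres τ)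
  have hTT : ∀ τ : Ω' ≃ₐ[F] Ω', act W ι (f (res τ)) + act W ι (f (res τ)) = 0 :=
    fun τ => (two_act W ι _).2 (hf2 _)
  have hTP : ∀ τ : Ω' ≃ₐ[F] Ω', act W (rs K τ) P = P + act W ι (f (res τ)) := by
    intro τ; rw [hT]; abel
  have hPP : ∀ τ : Ω' ≃ₐ[F] Ω', act W (rs K τ) (P + P) = P + P := by
    intro τ
    rw [map_add, hTP, add_add_add_comm, hTT, add_zero]
  let rF : (Ω' ≃ₐ[F₁] Ω') → (Ω' ≃ₐ[F] Ω') := fun τ => τ.restrictScalars F
  have hfix : ∀ τ : Ω' ≃ₐ[F₁] Ω', τ θ' = θ' := fun τ =>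
    τ.commutes ⟨θ', IntermediateField.mem_adjoin_simple_self F θ'⟩
  have m0 : ∀ τ : Ω' ≃ₐ[F₁] Ω', τ (hh (cv W Ω') θ' P) =
      sg (cv W Ω') θ' (act W ι (f (res (rF τ)))) * hh (cv W Ω') θ' P := by
    intro τ
    have h1 := hh_act W (rs K (rF τ)) θ' P
    have h2 : rs K (rF τ) θ' = θ' := hfix τ
    rw [h2, hTP, hCe.hh_translate (hTT _)] at h1
    exact h1.symm
  have l0 : ∀ τ : Ω' ≃ₐ[F₁] Ω', τ (ι (ρ e)) =
      sg (cv W Ω') θ' (act W ι (f (res (rF τ)))) * ι (ρ e) := by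
    intro τ
    have h2 : ∀ x, τ (ι x) = ι ((res (rF τ)) x) := fun x =>
      congrArg (fun φ : Ω →ₐ[K] Ω' => φ x) (hres (rF τ))
    have h3 : (res (rF τ)) e = e := by
      have h5 : ι ((res (rF τ)) e) = ι e := by rw [← h2, he, hfix]
      exact ι.injective h5
    have h4 := hρ (res (rF τ)) e heR
    rw [h3] at h4
    rw [h2, h4, map_mul, ← he, sg_act]
  have ιn0 : ι (ρ e) ≠ 0 := (_root_.map_ne_zero ι).2 (hρ0 e heR)
  haveI : IsGalois F₁ Ω' := inferInstance
  obtain ⟨c, hc0, hc⟩ := compare (K := F₁) (Ω := Ω') ιn0 (hCe.hh_ne P) _ (fun τ => sg_ne _ _) l0 m0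
  -- the identity in `F₁`
  let iF : F →ₐ[K] F₁ := IsScalarTower.toAlgHom K F F₁
  let iΩ : F₁ →ₐ[K] Ω' := (IntermediateField.val F₁).restrictScalars K
  let jK : F₁ →ₐ[K] M := jh.restrictScalars K
  have hid : aeval pb.gen g = c ^ 2 * dl (cv W F₁) pb.gen (act W iF Q) := by
    have h1 : iΩ (aeval pb.gen g) = aeval θ' g := by
      rw [← Polynomial.aeval_algHom_apply]
      exact congrArg (fun t => aeval t g) hgen
    have h2 : aeval θ' g = ι (ρ e) ^ 2 := by
      rw [← he, Polynomial.aeval_algHom_apply, hg e heR, map_pow]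
    have h3 : iΩ pb.gen = θ' := hgen
    have h4 : iΩ.comp iF = incl K F Ω' := AlgHom.ext fun x => rfl
    have h5 : iΩ (dl (cv W F₁) pb.gen (act W iF Q)) = dl (cv W Ω') θ' (P + P) := by
      rw [← dl_act, act_act, h3, h4, hQ]
    have h6 : iΩ (aeval pb.gen g) = iΩ (c ^ 2 * dl (cv W F₁) pb.gen (act W iF Q)) := by
      rw [h1, h2, hc, mul_pow, hCe.hh_sq, map_mul, map_pow, h5]
      rfl
    exact iΩ.injective h6
  refine ⟨jK c, ?_⟩
  have h5 := congrArg jK hid
  have h6 : jK pb.gen = θ := hjgen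
  have h7 : jK.comp iF = j := AlgHom.ext fun x => jh.commutes x
  rw [← Polynomial.aeval_algHom_apply, h6, map_mul, map_pow, ← dl_act, h6, act_act, h7] at h5
  exact h5

include hC in
/-- The point over `F` attached to a locally trivial cocycle. -/
theorem exists_Q {f : (Ω ≃ₐ[K] Ω) → Pt W Ω} (hf2 : ∀ σ, f σ + f σ = 0)
    {ι : Ω →ₐ[K] Ω'} {P : Pt W Ω'} (hP : ∀ (τ : Ω' ≃ₐ[F] Ω') (σ : Ω ≃ₐ[K] Ω),
      (rs K τ).comp ι = ι.comp (au σ) → act W ι (f σ) = act W (rs K τ) P - P) :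
    ∃ Q : Pt W F, act W (incl K F Ω') Q = P + P := by
  choose res hres using exists_restrict (K := K) (Ω := Ω) (F := F) (Ω' := Ω') ι
  have hT : ∀ τ : Ω' ≃ₐ[F] Ω', act W ι (f (res τ)) = act W (rs K τ) P - P :=
    fun τ => hP τ (res τ) (hres τ)
  have hTT : ∀ τ : Ω' ≃ₐ[F] Ω', act W ι (f (res τ)) + act W ι (f (res τ)) = 0 :=
    fun τ => (two_act W ι _).2 (hf2 _)
  have hTP : ∀ τ : Ω' ≃ₐ[F] Ω', act W (rs K τ) P = P + act W ι (f (res τ)) := by
    intro τ; rw [hT]; abel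
  have hPP : ∀ τ : Ω' ≃ₐ[F] Ω', act W (rs K τ) (P + P) = P + P := by
    intro τ
    rw [map_add, hTP, add_add_add_comm, hTT, add_zero]
  exact fixed_point (K := K) (F := F) W (P + P) hPP

include hC in
/-- The valuation of the element attached to a locally trivial cocycle is even, if the point does
not reduce to the singular point. -/
theorem loc_even_nonint {D a b c : K} (hW : IsTw W D a b c)
    {f : (Ω ≃ₐ[K] Ω) → Pt W Ω} (hf2 : ∀ σ, f σ + f σ = 0)
    {ι : Ω →ₐ[K] Ω'} {P : Pt W Ω'} (hP : ∀ (τ : Ω' ≃ₐ[F] Ω') (σ : Ω ≃ₐ[K] Ω),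
      (rs K τ).comp ι = ι.comp (au σ) → act W ι (f σ) = act W (rs K τ) P - P)
    {Q : Pt W F} (hQ : act W (incl K F Ω') Q = P + P) {ρ : Ω → Ω} (hρ0 : ∀ e, Rt W e → ρ e ≠ 0)
    (hρ : ∀ (σ : Ω ≃ₐ[K] Ω) (e : Ω), Rt W e → σ (ρ e) = sg (cv W Ω) (σ e) (f σ) * ρ (σ e))
    {g : K[X]} (hg : ∀ e, Rt W e → aeval e g = ρ e ^ 2) (j : F →ₐ[K] M) {θ : M} (hθ : Rt W θ)
    (v : Valuation F ℤᵐ⁰) (w : Valuation M ℤᵐ⁰) (h1 : ∀ x, v x ≤ 1 → w (j x) ≤ 1)
    (h2 : ∀ x, v x < 1 → w (j x) < 1) {π : F} (hπ : v π = exp (-1))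
    (ha : v (algebraMap K F a) ≤ 1) (hb : v (algebraMap K F b) ≤ 1)
    (hc : v (algebraMap K F c) ≤ 1) (hsg : ¬ Sg v (algebraMap K F D) Q) :
    IsSquare (w (aeval θ g)) := by
  obtain ⟨c', hcQ⟩ := loc_identity_pt hC hf2 hP hQ hρ0 hρ hg j hθ
  have hjc : ∀ t : K, j (algebraMap K F t) = algebraMap K M t := j.commutes
  set D' := algebraMap K F D with hD'
  have hD0 : D' ≠ 0 := (_root_.map_ne_zero _).2 hW.ne
  have hvD0 : v D' ≠ 0 := (Valuation.ne_zero_iff _).2 hD0
  have hjD0 : j D' ≠ 0 := (_root_.map_ne_zero j).2 hD0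
  have hDM : algebraMap K M D = j D' := (hjc D).symm
  have hθ0 : θ ^ 3 + algebraMap K M W.a₂ * θ ^ 2 + algebraMap K M W.a₄ * θ +
    algebraMap K M W.a₆ = 0 := hθ
  rw [hW.a2, hW.a4, hW.a6, map_mul, map_mul, map_mul, map_pow, map_pow, hDM] at hθ0
  have hθ' : (θ / j D') ^ 3 + (j : F →+* M) (algebraMap K F a) * (θ / j D') ^ 2 +
      (j : F →+* M) (algebraMap K F b) * (θ / j D') + (j : F →+* M) (algebraMap K F c) = 0 := by
    show (θ / j D') ^ 3 + j (algebraMap K F a) * (θ / j D') ^ 2 +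
      j (algebraMap K F b) * (θ / j D') + j (algebraMap K F c) = 0
    rw [hjc a, hjc b, hjc c]
    field_simp
    linear_combination hθ0
  have key : IsSquare (w (dl (cv W M) θ (act W j Q))) := by
    rcases Q with _ | ⟨x, y, hxy⟩
    · rw [act_zero]
      show IsSquare (w 1)
      rw [map_one]; exact sq_one
    · obtain ⟨h, hh'⟩ := act_some W j hxy
      rw [hh']
      have hlt : v D' < v x := not_le.1 hsg
      have hx1 : 1 < v (x / D') := by
        rw [map_div₀]
        exact (one_lt_div₀ (zero_lt_iff.2 hvD0)).2 hlt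
      have e1 : (cv W F).a₁ = 0 := by
        show algebraMap K F W.a₁ = 0
        rw [hW.a1, map_zero]
      have e2 : (cv W F).a₂ = D' * algebraMap K F a := by
        show algebraMap K F W.a₂ = _
        rw [hW.a2, map_mul]
      have e3 : (cv W F).a₃ = 0 := by
        show algebraMap K F W.a₃ = 0
        rw [hW.a3, map_zero]
      have e4 : (cv W F).a₄ = D' ^ 2 * algebraMap K F b := by
        show algebraMap K F W.a₄ = _
        rw [hW.a4, map_mul, map_pow]
      have e6 : (cv W F).a₆ = D' ^ 3 * algebraMap K F c := by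
        show algebraMap K F W.a₆ = _
        rw [hW.a6, map_mul, map_pow]
      have heq := tw_eq (W := cv W F) e1 e2 e3 e4 e6 hD0 hxy
      have hsq : IsSquare (v D' * v ((x / D') ^ 3 + algebraMap K F a * (x / D') ^ 2 +
          algebraMap K F b * (x / D') + algebraMap K F c)) := by
        refine ⟨v (y / D'), ?_⟩
        rw [← map_mul, ← map_mul]
        congr 1
        field_simp
        have heq' : y ^ 2 * 1 = D' ^ 3 * ((x / D') ^ 3 + algebraMap K F a * (x / D') ^ 2 +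
          algebraMap K F b * (x / D') + algebraMap K F c) := by rw [mul_one]; exact heq
        field_simp at heq'
        linear_combination -heq'
      have h5 := loc_sq_nonint (j : F →+* M) v w h1 h2 hπ hD0 ha hb hc hθ' hx1 hsq
      have h6 : j (x / D') = j x / j D' := map_div₀ j x D'
      have h8 : (j : F →+* M) (x / D') = j (x / D') := rfl
      have hcc : ¬ j x = θ := by
        intro h7
        apply h5.1
        rw [h8, h6, h7]
      simp only [dl]
      rw [if_neg hcc]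
      have h9 : j x - θ = j D' * ((j : F →+* M) (x / D') - θ / j D') := by
        rw [h8, h6]
        field_simp
      rw [h9, map_mul]
      exact h5.2
  rw [hcQ, map_mul, map_pow]
  obtain ⟨z, hz⟩ := key
  exact ⟨w c' * z, by rw [hz, pow_two, mul_mul_mul_comm]⟩

end loc

end Pool.Agent.NH7.Cub
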