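import Pool.Agent.NH7.Cub.Step

/-!
Towers of quadratic extensions.
-/

set_option autoImplicit false
set_option linter.all false

open WithZero Polynomial

namespace Pool.Agent.NH7.Cub

/-- `L` is obtained from `K` by finitely many adjunctions of a square root. -/
inductive TwoTower (K : Type) [Field K] : ∀ (L : Type) [Field L] [Algebra K L], Prop
  | base (L : Type) [Field L] [Algebra K L] (h : Function.Surjective (algebraMap K L)) :
      TwoTower K L
  | step (F L : Type) [Field F] [Field L] [Algebra K F] [Algebra K L] [Algebra F L]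
      [IsScalarTower K F L] (x : L) (d : F) (hx : x ^ 2 = algebraMap F L d)
      (hgen : ∀ y : L, ∃ a b : F, y = algebraMap F L a + algebraMap F L b * x)
      (hF : TwoTower K F) : TwoTower K L

theorem irr_step {F F' : Type} [Field F] [Field F'] [Algebra F F'] {a b c : F}
    (hirr : Irreducible (cub a b c)) (hf : Module.finrank F F' = 2) :
    Irreducible (cub (algebraMap F F' a) (algebraMap F F' b) (algebraMap F F' c)) := by
  haveI : FiniteDimensional F F' := FiniteDimensional.of_finrank_pos (by rw [hf]; norm_num)
  rw [(cub_monic _ _ _).irreducible_iff_roots_eq_zero_of_degree_le_three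
    (by rw [cub_natDegree]; norm_num) (by rw [cub_natDegree])]
  rw [Multiset.eq_zero_iff_forall_notMem]
  intro x hx
  have hx1 := (mem_roots'.1 hx).2
  have hx2 : aeval x (cub a b c) = 0 := by
    rw [cub_aeval]
    have : eval x (cub (algebraMap F F' a) (algebraMap F F' b) (algebraMap F F' c)) = 0 := hx1
    simpa [cub] using this
  have hmin : minpoly F x = cub a b c :=
    (minpoly.eq_of_irreducible_of_monic hirr hx2 (cub_monic a b c)).symm
  have h1 := minpoly.natDegree_le (A := F) x
  rw [hmin, cub_natDegree, hf] at h1
  omega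

theorem exists_prim {F : Type} [Field F] (v : Valuation F ℤᵐ⁰) (hv : Function.Surjective v)
    {x y z : F} (h : ¬ (x = 0 ∧ y = 0 ∧ z = 0)) :
    ∃ κ : F, κ ≠ 0 ∧ v (x * κ) ≤ 1 ∧ v (y * κ) ≤ 1 ∧ v (z * κ) ≤ 1 ∧
      (v (x * κ) = 1 ∨ v (y * κ) = 1 ∨ v (z * κ) = 1) := by
  obtain ⟨π, hπ0, hπ⟩ := surj_unif v hv
  set m := max (v x) (max (v y) (v z)) with hm
  have hm0 : m ≠ 0 := by
    intro h0
    apply h
    have e1 : v x = 0 := le_antisymm (h0 ▸ le_max_left _ _) zero_le'
    have e2 : v y = 0 := le_antisymm (h0 ▸ (le_max_left _ _).trans (le_max_right _ _)) zero_le'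
    have e3 : v z = 0 := le_antisymm (h0 ▸ (le_max_right _ _).trans (le_max_right _ _)) zero_le'
    rw [Valuation.zero_iff] at e1 e2 e3
    exact ⟨e1, e2, e3⟩
  have hmlog : m = exp (log m) := (exp_log hm0).symm
  set n := log m with hn
  set κ : F := π ^ n with hκ
  have hκ0 : κ ≠ 0 := zpow_ne_zero _ hπ0
  have hvκ : v κ = exp (-n) := by
    rw [hκ, map_zpow₀, hπ, ← exp_zsmul]; simp
  have hmul : ∀ t, v (t * κ) = v t * exp (-n) := fun t => by rw [map_mul, hvκ]
  have hexp : m * exp (-n) = 1 := by rw [hmlog, ← exp_add]; simp
  have hle : ∀ t, v t ≤ m → v (t * κ) ≤ 1 := fun t ht => by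
    rw [hmul, ← hexp]; exact mul_le_mul' ht le_rfl
  refine ⟨κ, hκ0, hle x (le_max_left _ _), hle y ((le_max_left _ _).trans (le_max_right _ _)),
    hle z ((le_max_right _ _).trans (le_max_right _ _)), ?_⟩
  rcases max_choice (v x) (max (v y) (v z)) with h | h
  · left
    rw [hmul, ← h, ← hm, hexp]
  · rcases max_choice (v y) (v z) with h' | h'
    · right; left
      rw [hmul, ← h', ← h, ← hm, hexp]
    · right; right
      rw [hmul, ← h', ← h, ← hm, hexp]

theorem sil_step {F F' : Type} [Field F] [Field F'] [Algebra F F'] {a b c : F}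
    (hf : Module.finrank F F' = 2) (v : Valuation F ℤᵐ⁰) (hv : Function.Surjective v)
    (v' : Valuation F' ℤᵐ⁰) {e : ℕ} (he : 0 < e) (hve : ∀ x : F, v' (algebraMap F F' x) = v x ^ e)
    (ha : v a ≤ 1) (hb : v b ≤ 1) (hc : v c ≤ 1) (hs : Sil a b c v) :
    Sil (algebraMap F F' a) (algebraMap F F' b) (algebraMap F F' c) v' := by
  haveI : FiniteDimensional F F' := FiniteDimensional.of_finrank_pos (by rw [hf]; norm_num)
  intro x hx
  have h1 : ∀ y, v y ≤ 1 → v' (algebraMap F F' y) ≤ 1 := fun y hy => by
    rw [hve]; exact pow_le_one' hy e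
  have h2 : ∀ y, v y < 1 → v' (algebraMap F F' y) < 1 := fun y hy => by
    rw [hve]; exact pow_lt_one' hy he.ne'
  have hle : v' (x ^ 3 + algebraMap F F' a * x ^ 2 + algebraMap F F' b * x + algebraMap F F' c) ≤ 1
      := le_add' v' (le_add' v' (le_add' v' (le_pow' v' hx 3) (le_mul' v' (h1 _ ha)
      (le_pow' v' hx 2))) (le_mul' v' (h1 _ hb) hx)) (h1 _ hc)
  refine le_antisymm hle (not_lt.1 fun hlt => ?_)
  have hdeg := minpoly.natDegree_le (A := F) x
  rw [hf] at hdeg
  have hint : IsIntegral F x := Algebra.IsIntegral.isIntegral x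
  set p := minpoly F x with hp
  have hp0 : p ≠ 0 := minpoly.ne_zero hint
  have hsum : aeval x p = algebraMap F F' (p.coeff 0) + algebraMap F F' (p.coeff 1) * x +
      algebraMap F F' (p.coeff 2) * x ^ 2 := by
    rw [aeval_eq_sum_range' (show p.natDegree < 3 by omega), Finset.sum_range_succ,
      Finset.sum_range_succ, Finset.sum_range_one]
    simp [Algebra.smul_def]
  have hne : ¬ (p.coeff 0 = 0 ∧ p.coeff 1 = 0 ∧ p.coeff 2 = 0) := by
    rintro ⟨e0, e1, e2⟩
    apply hp0
    ext n
    rw [coeff_zero]
    rcases n with _ | _ | _ | n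
    · exact e0
    · exact e1
    · exact e2
    · exact coeff_eq_zero_of_natDegree_lt (by omega)
  obtain ⟨κ, hκ0, k0, k1, k2, kk⟩ := exists_prim v hv hne
  have h3 := prim_unit (algebraMap F F') v v' h1 h2 ha hb hc hs hlt k0 k1 k2 kk
  have h4 : algebraMap F F' (p.coeff 0 * κ) + algebraMap F F' (p.coeff 1 * κ) * x +
      algebraMap F F' (p.coeff 2 * κ) * x ^ 2 = 0 := by
    have h5 : aeval x p = 0 := minpoly.aeval F x
    rw [hsum] at h5
    simp only [map_mul]
    linear_combination (algebraMap F F' κ) * h5
  rw [h4, map_zero] at h3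
  exact zero_ne_one h3

/-- The valuation is integral on `R`. -/
def Int' (R : Type) {F : Type} [CommRing R] [Field F] [Algebra R F] (v : Valuation F ℤᵐ⁰) :
    Prop := ∀ r : R, v (algebraMap R F r) ≤ 1

/-- Unramified over `K`, or over a place of `K` at which the cubic has no root. -/
def Good {K F : Type} [Field K] [Field F] [Algebra K F] (a b c : K) (v : Valuation F ℤᵐ⁰) :
    Prop :=
  (∃ x : K, v (algebraMap K F x) = exp (-1)) ∨
    ∀ x : K, v (algebraMap K F x) ≤ 1 → v (algebraMap K F (x ^ 3 + a * x ^ 2 + b * x + c)) = 1

/-- The statement proved by induction on the tower. -/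
def Claim (R K L : Type) [CommRing R] [Field K] [Field L] [Algebra R K] [Algebra K L]
    [Algebra R L] (a b c : K) : Prop :=
  (∀ v : Valuation L ℤᵐ⁰, Function.Surjective v → Int' R v → Good a b c v) →
    Irreducible (cub (algebraMap K L a) (algebraMap K L b) (algebraMap K L c)) ∧
    FiniteDimensional K L ∧
    H1 R L (algebraMap K L a) (algebraMap K L b) (algebraMap K L c) ∧
    ∀ v : Valuation L ℤᵐ⁰, Function.Surjective v → Int' R v →
      (∀ x : K, v (algebraMap K L x) ≤ 1 →
        v (algebraMap K L (x ^ 3 + a * x ^ 2 + b * x + c)) = 1) →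
      Sil (algebraMap K L a) (algebraMap K L b) (algebraMap K L c) v

theorem claim_base {R K L : Type} [CommRing R] [Field K] [Field L] [Algebra R K] [Algebra K L]
    [Algebra R L] [IsScalarTower R K L] {a b c : K} (hirr : Irreducible (cub a b c))
    (H : H1 R K a b c) (hs : Function.Surjective (algebraMap K L)) : Claim R K L a b c := by
  intro _
  let φ : K ≃+* L := RingEquiv.ofBijective (algebraMap K L) ⟨(algebraMap K L).injective, hs⟩
  have h1 : Module.finrank K L = 1 := by
    rw [← (Module.finrank_self K)]
    symm
    exact LinearEquiv.finrank_eq (LinearEquiv.ofBijective (Algebra.linearMap K L)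
      ⟨(algebraMap K L).injective, hs⟩)
  refine ⟨?_, FiniteDimensional.of_finrank_pos (by rw [h1]; norm_num), ?_, ?_⟩
  · have : cub (algebraMap K L a) (algebraMap K L b) (algebraMap K L c) =
        (Polynomial.mapEquiv φ) (cub a b c) := by
      rw [Polynomial.mapEquiv_apply, ← cub_map]
      rfl
    rw [this]
    exact (MulEquiv.irreducible_iff (Polynomial.mapEquiv φ)).2 hirr
  · intro A _ _ θ hθ h3 α hα hN hEv
    letI : Algebra K A := ((algebraMap L A).comp (algebraMap K L)).toAlgebra
    haveI : IsScalarTower K L A := IsScalarTower.of_algebraMap_eq fun _ => rfl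
    have h3K : Module.finrank K A = 3 := by
      have := Module.finrank_mul_finrank K L A
      rw [h1, h3, one_mul] at this
      exact this.symm
    refine H A θ hθ h3K α hα ?_ (fun u hu huR => hEv u hu (fun r => ?_))
    · obtain ⟨t, ht⟩ := hN
      rw [← Algebra.norm_norm (R := K) (S := L) (A := A), ht, map_mul]
      exact ⟨_, rfl⟩
    · have := huR r
      rw [IsScalarTower.algebraMap_apply R K L]
      exact this
  · intro v hv hR hsil x hx
    obtain ⟨y, rfl⟩ := hs x
    have := hsil y hx
    simpa only [map_add, map_mul, map_pow] using this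

/-- The hypothesis passes to subfields. -/
theorem good_down {R K F L : Type} [CommRing R] [Field K] [Field F] [Field L] [Algebra R F]
    [Algebra K F] [Algebra K L] [Algebra F L] [Algebra R L] [IsScalarTower K F L]
    [IsScalarTower R F L] [FiniteDimensional F L] [Algebra.IsSeparable F L] {a b c : K}
    (h : ∀ v : Valuation L ℤᵐ⁰, Function.Surjective v → Int' R v → Good a b c v)
    (v : Valuation F ℤᵐ⁰) (hv : Function.Surjective v) (hR : Int' R v) : Good a b c v := by
  obtain ⟨w, e, hw, he, hwe⟩ := exists_ext (A := F) (A' := L) v hv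
  have hwR : Int' R w := by
    intro r
    rw [IsScalarTower.algebraMap_apply R F L, hwe]
    exact pow_le_one' (hR r) e
  have hK : ∀ x : K, w (algebraMap K L x) = v (algebraMap K F x) ^ e := fun x => by
    rw [IsScalarTower.algebraMap_apply K F L, hwe]
  rcases h w hw hwR with ⟨x, hx⟩ | hs
  · left
    refine ⟨x, ?_⟩
    rw [hK] at hx
    have hx0 : v (algebraMap K F x) ≠ 0 := by
      intro h0
      rw [h0, zero_pow he.ne'] at hx
      exact exp_ne_zero hx.symm
    have h1 : v (algebraMap K F x) = exp (log (v (algebraMap K F x))) := (exp_log hx0).symm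
    rw [h1, ← exp_nsmul, exp_inj, nsmul_eq_mul] at hx
    have he1 : (e : ℤ) ∣ 1 := ⟨-(log (v (algebraMap K F x))), by linarith⟩
    have he2 : e = 1 := by
      have := Int.le_of_dvd (by norm_num) he1
      omega
    rw [he2] at hx
    rw [h1, exp_inj]
    push_cast at hx
    omega
  · right
    intro x hx
    have h1 := hs x (by rw [hK]; exact pow_le_one' hx e)
    rw [hK] at h1
    exact (pow_eq_one_iff_of_nonneg zero_le' he.ne').1 h1

theorem claim_step {R K F L : Type} [CommRing R] [Field K] [Field F] [Field L] [Algebra R K]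
    [Algebra R F] [Algebra R L] [Algebra K F] [Algebra K L] [Algebra F L] [IsScalarTower K F L]
    [IsScalarTower R K F] [IsScalarTower R F L] (h2R : IsUnit (2 : R)) {a b c : K}
    (hsep : (cub a b c).Separable) (ra : ∃ r : R, algebraMap R K r = a)
    (rb : ∃ r : R, algebraMap R K r = b) (rc : ∃ r : R, algebraMap R K r = c)
    {x : L} {d : F} (hx : x ^ 2 = algebraMap F L d)
    (hgen : ∀ y : L, ∃ a b : F, y = algebraMap F L a + algebraMap F L b * x)
    (ih : Claim R K F a b c) : Claim R K L a b c := by
  have h2F : (2 : F) ≠ 0 := by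
    have : (2 : F) = algebraMap R F 2 := (map_ofNat _ 2).symm
    rw [this]
    exact (h2R.map (algebraMap R F)).ne_zero
  obtain ⟨ra', rfl⟩ := ra
  obtain ⟨rb', rfl⟩ := rb
  obtain ⟨rc', rfl⟩ := rc
  have tR : ∀ r : R, algebraMap K F (algebraMap R K r) = algebraMap R F r := fun r =>
    (IsScalarTower.algebraMap_apply R K F r).symm
  have tF : ∀ r : K, algebraMap F L (algebraMap K F r) = algebraMap K L r := fun r =>
    (IsScalarTower.algebraMap_apply K F L r).symm
  by_cases hns : ∀ y : F, algebraMap F L y ≠ x
  · -- a genuine quadratic extension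
    have hli : LinearIndependent F ![(1 : L), x] := by
      rw [LinearIndependent.pair_iff]
      intro y z h
      have hz : z = 0 := by
        by_contra hz
        apply hns (-(y / z))
        have hz' : algebraMap F L z ≠ 0 := (_root_.map_ne_zero _).2 hz
        rw [Algebra.smul_def, Algebra.smul_def, mul_one] at h
        rw [map_neg, map_div₀]
        field_simp
        linear_combination -h
      refine ⟨?_, hz⟩
      rw [hz, zero_smul, add_zero, Algebra.smul_def, mul_one] at h
      exact (map_eq_zero _).1 h
    have hspan : ⊤ ≤ Submodule.span F (Set.range ![(1 : L), x]) := by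
      intro y _
      obtain ⟨s, t, rfl⟩ := hgen y
      have e0 : (1 : L) ∈ Submodule.span F (Set.range ![(1 : L), x]) :=
        Submodule.subset_span ⟨0, rfl⟩
      have e1 : x ∈ Submodule.span F (Set.range ![(1 : L), x]) :=
        Submodule.subset_span ⟨1, rfl⟩
      have h1 := Submodule.smul_mem _ s e0
      have h2 := Submodule.smul_mem _ t e1
      rw [Algebra.smul_def, mul_one] at h1
      rw [Algebra.smul_def] at h2
      exact add_mem h1 h2
    have hf : Module.finrank F L = 2 := by
      rw [Module.finrank_eq_card_basis (Module.Basis.mk hli hspan)]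
      rfl
    haveI : FiniteDimensional F L := FiniteDimensional.of_finrank_pos (by rw [hf]; norm_num)
    haveI := quad_galois h2F hx hf hns
    intro hgood
    have hgoodF := good_down (R := R) (K := K) (F := F) (L := L) hgood
    obtain ⟨hirrF, hfdF, HF, hsilF⟩ := ih hgoodF
    haveI := hfdF
    have hirrL := irr_step hirrF hf
    rw [tF, tF, tF] at hirrL
    have hsepF : (cub (algebraMap K F (algebraMap R K ra')) (algebraMap K F (algebraMap R K rb'))
        (algebraMap K F (algebraMap R K rc'))).Separable := by
      rw [← cub_map]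
      exact hsep.map
    have hintF : ∀ v : Valuation F ℤᵐ⁰, Int' R v →
        v (algebraMap K F (algebraMap R K ra')) ≤ 1 ∧ v (algebraMap K F (algebraMap R K rb')) ≤ 1 ∧
        v (algebraMap K F (algebraMap R K rc')) ≤ 1 := by
      intro v hR
      rw [tR, tR, tR]
      exact ⟨hR _, hR _, hR _⟩
    refine ⟨hirrL, FiniteDimensional.trans K F L, ?_, ?_⟩
    · have := step (R := R) (F := F) (F' := L) h2R hsepF (by rw [tF, tF, tF]; exact hirrL) hx hf hns
        (fun v hv hR => hintF v hR) ?_ HF
      · rw [tF, tF, tF] at this
        exact this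
      · intro v hv hR hnd
        apply hsilF v hv hR
        obtain ⟨w, e, hw, he, hwe⟩ := exists_ext (A := F) (A' := L) v hv
        have hwR : Int' R w := by
          intro r
          rw [IsScalarTower.algebraMap_apply R F L, hwe]
          exact pow_le_one' (hR r) e
        have hK : ∀ x : K, w (algebraMap K L x) = v (algebraMap K F x) ^ e := fun x => by
          rw [IsScalarTower.algebraMap_apply K F L, hwe]
        -- `e` is even
        have heven : Even e := by
          by_contra hodd
          rw [Nat.not_even_iff_odd] at hodd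
          apply hnd
          have hd0 : d ≠ 0 := by
            rintro rfl
            apply hnd
            rw [map_zero]
            exact ⟨0, (mul_zero 0).symm⟩
          obtain ⟨n, hn⟩ := exists_exp v hd0
          have h1 := congrArg w hx
          have hx0 : x ≠ 0 := by
            rintro rfl
            rw [zero_pow two_ne_zero] at hx
            exact hd0 ((map_eq_zero _).1 hx.symm)
          obtain ⟨m, hm⟩ := exists_exp w hx0
          rw [map_pow, hwe, hn, hm, ← exp_nsmul, ← exp_nsmul, exp_inj, nsmul_eq_mul,
            nsmul_eq_mul] at h1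
          rw [hn, isSquare_exp]
          have h2 : Even ((e : ℤ) * n) := by
            rw [← h1]
            push_cast
            exact even_two_mul m
          rw [Int.even_mul] at h2
          rcases h2 with h2 | h2
          · exfalso
            rw [Int.even_coe_nat] at h2
            exact (Nat.not_even_iff_odd.2 hodd) h2
          · exact h2
        rcases hgood w hw hwR with ⟨y, hy⟩ | hs
        · exfalso
          rw [hK] at hy
          have hy0 : v (algebraMap K F y) ≠ 0 := by
            intro h0
            rw [h0, zero_pow he.ne'] at hy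
            exact exp_ne_zero hy.symm
          have h1 : v (algebraMap K F y) = exp (log (v (algebraMap K F y))) := (exp_log hy0).symm
          rw [h1, ← exp_nsmul, exp_inj, nsmul_eq_mul] at hy
          obtain ⟨e', he'⟩ := heven
          have h5 : (2 : ℤ) ∣ -1 := ⟨e' * log (v (algebraMap K F y)), by
            rw [← hy, he']; push_cast; ring⟩
          omega
        · intro y hy
          have h1 := hs y (by rw [hK]; exact pow_le_one' hy e)
          rw [hK] at h1
          exact (pow_eq_one_iff_of_nonneg zero_le' he.ne').1 h1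
    · intro v hv hR hs
      obtain ⟨v₀, e, hv₀, he, hve⟩ := exists_res (F := F) v hv
      have hR₀ : Int' R v₀ := by
        intro r
        apply of_pow_le he
        rw [← hve, ← IsScalarTower.algebraMap_apply]
        exact hR r
      have hK : ∀ x : K, v (algebraMap K L x) = v₀ (algebraMap K F x) ^ e := fun x => by
        rw [IsScalarTower.algebraMap_apply K F L, hve]
      have hs₀ := hsilF v₀ hv₀ hR₀ (fun y hy => by
        have h1 := hs y (by rw [hK]; exact pow_le_one' hy e)
        rw [hK] at h1
        exact (pow_eq_one_iff_of_nonneg zero_le' he.ne').1 h1)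
      obtain ⟨i1, i2, i3⟩ := hintF v₀ hR₀
      have := sil_step hf v₀ hv₀ v he hve i1 i2 i3 hs₀
      rw [tF, tF, tF] at this
      exact this
  · -- trivial extension
    push Not at hns
    obtain ⟨y0, hy0⟩ := hns
    have hsurj : Function.Surjective (algebraMap F L) := by
      intro y
      obtain ⟨s, t, rfl⟩ := hgen y
      exact ⟨s + t * y0, by rw [map_add, map_mul, hy0]⟩
    have hf : Module.finrank F L = 1 := by
      rw [← (Module.finrank_self F)]
      symm
      exact LinearEquiv.finrank_eq (LinearEquiv.ofBijective (Algebra.linearMap F L)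
        ⟨(algebraMap F L).injective, hsurj⟩)
    haveI : FiniteDimensional F L := FiniteDimensional.of_finrank_pos (by rw [hf]; norm_num)
    haveI : Algebra.IsSeparable F L := ⟨fun y => by
      obtain ⟨z, rfl⟩ := hsurj y
      exact isSeparable_algebraMap z⟩
    intro hgood
    have hgoodF := good_down (R := R) (K := K) (F := F) (L := L) hgood
    obtain ⟨hirrF, hfdF, HF, hsilF⟩ := ih hgoodF
    haveI := hfdF
    have h1 := claim_base (R := R) (K := F) (L := L) (a := algebraMap K F (algebraMap R K ra'))
      (b := algebraMap K F (algebraMap R K rb')) (c := algebraMap K F (algebraMap R K rc'))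
      hirrF HF hsurj
    have hgood' : ∀ v : Valuation L ℤᵐ⁰, Function.Surjective v → Int' R v →
        Good (algebraMap K F (algebraMap R K ra')) (algebraMap K F (algebraMap R K rb'))
          (algebraMap K F (algebraMap R K rc')) v := by
      intro v hv hR
      left
      obtain ⟨z, hz⟩ := hv (exp (-1))
      obtain ⟨y, rfl⟩ := hsurj z
      exact ⟨y, hz⟩
    obtain ⟨k1, k2, k3, k4⟩ := h1 hgood'
    rw [tF, tF, tF] at k1 k3 k4
    refine ⟨k1, FiniteDimensional.trans K F L, k3, fun v hv hR hs => k4 v hv hR ?_⟩
    -- the restriction to `F`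
    let v₀ : Valuation F ℤᵐ⁰ := v.comap (algebraMap F L)
    have hv₀ : Function.Surjective v₀ := by
      intro z
      obtain ⟨y, hy⟩ := hv z
      obtain ⟨y', rfl⟩ := hsurj y
      exact ⟨y', hy⟩
    have hR₀ : Int' R v₀ := by
      intro r
      show v (algebraMap F L (algebraMap R F r)) ≤ 1
      rw [← IsScalarTower.algebraMap_apply]
      exact hR r
    have hs₀ := hsilF v₀ hv₀ hR₀ (fun y hy => by
      show v (algebraMap F L _) = 1
      rw [tF]
      apply hs
      rw [← tF]
      exact hy)
    intro y hy
    exact hs₀ y hy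

/-- The induction on the tower. -/
theorem claim_tower {R K : Type} [CommRing R] [Field K] [Algebra R K] (h2R : IsUnit (2 : R))
    {a b c : K} (hirr : Irreducible (cub a b c)) (hsep : (cub a b c).Separable)
    (ra : ∃ r : R, algebraMap R K r = a) (rb : ∃ r : R, algebraMap R K r = b)
    (rc : ∃ r : R, algebraMap R K r = c) (H : H1 R K a b c) (L : Type) [Field L] [Algebra K L]
    (hL : TwoTower K L) : ∀ [Algebra R L] [IsScalarTower R K L], Claim R K L a b c := by
  induction hL with
  | base L h =>
    intro _ _
    exact claim_base hirr H h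
  | step F L x d hx hgen hF ih =>
    intro _ _
    letI : Algebra R F := ((algebraMap K F).comp (algebraMap R K)).toAlgebra
    haveI : IsScalarTower R K F := IsScalarTower.of_algebraMap_eq fun _ => rfl
    haveI : IsScalarTower R F L := IsScalarTower.of_algebraMap_eq fun r => by
      rw [IsScalarTower.algebraMap_apply R K L, IsScalarTower.algebraMap_apply K F L]
      rfl
    exact claim_step h2R hsep ra rb rc hx hgen ih

end Pool.Agent.NH7.Cub
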