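import Pool.Agent.NH7.Cub.Glob
import Pool.Agent.NH7.Cub.Tower
import Pool.Agent.NH7.Cub.Base

/-!
The descent over a tower of quadratic extensions of `k(s)`.
-/

set_option autoImplicit false
set_option linter.all false

open WithZero Polynomial IsDedekindDomain

namespace Pool.Agent.NH7.Cub

open Pool.Agent.W309.Sha (PointsComplete ShaTwoTrivial ShaTateTrivial)

section fin

variable {k K L S : Type} [Field k] [Field K] [Algebra k[X] K] [IsFractionRing k[X] K] [Field L]
  [Algebra K L] [Algebra k[X] L] [IsScalarTower k[X] K L] [CommRing S] [IsDedekindDomain S]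
  [Algebra S L] [IsFractionRing S L] [Algebra k[X] S] [IsScalarTower k[X] S L]

/-- The curve. -/
noncomputable def crv (k L : Type) [Field k] [Field L] [Algebra k[X] L] (a b c : k) :
    WeierstrassCurve L where
  a₁ := 0
  a₂ := algebraMap k[X] L (C a)
  a₃ := 0
  a₄ := algebraMap k[X] L (C b)
  a₆ := algebraMap k[X] L (C c - X)

/-- The restriction to `K` of a valuation of `L` integral on the polynomials. -/
theorem exists_below [Algebra.IsAlgebraic K L] (v : Valuation L ℤᵐ⁰) (hv : Function.Surjective v)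
    (hR : Int' k[X] v) : ∃ (p : HeightOneSpectrum k[X]) (e : ℕ), 0 < e ∧
      (∀ x : K, v (algebraMap K L x) = p.valuation K x ^ e) ∧
      ∀ r : k[X], r ∈ p.asIdeal ↔ v (algebraMap k[X] L r) < 1 := by
  obtain ⟨v₀, e, hv₀, he, hve⟩ := exists_res (F := K) v hv
  have hR₀ : ∀ r : k[X], v₀ (algebraMap k[X] K r) ≤ 1 := by
    intro r
    apply of_pow_le he
    rw [← hve, ← IsScalarTower.algebraMap_apply]
    exact hR r
  obtain ⟨p, hp⟩ := exists_center (S := k[X]) v₀ hv₀ hR₀
  refine ⟨p, e, he, fun x => by rw [hve, hp], fun r => ?_⟩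
  rw [← p.valuation_lt_one_iff_mem (K := K)]
  have h1 : v (algebraMap k[X] L r) = p.valuation K (algebraMap k[X] K r) ^ e := by
    rw [IsScalarTower.algebraMap_apply k[X] K L, hve, hp]
  rw [h1]
  constructor
  · intro h
    exact pow_lt_one' h he.ne'
  · intro h
    exact (pow_lt_one_iff_of_nonneg zero_le' he.ne').1 h

theorem unr_of [Algebra.IsAlgebraic K L] (w : HeightOneSpectrum S)
    (h : ¬ (w.asIdeal.under k[X]).map (algebraMap k[X] S) ≤ w.asIdeal ^ 2) :
    ∃ x : K, w.valuation L (algebraMap K L x) = exp (-1) := by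
  have hSL : ∀ r : k[X], algebraMap k[X] L r = algebraMap S L (algebraMap k[X] S r) := fun r =>
    IsScalarTower.algebraMap_apply k[X] S L r
  have hKL : ∀ r : k[X], algebraMap K L (algebraMap k[X] K r) = algebraMap k[X] L r := fun r =>
    (IsScalarTower.algebraMap_apply k[X] K L r).symm
  have hR : Int' k[X] (w.valuation L) := by
    intro r
    rw [hSL]
    exact w.valuation_le_one _
  obtain ⟨π, hπ⟩ := (inferInstance : (w.asIdeal.under k[X]).IsPrincipal).principal
  have hπ' : w.asIdeal.under k[X] = Ideal.span {π} := hπ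
  have hmem : algebraMap k[X] S π ∈ w.asIdeal := by
    have h1 : π ∈ w.asIdeal.under k[X] := by
      rw [hπ']
      exact Ideal.mem_span_singleton_self π
    exact h1
  rw [hπ', Ideal.map_span, Set.image_singleton, Ideal.span_singleton_le_iff_mem] at h
  refine ⟨algebraMap k[X] K π, ?_⟩
  rw [hKL, hSL, w.valuation_of_algebraMap]
  have h1 : w.intValuation (algebraMap k[X] S π) < 1 :=
    (w.intValuation_lt_one_iff_mem _).2 hmem
  rw [← w.intValuation_le_pow_iff_mem] at h
  have h2 : w.intValuation (algebraMap k[X] S π) ≠ 0 := by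
    intro h0
    rw [h0] at h
    exact h zero_le'
  have h3 : w.intValuation (algebraMap k[X] S π) =
      exp (log (w.intValuation (algebraMap k[X] S π))) := (exp_log h2).symm
  rw [h3] at h h1 ⊢
  rw [exp_le_exp, not_le] at h
  rw [← exp_zero, exp_lt_exp] at h1
  rw [exp_inj]
  push_cast at h
  omega

theorem sil_of (a b c : k) [Algebra.IsAlgebraic K L] (w : HeightOneSpectrum S)
    (h : ∀ g : k[X], g ^ 3 + C a * g ^ 2 + C b * g + C c - X ∉ w.asIdeal.under k[X]) :
    ∀ x : K, w.valuation L (algebraMap K L x) ≤ 1 →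
      w.valuation L (algebraMap K L (x ^ 3 + cf K a * x ^ 2 + cf K b * x + cs K c)) = 1 := by
  have hSL : ∀ r : k[X], algebraMap k[X] L r = algebraMap S L (algebraMap k[X] S r) := fun r =>
    IsScalarTower.algebraMap_apply k[X] S L r
  have hKL : ∀ r : k[X], algebraMap K L (algebraMap k[X] K r) = algebraMap k[X] L r := fun r =>
    (IsScalarTower.algebraMap_apply k[X] K L r).symm
  have hR : Int' k[X] (w.valuation L) := by
    intro r
    rw [hSL]
    exact w.valuation_le_one _
  obtain ⟨p, e, he, hp, hpm⟩ := exists_below (K := K) (w.valuation L)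
    (w.valuation_surjective L) hR
  have hpP : ∀ r : k[X], r ∈ p.asIdeal ↔ r ∈ w.asIdeal.under k[X] := by
    intro r
    rw [hpm, hSL, w.valuation_lt_one_iff_mem]
    rfl
  intro x hx
  rw [hp] at hx
  have hx1 : p.valuation K x ≤ 1 := of_pow_le he hx
  obtain ⟨n, d, hnd⟩ := p.exists_primeCompl_mul_eq_of_integer x hx1
  haveI := p.isMaximal
  obtain ⟨d', hd'⟩ : ∃ d' : k[X], (d : k[X]) * d' - 1 ∈ p.asIdeal := by
    have h1 := Ideal.IsMaximal.exists_inv p.isMaximal (x := (d : k[X])) d.2
    obtain ⟨y, i, hi, hyi⟩ := h1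
    refine ⟨y, ?_⟩
    have : (d : k[X]) * y - 1 = -i := by rw [← hyi]; ring
    rw [this]
    exact neg_mem hi
  set g := n * d' with hg
  have h3 := h g
  rw [← hpP] at h3
  have h4 : p.valuation K (algebraMap k[X] K (g ^ 3 + C a * g ^ 2 + C b * g + C c - X)) = 1 := by
    apply le_antisymm (p.valuation_le_one _)
    rw [← not_lt, p.valuation_lt_one_iff_mem]
    exact h3
  set y := algebraMap k[X] K g with hy
  have hy1 : p.valuation K y ≤ 1 := p.valuation_le_one _
  have h5 : p.valuation K (x - y) < 1 := by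
    have e1 : x - y = -(x * algebraMap k[X] K ((d : k[X]) * d' - 1)) := by
      rw [hy, hg, map_mul, ← hnd, map_sub, map_mul, map_one]
      ring
    rw [e1, Valuation.map_neg]
    exact lt_mul_right' _ hx1 ((p.valuation_lt_one_iff_mem _).2 hd')
  have e2 : algebraMap k[X] K (g ^ 3 + C a * g ^ 2 + C b * g + C c - X) =
      y ^ 3 + cf K a * y ^ 2 + cf K b * y + cs K c := by
    rw [cf, cf, cs, hy]
    simp only [map_add, map_sub, map_mul, map_pow]
    ring
  rw [e2] at h4
  have ha : p.valuation K (cf K a) ≤ 1 := p.valuation_le_one _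
  have hb : p.valuation K (cf K b) ≤ 1 := p.valuation_le_one _
  have h6 : p.valuation K (x ^ 3 + cf K a * x ^ 2 + cf K b * x + cs K c) = 1 := by
    have e3 : x ^ 3 + cf K a * x ^ 2 + cf K b * x + cs K c =
      (y ^ 3 + cf K a * y ^ 2 + cf K b * y + cs K c) +
        (x - y) * (x ^ 2 + x * y + y ^ 2 + cf K a * (x + y) + cf K b) := by ring
    have h7 : p.valuation K ((x - y) * (x ^ 2 + x * y + y ^ 2 + cf K a * (x + y) + cf K b)) < 1 :=
      lt_mul_left' _ h5 (le_add' _ (le_add' _ (le_add' _ (le_add' _ (le_pow' _ hx1 2)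
        (le_mul' _ hx1 hy1)) (le_pow' _ hy1 2)) (le_mul' _ ha (le_add' _ hx1 hy1))) hb)
    rw [e3, Valuation.map_add_eq_of_lt_left _ (by rw [h4]; exact h7), h4]
  rw [hp, h6, one_pow]

theorem good_of (a b c : k) [Algebra.IsAlgebraic K L] (w : HeightOneSpectrum S)
    (hw : ¬ (w.asIdeal.under k[X]).map (algebraMap k[X] S) ≤ w.asIdeal ^ 2 ∨
      ∀ g : k[X], g ^ 3 + C a * g ^ 2 + C b * g + C c - X ∉ w.asIdeal.under k[X]) :
    Good (cf K a) (cf K b) (cs K c) (w.valuation L) :=
  hw.imp (unr_of w) (sil_of a b c w)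

theorem main [Algebra.IsIntegral k[X] S] (h2 : (2 : k) ≠ 0) (hL : TwoTower K L) (a b c : k)
    (hab : a ^ 2 ≠ 3 * b)
    (hram : ∀ w : HeightOneSpectrum S,
      ¬ (w.asIdeal.under k[X]).map (algebraMap k[X] S) ≤ w.asIdeal ^ 2 ∨
      ∀ g : k[X], g ^ 3 + C a * g ^ 2 + C b * g + C c - X ∉ w.asIdeal.under k[X]) :
    Irreducible (cub (crv k L a b c).a₂ (crv k L a b c).a₄ (crv k L a b c).a₆) ∧
      PointsComplete (crv k L a b c) ∧ ShaTwoTrivial S (crv k L a b c) ∧
      ShaTateTrivial S (crv k L a b c) := by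
  have hinj : Function.Injective (algebraMap k[X] K) := IsFractionRing.injective k[X] K
  have h2R : IsUnit (2 : k[X]) := by
    have : (2 : k[X]) = C 2 := (map_ofNat C 2).symm
    rw [this]
    exact isUnit_C.2 h2.isUnit
  have h2L : (2 : L) ≠ 0 := by
    have : (2 : L) = algebraMap k[X] L 2 := (map_ofNat _ 2).symm
    rw [this]
    exact (h2R.map (algebraMap k[X] L)).ne_zero
  have hirr := cub_irr (K := K) a b c
  have hsep := cub_sepb (K := K) a b c h2 hab
  have claim := claim_tower (R := k[X]) h2R hirr hsep ⟨C a, rfl⟩ ⟨C b, rfl⟩ ⟨C c - X, rfl⟩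
    (base_H1 a b c) L hL
  -- algebraicity
  haveI hfd0 : Algebra.IsAlgebraic K L := by
    haveI : Algebra.IsAlgebraic k[X] L := by
      haveI : Algebra.IsAlgebraic k[X] S := inferInstance
      have h1 : ∀ s : S, IsAlgebraic k[X] (algebraMap S L s) := fun s =>
        (Algebra.IsAlgebraic.isAlgebraic (R := k[X]) s).algebraMap
      refine ⟨fun x => ?_⟩
      obtain ⟨n, d, hd, rfl⟩ := IsFractionRing.div_surjective (A := S) x
      rw [div_eq_mul_inv]
      exact (h1 n).mul (h1 d).inv
    exact ⟨fun x => (Algebra.IsAlgebraic.isAlgebraic (R := k[X]) x).extendScalars hinj⟩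
  have hgood : ∀ v : Valuation L ℤᵐ⁰, Function.Surjective v → Int' k[X] v →
      Good (cf K a) (cf K b) (cs K c) v := by
    intro v hv hR
    obtain ⟨w, hw⟩ := exists_center (S := S) v hv (int_of_int v hR)
    rw [← hw]
    exact good_of a b c w (hram w)
  obtain ⟨hirrL, hfd, HL, hsil⟩ := claim hgood
  have ea : algebraMap K L (cf K a) = (crv k L a b c).a₂ :=
    (IsScalarTower.algebraMap_apply k[X] K L (C a)).symm
  have eb : algebraMap K L (cf K b) = (crv k L a b c).a₄ :=
    (IsScalarTower.algebraMap_apply k[X] K L (C b)).symm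
  have ec : algebraMap K L (cs K c) = (crv k L a b c).a₆ :=
    (IsScalarTower.algebraMap_apply k[X] K L (C c - X)).symm
  have hsepL : (cub (algebraMap K L (cf K a)) (algebraMap K L (cf K b))
      (algebraMap K L (cs K c))).Separable := by
    rw [← cub_map]
    exact hsep.map
  have hRS : ∀ v : HeightOneSpectrum S, Int' k[X] (v.valuation L) := by
    intro v r
    rw [IsScalarTower.algebraMap_apply k[X] S L]
    exact v.valuation_le_one _
  rw [ea, eb, ec] at hirrL HL hsepL
  refine ⟨hirrL, ?_⟩
  apply Pool.Agent.W309.Sha.of_concl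
  refine concl (R := k[X]) (S := S) rfl rfl h2L hirrL hsepL ?_ ?_ HL
  · intro v
    exact ⟨hRS v _, hRS v _, hRS v _⟩
  · intro v
    rcases hgood (v.valuation L) (v.valuation_surjective L) (hRS v) with ⟨x, hx⟩ | hs
    · right
      obtain ⟨p, e, he, hp, -⟩ := exists_below (K := K) (v.valuation L)
        (v.valuation_surjective L) (hRS v)
      have he1 : e = 1 := by
        rw [hp] at hx
        have hx0 : p.valuation K x ≠ 0 := by
          intro h0
          rw [h0, zero_pow he.ne'] at hx
          exact exp_ne_zero hx.symm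
        have h1 : p.valuation K x = exp (log (p.valuation K x)) := (exp_log hx0).symm
        rw [h1, ← exp_nsmul, exp_inj, nsmul_eq_mul] at hx
        have he1 : (e : ℤ) ∣ 1 := ⟨-(log (p.valuation K x)), by linarith⟩
        have := Int.le_of_dvd (by norm_num) he1
        omega
      have h3 : disc3 (crv k L a b c).a₂ (crv k L a b c).a₄ (crv k L a b c).a₆ =
          algebraMap K L (disc3 (cf K a) (cf K b) (cs K c)) := by
        rw [← ea, ← eb, ← ec]
        simp only [disc3, map_add, map_sub, map_mul, map_pow, map_ofNat]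
      rw [h3, hp, he1, pow_one]
      exact disc_cond a b c h2 hab p
    · left
      have := hsil (v.valuation L) (v.valuation_surjective L) (hRS v) hs
      rw [ea, eb, ec] at this
      exact this

open scoped Classical in
/-- An elliptic curve whose cubic is irreducible has no point of order two. -/
theorem tor_zero (W : WeierstrassCurve L) (h1 : W.a₁ = 0) (h3 : W.a₃ = 0) (h2 : (2 : L) ≠ 0)
    (hirr : Irreducible (cub W.a₂ W.a₄ W.a₆)) (T : Pool.Agent.W309.Sha.Points W L)
    (hT : T + T = 0) : T = 0 := by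
  rcases T with _ | ⟨x, y, hxy⟩
  · rfl
  · exfalso
    have e1 := eq_neg_of_add_eq_zero_left hT
    rw [WeierstrassCurve.Affine.Point.neg_some] at e1
    have e2 := (WeierstrassCurve.Affine.Point.some.inj e1).2
    have a1 : (W.baseChange L).toAffine.a₁ = 0 := by
      show algebraMap L L W.a₁ = 0
      rw [h1, map_zero]
    have a3 : (W.baseChange L).toAffine.a₃ = 0 := by
      show algebraMap L L W.a₃ = 0
      rw [h3, map_zero]
    rw [WeierstrassCurve.Affine.negY, a1, a3] at e2
    have hy : y = 0 := by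
      have h5 : 2 * y = 0 := by linear_combination e2
      rcases mul_eq_zero.1 h5 with h6 | h6
      · exact absurd h6 h2
      · exact h6
    have h7 := hxy.1
    rw [WeierstrassCurve.Affine.equation_iff, a1, a3, hy] at h7
    have h8 : x ^ 3 + W.a₂ * x ^ 2 + W.a₄ * x + W.a₆ = 0 := by
      have h9 : (0 : L) ^ 2 + 0 * x * 0 + 0 * 0 = x ^ 3 + W.a₂ * x ^ 2 + W.a₄ * x + W.a₆ := h7
      linear_combination -h9
    rw [(cub_monic _ _ _).irreducible_iff_roots_eq_zero_of_degree_le_three
      (by rw [cub_natDegree]; norm_num) (by rw [cub_natDegree])] at hirr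
    have h10 : x ∈ (cub W.a₂ W.a₄ W.a₆).roots := by
      rw [mem_roots (cub_monic _ _ _).ne_zero]
      simpa [cub] using h8
    rw [hirr] at h10
    simp at h10

open scoped Classical in
theorem bij_of (W : WeierstrassCurve L)
    (ht : ∀ T : Pool.Agent.W309.Sha.Points W L, T + T = 0 → T = 0) (hp : PointsComplete W)
    (P : Pool.Agent.W309.Sha.Points W L) : ∃! Q, Q + Q = P := by
  obtain ⟨Q, T, hT, hP⟩ := hp P
  rw [ht T hT, add_zero] at hP
  refine ⟨Q, hP.symm, fun Q' hQ' => ?_⟩
  have h1 : (Q' - Q) + (Q' - Q) = 0 := by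
    rw [sub_add_sub_comm, hQ', ← hP, sub_self]
  exact sub_eq_zero.1 (ht _ h1)

end fin

end Pool.Agent.NH7.Cub
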