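import Pool.Agent.NH7.Cub.Desc5
import Pool.Agent.NH7.Cub.Glob2

/-!
The descent for a quadratic twist ramified at one place at which the cubic has exactly one root.
-/

set_option autoImplicit false
set_option linter.all false

open WithZero Polynomial IsDedekindDomain WeierstrassCurve
open scoped Classical

namespace Pool.Agent.NH7.Cub

open Pool.Agent.W309.TD (Pt act act_some act_inj act_act act_zero two_act au au_apply au_mul IsCoc
  IsCob cob_isCoc locConst_apply exists_root compare rs rs_apply incl fixed_point rs_act_incl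
  LocTriv exists_restrict ab1 Concl TwoPow)

section compl

variable {S L : Type} [CommRing S] [IsDedekindDomain S] [Field L] [Algebra S L]
  [IsFractionRing S L]

/-- The condition at a place passes to the completion. -/
theorem one_compl (v : HeightOneSpectrum S) {a b c : L} (ha : v.valuation L a ≤ 1)
    (hb : v.valuation L b ≤ 1) (hc : v.valuation L c ≤ 1) (h : One (v.valuation L) a b c) :
    One (Valued.v (R := v.adicCompletion L) (Γ₀ := ℤᵐ⁰)) (algebraMap L (v.adicCompletion L) a)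
      (algebraMap L (v.adicCompletion L) b) (algebraMap L (v.adicCompletion L) c) := by
  set V := (Valued.v (R := v.adicCompletion L) (Γ₀ := ℤᵐ⁰)) with hV
  have hv : ∀ x : L, V (algebraMap L (v.adicCompletion L) x) = v.valuation L x :=
    fun x => HeightOneSpectrum.adicCompletion.valued_coe L v x
  have approx : ∀ x : v.adicCompletion L, ∃ k : L, V (x - algebraMap L (v.adicCompletion L) k) < 1
      := by
    intro x
    have hopen : IsOpen {z : v.adicCompletion L | V (x - z) < V 1} := by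
      have h1 := Valued.isOpen_ball (v.adicCompletion L) (V.restrict 1)
      have h2 : Continuous (fun z : v.adicCompletion L => x - z) := by fun_prop
      have h3 := h1.preimage h2
      convert h3 using 1
      ext z
      exact (V.restrict_lt_iff).symm
    obtain ⟨k, hk⟩ := (HeightOneSpectrum.denseRange_algebraMap L v).exists_mem_open hopen
      ⟨x, by show V (x - x) < V 1; rw [sub_self, map_zero, map_one]; exact zero_lt_one⟩
    refine ⟨k, ?_⟩
    have : V (x - algebraMap L (v.adicCompletion L) k) < V 1 := hk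
    rwa [map_one] at this
  set A := algebraMap L (v.adicCompletion L) a with hAd
  set B := algebraMap L (v.adicCompletion L) b with hBd
  set C' := algebraMap L (v.adicCompletion L) c with hCd
  have hA : V A ≤ 1 := by rw [hv]; exact ha
  have hB : V B ≤ 1 := by rw [hv]; exact hb
  have hC : V C' ≤ 1 := by rw [hv]; exact hc
  have n2 : V 2 ≤ 1 := le_ofNat' V 2
  have n3 : V 3 ≤ 1 := le_ofNat' V 3
  have key : ∀ x : v.adicCompletion L, V x ≤ 1 → V (x ^ 3 + A * x ^ 2 + B * x + C') < 1 →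
      ∃ k : L, v.valuation L k ≤ 1 ∧ V (x - algebraMap L (v.adicCompletion L) k) < 1 ∧
        v.valuation L (k ^ 3 + a * k ^ 2 + b * k + c) < 1 := by
    intro x hx hfx
    obtain ⟨k, hk⟩ := approx x
    set y := algebraMap L (v.adicCompletion L) k with hy
    have hyle : V y ≤ 1 := by
      have : y = x - (x - y) := by ring
      rw [this]
      exact le_sub' V hx hk.le
    refine ⟨k, by rw [← hv]; exact hyle, hk, ?_⟩
    have e1 : V (y ^ 3 + A * y ^ 2 + B * y + C') < 1 := by
      have h4 : y ^ 3 + A * y ^ 2 + B * y + C' = (x ^ 3 + A * x ^ 2 + B * x + C') -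
        (x - y) * (x ^ 2 + x * y + y ^ 2 + A * (x + y) + B) := by ring
      rw [h4]
      exact lt_sub' V hfx (lt_mul_left' V hk (le_add' V (le_add' V (le_add' V (le_add' V
        (le_pow' V hx 2) (le_mul' V hx hyle)) (le_pow' V hyle 2)) (le_mul' V hA (le_add' V hx hyle)))
        hB))
    rw [← hv]
    simpa only [map_add, map_mul, map_pow] using e1
  constructor
  · intro x x' hx hx' hfx hfx'
    obtain ⟨k, hk, hxk, hfk⟩ := key x hx hfx
    obtain ⟨k', hk', hxk', hfk'⟩ := key x' hx' hfx'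
    have h1 := h.uniq k k' hk hk' hfk hfk'
    have h2 : V (algebraMap L (v.adicCompletion L) k - algebraMap L (v.adicCompletion L) k') < 1
        := by rw [← map_sub, hv]; exact h1
    have h3 : x - x' = (x - algebraMap L (v.adicCompletion L) k) +
        (algebraMap L (v.adicCompletion L) k - algebraMap L (v.adicCompletion L) k') -
        (x' - algebraMap L (v.adicCompletion L) k') := by ring
    rw [h3]
    exact lt_sub' V (lt_add' V hxk h2) hxk'
  · intro x hx hfx
    obtain ⟨k, hk, hxk, hfk⟩ := key x hx hfx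
    have h1 := h.simple k hk hfk
    set y := algebraMap L (v.adicCompletion L) k with hy
    have hyle : V y ≤ 1 := by rw [hy, hv]; exact hk
    have h2 : V (3 * y ^ 2 + 2 * A * y + B) = 1 := by
      rw [← h1, ← hv]
      simp only [map_add, map_mul, map_pow, map_ofNat, hy, hAd, hBd]
    have h3 : 3 * x ^ 2 + 2 * A * x + B = (3 * y ^ 2 + 2 * A * y + B) +
        (x - y) * (3 * (x + y) + 2 * A) := by ring
    have h4 : V ((x - y) * (3 * (x + y) + 2 * A)) < 1 :=
      lt_mul_left' V hxk (le_add' V (le_mul' V n3 (le_add' V hx hyle)) (le_mul' V n2 hA))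
    rw [h3, Valuation.map_add_eq_of_lt_left V (by rw [h2]; exact h4), h2]

end compl

section sel

variable {R S L : Type} [CommRing R] [CommRing S] [IsDedekindDomain S] [Field L] [Algebra S L]
  [IsFractionRing S L] [Algebra R S] [Algebra R L] [IsScalarTower R S L] [Algebra.IsIntegral R S]
  {W : WeierstrassCurve L} {D a b c : L} (hW : IsTw W D a b c) (h2 : (2 : L) ≠ 0)
  (hirr0 : Irreducible (cub a b c)) (hsep0 : (cub a b c).Separable)
  (hint : ∀ v : HeightOneSpectrum S, v.valuation L a ≤ 1 ∧ v.valuation L b ≤ 1 ∧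
    v.valuation L c ≤ 1)
  (w₀ : HeightOneSpectrum S)
  (hcond : ∀ v : HeightOneSpectrum S, v ≠ w₀ → Sil a b c (v.valuation L) ∨
    (exp (-1) ≤ v.valuation L (disc3 a b c) ∧ IsSquare (v.valuation L D)))
  (H : H1 R L a b c) (h2v : w₀.valuation L 2 = 1) (hodd : ¬ IsSquare (w₀.valuation L D))
  (hone : One (w₀.valuation L) a b c)

variable {Ω : Type} [Field Ω] [Algebra L Ω] [IsGalois L Ω] [IsSepClosed Ω]
  (Ω' : HeightOneSpectrum S → Type) [∀ v, Field (Ω' v)] [∀ v, Algebra (v.adicCompletion L) (Ω' v)]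
  [∀ v, Algebra L (Ω' v)] [∀ v, IsScalarTower L (v.adicCompletion L) (Ω' v)]
  [∀ v, IsGalois (v.adicCompletion L) (Ω' v)] [∀ v, IsSepClosed (Ω' v)]

include R hW h2 hirr0 hsep0 hint hcond H in
/-- The class is trivial if the point at the special place does not reduce to the singular
point. -/
theorem sel_aux {f : (Ω ≃ₐ[L] Ω) → Pt W Ω}
    (hf : IsCoc W f) (hf2 : ∀ σ, f σ + f σ = 0)
    (hloc : ∀ v : HeightOneSpectrum S, LocTriv W (v.adicCompletion L) (Ω' v) f)
    {ι : Ω →ₐ[L] Ω' w₀} {P : Pt W (Ω' w₀)}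
    (hP : ∀ (τ : Ω' w₀ ≃ₐ[w₀.adicCompletion L] Ω' w₀) (σ : Ω ≃ₐ[L] Ω),
      (rs L τ).comp ι = ι.comp (au σ) → act W ι (f σ) = act W (rs L τ) P - P)
    {Q : Pt W (w₀.adicCompletion L)}
    (hQ : act W (incl L (w₀.adicCompletion L) (Ω' w₀)) Q = P + P)
    (hsg : ¬ Sg (Valued.v (R := w₀.adicCompletion L) (Γ₀ := ℤᵐ⁰))
      (algebraMap L (w₀.adicCompletion L) D) Q) :
    ∃ T : Pt W Ω, T + T = 0 ∧ ∀ σ, f σ = act W (au σ) T - T := by
  have hirr : Irreducible (cub W.a₂ W.a₄ W.a₆) := by
    rw [hW.a2, hW.a4, hW.a6]; exact Tw.tw_irr hW.ne hirr0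
  obtain ⟨p, q, r, hC⟩ := exists_cub (Ω := Ω) hW.a1 hW.a3 h2 (by rw [hW.a2, hW.a4, hW.a6]; exact Tw.tw_sep hW.ne hsep0)
  have hp : Rt W p := (rt_iff hC).2 (Or.inl rfl)
  have hq : Rt W q := (rt_iff hC).2 (Or.inr (Or.inl rfl))
  have hr : Rt W r := (rt_iff hC).2 (Or.inr (Or.inr rfl))
  have htr : ∀ e : Ω, Rt W e →
      ∃ σ : Ω ≃ₐ[L] Ω, σ p = e :=
    fun e he => exists_conj_root hirr hp he
  obtain ⟨ρ, hρ0, hρ⟩ := exists_rho hC htr hf hf2
  obtain ⟨g, hg⟩ := exists_alpha hC htr hρ0 hρ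
  obtain ⟨ν, hν⟩ := exists_nu hC hf2 hρ
  let A := IntermediateField.adjoin L {p}
  let θ : A := ⟨p, IntermediateField.mem_adjoin_simple_self L p⟩
  have hpint : IsIntegral L p := Algebra.IsIntegral.isIntegral p
  haveI : FiniteDimensional L A := IntermediateField.adjoin.finiteDimensional hpint
  have hmin : minpoly L p = cub W.a₂ W.a₄ W.a₆ := by
    refine (minpoly.eq_of_irreducible_of_monic hirr ?_ (cub_monic _ _ _)).symm
    rw [cub_aeval]
    exact hp
  have h3 : Module.finrank L A = 3 := by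
    rw [IntermediateField.adjoin.finrank hpint, hmin, cub_natDegree]
  have hinj : Function.Injective (algebraMap A Ω) :=
    (algebraMap A Ω).injective
  have hθ : θ ^ 3 + algebraMap L A W.a₂ * θ ^ 2 + algebraMap L A W.a₄ * θ + algebraMap L A W.a₆ = 0
      := by
    apply hinj
    rw [map_zero]
    exact hp
  have hval : algebraMap A Ω (aeval θ g) = aeval p g := by
    rw [← aeval_algebraMap_apply]
    rfl
  have hα0 : aeval θ g ≠ 0 := by
    intro h0
    rw [h0, map_zero, hg p hp] at hval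
    exact pow_ne_zero 2 (hρ0 p hp) hval.symm
  have hN : IsSquare (Algebra.norm L (aeval θ g)) := by
    refine ⟨ν, ?_⟩
    apply (algebraMap L Ω).injective
    rw [norm_prod (E := Ω) hirr h3 hθ hC.a2 hC.a4 hC.a6 hC.pq hC.qr hC.rp g,
      hg p hp, hg q hq, hg r hr, map_mul, hν]
    ring
  have hEv : Ev R L A (aeval θ g) := by
    intro u hu huR
    obtain ⟨B, _, _, _, _, w, hw⟩ := exists_spec u hu
    obtain ⟨v₀, e, hv₀, he, hve⟩ := exists_res (F := L) u hu
    have hR : ∀ r : R, v₀ (algebraMap R L r) ≤ 1 := by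
      intro r
      apply of_pow_le he
      rw [← hve]
      exact huR r
    obtain ⟨v, hv⟩ := exists_center (S := S) v₀ hv₀ (int_of_int v₀ hR)
    obtain ⟨j0, hj0, hj1, hj2⟩ := Pool.Agent.TH115.GD.exists_compl_map v w (algebraMap L A)
      (fun x hx => by
        rw [hv] at hx
        rw [hw, hve]
        exact pow_le_one' hx e)
      (fun x hx => by
        rw [hv] at hx
        rw [hw, hve]
        exact pow_lt_one' hx he.ne')
    let j : v.adicCompletion L →ₐ[L] w.adicCompletion A :=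
      { j0 with
        commutes' := fun x => by
          have := hj0 x
          show j0 (algebraMap L (v.adicCompletion L) x) = _
          rw [this, ← IsScalarTower.algebraMap_apply] }
    have hθ' : Rt W (algebraMap A (w.adicCompletion A) θ) := by
      have h1 := congrArg (algebraMap A (w.adicCompletion A)) hθ
      rw [map_zero] at h1
      simp only [map_add, map_mul, map_pow, ← IsScalarTower.algebraMap_apply] at h1
      exact h1
    have hvv : ∀ x : L, Valued.v (R := v.adicCompletion L) (Γ₀ := ℤᵐ⁰)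
        (algebraMap L (v.adicCompletion L) x) = v.valuation L x :=
      fun x => HeightOneSpectrum.adicCompletion.valued_coe L v x
    obtain ⟨π, hπ⟩ := v.valuation_exists_uniformizer L
    obtain ⟨i1, i2, i3⟩ := hint v
    have h5 : IsSquare (Valued.v (R := w.adicCompletion A) (Γ₀ := ℤᵐ⁰)
        (aeval (algebraMap A (w.adicCompletion A) θ) g)) := by
      by_cases hvw : v = w₀
      · subst hvw
        exact loc_even_nonint hC hW hf2 hP hQ hρ0 hρ hg j hθ'
          (Valued.v (R := v.adicCompletion L) (Γ₀ := ℤᵐ⁰))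
          (Valued.v (R := w.adicCompletion A) (Γ₀ := ℤᵐ⁰)) hj1 hj2
          (π := algebraMap L (v.adicCompletion L) π) (by rw [hvv, hπ])
          (by rw [hvv]; exact i1) (by rw [hvv]; exact i2) (by rw [hvv]; exact i3) hsg
      · exact loc_even_tw hC hW hf2 (hloc v) hρ0 hρ hg j hθ'
          (Valued.v (R := v.adicCompletion L) (Γ₀ := ℤᵐ⁰))
          (Valued.v (R := w.adicCompletion A) (Γ₀ := ℤᵐ⁰)) hj1 hj2
          (π := algebraMap L (v.adicCompletion L) π) (by rw [hvv, hπ])
          (by rw [hvv]; exact i1) (by rw [hvv]; exact i2) (by rw [hvv]; exact i3)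
          (by
            rcases hcond v hvw with h | ⟨h, h'⟩
            · left
              exact sil_compl v i1 i2 h
            · right
              have : disc3 (algebraMap L (v.adicCompletion L) a)
                (algebraMap L (v.adicCompletion L) b) (algebraMap L (v.adicCompletion L) c) =
                algebraMap L (v.adicCompletion L) (disc3 a b c) := by
                simp only [disc3, map_add, map_sub, map_mul, map_pow, map_ofNat]
              rw [this, hvv, hvv]
              exact ⟨h, h'⟩)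
    have h6 : aeval (algebraMap A (w.adicCompletion A) θ) g =
        algebraMap A (w.adicCompletion A) (aeval θ g) := by
      rw [aeval_algebraMap_apply]
    rw [h6] at h5
    have h7 : Valued.v (R := w.adicCompletion A) (Γ₀ := ℤᵐ⁰)
        (algebraMap A (w.adicCompletion A) (aeval θ g)) = w.valuation A (aeval θ g) :=
      HeightOneSpectrum.adicCompletion.valued_coe A w _
    rw [h7, hw] at h5
    exact h5
  have hθD : (θ / algebraMap L A D) ^ 3 + algebraMap L A a * (θ / algebraMap L A D) ^ 2 +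
      algebraMap L A b * (θ / algebraMap L A D) + algebraMap L A c = 0 := by
    have hD0 : algebraMap L A D ≠ 0 := (_root_.map_ne_zero _).2 hW.ne
    have hθ2 := hθ
    rw [hW.a2, hW.a4, hW.a6, map_mul, map_mul, map_mul, map_pow, map_pow] at hθ2
    field_simp
    linear_combination hθ2
  obtain ⟨β, hβ⟩ := H A (θ / algebraMap L A D) hθD h3 _ hα0 hN hEv
  obtain ⟨x0, x1, x2, hx⟩ := exists_basis hirr h3 hθ β
  set g' : L[X] := C x0 + C x1 * X + C x2 * X ^ 2 with hg'
  have h8 : aeval θ g' = β := by rw [hx]; simp [hg']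
  have h9 : (aeval p g') ^ 2 = ρ p ^ 2 := by
    rw [← hg p hp, ← hval, hβ, map_mul, ← h8]
    rw [← aeval_algebraMap_apply]
    rw [pow_two]
    rfl
  exact cob_of_sq hC htr hf2 hρ0 hρ h9


/-- A point with integral coordinate. -/
def IsSpecial (w : HeightOneSpectrum S) (D : L) (P : Pt W L) : Prop :=
  Sg (W := (W.baseChange L).toAffine) (w.valuation L) D P

include hW in
theorem special_act {w : HeightOneSpectrum S} {P₀ : Pt W L} (hP₀ : IsSpecial w D P₀) :
    Sg (Valued.v (R := w.adicCompletion L) (Γ₀ := ℤᵐ⁰)) (algebraMap L (w.adicCompletion L) D)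
      (act W (incl L L (w.adicCompletion L)) P₀) := by
  rcases P₀ with _ | ⟨x, y, hxy⟩
  · exact absurd hP₀ id
  · obtain ⟨h, hh'⟩ := act_some W (incl L L (w.adicCompletion L)) hxy
    rw [hh']
    have hv : ∀ x : L, Valued.v (R := w.adicCompletion L) (Γ₀ := ℤᵐ⁰)
        (algebraMap L (w.adicCompletion L) x) = w.valuation L x :=
      fun x => HeightOneSpectrum.adicCompletion.valued_coe L w x
    show Valued.v (R := w.adicCompletion L) (Γ₀ := ℤᵐ⁰) (algebraMap L (w.adicCompletion L) x) ≤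
      Valued.v (R := w.adicCompletion L) (Γ₀ := ℤᵐ⁰) (algebraMap L (w.adicCompletion L) D)
    rw [hv, hv]
    exact hP₀

include R hW h2 hirr0 hsep0 hint hcond H hodd hone in
/-- The two-Selmer group has at most two elements. -/
theorem sel_one {P₀ : Pt W L} (hP₀ : IsSpecial w₀ D P₀) {H₀ : Pt W Ω}
    (hH₀ : H₀ + H₀ = act W (incl L L Ω) P₀) {f : (Ω ≃ₐ[L] Ω) → Pt W Ω}
    (hf : IsCoc W f) (hf2 : ∀ σ, f σ + f σ = 0)
    (hloc : ∀ v : HeightOneSpectrum S, LocTriv W (v.adicCompletion L) (Ω' v) f) :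
    (∃ T : Pt W Ω, T + T = 0 ∧ ∀ σ, f σ = act W (au σ) T - T) ∨
      ∃ T : Pt W Ω, T + T = 0 ∧ ∀ σ, f σ + (act W (au σ) H₀ - H₀) = act W (au σ) T - T := by
  obtain ⟨p, q, r, hC⟩ := exists_cub (Ω := Ω) hW.a1 hW.a3 h2 (by rw [hW.a2, hW.a4, hW.a6]; exact Tw.tw_sep hW.ne hsep0)
  obtain ⟨ι, P, hP⟩ := hloc w₀
  obtain ⟨Q, hQ⟩ := exists_Q hC hf2 hP
  by_cases hsg : Sg (Valued.v (R := w₀.adicCompletion L) (Γ₀ := ℤᵐ⁰))
      (algebraMap L (w₀.adicCompletion L) D) Q
  · right
    have hcc : IsCoc W (fun σ : Ω ≃ₐ[L] Ω => act W (au σ) (-H₀) - -H₀) := cob_isCoc W (-H₀)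
    have hf' : IsCoc W (fun σ : Ω ≃ₐ[L] Ω => f σ + (act W (au σ) H₀ - H₀)) := by
      have h1 := hf.sub W hcc
      have e1 : (fun σ : Ω ≃ₐ[L] Ω => f σ - (act W (au σ) (-H₀) - -H₀)) =
          fun σ => f σ + (act W (au σ) H₀ - H₀) := by
        funext σ
        rw [map_neg]
        abel
      rwa [e1] at h1
    have fixP : ∀ (σ : Ω ≃ₐ[L] Ω), act W (au σ) (act W (incl L L Ω) P₀) = act W (incl L L Ω) P₀ :=
      fun σ => rs_act_incl (K := L) (F := L) W σ P₀
    have hf2' : ∀ σ, (f σ + (act W (au σ) H₀ - H₀)) + (f σ + (act W (au σ) H₀ - H₀)) = 0 := by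
      intro σ
      have e1 : (f σ + (act W (au σ) H₀ - H₀)) + (f σ + (act W (au σ) H₀ - H₀)) =
          (f σ + f σ) + (act W (au σ) (H₀ + H₀) - (H₀ + H₀)) := by
        rw [map_add]; abel
      rw [e1, hf2, hH₀, fixP, sub_self, add_zero]
    have hact : ∀ (v : HeightOneSpectrum S) (ι : Ω →ₐ[L] Ω' v) (P : Pt W (Ω' v)),
        (∀ (τ : Ω' v ≃ₐ[v.adicCompletion L] Ω' v) (σ : Ω ≃ₐ[L] Ω),
          (rs L τ).comp ι = ι.comp (au σ) → act W ι (f σ) = act W (rs L τ) P - P) →
        ∀ (τ : Ω' v ≃ₐ[v.adicCompletion L] Ω' v) (σ : Ω ≃ₐ[L] Ω),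
          (rs L τ).comp ι = ι.comp (au σ) → act W ι (f σ + (act W (au σ) H₀ - H₀)) =
            act W (rs L τ) (P + act W ι H₀) - (P + act W ι H₀) := by
      intro v ι P hP τ σ hc
      have h4 : act W ι (act W (au σ) H₀) = act W (rs L τ) (act W ι H₀) := by
        rw [act_act, act_act, ← hc]
      rw [map_add, map_sub, hP τ σ hc, h4, map_add]
      abel
    have hloc' : ∀ v : HeightOneSpectrum S, LocTriv W (v.adicCompletion L) (Ω' v)
        (fun σ => f σ + (act W (au σ) H₀ - H₀)) := by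
      intro v
      obtain ⟨ι, P, hP⟩ := hloc v
      exact ⟨ι, P + act W ι H₀, hact v ι P hP⟩
    have hQ' : act W (incl L (w₀.adicCompletion L) (Ω' w₀))
        (Q + act W (incl L L (w₀.adicCompletion L)) P₀) = (P + act W ι H₀) + (P + act W ι H₀) := by
      have e1 : act W (incl L (w₀.adicCompletion L) (Ω' w₀))
          (act W (incl L L (w₀.adicCompletion L)) P₀) = act W ι (act W (incl L L Ω) P₀) := by
        rw [act_act, act_act]
        have e2 : (incl L (w₀.adicCompletion L) (Ω' w₀)).comp (incl L L (w₀.adicCompletion L)) =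
            ι.comp (incl L L Ω) := by
          apply AlgHom.ext
          intro x
          have h5 : (incl L (w₀.adicCompletion L) (Ω' w₀)).comp
              (incl L L (w₀.adicCompletion L)) x = algebraMap L (Ω' w₀) x :=
            AlgHom.commutes _ x
          have h6 : (ι.comp (incl L L Ω)) x = algebraMap L (Ω' w₀) x := AlgHom.commutes _ x
          rw [h5, h6]
        rw [e2]
      rw [map_add, hQ, e1, ← hH₀, map_add]
      abel
    have hsg' : ¬ Sg (Valued.v (R := w₀.adicCompletion L) (Γ₀ := ℤᵐ⁰))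
        (algebraMap L (w₀.adicCompletion L) D)
        (Q + act W (incl L L (w₀.adicCompletion L)) P₀) := by
      have hv : ∀ x : L, Valued.v (R := w₀.adicCompletion L) (Γ₀ := ℤᵐ⁰)
          (algebraMap L (w₀.adicCompletion L) x) = w₀.valuation L x :=
        fun x => HeightOneSpectrum.adicCompletion.valued_coe L w₀ x
      obtain ⟨i1, i2, i3⟩ := hint w₀
      refine sg_add (W := cv W (w₀.adicCompletion L)) _
        (a := algebraMap L (w₀.adicCompletion L) a) (b := algebraMap L (w₀.adicCompletion L) b)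
        (c := algebraMap L (w₀.adicCompletion L) c) ?_ ?_ ?_ ?_ ?_ ?_ ?_ ?_ ?_ ?_ ?_ hsg
        (special_act hW hP₀)
      · show algebraMap L _ W.a₁ = 0
        rw [hW.a1, map_zero]
      · show algebraMap L _ W.a₂ = _
        rw [hW.a2, map_mul]
      · show algebraMap L _ W.a₃ = 0
        rw [hW.a3, map_zero]
      · show algebraMap L _ W.a₄ = _
        rw [hW.a4, map_mul, map_pow]
      · show algebraMap L _ W.a₆ = _
        rw [hW.a6, map_mul, map_pow]
      · exact (_root_.map_ne_zero _).2 hW.ne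
      · rw [hv]; exact i1
      · rw [hv]; exact i2
      · rw [hv]; exact i3
      · rw [hv]; exact hodd
      · exact one_compl w₀ i1 i2 i3 hone
    exact sel_aux (R := R) (S := S) hW h2 hirr0 hsep0 hint w₀ hcond H Ω' hf' hf2' hloc'
      (hact w₀ ι P hP) hQ' hsg'
  · left
    exact sel_aux (R := R) (S := S) hW h2 hirr0 hsep0 hint w₀ hcond H Ω' hf hf2 hloc hP hQ hsg

include R hW h2 hirr0 hsep0 hint hcond H hodd hone in
theorem two_coc_one {P₀ : Pt W L} (hP₀ : IsSpecial w₀ D P₀) {f : (Ω ≃ₐ[L] Ω) → Pt W Ω}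
    (hf : IsCoc W f) (h2' : IsCob W (fun σ => f σ + f σ))
    (hloc : ∀ v : HeightOneSpectrum S, LocTriv W (v.adicCompletion L) (Ω' v) f) : IsCob W f := by
  obtain ⟨p, q, r, hC⟩ := exists_cub (Ω := Ω) hW.a1 hW.a3 h2 (by rw [hW.a2, hW.a4, hW.a6]; exact Tw.tw_sep hW.ne hsep0)
  obtain ⟨H₀, hH₀⟩ := hC.halve_sep (act W (incl L L Ω) P₀)
  obtain ⟨Q, hQ⟩ := h2'
  obtain ⟨R', hR⟩ := hC.halve_sep Q
  set f' : (Ω ≃ₐ[L] Ω) → Pt W Ω := fun σ => f σ - (act W (au σ) R' - R') with hf'
  have hf'c : IsCoc W f' := hf.sub W (cob_isCoc W R')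
  have hf'2 : ∀ σ, f' σ + f' σ = 0 := by
    intro σ
    have h3 := hQ σ
    simp only at h3
    have : f' σ + f' σ = (f σ + f σ) - (act W (au σ) (R' + R') - (R' + R')) := by
      rw [map_add]
      exact ab1 _ _ _
    rw [this, hR, h3, sub_self]
  have hf'loc : ∀ v : HeightOneSpectrum S, LocTriv W (v.adicCompletion L) (Ω' v) f' := by
    intro v
    obtain ⟨ι, P, hP⟩ := hloc v
    refine ⟨ι, P - act W ι R', fun τ σ hc => ?_⟩
    have h3 := hP τ σ hc
    have h4 : act W ι (act W (au σ) R') = act W (rs L τ) (act W ι R') := by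
      rw [act_act, act_act, ← hc]
    rw [hf', map_sub, map_sub, h3, map_sub, h4]
    abel
  rcases sel_one (R := R) (S := S) hW h2 hirr0 hsep0 hint w₀ hcond H hodd hone Ω' hP₀ hH₀ hf'c
    hf'2 hf'loc with ⟨T, hT, hTf⟩ | ⟨T, hT, hTf⟩
  · refine ⟨T + R', fun σ => ?_⟩
    have h5 := hTf σ
    have h6 : f σ = f' σ + (act W (au σ) R' - R') := (sub_add_cancel _ _).symm
    rw [h6, h5, map_add]
    abel
  · refine ⟨T - H₀ + R', fun σ => ?_⟩
    have h5 := hTf σ
    have h6 : f σ = f' σ + (act W (au σ) R' - R') := (sub_add_cancel _ _).symm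
    have h7 : f' σ = (act W (au σ) T - T) - (act W (au σ) H₀ - H₀) := by rw [← h5]; abel
    rw [h6, h7, map_add, map_sub]
    abel

include R hW h2 hirr0 hsep0 hint hcond H hodd hone in
theorem pow_coc_one {P₀ : Pt W L} (hP₀ : IsSpecial w₀ D P₀) {f : (Ω ≃ₐ[L] Ω) → Pt W Ω}
    (hf : IsCoc W f) (m : ℕ) (hm : IsCob W (fun σ => 2 ^ m • f σ))
    (hloc : ∀ v : HeightOneSpectrum S, LocTriv W (v.adicCompletion L) (Ω' v) f) : IsCob W f := by
  induction m with
  | zero => simpa using hm
  | succ m ih =>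
    apply ih
    apply two_coc_one (R := R) (S := S) hW h2 hirr0 hsep0 hint w₀ hcond H hodd hone Ω' hP₀
      (hf.nsmul W (2 ^ m))
    · obtain ⟨Q, hQ⟩ := hm
      refine ⟨Q, fun σ => ?_⟩
      have := hQ σ
      simp only at this ⊢
      rw [← this, ← two_nsmul, smul_smul, pow_succ']
    · intro v
      obtain ⟨ι, P, hP⟩ := hloc v
      refine ⟨ι, 2 ^ m • P, fun τ σ hc => ?_⟩
      rw [map_nsmul, hP τ σ hc, map_nsmul, nsmul_sub]

include R Ω Ω' hW h2 hirr0 hsep0 hint hcond H hodd hone in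
theorem pts_one {P₀ : Pt W L} (hP₀ : IsSpecial w₀ D P₀) (P : Pt W L) :
    ∃ Q : Pt W L, P = Q + Q ∨ P + P₀ = Q + Q := by
  obtain ⟨p, q, r, hC⟩ := exists_cub (Ω := Ω) hW.a1 hW.a3 h2 (by rw [hW.a2, hW.a4, hW.a6]; exact Tw.tw_sep hW.ne hsep0)
  obtain ⟨H₀, hH₀⟩ := hC.halve_sep (act W (incl L L Ω) P₀)
  obtain ⟨H', hH⟩ := hC.halve_sep (act W (incl L L Ω) P)
  have fixP : ∀ (P : Pt W L) (σ : Ω ≃ₐ[L] Ω),
      act W (au σ) (act W (incl L L Ω) P) = act W (incl L L Ω) P :=
    fun P σ => rs_act_incl (K := L) (F := L) W σ P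
  have k : ∀ σ : Ω ≃ₐ[L] Ω, (act W (au σ) H' - H') + (act W (au σ) H' - H') = 0 := by
    intro σ
    rw [sub_add_sub_comm, ← map_add, hH, fixP, sub_self]
  have hloc : ∀ v : HeightOneSpectrum S, LocTriv W (v.adicCompletion L) (Ω' v)
      (fun σ : Ω ≃ₐ[L] Ω => act W (au σ) H' - H') := fun v => by
    let ι : Ω →ₐ[L] Ω' v := IsSepClosed.lift
    refine ⟨ι, act W ι H', fun τ σ hc => ?_⟩
    rw [map_sub, act_act, act_act, ← hc]
  rcases sel_one (R := R) (S := S) hW h2 hirr0 hsep0 hint w₀ hcond H hodd hone Ω' hP₀ hH₀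
    (cob_isCoc W H') k hloc with ⟨T, hT, hTf⟩ | ⟨T, hT, hTf⟩
  · obtain ⟨Q, hQ⟩ := fixed_point (K := L) (F := L) (Ω := Ω) W (H' - T)
      (fun σ => by
        have h1 := hTf σ
        show act W (au σ) (H' - T) = H' - T
        rw [map_sub]
        have h2 : act W (au σ) H' = (act W (au σ) T - T) + H' := by rw [← h1]; abel
        rw [h2]; abel)
    refine ⟨Q, Or.inl ?_⟩
    apply act_inj W (incl L L Ω)
    rw [map_add, hQ, ← hH]
    have : H' - T + (H' - T) = (H' + H') - (T + T) := by abel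
    rw [this, hT, sub_zero]
  · obtain ⟨Q, hQ⟩ := fixed_point (K := L) (F := L) (Ω := Ω) W (H' + H₀ - T)
      (fun σ => by
        have h1 := hTf σ
        show act W (au σ) (H' + H₀ - T) = H' + H₀ - T
        rw [map_sub, map_add]
        have h2 : act W (au σ) H' = (act W (au σ) T - T) - (act W (au σ) H₀ - H₀) + H' := by
          rw [← h1]; abel
        rw [h2]; abel)
    refine ⟨Q, Or.inr ?_⟩
    apply act_inj W (incl L L Ω)
    rw [map_add, map_add, hQ, ← hH, ← hH₀]
    have : H' + H₀ - T + (H' + H₀ - T) = (H' + H') + (H₀ + H₀) - (T + T) := by abel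
    rw [this, hT, sub_zero]

omit Ω Ω' in
include hW hint h2v hodd hone in
/-- The special point is not a double. -/
theorem not_double {P₀ : Pt W L} (hP₀ : IsSpecial w₀ D P₀) (Q : Pt W L) : P₀ ≠ Q + Q := by
  rintro rfl
  obtain ⟨i1, i2, i3⟩ := hint w₀
  refine sg_double (W := (W.baseChange L).toAffine) (w₀.valuation L) (a := a) (b := b) (c := c)
    ?_ ?_ ?_ ?_ ?_ hW.ne h2v i1 i2 i3 hodd hone Q hP₀
  · show algebraMap L L W.a₁ = 0
    rw [hW.a1, map_zero]
  · show algebraMap L L W.a₂ = _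
    rw [hW.a2]; rfl
  · show algebraMap L L W.a₃ = 0
    rw [hW.a3, map_zero]
  · show algebraMap L L W.a₄ = _
    rw [hW.a4]; rfl
  · show algebraMap L L W.a₆ = _
    rw [hW.a6]; rfl

end sel

end Pool.Agent.NH7.Cub
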