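import Pool.Agent.NH7.Cub.Gen
import Pool.Agent.NH7.Cub.One

/-!
Twists with two-Selmer group of order two over a tower of quadratic extensions of the fraction
field of a Dedekind domain.
-/

set_option autoImplicit false
set_option linter.all false

open WithZero Polynomial IsDedekindDomain

namespace Pool.Agent.NH7.Cub

open Pool.Agent.W309.Sha (PointsComplete ShaTwoTrivial ShaTateTrivial Points)

section gen

variable {R K L S : Type} [CommRing R] [IsDedekindDomain R] [Field K] [Algebra R K]
  [IsFractionRing R K] [Field L] [Algebra K L] [Algebra R L] [IsScalarTower R K L] [CommRing S]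
  [IsDedekindDomain S] [Algebra S L] [IsFractionRing S L] [Algebra R S] [IsScalarTower R S L]

/-- The cubic has exactly one root modulo `w`, and it is simple. -/
structure OneRoot (S : Type) [CommRing S] [Algebra R S] (w : Ideal S) (a b c : R) : Prop where
  uniq : ∀ x y : S, x ^ 3 + algebraMap R S a * x ^ 2 + algebraMap R S b * x + algebraMap R S c ∈ w →
    y ^ 3 + algebraMap R S a * y ^ 2 + algebraMap R S b * y + algebraMap R S c ∈ w → x - y ∈ w
  simple : ∀ x : S, x ^ 3 + algebraMap R S a * x ^ 2 + algebraMap R S b * x + algebraMap R S c ∈ w →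
    3 * x ^ 2 + 2 * algebraMap R S a * x + algebraMap R S b ∉ w

omit [IsDedekindDomain R] [IsFractionRing R K] in
theorem one_ofG (a b c : R) (w : HeightOneSpectrum S) (h : OneRoot S w.asIdeal a b c) :
    One (w.valuation L) (algebraMap R L a) (algebraMap R L b) (algebraMap R L c) := by
  have hSL : ∀ r : R, algebraMap R L r = algebraMap S L (algebraMap R S r) := fun r =>
    IsScalarTower.algebraMap_apply R S L r
  have hS1 : ∀ s : S, w.valuation L (algebraMap S L s) ≤ 1 := fun s => w.valuation_le_one s
  have approx : ∀ x : L, w.valuation L x ≤ 1 → ∃ g : S, w.valuation L (x - algebraMap S L g) < 1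
      := by
    intro x hx1
    obtain ⟨n, d, hnd⟩ := w.exists_primeCompl_mul_eq_of_integer x hx1
    haveI := w.isMaximal
    obtain ⟨d', hd'⟩ : ∃ d' : S, (d : S) * d' - 1 ∈ w.asIdeal := by
      have h1 := Ideal.IsMaximal.exists_inv w.isMaximal (x := (d : S)) d.2
      obtain ⟨y, i, hi, hyi⟩ := h1
      refine ⟨y, ?_⟩
      have : (d : S) * y - 1 = -i := by rw [← hyi]; ring
      rw [this]
      exact neg_mem hi
    refine ⟨n * d', ?_⟩
    have e1 : x - algebraMap S L (n * d') = -(x * algebraMap S L ((d : S) * d' - 1)) := by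
      rw [map_mul, ← hnd, map_sub, map_mul, map_one]
      ring
    rw [e1, Valuation.map_neg]
    exact lt_mul_right' _ hx1 ((w.valuation_lt_one_iff_mem _).2 hd')
  have hmem : ∀ s : S, s ∈ w.asIdeal ↔ w.valuation L (algebraMap S L s) < 1 :=
    fun s => (w.valuation_lt_one_iff_mem s).symm
  have n2 : w.valuation L 2 ≤ 1 := le_ofNat' _ 2
  have n3 : w.valuation L 3 ≤ 1 := le_ofNat' _ 3
  have ha : w.valuation L (algebraMap R L a) ≤ 1 := by rw [hSL]; exact hS1 _
  have hb : w.valuation L (algebraMap R L b) ≤ 1 := by rw [hSL]; exact hS1 _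
  have hc : w.valuation L (algebraMap R L c) ≤ 1 := by rw [hSL]; exact hS1 _
  have key : ∀ x : L, w.valuation L x ≤ 1 → w.valuation L (x ^ 3 + algebraMap R L a * x ^ 2 +
      algebraMap R L b * x + algebraMap R L c) < 1 → ∃ g : S,
      w.valuation L (x - algebraMap S L g) < 1 ∧ g ^ 3 + algebraMap R S a * g ^ 2 +
        algebraMap R S b * g + algebraMap R S c ∈ w.asIdeal := by
    intro x hx hfx
    obtain ⟨g, hg⟩ := approx x hx
    refine ⟨g, hg, ?_⟩
    rw [hmem]
    set y := algebraMap S L g with hy
    have hyle : w.valuation L y ≤ 1 := hS1 g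
    have e1 : algebraMap S L (g ^ 3 + algebraMap R S a * g ^ 2 +
        algebraMap R S b * g + algebraMap R S c) = (x ^ 3 + algebraMap R L a * x ^ 2 +
      algebraMap R L b * x + algebraMap R L c) - (x - y) * (x ^ 2 + x * y + y ^ 2 +
        algebraMap R L a * (x + y) + algebraMap R L b) := by
      rw [hSL, hSL, hSL]
      simp only [map_add, map_mul, map_pow, ← hy]
      ring
    rw [e1]
    exact lt_sub' _ hfx (lt_mul_left' _ hg (le_add' _ (le_add' _ (le_add' _ (le_add' _
      (le_pow' _ hx 2) (le_mul' _ hx hyle)) (le_pow' _ hyle 2)) (le_mul' _ ha (le_add' _ hx hyle)))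
      hb))
  constructor
  · intro x x' hx hx' hfx hfx'
    obtain ⟨g, hg, hfg⟩ := key x hx hfx
    obtain ⟨g', hg', hfg'⟩ := key x' hx' hfx'
    have h1 := h.uniq g g' hfg hfg'
    rw [hmem, map_sub] at h1
    have h3 : x - x' = (x - algebraMap S L g) + (algebraMap S L g - algebraMap S L g') -
      (x' - algebraMap S L g') := by ring
    rw [h3]
    exact lt_sub' _ (lt_add' _ hg h1) hg'
  · intro x hx hfx
    obtain ⟨g, hg, hfg⟩ := key x hx hfx
    have h1 := h.simple g hfg
    set y := algebraMap S L g with hy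
    have hyle : w.valuation L y ≤ 1 := hS1 g
    have e1 : algebraMap S L (3 * g ^ 2 + 2 * algebraMap R S a * g + algebraMap R S b) =
        3 * y ^ 2 + 2 * algebraMap R L a * y + algebraMap R L b := by
      rw [hSL, hSL]
      simp only [map_add, map_mul, map_pow, map_ofNat, ← hy]
    have h2 : w.valuation L (3 * y ^ 2 + 2 * algebraMap R L a * y + algebraMap R L b) = 1 := by
      apply le_antisymm
      · exact le_add' _ (le_add' _ (le_mul' _ n3 (le_pow' _ hyle 2)) (le_mul' _ (le_mul' _ n2 ha)
          hyle)) hb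
      · rw [← e1, ← not_lt, ← hmem]
        exact h1
    have h3 : 3 * x ^ 2 + 2 * algebraMap R L a * x + algebraMap R L b =
        (3 * y ^ 2 + 2 * algebraMap R L a * y + algebraMap R L b) +
        (x - y) * (3 * (x + y) + 2 * algebraMap R L a) := by ring
    have h4 : w.valuation L ((x - y) * (3 * (x + y) + 2 * algebraMap R L a)) < 1 :=
      lt_mul_left' _ hg (le_add' _ (le_mul' _ n3 (le_add' _ hx hyle)) (le_mul' _ n2 ha))
    rw [h3, Valuation.map_add_eq_of_lt_left _ (by rw [h2]; exact h4), h2]

/-- There is no two-torsion, and the group of points modulo two has order two. -/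
def TwoRankOne {L : Type} [Field L] (W : WeierstrassCurve L) : Prop := by
  classical
  exact (∀ T : Points W L, T + T = 0 → T = 0) ∧ ∃ P₀ : Points W L, (∀ Q, Q + Q ≠ P₀) ∧
    ∀ P, ∃ Q, P = Q + Q ∨ P = P₀ + (Q + Q)

open scoped Classical in
/-- **Twists with two-Selmer group of order two.** -/
theorem main_one [Algebra.IsIntegral R S] (h2 : IsUnit (2 : R)) (hL : TwoTower K L) (a b c : R)
    (hirr : Irreducible (cub (algebraMap R K a) (algebraMap R K b) (algebraMap R K c)))
    (h0 : discR a b c ≠ 0) (hdisc : ∀ v : HeightOneSpectrum R, discR a b c ∉ v.asIdeal ^ 2)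
    (H : H1 R K (algebraMap R K a) (algebraMap R K b) (algebraMap R K c)) (D : L) (hD : D ≠ 0)
    (w₀ : HeightOneSpectrum S) (hun : ¬ (w₀.asIdeal.under R).map (algebraMap R S) ≤ w₀.asIdeal ^ 2)
    (hodd : ¬ IsSquare (w₀.valuation L D)) (hone : OneRoot S w₀.asIdeal a b c)
    (hram : ∀ w : HeightOneSpectrum S, w ≠ w₀ →
      ((w.asIdeal.under R).map (algebraMap R S) ≤ w.asIdeal ^ 2 ∨
        ¬ IsSquare (w.valuation L D)) →
      ∀ g : R, g ^ 3 + a * g ^ 2 + b * g + c ∉ w.asIdeal.under R)
    (x₀ y₀ : L) (hxy : D * y₀ ^ 2 = x₀ ^ 3 + algebraMap R L a * x₀ ^ 2 + algebraMap R L b * x₀ +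
      algebraMap R L c) (hx₀ : w₀.valuation L x₀ ≤ 1) :
    TwoRankOne (crvG L a b c D) ∧
      ShaTwoTrivial S (crvG L a b c D) ∧ ShaTateTrivial S (crvG L a b c D) := by
  have hinj : Function.Injective (algebraMap R K) := IsFractionRing.injective R K
  have h2L : (2 : L) ≠ 0 := by
    have : (2 : L) = algebraMap R L 2 := (map_ofNat _ 2).symm
    rw [this]
    exact (h2.map (algebraMap R L)).ne_zero
  have hsep : (cub (algebraMap R K a) (algebraMap R K b) (algebraMap R K c)).Separable := by
    apply sep_of_disc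
    rw [discR_map, Ne, map_eq_zero_iff _ hinj]
    exact h0
  have claim := claim_tower (R := R) h2 hirr hsep ⟨a, rfl⟩ ⟨b, rfl⟩ ⟨c, rfl⟩ H L hL
  haveI hfd0 : Algebra.IsAlgebraic K L := by
    haveI : Algebra.IsAlgebraic R L := by
      haveI : Algebra.IsAlgebraic R S := inferInstance
      have h1 : ∀ s : S, IsAlgebraic R (algebraMap S L s) := fun s =>
        (Algebra.IsAlgebraic.isAlgebraic (R := R) s).algebraMap
      refine ⟨fun x => ?_⟩
      obtain ⟨n, d, hd, rfl⟩ := IsFractionRing.div_surjective (A := S) x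
      rw [div_eq_mul_inv]
      exact (h1 n).mul (h1 d).inv
    exact ⟨fun x => (Algebra.IsAlgebraic.isAlgebraic (R := R) x).extendScalars hinj⟩
  have hgood : ∀ v : Valuation L ℤᵐ⁰, Function.Surjective v → Int' R v →
      Good (algebraMap R K a) (algebraMap R K b) (algebraMap R K c) v := by
    intro v hv hR
    obtain ⟨w, hw⟩ := exists_center (S := S) v hv (int_of_int v hR)
    rw [← hw]
    by_cases h : (w.asIdeal.under R).map (algebraMap R S) ≤ w.asIdeal ^ 2
    · refine Or.inr (sil_ofG a b c w (hram w ?_ (Or.inl h)))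
      rintro rfl
      exact hun h
    · exact Or.inl (unr_ofG w h)
  obtain ⟨hirrL, hfd, HL, hsil⟩ := claim hgood
  have ea : algebraMap K L (algebraMap R K a) = algebraMap R L a :=
    (IsScalarTower.algebraMap_apply R K L a).symm
  have eb : algebraMap K L (algebraMap R K b) = algebraMap R L b :=
    (IsScalarTower.algebraMap_apply R K L b).symm
  have ec : algebraMap K L (algebraMap R K c) = algebraMap R L c :=
    (IsScalarTower.algebraMap_apply R K L c).symm
  have hsepL : (cub (algebraMap K L (algebraMap R K a)) (algebraMap K L (algebraMap R K b))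
      (algebraMap K L (algebraMap R K c))).Separable := by
    rw [← cub_map]
    exact hsep.map
  have hRS : ∀ v : HeightOneSpectrum S, Int' R (v.valuation L) := by
    intro v r
    rw [IsScalarTower.algebraMap_apply R S L]
    exact v.valuation_le_one _
  rw [ea, eb, ec] at hirrL HL hsepL
  have hTw : IsTw (crvG L a b c D) D (algebraMap R L a) (algebraMap R L b)
      (algebraMap R L c) :=
    { a1 := rfl
      a2 := rfl
      a3 := rfl
      a4 := rfl
      a6 := rfl
      ne := hD }
  have hint : ∀ v : HeightOneSpectrum S, v.valuation L (algebraMap R L a) ≤ 1 ∧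
      v.valuation L (algebraMap R L b) ≤ 1 ∧ v.valuation L (algebraMap R L c) ≤ 1 :=
    fun v => ⟨hRS v _, hRS v _, hRS v _⟩
  have hcond : ∀ v : HeightOneSpectrum S, v ≠ w₀ →
      Sil (algebraMap R L a) (algebraMap R L b) (algebraMap R L c) (v.valuation L) ∨
      (exp (-1) ≤ v.valuation L (disc3 (algebraMap R L a) (algebraMap R L b)
        (algebraMap R L c)) ∧ IsSquare (v.valuation L D)) := fun v hv0 => by
      by_cases hs : ∀ g : R, g ^ 3 + a * g ^ 2 + b * g + c ∉ v.asIdeal.under R
      · left
        have := hsil (v.valuation L) (v.valuation_surjective L) (hRS v)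
          (sil_ofG (K := K) a b c v hs)
        rw [ea, eb, ec] at this
        exact this
      · right
        have h1 : ¬ ((v.asIdeal.under R).map (algebraMap R S) ≤ v.asIdeal ^ 2 ∨
            ¬ IsSquare (v.valuation L D)) := fun h => hs (hram v hv0 h)
        rw [not_or, not_not] at h1
        obtain ⟨hun, hsq⟩ := h1
        refine ⟨?_, hsq⟩
        obtain ⟨x, hx⟩ := unr_ofG (K := K) (L := L) v hun
        obtain ⟨p, e, he, hp, -⟩ := exists_belowG (K := K) (v.valuation L)
          (v.valuation_surjective L) (hRS v)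
        have he1 : e = 1 := by
          rw [hp] at hx
          have hx0 : p.valuation K x ≠ 0 := by
            intro h0
            rw [h0, zero_pow he.ne'] at hx
            exact exp_ne_zero hx.symm
          have h1 : p.valuation K x = exp (log (p.valuation K x)) := (exp_log hx0).symm
          rw [h1, ← exp_nsmul, exp_inj, nsmul_eq_mul] at hx
          have he1 : (e : ℤ) ∣ 1 := ⟨-(log (p.valuation K x)), by linarith⟩
          have := Int.le_of_dvd (by norm_num) he1
          omega
        have h3 : disc3 (algebraMap R L a) (algebraMap R L b)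
            (algebraMap R L c) =
            algebraMap K L (algebraMap R K (discR a b c)) := by
          rw [discR_map, IsScalarTower.algebraMap_apply R K L]
        rw [h3, hp, he1, pow_one, p.valuation_of_algebraMap]
        have h4 := hdisc p
        rw [← p.intValuation_le_pow_iff_mem] at h4
        have h5 : p.intValuation (discR a b c) ≠ 0 := by
          intro h6
          rw [h6] at h4
          exact h4 zero_le'
        have h6 : p.intValuation (discR a b c) =
            exp (log (p.intValuation (discR a b c))) := (exp_log h5).symm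
        rw [h6] at h4 ⊢
        rw [exp_le_exp, not_le] at h4
        rw [exp_le_exp]
        push_cast at h4
        omega
  have hone' := one_ofG (L := L) a b c w₀ hone
  have h2v : w₀.valuation L 2 = 1 := by
    obtain ⟨r, hr⟩ := h2.exists_right_inv
    have h3 : w₀.valuation L 2 * w₀.valuation L (algebraMap R L r) = 1 := by
      rw [← map_mul]
      have : (2 : L) * algebraMap R L r = algebraMap R L (2 * r) := by
        rw [map_mul, map_ofNat]
      rw [this, hr, map_one, map_one]
    have h4 : w₀.valuation L 2 ≤ 1 := le_ofNat' _ 2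
    apply le_antisymm h4
    rw [← h3]
    exact mul_le_of_le_one_right' (hRS w₀ r)
  set W := crvG L a b c D with hWdef
  have hirrW : Irreducible (cub W.a₂ W.a₄ W.a₆) := Tw.tw_irr hD hirrL
  have hsepW : (cub W.a₂ W.a₄ W.a₆).Separable := Tw.tw_sep hD hsepL
  have htor := tor_zero W rfl rfl h2L hirrW
  have heq : ((W.baseChange L).toAffine).Equation (D * x₀) (D ^ 2 * y₀) := by
    rw [WeierstrassCurve.Affine.equation_iff]
    show (D ^ 2 * y₀) ^ 2 + 0 * (D * x₀) * (D ^ 2 * y₀) + 0 * (D ^ 2 * y₀) = (D * x₀) ^ 3 +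
      D * algebraMap R L a * (D * x₀) ^ 2 + D ^ 2 * algebraMap R L b * (D * x₀) +
        D ^ 3 * algebraMap R L c
    linear_combination D ^ 3 * hxy
  have hns : ((W.baseChange L).toAffine).Nonsingular (D * x₀) (D ^ 2 * y₀) := by
    rw [WeierstrassCurve.Affine.nonsingular_iff]
    refine ⟨heq, ?_⟩
    right
    show ¬ D ^ 2 * y₀ = -(D ^ 2 * y₀) - 0 * (D * x₀) - 0
    intro h
    have h3 : 2 * (D ^ 2 * y₀) = 0 := by linear_combination h
    rcases mul_eq_zero.1 h3 with h4 | h4
    · exact h2L h4
    · rcases mul_eq_zero.1 h4 with h5 | h5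
      · exact pow_ne_zero 2 hD h5
      · rw [h5] at hxy
        have h6 := hirrL
        rw [(cub_monic _ _ _).irreducible_iff_roots_eq_zero_of_degree_le_three
          (by rw [cub_natDegree]; norm_num) (by rw [cub_natDegree]),
          Multiset.eq_zero_iff_forall_notMem] at h6
        apply h6 x₀
        rw [mem_roots (cub_monic _ _ _).ne_zero]
        have h7 : x₀ ^ 3 + algebraMap R L a * x₀ ^ 2 + algebraMap R L b * x₀ + algebraMap R L c =
            0 := by rw [← hxy]; ring
        simpa [cub] using h7
  set P₀ : Points W L := WeierstrassCurve.Affine.Point.some _ _ hns with hP₀def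
  have hP₀ : IsSpecial w₀ D P₀ := by
    show w₀.valuation L (D * x₀) ≤ w₀.valuation L D
    rw [map_mul]
    exact mul_le_of_le_one_right' hx₀
  have hpts := pts_one (R := R) (S := S) (Ω := SeparableClosure L) hTw h2L hirrL hsepL hint w₀
    hcond HL hodd hone' (fun v => SeparableClosure (v.adicCompletion L)) hP₀
  have hnd := not_double hTw hint w₀ h2v hodd hone' hP₀
  have key0 : ∀ f : (SeparableClosure L ≃ₐ[L] SeparableClosure L) →
      Pool.Agent.W309.TD.Pt W (SeparableClosure L),
      Pool.Agent.W309.TD.IsCoc W f → (∀ v : HeightOneSpectrum S,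
        Pool.Agent.W309.TD.LocTriv W (v.adicCompletion L)
        (SeparableClosure (v.adicCompletion L)) f) → Pool.Agent.W309.TD.TwoPow W f →
      Pool.Agent.W309.TD.IsCob W f := by
    rintro f hf hloc ⟨m, hm⟩
    exact pow_coc_one (R := R) (S := S) hTw h2L hirrL hsepL hint w₀
      hcond HL hodd hone' (fun v => SeparableClosure (v.adicCompletion L)) hP₀ hf m hm hloc
  have key : ShaTwoTrivial S W := by
    intro f hf hl ht
    refine key0 f ⟨hf.1, hf.2⟩ (fun v => ?_) ht
    obtain ⟨ι, P, h⟩ := hl v
    refine ⟨ι, P, fun τ σ hτσ => ?_⟩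
    exact h τ σ (fun x => congrArg (fun φ => φ x) hτσ)
  refine ⟨⟨htor, P₀, fun Q hQ => hnd Q hQ.symm, fun P => ?_⟩, key,
    fun c h1 h2 h3 _ n => key (c n) (h1 n) (h2 n) (h3 n)⟩
  obtain ⟨Q, hQ | hQ⟩ := hpts P
  · exact ⟨Q, Or.inl hQ⟩
  · refine ⟨Q - P₀, Or.inr ?_⟩
    have : P = (P + P₀) - P₀ := by abel
    rw [this, hQ]
    abel

end gen

end Pool.Agent.NH7.Cub
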