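import Pool.Agent.NH7.Cub.Tower

/-!
A Galois extension of degree a power of two is a tower of quadratic extensions.
-/

set_option autoImplicit false
set_option linter.all false

open WithZero Polynomial

namespace Pool.Agent.NH7.Cub

theorem twoTower_of_galois (n : ℕ) : ∀ (K L : Type) [Field K] [Field L] [Algebra K L]
    [IsGalois K L], (2 : K) ≠ 0 → Module.finrank K L = 2 ^ n → TwoTower K L := by
  induction n with
  | zero =>
    intro K L _ _ _ _ h2 hn
    rw [pow_zero] at hn
    haveI : FiniteDimensional K L := FiniteDimensional.of_finrank_pos (by rw [hn]; norm_num)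
    apply TwoTower.base
    intro x
    have h1 : (⊥ : Subalgebra K L) = ⊤ := Subalgebra.bot_eq_top_iff_finrank_eq_one.2 hn
    have h3 : x ∈ (⊥ : Subalgebra K L) := by rw [h1]; trivial
    exact Algebra.mem_bot.1 h3
  | succ n ih =>
    intro K L _ _ _ _ h2 hn
    haveI : FiniteDimensional K L := FiniteDimensional.of_finrank_pos (by rw [hn]; positivity)
    have hcard : Nat.card (L ≃ₐ[K] L) = 2 ^ (n + 1) := by
      rw [IsGalois.card_aut_eq_finrank, hn]
    haveI : Fact (Nat.Prime 2) := ⟨Nat.prime_two⟩
    have hpG : IsPGroup 2 (L ≃ₐ[K] L) := IsPGroup.of_card hcard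
    haveI : Nontrivial (L ≃ₐ[K] L) := by
      rw [← Finite.one_lt_card_iff_nontrivial, hcard]
      exact Nat.one_lt_pow (by omega) (by norm_num)
    haveI := hpG.center_nontrivial
    obtain ⟨z, hz⟩ : ∃ z : Subgroup.center (L ≃ₐ[K] L), orderOf z = 2 := by
      have h1 : IsPGroup 2 (Subgroup.center (L ≃ₐ[K] L)) := hpG.to_subgroup _
      obtain ⟨m, hm⟩ := IsPGroup.iff_card.1 h1
      have hm0 : m ≠ 0 := by
        rintro rfl
        have := Finite.one_lt_card_iff_nontrivial.2
          (inferInstance : Nontrivial (Subgroup.center (L ≃ₐ[K] L)))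
        rw [hm] at this
        norm_num at this
      have h3 : 2 ∣ Nat.card (Subgroup.center (L ≃ₐ[K] L)) := by
        rw [hm]; exact dvd_pow_self 2 hm0
      exact exists_prime_orderOf_dvd_card' 2 h3
    set g : L ≃ₐ[K] L := (z : L ≃ₐ[K] L) with hg
    have hgord : orderOf g = 2 := by rw [hg, Subgroup.orderOf_coe, hz]
    have hgc : ∀ σ : L ≃ₐ[K] L, σ * g = g * σ := fun σ => (Subgroup.mem_center_iff.1 z.2 σ)
    let N : Subgroup (L ≃ₐ[K] L) := Subgroup.zpowers g
    haveI hN : N.Normal := by
      refine ⟨fun x hx σ => ?_⟩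
      have h1 : σ * x * σ⁻¹ = x := by
        obtain ⟨k, rfl⟩ := Subgroup.mem_zpowers_iff.1 hx
        have h2 : Commute σ (g ^ k) := (show Commute σ g from hgc σ).zpow_right k
        rw [h2.eq, mul_inv_cancel_right]
      rw [h1]; exact hx
    let F := IntermediateField.fixedField N
    have hNcard : Nat.card N = 2 := by
      show Nat.card (Subgroup.zpowers g) = 2
      rw [Nat.card_zpowers, hgord]
    have hFL : Module.finrank F L = 2 := by
      have h3 : Module.finrank F L = Nat.card N := IntermediateField.finrank_fixedField_eq_card N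
      rw [h3, hNcard]
    have hKF : Module.finrank K F = 2 ^ n := by
      have h3 := Module.finrank_mul_finrank K F L
      rw [hFL, hn, pow_succ] at h3
      exact Nat.eq_of_mul_eq_mul_right (by norm_num) h3
    haveI : IsGalois K F := IsGalois.of_fixedField_normal_subgroup N
    have hF := ih K F h2 hKF
    have hmemF : ∀ y : L, g y = y → y ∈ F := by
      intro y hy
      rw [IntermediateField.mem_fixedField_iff]
      intro σ hσ
      obtain ⟨k, rfl⟩ := Subgroup.mem_zpowers_iff.1 hσ
      have h4 : g ∈ MulAction.stabilizer (L ≃ₐ[K] L) y := hy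
      exact (MulAction.stabilizer (L ≃ₐ[K] L) y).zpow_mem h4 k
    have hgg : ∀ y : L, g (g y) = y := by
      intro y
      have h4 : g * g = 1 := by
        rw [← pow_two, ← hgord, pow_orderOf_eq_one]
      rw [← AlgEquiv.mul_apply, h4]
      rfl
    obtain ⟨y, hy⟩ : ∃ y, g y ≠ y := by
      by_contra hcon
      push Not at hcon
      have : g = 1 := AlgEquiv.ext hcon
      rw [this, orderOf_one] at hgord
      norm_num at hgord
    set x := y - g y with hx
    have hx0 : x ≠ 0 := sub_ne_zero.2 (Ne.symm hy)
    have hgx : g x = -x := by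
      rw [hx, map_sub, hgg]; ring
    have h2L : (2 : L) ≠ 0 := by
      have : (2 : L) = algebraMap K L 2 := (map_ofNat _ 2).symm
      rw [this]
      exact (_root_.map_ne_zero _).2 h2
    have hx2 : x ^ 2 ∈ F := hmemF _ (by rw [map_pow, hgx]; ring)
    refine TwoTower.step F L x ⟨x ^ 2, hx2⟩ rfl ?_ hF
    intro t
    have e1 : (t + g t) / 2 ∈ F := hmemF _ (by
      rw [map_div₀, map_add, hgg, map_ofNat]; ring)
    have e2 : (t - g t) / (2 * x) ∈ F := hmemF _ (by
      rw [map_div₀, map_sub, hgg, map_mul, hgx, map_ofNat]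
      field_simp
      ring)
    refine ⟨⟨_, e1⟩, ⟨_, e2⟩, ?_⟩
    show t = (t + g t) / 2 + (t - g t) / (2 * x) * x
    field_simp
    ring

end Pool.Agent.NH7.Cub
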