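import Pool.Agent.NH7.Cub.Fin2

/-!
The descent over a tower of quadratic extensions of the fraction field of a Dedekind domain.
-/

set_option autoImplicit false
set_option linter.all false

open WithZero Polynomial IsDedekindDomain

namespace Pool.Agent.NH7.Cub

open Pool.Agent.W309.Sha (PointsComplete ShaTwoTrivial ShaTateTrivial Points)

/-- The discriminant of the cubic over a ring. -/
def discR {R : Type} [CommRing R] (a b c : R) : R :=
  a ^ 2 * b ^ 2 - 4 * b ^ 3 - 4 * a ^ 3 * c + 18 * a * b * c - 27 * c ^ 2

theorem discR_map {R F : Type} [CommRing R] [Field F] [Algebra R F] (a b c : R) :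
    disc3 (algebraMap R F a) (algebraMap R F b) (algebraMap R F c) =
      algebraMap R F (discR a b c) := by
  simp only [disc3, discR, map_add, map_sub, map_mul, map_pow, map_ofNat]

theorem sep_of_disc {F : Type} [Field F] {a b c : F} (h : disc3 a b c ≠ 0) :
    (cub a b c).Separable := by
  set E := AlgebraicClosure F
  set P : Cubic F := ⟨1, a, b, c⟩ with hP
  have hP1 : P.a ≠ 0 := one_ne_zero
  have hspl : (P.toPoly.map (algebraMap F E)).Splits := IsAlgClosed.splits _
  obtain ⟨x, y, z, h'⟩ := (Cubic.splits_iff_roots_eq_three (φ := algebraMap F E) hP1).1 hspl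
  have hb := Cubic.b_eq_three_roots hP1 h'
  have hc := Cubic.c_eq_three_roots hP1 h'
  have hd := Cubic.d_eq_three_roots hP1 h'
  have hb' : algebraMap F E a = algebraMap F E 1 * -(x + y + z) := hb
  have hc' : algebraMap F E b = algebraMap F E 1 * (x * y + x * z + y * z) := hc
  have hd' : algebraMap F E c = algebraMap F E 1 * -(x * y * z) := hd
  rw [map_one, one_mul] at hb' hc' hd'
  have hD : algebraMap F E (disc3 a b c) = ((x - y) * (y - z) * (z - x)) ^ 2 := by
    simp only [disc3, map_add, map_sub, map_mul, map_pow, map_ofNat]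
    rw [hb', hc', hd']
    ring
  have hD0 : ((x - y) * (y - z) * (z - x)) ^ 2 ≠ 0 := by
    rw [← hD, Ne, map_eq_zero_iff _ (algebraMap F E).injective]
    exact h
  have hD1 : (x - y) * (y - z) * (z - x) ≠ 0 := fun h0 => hD0 (by rw [h0]; ring)
  refine cub_sep (E := E) (p := x) (q := y) (r := z) hb' (by rw [hc']; ring) hd' ?_ ?_ ?_
  · rintro rfl; exact hD1 (by ring)
  · rintro rfl; exact hD1 (by ring)
  · rintro rfl; exact hD1 (by ring)

/-- The twist by `D` of the curve `y ^ 2 = x ^ 3 + a x ^ 2 + b x + c`. -/
noncomputable def crvG {R : Type} [CommRing R] (L : Type) [Field L] [Algebra R L] (a b c : R)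
    (D : L) : WeierstrassCurve L where
  a₁ := 0
  a₂ := D * algebraMap R L a
  a₃ := 0
  a₄ := D ^ 2 * algebraMap R L b
  a₆ := D ^ 3 * algebraMap R L c

section gen

variable {R K L S : Type} [CommRing R] [IsDedekindDomain R] [Field K] [Algebra R K]
  [IsFractionRing R K] [Field L] [Algebra K L] [Algebra R L] [IsScalarTower R K L] [CommRing S]
  [IsDedekindDomain S] [Algebra S L] [IsFractionRing S L] [Algebra R S] [IsScalarTower R S L]

/-- The restriction to `K` of a valuation of `L` integral on `R`. -/
theorem exists_belowG [Algebra.IsAlgebraic K L] (v : Valuation L ℤᵐ⁰) (hv : Function.Surjective v)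
    (hR : Int' R v) : ∃ (p : HeightOneSpectrum R) (e : ℕ), 0 < e ∧
      (∀ x : K, v (algebraMap K L x) = p.valuation K x ^ e) ∧
      ∀ r : R, r ∈ p.asIdeal ↔ v (algebraMap R L r) < 1 := by
  obtain ⟨v₀, e, hv₀, he, hve⟩ := exists_res (F := K) v hv
  have hR₀ : ∀ r : R, v₀ (algebraMap R K r) ≤ 1 := by
    intro r
    apply of_pow_le he
    rw [← hve, ← IsScalarTower.algebraMap_apply]
    exact hR r
  obtain ⟨p, hp⟩ := exists_center (S := R) v₀ hv₀ hR₀
  refine ⟨p, e, he, fun x => by rw [hve, hp], fun r => ?_⟩
  rw [← p.valuation_lt_one_iff_mem (K := K)]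
  have h1 : v (algebraMap R L r) = p.valuation K (algebraMap R K r) ^ e := by
    rw [IsScalarTower.algebraMap_apply R K L, hve, hp]
  rw [h1]
  constructor
  · intro h
    exact pow_lt_one' h he.ne'
  · intro h
    exact (pow_lt_one_iff_of_nonneg zero_le' he.ne').1 h

theorem unr_ofG (w : HeightOneSpectrum S)
    (h : ¬ (w.asIdeal.under R).map (algebraMap R S) ≤ w.asIdeal ^ 2) :
    ∃ x : K, w.valuation L (algebraMap K L x) = exp (-1) := by
  rw [Ideal.map_le_iff_le_comap, SetLike.not_le_iff_exists] at h
  obtain ⟨π, hπ, h⟩ := h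
  have hmem : algebraMap R S π ∈ w.asIdeal := hπ
  have h' : algebraMap R S π ∉ w.asIdeal ^ 2 := h
  have hSL : algebraMap K L (algebraMap R K π) = algebraMap S L (algebraMap R S π) := by
    rw [← IsScalarTower.algebraMap_apply, ← IsScalarTower.algebraMap_apply]
  refine ⟨algebraMap R K π, ?_⟩
  rw [hSL, w.valuation_of_algebraMap]
  have h1 : w.intValuation (algebraMap R S π) < 1 :=
    (w.intValuation_lt_one_iff_mem _).2 hmem
  rw [← w.intValuation_le_pow_iff_mem] at h'
  have h2 : w.intValuation (algebraMap R S π) ≠ 0 := by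
    intro h0
    rw [h0] at h'
    exact h' zero_le'
  have h3 : w.intValuation (algebraMap R S π) =
      exp (log (w.intValuation (algebraMap R S π))) := (exp_log h2).symm
  rw [h3] at h' h1 ⊢
  rw [exp_le_exp, not_le] at h'
  rw [← exp_zero, exp_lt_exp] at h1
  rw [exp_inj]
  push_cast at h'
  omega

theorem sil_ofG (a b c : R) [Algebra.IsAlgebraic K L] (w : HeightOneSpectrum S)
    (h : ∀ g : R, g ^ 3 + a * g ^ 2 + b * g + c ∉ w.asIdeal.under R) :
    ∀ x : K, w.valuation L (algebraMap K L x) ≤ 1 →
      w.valuation L (algebraMap K L (x ^ 3 + algebraMap R K a * x ^ 2 + algebraMap R K b * x +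
        algebraMap R K c)) = 1 := by
  have hSL : ∀ r : R, algebraMap R L r = algebraMap S L (algebraMap R S r) := fun r =>
    IsScalarTower.algebraMap_apply R S L r
  have hR : Int' R (w.valuation L) := by
    intro r
    rw [hSL]
    exact w.valuation_le_one _
  obtain ⟨p, e, he, hp, hpm⟩ := exists_belowG (K := K) (w.valuation L)
    (w.valuation_surjective L) hR
  have hpP : ∀ r : R, r ∈ p.asIdeal ↔ r ∈ w.asIdeal.under R := by
    intro r
    rw [hpm, hSL, w.valuation_lt_one_iff_mem]
    rfl
  intro x hx
  rw [hp] at hx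
  have hx1 : p.valuation K x ≤ 1 := of_pow_le he hx
  obtain ⟨n, d, hnd⟩ := p.exists_primeCompl_mul_eq_of_integer x hx1
  haveI := p.isMaximal
  obtain ⟨d', hd'⟩ : ∃ d' : R, (d : R) * d' - 1 ∈ p.asIdeal := by
    have h1 := Ideal.IsMaximal.exists_inv p.isMaximal (x := (d : R)) d.2
    obtain ⟨y, i, hi, hyi⟩ := h1
    refine ⟨y, ?_⟩
    have : (d : R) * y - 1 = -i := by rw [← hyi]; ring
    rw [this]
    exact neg_mem hi
  set g := n * d' with hg
  have h3 := h g
  rw [← hpP] at h3
  have h4 : p.valuation K (algebraMap R K (g ^ 3 + a * g ^ 2 + b * g + c)) = 1 := by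
    apply le_antisymm (p.valuation_le_one _)
    rw [← not_lt, p.valuation_lt_one_iff_mem]
    exact h3
  set y := algebraMap R K g with hy
  have hy1 : p.valuation K y ≤ 1 := p.valuation_le_one _
  have h5 : p.valuation K (x - y) < 1 := by
    have e1 : x - y = -(x * algebraMap R K ((d : R) * d' - 1)) := by
      rw [hy, hg, map_mul, ← hnd, map_sub, map_mul, map_one]
      ring
    rw [e1, Valuation.map_neg]
    exact lt_mul_right' _ hx1 ((p.valuation_lt_one_iff_mem _).2 hd')
  have e2 : algebraMap R K (g ^ 3 + a * g ^ 2 + b * g + c) =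
      y ^ 3 + algebraMap R K a * y ^ 2 + algebraMap R K b * y + algebraMap R K c := by
    rw [hy]
    simp only [map_add, map_mul, map_pow]
  rw [e2] at h4
  have ha : p.valuation K (algebraMap R K a) ≤ 1 := p.valuation_le_one _
  have hb : p.valuation K (algebraMap R K b) ≤ 1 := p.valuation_le_one _
  have h6 : p.valuation K (x ^ 3 + algebraMap R K a * x ^ 2 + algebraMap R K b * x +
      algebraMap R K c) = 1 := by
    have e3 : x ^ 3 + algebraMap R K a * x ^ 2 + algebraMap R K b * x + algebraMap R K c =
      (y ^ 3 + algebraMap R K a * y ^ 2 + algebraMap R K b * y + algebraMap R K c) +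
        (x - y) * (x ^ 2 + x * y + y ^ 2 + algebraMap R K a * (x + y) + algebraMap R K b) := by
      ring
    have h7 : p.valuation K ((x - y) * (x ^ 2 + x * y + y ^ 2 + algebraMap R K a * (x + y) +
        algebraMap R K b)) < 1 :=
      lt_mul_left' _ h5 (le_add' _ (le_add' _ (le_add' _ (le_add' _ (le_pow' _ hx1 2)
        (le_mul' _ hx1 hy1)) (le_pow' _ hy1 2)) (le_mul' _ ha (le_add' _ hx1 hy1))) hb)
    rw [e3, Valuation.map_add_eq_of_lt_left _ (by rw [h4]; exact h7), h4]
  rw [hp, h6, one_pow]

open scoped Classical in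
/-- **No growth in towers of quadratic extensions ramified at silent primes.** -/
theorem main_gen [Algebra.IsIntegral R S] (h2 : IsUnit (2 : R)) (hL : TwoTower K L) (a b c : R)
    (hirr : Irreducible (cub (algebraMap R K a) (algebraMap R K b) (algebraMap R K c)))
    (h0 : discR a b c ≠ 0) (hdisc : ∀ v : HeightOneSpectrum R, discR a b c ∉ v.asIdeal ^ 2)
    (H : H1 R K (algebraMap R K a) (algebraMap R K b) (algebraMap R K c)) (D : L) (hD : D ≠ 0)
    (hram : ∀ w : HeightOneSpectrum S,
      ((w.asIdeal.under R).map (algebraMap R S) ≤ w.asIdeal ^ 2 ∨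
        ¬ IsSquare (w.valuation L D)) →
      ∀ g : R, g ^ 3 + a * g ^ 2 + b * g + c ∉ w.asIdeal.under R) :
    (∀ P : Points (crvG L a b c D) L, ∃! Q, Q + Q = P) ∧
      ShaTwoTrivial S (crvG L a b c D) ∧ ShaTateTrivial S (crvG L a b c D) := by
  have hinj : Function.Injective (algebraMap R K) := IsFractionRing.injective R K
  have h2L : (2 : L) ≠ 0 := by
    have : (2 : L) = algebraMap R L 2 := (map_ofNat _ 2).symm
    rw [this]
    exact (h2.map (algebraMap R L)).ne_zero
  have hsep : (cub (algebraMap R K a) (algebraMap R K b) (algebraMap R K c)).Separable := by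
    apply sep_of_disc
    rw [discR_map, Ne, map_eq_zero_iff _ hinj]
    exact h0
  have claim := claim_tower (R := R) h2 hirr hsep ⟨a, rfl⟩ ⟨b, rfl⟩ ⟨c, rfl⟩ H L hL
  haveI hfd0 : Algebra.IsAlgebraic K L := by
    haveI : Algebra.IsAlgebraic R L := by
      haveI : Algebra.IsAlgebraic R S := inferInstance
      have h1 : ∀ s : S, IsAlgebraic R (algebraMap S L s) := fun s =>
        (Algebra.IsAlgebraic.isAlgebraic (R := R) s).algebraMap
      refine ⟨fun x => ?_⟩
      obtain ⟨n, d, hd, rfl⟩ := IsFractionRing.div_surjective (A := S) x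
      rw [div_eq_mul_inv]
      exact (h1 n).mul (h1 d).inv
    exact ⟨fun x => (Algebra.IsAlgebraic.isAlgebraic (R := R) x).extendScalars hinj⟩
  have hgood : ∀ v : Valuation L ℤᵐ⁰, Function.Surjective v → Int' R v →
      Good (algebraMap R K a) (algebraMap R K b) (algebraMap R K c) v := by
    intro v hv hR
    obtain ⟨w, hw⟩ := exists_center (S := S) v hv (int_of_int v hR)
    rw [← hw]
    by_cases h : (w.asIdeal.under R).map (algebraMap R S) ≤ w.asIdeal ^ 2
    · exact Or.inr (sil_ofG a b c w (hram w (Or.inl h)))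
    · exact Or.inl (unr_ofG w h)
  obtain ⟨hirrL, hfd, HL, hsil⟩ := claim hgood
  have ea : algebraMap K L (algebraMap R K a) = algebraMap R L a :=
    (IsScalarTower.algebraMap_apply R K L a).symm
  have eb : algebraMap K L (algebraMap R K b) = algebraMap R L b :=
    (IsScalarTower.algebraMap_apply R K L b).symm
  have ec : algebraMap K L (algebraMap R K c) = algebraMap R L c :=
    (IsScalarTower.algebraMap_apply R K L c).symm
  have hsepL : (cub (algebraMap K L (algebraMap R K a)) (algebraMap K L (algebraMap R K b))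
      (algebraMap K L (algebraMap R K c))).Separable := by
    rw [← cub_map]
    exact hsep.map
  have hRS : ∀ v : HeightOneSpectrum S, Int' R (v.valuation L) := by
    intro v r
    rw [IsScalarTower.algebraMap_apply R S L]
    exact v.valuation_le_one _
  rw [ea, eb, ec] at hirrL HL hsepL
  have hTw : IsTw (crvG L a b c D) D (algebraMap R L a) (algebraMap R L b)
      (algebraMap R L c) :=
    { a1 := rfl
      a2 := rfl
      a3 := rfl
      a4 := rfl
      a6 := rfl
      ne := hD }
  have hconcl := Tw.concl (R := R) (S := S) hTw h2L hirrL hsepL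
    (fun v => ⟨hRS v _, hRS v _, hRS v _⟩) (fun v => by
      by_cases hs : ∀ g : R, g ^ 3 + a * g ^ 2 + b * g + c ∉ v.asIdeal.under R
      · left
        have := hsil (v.valuation L) (v.valuation_surjective L) (hRS v)
          (sil_ofG (K := K) a b c v hs)
        rw [ea, eb, ec] at this
        exact this
      · right
        have h1 : ¬ ((v.asIdeal.under R).map (algebraMap R S) ≤ v.asIdeal ^ 2 ∨
            ¬ IsSquare (v.valuation L D)) := fun h => hs (hram v h)
        rw [not_or, not_not] at h1
        obtain ⟨hun, hsq⟩ := h1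
        refine ⟨?_, hsq⟩
        obtain ⟨x, hx⟩ := unr_ofG (K := K) (L := L) v hun
        obtain ⟨p, e, he, hp, -⟩ := exists_belowG (K := K) (v.valuation L)
          (v.valuation_surjective L) (hRS v)
        have he1 : e = 1 := by
          rw [hp] at hx
          have hx0 : p.valuation K x ≠ 0 := by
            intro h0
            rw [h0, zero_pow he.ne'] at hx
            exact exp_ne_zero hx.symm
          have h1 : p.valuation K x = exp (log (p.valuation K x)) := (exp_log hx0).symm
          rw [h1, ← exp_nsmul, exp_inj, nsmul_eq_mul] at hx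
          have he1 : (e : ℤ) ∣ 1 := ⟨-(log (p.valuation K x)), by linarith⟩
          have := Int.le_of_dvd (by norm_num) he1
          omega
        have h3 : disc3 (algebraMap R L a) (algebraMap R L b)
            (algebraMap R L c) =
            algebraMap K L (algebraMap R K (discR a b c)) := by
          rw [discR_map, IsScalarTower.algebraMap_apply R K L]
        rw [h3, hp, he1, pow_one, p.valuation_of_algebraMap]
        have h4 := hdisc p
        rw [← p.intValuation_le_pow_iff_mem] at h4
        have h5 : p.intValuation (discR a b c) ≠ 0 := by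
          intro h6
          rw [h6] at h4
          exact h4 zero_le'
        have h6 : p.intValuation (discR a b c) =
            exp (log (p.intValuation (discR a b c))) := (exp_log h5).symm
        rw [h6] at h4 ⊢
        rw [exp_le_exp, not_le] at h4
        rw [exp_le_exp]
        push_cast at h4
        omega) HL
  obtain ⟨hp, hs, ht⟩ := Pool.Agent.W309.Sha.of_concl _ hconcl
  refine ⟨bij_of _ (tor_zero _ rfl rfl h2L ?_) hp, hs, ht⟩
  exact Tw.tw_irr hD hirrL

end gen

end Pool.Agent.NH7.Cub
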