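import Pool.Agent.NH7.Cub.Quad
import Pool.Agent.NH7.Cub.Sil

/-!
The two-descent condition in a quadratic extension.
-/

set_option autoImplicit false
set_option linter.all false

open WithZero Polynomial

namespace Pool.Agent.NH7.Cub

/-- Restriction of a surjective valuation, normalised. -/
theorem exists_res {F A : Type} [Field F] [Field A] [Algebra F A] [Algebra.IsAlgebraic F A]
    (u : Valuation A ℤᵐ⁰) (hu : Function.Surjective u) :
    ∃ (v : Valuation F ℤᵐ⁰) (e : ℕ), Function.Surjective v ∧ 0 < e ∧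
      ∀ x : F, u (algebraMap F A x) = v x ^ e := by
  classical
  set j := algebraMap F A with hj
  -- the value group
  let S : AddSubgroup ℤ :=
    { carrier := {n | ∃ x : F, x ≠ 0 ∧ u (j x) = exp n}
      add_mem' := by
        rintro m n ⟨x, hx, hx'⟩ ⟨y, hy, hy'⟩
        exact ⟨x * y, mul_ne_zero hx hy, by rw [map_mul, map_mul, hx', hy', exp_add]⟩
      zero_mem' := ⟨1, one_ne_zero, by rw [map_one, map_one, exp_zero]⟩
      neg_mem' := by
        rintro m ⟨x, hx, hx'⟩
        exact ⟨x⁻¹, inv_ne_zero hx, by rw [map_inv₀, map_inv₀, hx', exp_neg]⟩ }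
  obtain ⟨g, hg⟩ := Int.subgroup_cyclic S
  have hgS : ∀ n : ℤ, n ∈ S ↔ g ∣ n := by
    intro n
    rw [hg, AddSubgroup.mem_closure_singleton]
    constructor
    · rintro ⟨k, hk⟩
      exact ⟨k, by rw [← hk, smul_eq_mul, mul_comm]⟩
    · rintro ⟨k, hk⟩
      exact ⟨k, by rw [hk, smul_eq_mul, mul_comm]⟩
  have hg0 : g ≠ 0 := by
    intro h0
    have htriv : ∀ x : F, x ≠ 0 → u (j x) = 1 := by
      intro x hx
      obtain ⟨n, hn⟩ := exists_exp u ((_root_.map_ne_zero j).2 hx)
      have h1 : n ∈ S := ⟨x, hx, hn⟩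
      rw [hgS, h0, zero_dvd_iff] at h1
      rw [hn, h1, exp_zero]
    have hle : ∀ x : F, u (j x) ≤ 1 := by
      intro x
      by_cases hx : x = 0
      · rw [hx, map_zero, map_zero]; exact zero_le'
      · exact (htriv x hx).le
    obtain ⟨π, hπ⟩ := hu (exp 1)
    letI : Algebra F u.valuationSubring :=
      (j.codRestrict u.valuationSubring.toSubring (fun x => hle x)).toAlgebra
    haveI : IsScalarTower F u.valuationSubring A := IsScalarTower.of_algebraMap_eq fun _ => rfl
    have h1 : IsIntegral F π := Algebra.IsIntegral.isIntegral π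
    have h2 : IsIntegral u.valuationSubring π := h1.tower_top
    obtain ⟨y, hy⟩ := IsIntegrallyClosed.isIntegral_iff.1 h2
    have h3 : u π ≤ 1 := by
      rw [← hy]
      exact y.2
    rw [hπ, ← exp_zero, exp_le_exp] at h3
    norm_num at h3
  set e := g.natAbs with he
  have he0 : 0 < e := Int.natAbs_pos.2 hg0
  have heS : ∀ n : ℤ, n ∈ S ↔ (e : ℤ) ∣ n := by
    intro n
    rw [hgS, he, Int.natAbs_dvd]
  have hez : (e : ℤ) ≠ 0 := by omega
  have hdiv : ∀ x : F, x ≠ 0 → ∃ n : ℤ, u (j x) = exp (e * n) := by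
    intro x hx
    obtain ⟨n, hn⟩ := exists_exp u ((_root_.map_ne_zero j).2 hx)
    obtain ⟨k, hk⟩ := (heS n).1 ⟨x, hx, hn⟩
    exact ⟨k, by rw [hn, hk]⟩
  let f : F → ℤᵐ⁰ := fun x => if x = 0 then 0 else exp (log (u (j x)) / e)
  have hf0 : f 0 = 0 := if_pos rfl
  have hf : ∀ x : F, x ≠ 0 → ∀ n : ℤ, u (j x) = exp (e * n) → f x = exp n := by
    intro x hx n hn
    show (if x = 0 then 0 else exp (log (u (j x)) / e)) = _
    rw [if_neg hx, hn, log_exp, Int.mul_ediv_cancel_left _ hez]
  have hpow : ∀ x : F, u (j x) = f x ^ e := by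
    intro x
    by_cases hx : x = 0
    · rw [hx, hf0, map_zero, map_zero, zero_pow he0.ne']
    · obtain ⟨n, hn⟩ := hdiv x hx
      rw [hf x hx n hn, hn, ← exp_nsmul, nsmul_eq_mul]
  have hmono : ∀ x y : F, u (j x) ≤ u (j y) → f x ≤ f y := by
    intro x y h
    rw [hpow, hpow] at h
    exact (pow_le_pow_iff_left₀ zero_le' zero_le' he0.ne').1 h
  let v : Valuation F ℤᵐ⁰ :=
    { toFun := f
      map_zero' := hf0
      map_one' := by
        rw [hf 1 one_ne_zero 0 (by rw [map_one, map_one, mul_zero, exp_zero]), exp_zero]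
      map_mul' := by
        intro x y
        by_cases hx : x = 0
        · rw [hx, zero_mul, hf0, zero_mul]
        by_cases hy : y = 0
        · rw [hy, mul_zero, hf0, mul_zero]
        obtain ⟨m, hm⟩ := hdiv x hx
        obtain ⟨n, hn⟩ := hdiv y hy
        rw [hf x hx m hm, hf y hy n hn, hf (x * y) (mul_ne_zero hx hy) (m + n) (by
          rw [map_mul, map_mul, hm, hn, ← exp_add, mul_add]), exp_add]
      map_add_le_max' := by
        intro x y
        rcases le_total (u (j x)) (u (j y)) with h | h
        · refine le_trans (hmono _ y ?_) (le_max_right _ _)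
          rw [map_add]
          exact (u.map_add _ _).trans (max_le h le_rfl)
        · refine le_trans (hmono _ x ?_) (le_max_left _ _)
          rw [map_add]
          exact (u.map_add _ _).trans (max_le le_rfl h) }
  refine ⟨v, e, ?_, he0, hpow⟩
  intro z
  by_cases hz : z = 0
  · exact ⟨0, by rw [map_zero, hz]⟩
  · obtain ⟨x, hx, hx'⟩ := (heS (e * log z)).2 ⟨_, rfl⟩
    exact ⟨x, by
      show f x = z
      rw [hf x hx _ hx', exp_log hz]⟩

/-- All valuations which are integral on `R` take a square value at `α`. -/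
def Ev (R F A : Type) [CommRing R] [Field F] [Field A] [Algebra R F] [Algebra F A] (α : A) :
    Prop :=
  ∀ u : Valuation A ℤᵐ⁰, Function.Surjective u →
    (∀ r : R, u (algebraMap F A (algebraMap R F r)) ≤ 1) → IsSquare (u α)

/-- In the cubic extension generated by a root of the cubic, elements of square norm with
everywhere even valuations are squares. -/
def H1 (R F : Type) [CommRing R] [Field F] [Algebra R F] (a b c : F) : Prop :=
  ∀ (A : Type) [Field A] [Algebra F A] (θ : A),
    θ ^ 3 + algebraMap F A a * θ ^ 2 + algebraMap F A b * θ + algebraMap F A c = 0 →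
    Module.finrank F A = 3 → ∀ α : A, α ≠ 0 → IsSquare (Algebra.norm F α) → Ev R F A α →
      IsSquare α

theorem of_pow_le {z : ℤᵐ⁰} {e : ℕ} (he : 0 < e) (h : z ^ e ≤ 1) : z ≤ 1 :=
  (pow_le_one_iff_of_nonneg zero_le' he.ne').1 h

theorem sq_of_mul {x y : ℤᵐ⁰} (hy : y ≠ 0) (h : IsSquare (x * y)) (h' : IsSquare y) :
    IsSquare x := by
  obtain ⟨r, hr⟩ := h
  obtain ⟨s, hs⟩ := h'
  refine ⟨r / s, ?_⟩
  rw [div_mul_div_comm, ← hr, ← hs, mul_div_cancel_right₀ _ hy]

theorem step {R F F' : Type} [CommRing R] [Field F] [Field F'] [Algebra R F] [Algebra F F']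
    [Algebra R F'] [IsScalarTower R F F'] (h2R : IsUnit (2 : R)) {a b c : F}
    (hsep : (cub a b c).Separable)
    (hirr' : Irreducible (cub (algebraMap F F' a) (algebraMap F F' b) (algebraMap F F' c)))
    {d : F} {s : F'} (hs : s ^ 2 = algebraMap F F' d) (hf : Module.finrank F F' = 2)
    (hns : ∀ y : F, algebraMap F F' y ≠ s)
    (hint : ∀ v : Valuation F ℤᵐ⁰, Function.Surjective v →
      (∀ r : R, v (algebraMap R F r) ≤ 1) → v a ≤ 1 ∧ v b ≤ 1 ∧ v c ≤ 1)
    (hram : ∀ v : Valuation F ℤᵐ⁰, Function.Surjective v →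
      (∀ r : R, v (algebraMap R F r) ≤ 1) → ¬ IsSquare (v d) → Sil a b c v)
    (H : H1 R F a b c) :
    H1 R F' (algebraMap F F' a) (algebraMap F F' b) (algebraMap F F' c) := by
  intro A' _ _ θ hθ h3 α hα hN hEv
  have h2F : (2 : F) ≠ 0 := by
    have : (2 : F) = algebraMap R F 2 := (map_ofNat _ 2).symm
    rw [this]
    exact (h2R.map (algebraMap R F)).ne_zero
  letI : Algebra F A' := ((algebraMap F' A').comp (algebraMap F F')).toAlgebra
  haveI : IsScalarTower F F' A' := IsScalarTower.of_algebraMap_eq fun _ => rfl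
  haveI : FiniteDimensional F F' := FiniteDimensional.of_finrank_pos (by rw [hf]; norm_num)
  haveI : FiniteDimensional F' A' := FiniteDimensional.of_finrank_pos (by rw [h3]; norm_num)
  haveI : FiniteDimensional F A' := FiniteDimensional.trans F F' A'
  have hirr : Irreducible (cub a b c) := by
    apply (cub_monic a b c).irreducible_of_irreducible_map (algebraMap F F')
    rw [cub_map]
    exact hirr'
  have hθF : θ ^ 3 + algebraMap F A' a * θ ^ 2 + algebraMap F A' b * θ + algebraMap F A' c = 0 :=
    hθ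
  have h6 : Module.finrank F A' = 6 := by
    rw [← Module.finrank_mul_finrank F F' A', hf, h3]
  let A := IntermediateField.adjoin F {θ}
  have hmin : minpoly F θ = cub a b c := by
    refine (minpoly.eq_of_irreducible_of_monic hirr ?_ (cub_monic a b c)).symm
    rw [cub_aeval, hθF]
  have h3A : Module.finrank F A = 3 := by
    rw [IntermediateField.adjoin.finrank (Algebra.IsIntegral.isIntegral θ), hmin, cub_natDegree]
  have h2A : Module.finrank A A' = 2 := by
    have := Module.finrank_mul_finrank F A A'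
    rw [h3A, h6] at this
    omega
  haveI : FiniteDimensional A A' := FiniteDimensional.of_finrank_pos (by rw [h2A]; norm_num)
  haveI : FiniteDimensional F A := FiniteDimensional.of_finrank_pos (by rw [h3A]; norm_num)
  set θA : A := ⟨θ, IntermediateField.mem_adjoin_simple_self F θ⟩ with hθA'
  have hinj : Function.Injective (algebraMap A A') := (algebraMap A A').injective
  have hθA : θA ^ 3 + algebraMap F A a * θA ^ 2 + algebraMap F A b * θA + algebraMap F A c = 0 := by
    apply hinj
    rw [map_zero, ← hθF]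
    rfl
  -- the square root
  set s' : A' := algebraMap F' A' s with hs'
  have hs'2 : s' ^ 2 = algebraMap A A' (algebraMap F A d) := by
    rw [hs', ← map_pow, hs]
    rfl
  have hns' : ∀ y : A, algebraMap A A' y ≠ s' := by
    intro y hy
    obtain ⟨x0, x1, x2, hx⟩ := exists_basis hirr h3A hθA y
    have h1 : algebraMap F' A' (algebraMap F F' x0 - s) +
        algebraMap F' A' (algebraMap F F' x1) * θ + algebraMap F' A' (algebraMap F F' x2) * θ ^ 2
        = 0 := by
      rw [map_sub, ← hs', ← hy, hx]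
      simp only [map_add, map_mul, map_pow]
      have e1 : algebraMap A A' θA = θ := rfl
      have e2 : ∀ t : F, algebraMap A A' (algebraMap F A t) = algebraMap F' A' (algebraMap F F' t)
        := fun t => rfl
      rw [e1, e2, e2, e2]
      ring
    have h2 : (C (algebraMap F F' x0 - s) + C (algebraMap F F' x1) * X +
        C (algebraMap F F' x2) * X ^ 2 : F'[X]) = 0 := by
      by_contra hne
      have hmin' : minpoly F' θ = cub (algebraMap F F' a) (algebraMap F F' b)
          (algebraMap F F' c) := by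
        refine (minpoly.eq_of_irreducible_of_monic hirr' ?_ (cub_monic _ _ _)).symm
        rw [cub_aeval, hθ]
      have h4 := Polynomial.natDegree_le_natDegree
        (minpoly.degree_le_of_ne_zero F' θ hne (by simpa using h1))
      rw [hmin', cub_natDegree] at h4
      have h5 : (C (algebraMap F F' x0 - s) + C (algebraMap F F' x1) * X +
        C (algebraMap F F' x2) * X ^ 2 : F'[X]).natDegree ≤ 2 := by compute_degree
      omega
    have h5 := congrArg (fun p : F'[X] => p.coeff 0) h2
    simp only [coeff_add, coeff_C_mul, coeff_X_zero, coeff_X_pow, coeff_C_zero, coeff_zero] at h5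
    apply hns x0
    simp only [mul_zero, add_zero] at h5
    have h7 : ¬ (0 = 2) := by norm_num
    rw [if_neg h7, mul_zero, add_zero] at h5
    linear_combination h5
  have h2A' : (2 : A) ≠ 0 := by
    have : (2 : A) = algebraMap F A 2 := (map_ofNat _ 2).symm
    rw [this]
    exact (_root_.map_ne_zero _).2 h2F
  haveI := quad_galois h2A' hs'2 h2A hns'
  -- first use of the hypothesis
  have hNA0 : Algebra.norm A α ≠ 0 := Algebra.norm_ne_zero_iff.2 hα
  have hsq1 : IsSquare (Algebra.norm F (Algebra.norm A α)) := by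
    rw [Algebra.norm_norm, ← Algebra.norm_norm (R := F) (S := F') (A := A')]
    obtain ⟨t, ht⟩ := hN
    exact ⟨Algebra.norm F t, by rw [ht, map_mul]⟩
  have hRle : ∀ (u : Valuation A ℤᵐ⁰) (w : Valuation A' ℤᵐ⁰) (e : ℕ),
      (∀ r : R, u (algebraMap F A (algebraMap R F r)) ≤ 1) →
      (∀ x : A, w (algebraMap A A' x) = u x ^ e) →
      ∀ r : R, w (algebraMap F' A' (algebraMap R F' r)) ≤ 1 := by
    intro u w e h1 h2 r
    have e1 : algebraMap F' A' (algebraMap R F' r) =
        algebraMap A A' (algebraMap F A (algebraMap R F r)) := by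
      rw [IsScalarTower.algebraMap_apply R F F']
      rfl
    rw [e1, h2]
    exact pow_le_one' (h1 r) e
  have hEv1 : Ev R F A (Algebra.norm A α) := by
    intro u hu huR
    obtain ⟨u', e, hu', he, hue⟩ := exists_ext (A := A) (A' := A') u hu
    refine quad_norm h2A' hs'2 h2A hns' u hu u' hu' he hue hα (fun w hw hwe => ?_)
    exact hEv w hw (hRle u w e huR hwe)
  obtain ⟨δ0, hδ0⟩ := H A θA hθA h3A _ hNA0 hsq1 hEv1
  obtain ⟨δ, hδ, hδne⟩ : ∃ δ : A, Algebra.norm A α = δ * δ ∧ α + algebraMap A A' δ ≠ 0 := by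
    by_cases hc : α + algebraMap A A' δ0 = 0
    · refine ⟨-δ0, by rw [hδ0]; ring, fun h => ?_⟩
      rw [map_neg] at h
      have h3 : 2 * α = 0 := by linear_combination hc + h
      rcases mul_eq_zero.1 h3 with h4 | h4
      · have : (2 : A') = algebraMap A A' 2 := (map_ofNat _ 2).symm
        rw [this] at h4
        exact h2A' ((map_eq_zero _).1 h4)
      · exact hα h4
    · exact ⟨δ0, hδ0, hc⟩
  obtain ⟨σ, hσs, hσ⟩ := quad_conj h2A' hs'2 h2A hns'
  obtain ⟨y, z, hyz⟩ := quad_basis h2A hns' α
  have htr : α + σ α = algebraMap A A' (2 * y) := by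
    rw [hyz, map_add, map_mul, σ.commutes, σ.commutes, hσs, map_mul, map_ofNat]
    ring
  set κ : A := 2 * y + 2 * δ with hκ
  have hkey : (α + algebraMap A A' δ) ^ 2 = α * algebraMap A A' κ := by
    have e1 : algebraMap A A' δ * algebraMap A A' δ = α * σ α := by
      rw [← map_mul, ← hδ, hσ]
    rw [hκ, map_add, ← htr, map_mul, map_ofNat]
    linear_combination e1
  have hκ0 : κ ≠ 0 := by
    intro h0
    rw [h0, map_zero, mul_zero] at hkey
    exact hδne (pow_eq_zero_iff (two_ne_zero) |>.1 hkey)
  have hκA : algebraMap A A' κ ≠ 0 := (_root_.map_ne_zero _).2 hκ0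
  -- the norm of `κ`
  set n := Algebra.norm F κ with hn
  have hn0 : n ≠ 0 := Algebra.norm_ne_zero_iff.2 hκ0
  have hnorm : Algebra.norm F' (algebraMap A A' κ) = algebraMap F F' n := by
    let E := AlgebraicClosure F'
    obtain ⟨p, q, r, e1, e2, e3, pq, qr, rp⟩ := exists_roots (F := F) (E := E) hsep
    obtain ⟨x0, x1, x2, hx⟩ := exists_basis hirr h3A hθA κ
    set g : F[X] := C x0 + C x1 * X + C x2 * X ^ 2 with hg
    have g1 : aeval θA g = κ := by rw [hx]; simp [hg]
    have g2 : aeval θ (g.map (algebraMap F F')) = algebraMap A A' κ := by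
      rw [hx]
      simp only [hg, Polynomial.map_add, Polynomial.map_mul, Polynomial.map_pow, map_C, map_X,
        map_add, map_mul, map_pow, aeval_C, aeval_X]
      rfl
    have f1 := norm_prod (E := E) hirr h3A hθA e1 e2 e3 pq qr rp g
    have f2 := norm_prod (E := E) hirr' h3 hθ
      ((IsScalarTower.algebraMap_apply F F' E a).symm.trans e1)
      ((IsScalarTower.algebraMap_apply F F' E b).symm.trans e2)
      ((IsScalarTower.algebraMap_apply F F' E c).symm.trans e3) pq qr rp (g.map (algebraMap F F'))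
    rw [g1] at f1
    rw [g2] at f2
    simp only [aeval_map_algebraMap] at f2
    rw [← f1, IsScalarTower.algebraMap_apply F F' E] at f2
    exact (algebraMap F' E).injective f2
  obtain ⟨t, ht⟩ := hN
  have ht0 : t ≠ 0 := by
    rintro rfl
    rw [mul_zero] at ht
    exact (Algebra.norm_ne_zero_iff.2 hα) ht
  obtain ⟨m, hm⟩ : ∃ m : F', algebraMap F F' n = m ^ 2 := by
    refine ⟨Algebra.norm F' (α + algebraMap A A' δ) / t, ?_⟩
    have h1 := congrArg (Algebra.norm F') hkey
    rw [map_pow, map_mul, ht, hnorm] at h1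
    rw [div_pow, h1]
    field_simp
  set κ1 : A := κ * algebraMap F A n with hκ1
  have hκ10 : κ1 ≠ 0 := mul_ne_zero hκ0 ((_root_.map_ne_zero _).2 hn0)
  have hsq2 : IsSquare (Algebra.norm F κ1) := by
    refine ⟨n ^ 2, ?_⟩
    rw [hκ1, map_mul, Algebra.norm_algebraMap, h3A, ← hn]
    ring
  have hκα : algebraMap A A' κ1 * α = ((α + algebraMap A A' δ) * algebraMap F' A' m) ^ 2 := by
    have e1 : algebraMap A A' (algebraMap F A n) = algebraMap F' A' m ^ 2 := by
      rw [← map_pow, ← hm]
      rfl
    rw [hκ1, map_mul, e1, mul_pow, hkey]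
    ring
  have hEv2 : Ev R F A κ1 := by
    intro u hu huR
    obtain ⟨u', e, hu', he, hue⟩ := exists_ext (A := A) (A' := A') u hu
    have he2 := quad_le_two h2A' hs'2 h2A hns' u u' hu' he hue
    have hα' : IsSquare (u' α) := hEv u' hu' (hRle u u' e huR hue)
    have h1 : IsSquare (u' (algebraMap A A' κ1)) := by
      apply sq_of_mul ((Valuation.ne_zero_iff _).2 hα) _ hα'
      rw [← map_mul, hκα, map_pow]
      exact ⟨_, pow_two _⟩
    by_cases he1 : e = 1
    · rw [hue, he1, pow_one] at h1
      exact h1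
    · have h2u : u 2 = 1 := by
        obtain ⟨w, hw⟩ := h2R
        have e1 : (2 : A) = algebraMap F A (algebraMap R F (w : R)) := by
          rw [hw, map_ofNat, map_ofNat]
        have e2 := huR (w : R)
        have e3 := huR ((w⁻¹ : Rˣ) : R)
        rw [← e1] at e2
        have e4 : u 2 * u (algebraMap F A (algebraMap R F ((w⁻¹ : Rˣ) : R))) = 1 := by
          rw [e1, ← map_mul, ← map_mul, ← map_mul, Units.mul_inv, map_one, map_one, map_one]
        apply le_antisymm e2
        rw [← e4]
        exact mul_le_of_le_one_right' e3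
      have hnd : ¬ IsSquare (u (algebraMap F A d)) := fun h =>
        he1 (quad_unram h2A' hs'2 h2A hns' u hu u' hu' he hue h2u h)
      obtain ⟨v, e0, hv, he0, hve⟩ := exists_res (F := F) u hu
      have hvR : ∀ r : R, v (algebraMap R F r) ≤ 1 := by
        intro r
        apply of_pow_le he0
        rw [← hve]
        exact huR r
      have hvd : ¬ IsSquare (v d) := by
        rintro ⟨z, hz⟩
        apply hnd
        rw [hve, hz]
        exact ⟨z ^ e0, by rw [mul_pow]⟩
      have hsil := hram v hv hvR hvd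
      obtain ⟨i1, i2, i3⟩ := hint v hv hvR
      exact sil_norm hirr hsep h3A hθA v hv i1 i2 i3 hsil u
        (fun x hx => by rw [hve]; exact pow_le_one' hx e0)
        (fun x hx => by rw [hve]; exact pow_lt_one' hx he0.ne') hκ10 hsq2
  obtain ⟨ε, hε⟩ := H A θA hθA h3A κ1 hκ10 hsq2 hEv2
  have hε0 : ε ≠ 0 := by
    rintro rfl
    rw [mul_zero] at hε
    exact hκ10 hε
  have hεA : algebraMap A A' ε ≠ 0 := (_root_.map_ne_zero _).2 hε0
  refine ⟨(α + algebraMap A A' δ) * algebraMap F' A' m / algebraMap A A' ε, ?_⟩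
  rw [hε, map_mul] at hκα
  field_simp
  linear_combination hκα

end Pool.Agent.NH7.Cub
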