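import Pool.Agent.NH7.Cub.Desc3
import Pool.Agent.NH7.Cub.Step
import Pool.Agent.TH115.TC.Compl
import Pool.Agent.W309.TD.Stmt

/-!
Two-descent for an elliptic curve whose cubic is irreducible.
-/

set_option autoImplicit false
set_option linter.all false

open WeierstrassCurve WeierstrassCurve.Affine Polynomial WithZero IsDedekindDomain
open scoped Classical Pointwise

namespace Pool.Agent.NH7.Cub

open Pool.Agent.W309.TD (Pt act act_some act_inj act_act act_zero two_act au au_apply au_mul IsCoc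
  IsCob cob_isCoc locConst_apply exists_root compare rs rs_apply incl fixed_point rs_act_incl
  LocTriv exists_restrict ab1 Concl TwoPow)

/-- A surjective valuation which is integral on a Dedekind domain with the given fraction field is
the valuation at a maximal ideal. -/
theorem exists_center {S L : Type} [CommRing S] [IsDedekindDomain S] [Field L] [Algebra S L]
    [IsFractionRing S L] (v₀ : Valuation L ℤᵐ⁰) (hv₀ : Function.Surjective v₀)
    (hle : ∀ s : S, v₀ (algebraMap S L s) ≤ 1) :
    ∃ v : HeightOneSpectrum S, v.valuation L = v₀ := by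
  let P : Ideal S :=
    { carrier := {s | v₀ (algebraMap S L s) < 1}
      add_mem' := by
        intro x y hx hy
        show v₀ (algebraMap S L (x + y)) < 1
        rw [map_add]
        exact lt_add' v₀ hx hy
      zero_mem' := by
        show v₀ (algebraMap S L 0) < 1
        rw [map_zero, map_zero]; exact zero_lt_one
      smul_mem' := by
        intro c x hx
        show v₀ (algebraMap S L (c * x)) < 1
        rw [map_mul]
        exact lt_mul_right' v₀ (hle c) hx }
  have hPm : ∀ s : S, s ∈ P ↔ v₀ (algebraMap S L s) < 1 := fun s => Iff.rfl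
  have hPp : P.IsPrime := by
    refine ⟨?_, ?_⟩
    · rw [Ne, Ideal.eq_top_iff_one, hPm, map_one, map_one]
      exact lt_irrefl _
    · intro x y hxy
      by_contra hcon
      rw [not_or, hPm, hPm, not_lt, not_lt] at hcon
      rw [hPm, map_mul, map_mul] at hxy
      exact not_lt_of_ge (one_le_mul hcon.1 hcon.2) hxy
  have hP0 : P ≠ ⊥ := by
    intro h0
    obtain ⟨π, hπ⟩ := hv₀ (exp (-1))
    obtain ⟨n, d, hd, rfl⟩ := IsFractionRing.div_surjective (A := S) π
    have hn1 : v₀ (algebraMap S L n) = 1 := by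
      apply le_antisymm (hle n)
      rw [← not_lt, ← hPm, h0, Ideal.mem_bot]
      rintro rfl
      rw [map_zero, zero_div, map_zero] at hπ
      exact exp_ne_zero hπ.symm
    have hd1 : v₀ (algebraMap S L d) = 1 := by
      apply le_antisymm (hle d)
      rw [← not_lt, ← hPm, h0, Ideal.mem_bot]
      exact nonZeroDivisors.ne_zero hd
    rw [map_div₀, hn1, hd1, div_one, ← exp_zero, exp_inj] at hπ
    norm_num at hπ
  let v : HeightOneSpectrum S := ⟨P, hPp, hP0⟩
  have hvm : ∀ s : S, s ∈ v.asIdeal ↔ v₀ (algebraMap S L s) < 1 := hPm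
  have hle1 : ∀ x, v.valuation L x ≤ 1 → v₀ x ≤ 1 := by
    intro x hx
    obtain ⟨n, d, hnd⟩ := v.exists_primeCompl_mul_eq_of_integer x hx
    have hd : v₀ (algebraMap S L d) = 1 := by
      apply le_antisymm (hle d)
      rw [← not_lt, ← hvm]
      exact d.2
    have := congrArg v₀ hnd
    rw [map_mul, hd, mul_one] at this
    rw [this]
    exact hle n
  have hone : ∀ x, v.valuation L x = 1 → v₀ x = 1 := by
    intro x hx
    apply le_antisymm (hle1 x hx.le)
    have h1 := hle1 x⁻¹ (by rw [map_inv₀, hx, inv_one])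
    rw [map_inv₀] at h1
    have hx0 : x ≠ 0 := by
      rintro rfl
      rw [map_zero] at hx
      exact zero_ne_one hx
    exact (inv_le_one₀ (zero_lt_iff.2 ((Valuation.ne_zero_iff _).2 hx0))).1 h1
  obtain ⟨ϖ, hϖ⟩ := v.valuation_exists_uniformizer L
  have hϖ0 : ϖ ≠ 0 := by
    rintro rfl
    rw [map_zero] at hϖ
    exact exp_ne_zero hϖ.symm
  obtain ⟨m, hm⟩ := exists_exp v₀ hϖ0
  have hval : ∀ x : L, x ≠ 0 → ∀ n : ℤ, v.valuation L x = exp n → v₀ x = exp (-(m * n)) := by
    intro x hx n hn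
    have h1 : v.valuation L (x * ϖ ^ n) = 1 := by
      rw [map_mul, map_zpow₀, hn, hϖ, ← exp_zsmul, ← exp_add, ← exp_zero, exp_inj]
      simp
    have h2 := hone _ h1
    rw [map_mul, map_zpow₀, hm, ← exp_zsmul] at h2
    have h3 : v₀ x = v₀ x * exp (n • m) * exp (-(m * n)) := by
      rw [mul_assoc, ← exp_add]
      have : n • m + -(m * n) = 0 := by rw [smul_eq_mul]; ring
      rw [this, exp_zero, mul_one]
    rw [h3, h2, one_mul]
  -- `m = -1`
  have hm1 : m = -1 := by
    obtain ⟨x, hx⟩ := hv₀ (exp (-1))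
    have hx0 : x ≠ 0 := by
      rintro rfl
      rw [map_zero] at hx
      exact exp_ne_zero hx.symm
    obtain ⟨n, hn⟩ := exists_exp (v.valuation L) hx0
    have h1 := hval x hx0 n hn
    rw [hx, exp_inj] at h1
    have h2 : m * n = 1 := by linarith
    have h3 : m ≤ 0 := by
      have := hle1 ϖ (by rw [hϖ, ← exp_zero, exp_le_exp]; norm_num)
      rw [hm, ← exp_zero, exp_le_exp] at this
      exact this
    rcases Int.eq_one_or_neg_one_of_mul_eq_one h2 with h4 | h4
    · omega
    · exact h4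
  refine ⟨v, Valuation.ext fun x => ?_⟩
  by_cases hx : x = 0
  · rw [hx, map_zero, map_zero]
  · obtain ⟨n, hn⟩ := exists_exp (v.valuation L) hx
    rw [hn, hval x hx n hn, hm1]
    congr 1
    ring

/-- A root of an irreducible cubic is conjugate to every other root. -/
theorem exists_conj_root {K Ω : Type} [Field K] [Field Ω] [Algebra K Ω] [IsGalois K Ω]
    {W : WeierstrassCurve K} (hirr : Irreducible (cub W.a₂ W.a₄ W.a₆)) {p e : Ω} (hp : Rt W p)
    (he : Rt W e) : ∃ σ : Ω ≃ₐ[K] Ω, σ p = e := by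
  have hmin : ∀ x : Ω, Rt W x → minpoly K x = cub W.a₂ W.a₄ W.a₆ := by
    intro x hx
    refine (minpoly.eq_of_irreducible_of_monic hirr ?_ (cub_monic _ _ _)).symm
    rw [cub_aeval]
    exact hx
  have h : IsConjRoot K e p := by
    show minpoly K e = minpoly K p
    rw [hmin e he, hmin p hp]
  exact isConjRoot_iff_exists_algEquiv.1 h

section sel

variable {R S L : Type} [CommRing R] [CommRing S] [IsDedekindDomain S] [Field L] [Algebra S L]
  [IsFractionRing S L] [Algebra R S] [Algebra R L] [IsScalarTower R S L] [Algebra.IsIntegral R S]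
  {W : WeierstrassCurve L} (hW1 : W.a₁ = 0) (hW3 : W.a₃ = 0) (h2 : (2 : L) ≠ 0)
  (hirr : Irreducible (cub W.a₂ W.a₄ W.a₆)) (hsep : (cub W.a₂ W.a₄ W.a₆).Separable)
  (hint : ∀ v : HeightOneSpectrum S, v.valuation L W.a₂ ≤ 1 ∧ v.valuation L W.a₄ ≤ 1 ∧
    v.valuation L W.a₆ ≤ 1)
  (hcond : ∀ v : HeightOneSpectrum S, Sil W.a₂ W.a₄ W.a₆ (v.valuation L) ∨
    exp (-1) ≤ v.valuation L (disc3 W.a₂ W.a₄ W.a₆))
  (H : H1 R L W.a₂ W.a₄ W.a₆)

/-- A valuation integral on `R` is integral on `S`. -/
theorem int_of_int (v₀ : Valuation L ℤᵐ⁰) (hR : ∀ r : R, v₀ (algebraMap R L r) ≤ 1) (s : S) :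
    v₀ (algebraMap S L s) ≤ 1 := by
  have h1 : IsIntegral R (algebraMap S L s) :=
    (Algebra.IsIntegral.isIntegral (R := R) s).map (IsScalarTower.toAlgHom R S L)
  letI : Algebra R v₀.valuationSubring :=
    ((algebraMap R L).codRestrict v₀.valuationSubring.toSubring (fun x => hR x)).toAlgebra
  haveI : IsScalarTower R v₀.valuationSubring L := IsScalarTower.of_algebraMap_eq fun _ => rfl
  have h2 : IsIntegral v₀.valuationSubring (algebraMap S L s) := h1.tower_top
  obtain ⟨y, hy⟩ := IsIntegrallyClosed.isIntegral_iff.1 h2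
  rw [← hy]
  exact y.2

/-- The condition at a place passes to the completion. -/
theorem sil_compl (v : HeightOneSpectrum S) {a b c : L} (ha : v.valuation L a ≤ 1)
    (hb : v.valuation L b ≤ 1) (hs : Sil a b c (v.valuation L)) :
    Sil (algebraMap L (v.adicCompletion L) a) (algebraMap L (v.adicCompletion L) b)
      (algebraMap L (v.adicCompletion L) c)
      (Valued.v (R := v.adicCompletion L) (Γ₀ := ℤᵐ⁰)) := by
  set V := (Valued.v (R := v.adicCompletion L) (Γ₀ := ℤᵐ⁰)) with hV
  have hv : ∀ x : L, V (algebraMap L (v.adicCompletion L) x) = v.valuation L x :=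
    fun x => HeightOneSpectrum.adicCompletion.valued_coe L v x
  intro x hx
  have hopen : IsOpen {z : v.adicCompletion L | V (x - z) < V 1} := by
    have h1 := Valued.isOpen_ball (v.adicCompletion L) (V.restrict 1)
    have h2 : Continuous (fun z : v.adicCompletion L => x - z) := by fun_prop
    have h3 := h1.preimage h2
    convert h3 using 1
    ext z
    exact (V.restrict_lt_iff).symm
  obtain ⟨k, hk⟩ := (HeightOneSpectrum.denseRange_algebraMap L v).exists_mem_open hopen
    ⟨x, by show V (x - x) < V 1; rw [sub_self, map_zero, map_one]; exact zero_lt_one⟩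
  have hk' : V (x - algebraMap L (v.adicCompletion L) k) < 1 := by
    have : V (x - algebraMap L (v.adicCompletion L) k) < V 1 := hk
    rwa [map_one] at this
  set y := algebraMap L (v.adicCompletion L) k with hy
  have hyle : V y ≤ 1 := by
    have : y = x - (x - y) := by ring
    rw [this]
    exact le_sub' V hx hk'.le
  have hkle : v.valuation L k ≤ 1 := by rw [← hv]; exact hyle
  have h1 := hs k hkle
  have h2 : V (y ^ 3 + algebraMap L (v.adicCompletion L) a * y ^ 2 +
      algebraMap L (v.adicCompletion L) b * y + algebraMap L (v.adicCompletion L) c) = 1 := by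
    rw [← h1, ← hv]
    simp only [map_add, map_mul, map_pow, hy]
  set A := algebraMap L (v.adicCompletion L) a
  set B := algebraMap L (v.adicCompletion L) b
  set C' := algebraMap L (v.adicCompletion L) c
  have hA : V A ≤ 1 := by rw [hv]; exact ha
  have hB : V B ≤ 1 := by rw [hv]; exact hb
  have h3 : V ((x - y) * (x ^ 2 + x * y + y ^ 2 + A * (x + y) + B)) < 1 :=
    lt_mul_left' V hk' (le_add' V (le_add' V (le_add' V (le_add' V (le_pow' V hx 2)
      (le_mul' V hx hyle)) (le_pow' V hyle 2)) (le_mul' V hA (le_add' V hx hyle))) hB)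
  have h4 : x ^ 3 + A * x ^ 2 + B * x + C' = (y ^ 3 + A * y ^ 2 + B * y + C') +
      (x - y) * (x ^ 2 + x * y + y ^ 2 + A * (x + y) + B) := by ring
  rw [h4, Valuation.map_add_eq_of_lt_left V (by rw [h2]; exact h3), h2]

variable {Ω : Type} [Field Ω] [Algebra L Ω] [IsGalois L Ω] [IsSepClosed Ω]
  (Ω' : HeightOneSpectrum S → Type) [∀ v, Field (Ω' v)] [∀ v, Algebra (v.adicCompletion L) (Ω' v)]
  [∀ v, Algebra L (Ω' v)] [∀ v, IsScalarTower L (v.adicCompletion L) (Ω' v)]
  [∀ v, IsGalois (v.adicCompletion L) (Ω' v)] [∀ v, IsSepClosed (Ω' v)]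

include R hW1 hW3 h2 hirr hsep hint hcond H in
/-- The two-Selmer group is trivial. -/
theorem sel_triv {f : (Ω ≃ₐ[L] Ω) → Pt W Ω}
    (hf : IsCoc W f) (hf2 : ∀ σ, f σ + f σ = 0)
    (hloc : ∀ v : HeightOneSpectrum S, LocTriv W (v.adicCompletion L) (Ω' v) f) :
    ∃ T : Pt W Ω, T + T = 0 ∧ ∀ σ, f σ = act W (au σ) T - T := by
  obtain ⟨p, q, r, hC⟩ := exists_cub (Ω := Ω) hW1 hW3 h2 hsep
  have hp : Rt W p := (rt_iff hC).2 (Or.inl rfl)
  have hq : Rt W q := (rt_iff hC).2 (Or.inr (Or.inl rfl))
  have hr : Rt W r := (rt_iff hC).2 (Or.inr (Or.inr rfl))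
  have htr : ∀ e : Ω, Rt W e →
      ∃ σ : Ω ≃ₐ[L] Ω, σ p = e :=
    fun e he => exists_conj_root hirr hp he
  obtain ⟨ρ, hρ0, hρ⟩ := exists_rho hC htr hf hf2
  obtain ⟨g, hg⟩ := exists_alpha hC htr hρ0 hρ
  obtain ⟨ν, hν⟩ := exists_nu hC hf2 hρ
  let A := IntermediateField.adjoin L {p}
  let θ : A := ⟨p, IntermediateField.mem_adjoin_simple_self L p⟩
  have hpint : IsIntegral L p := Algebra.IsIntegral.isIntegral p
  haveI : FiniteDimensional L A := IntermediateField.adjoin.finiteDimensional hpint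
  have hmin : minpoly L p = cub W.a₂ W.a₄ W.a₆ := by
    refine (minpoly.eq_of_irreducible_of_monic hirr ?_ (cub_monic _ _ _)).symm
    rw [cub_aeval]
    exact hp
  have h3 : Module.finrank L A = 3 := by
    rw [IntermediateField.adjoin.finrank hpint, hmin, cub_natDegree]
  have hinj : Function.Injective (algebraMap A Ω) :=
    (algebraMap A Ω).injective
  have hθ : θ ^ 3 + algebraMap L A W.a₂ * θ ^ 2 + algebraMap L A W.a₄ * θ + algebraMap L A W.a₆ = 0
      := by
    apply hinj
    rw [map_zero]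
    exact hp
  have hval : algebraMap A Ω (aeval θ g) = aeval p g := by
    rw [← aeval_algebraMap_apply]
    rfl
  have hα0 : aeval θ g ≠ 0 := by
    intro h0
    rw [h0, map_zero, hg p hp] at hval
    exact pow_ne_zero 2 (hρ0 p hp) hval.symm
  have hN : IsSquare (Algebra.norm L (aeval θ g)) := by
    refine ⟨ν, ?_⟩
    apply (algebraMap L Ω).injective
    rw [norm_prod (E := Ω) hirr h3 hθ hC.a2 hC.a4 hC.a6 hC.pq hC.qr hC.rp g,
      hg p hp, hg q hq, hg r hr, map_mul, hν]
    ring
  have hEv : Ev R L A (aeval θ g) := by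
    intro u hu huR
    obtain ⟨B, _, _, _, _, w, hw⟩ := exists_spec u hu
    obtain ⟨v₀, e, hv₀, he, hve⟩ := exists_res (F := L) u hu
    have hR : ∀ r : R, v₀ (algebraMap R L r) ≤ 1 := by
      intro r
      apply of_pow_le he
      rw [← hve]
      exact huR r
    obtain ⟨v, hv⟩ := exists_center (S := S) v₀ hv₀ (int_of_int v₀ hR)
    obtain ⟨j0, hj0, hj1, hj2⟩ := Pool.Agent.TH115.GD.exists_compl_map v w (algebraMap L A)
      (fun x hx => by
        rw [hv] at hx
        rw [hw, hve]
        exact pow_le_one' hx e)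
      (fun x hx => by
        rw [hv] at hx
        rw [hw, hve]
        exact pow_lt_one' hx he.ne')
    let j : v.adicCompletion L →ₐ[L] w.adicCompletion A :=
      { j0 with
        commutes' := fun x => by
          have := hj0 x
          show j0 (algebraMap L (v.adicCompletion L) x) = _
          rw [this, ← IsScalarTower.algebraMap_apply] }
    have hθ' : Rt W (algebraMap A (w.adicCompletion A) θ) := by
      have h1 := congrArg (algebraMap A (w.adicCompletion A)) hθ
      rw [map_zero] at h1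
      simp only [map_add, map_mul, map_pow, ← IsScalarTower.algebraMap_apply] at h1
      exact h1
    have hvv : ∀ x : L, Valued.v (R := v.adicCompletion L) (Γ₀ := ℤᵐ⁰)
        (algebraMap L (v.adicCompletion L) x) = v.valuation L x :=
      fun x => HeightOneSpectrum.adicCompletion.valued_coe L v x
    obtain ⟨π, hπ⟩ := v.valuation_exists_uniformizer L
    obtain ⟨i1, i2, i3⟩ := hint v
    have h5 := loc_even hC hf2 (hloc v) hρ0 hρ hg j hθ'
      (Valued.v (R := v.adicCompletion L) (Γ₀ := ℤᵐ⁰))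
      (Valued.v (R := w.adicCompletion A) (Γ₀ := ℤᵐ⁰)) hj1 hj2
      (π := algebraMap L (v.adicCompletion L) π) (by rw [hvv, hπ])
      (by rw [hvv]; exact i1) (by rw [hvv]; exact i2) (by rw [hvv]; exact i3)
      (by
        rcases hcond v with h | h
        · left
          exact sil_compl v i1 i2 h
        · right
          have : disc3 (algebraMap L (v.adicCompletion L) W.a₂)
            (algebraMap L (v.adicCompletion L) W.a₄) (algebraMap L (v.adicCompletion L) W.a₆) =
            algebraMap L (v.adicCompletion L) (disc3 W.a₂ W.a₄ W.a₆) := by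
            simp only [disc3, map_add, map_sub, map_mul, map_pow, map_ofNat]
          rw [this, hvv]
          exact h) hW1 hW3
    have h6 : aeval (algebraMap A (w.adicCompletion A) θ) g =
        algebraMap A (w.adicCompletion A) (aeval θ g) := by
      rw [aeval_algebraMap_apply]
    rw [h6] at h5
    have h7 : Valued.v (R := w.adicCompletion A) (Γ₀ := ℤᵐ⁰)
        (algebraMap A (w.adicCompletion A) (aeval θ g)) = w.valuation A (aeval θ g) :=
      HeightOneSpectrum.adicCompletion.valued_coe A w _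
    rw [h7, hw] at h5
    exact h5
  obtain ⟨β, hβ⟩ := H A θ hθ h3 _ hα0 hN hEv
  obtain ⟨x0, x1, x2, hx⟩ := exists_basis hirr h3 hθ β
  set g' : L[X] := C x0 + C x1 * X + C x2 * X ^ 2 with hg'
  have h8 : aeval θ g' = β := by rw [hx]; simp [hg']
  have h9 : (aeval p g') ^ 2 = ρ p ^ 2 := by
    rw [← hg p hp, ← hval, hβ, map_mul, ← h8]
    rw [← aeval_algebraMap_apply]
    rw [pow_two]
    rfl
  exact cob_of_sq hC htr hf2 hρ0 hρ h9

include R hW1 hW3 h2 hirr hsep hint hcond H in
theorem two_coc {f : (Ω ≃ₐ[L] Ω) → Pt W Ω} (hf : IsCoc W f)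
    (h2' : IsCob W (fun σ => f σ + f σ))
    (hloc : ∀ v : HeightOneSpectrum S, LocTriv W (v.adicCompletion L) (Ω' v) f) : IsCob W f := by
  obtain ⟨p, q, r, hC⟩ := exists_cub (Ω := Ω) hW1 hW3 h2 hsep
  obtain ⟨Q, hQ⟩ := h2'
  obtain ⟨R', hR⟩ := hC.halve_sep Q
  set f' : (Ω ≃ₐ[L] Ω) → Pt W Ω := fun σ => f σ - (act W (au σ) R' - R') with hf'
  have hf'c : IsCoc W f' := hf.sub W (cob_isCoc W R')
  have hf'2 : ∀ σ, f' σ + f' σ = 0 := by
    intro σ
    have h3 := hQ σ
    simp only at h3
    have : f' σ + f' σ = (f σ + f σ) - (act W (au σ) (R' + R') - (R' + R')) := by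
      rw [map_add]
      exact ab1 _ _ _
    rw [this, hR, h3, sub_self]
  have hf'loc : ∀ v : HeightOneSpectrum S, LocTriv W (v.adicCompletion L) (Ω' v) f' := by
    intro v
    obtain ⟨ι, P, hP⟩ := hloc v
    refine ⟨ι, P - act W ι R', fun τ σ hc => ?_⟩
    have h3 := hP τ σ hc
    have h4 : act W ι (act W (au σ) R') = act W (rs L τ) (act W ι R') := by
      rw [act_act, act_act, ← hc]
    rw [hf', map_sub, map_sub, h3, map_sub, h4]
    abel
  obtain ⟨T, hT, hTf⟩ := sel_triv (R := R) (S := S) hW1 hW3 h2 hirr hsep hint hcond H Ω' hf'c hf'2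
    hf'loc
  refine ⟨T + R', fun σ => ?_⟩
  have h5 := hTf σ
  have h6 : f σ = f' σ + (act W (au σ) R' - R') := (sub_add_cancel _ _).symm
  rw [h6, h5, map_add]
  abel

include R hW1 hW3 h2 hirr hsep hint hcond H in
theorem pow_coc {f : (Ω ≃ₐ[L] Ω) → Pt W Ω} (hf : IsCoc W f) (m : ℕ)
    (hm : IsCob W (fun σ => 2 ^ m • f σ))
    (hloc : ∀ v : HeightOneSpectrum S, LocTriv W (v.adicCompletion L) (Ω' v) f) : IsCob W f := by
  induction m with
  | zero => simpa using hm
  | succ m ih =>
    apply ih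
    apply two_coc (R := R) (S := S) hW1 hW3 h2 hirr hsep hint hcond H Ω' (hf.nsmul W (2 ^ m))
    · obtain ⟨Q, hQ⟩ := hm
      refine ⟨Q, fun σ => ?_⟩
      have := hQ σ
      simp only at this ⊢
      rw [← this, ← two_nsmul, smul_smul, pow_succ']
    · intro v
      obtain ⟨ι, P, hP⟩ := hloc v
      refine ⟨ι, 2 ^ m • P, fun τ σ hc => ?_⟩
      rw [map_nsmul, hP τ σ hc, map_nsmul, nsmul_sub]

include R Ω Ω' hW1 hW3 h2 hirr hsep hint hcond H in
theorem pts (P : Pt W L) : ∃ Q T : Pt W L, T + T = 0 ∧ P = Q + Q + T := by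
  obtain ⟨p, q, r, hC⟩ := exists_cub (Ω := Ω) hW1 hW3 h2 hsep
  obtain ⟨H', hH⟩ := hC.halve_sep (act W (incl L L Ω) P)
  have fixP : ∀ (σ : Ω ≃ₐ[L] Ω), act W (au σ) (act W (incl L L Ω) P) = act W (incl L L Ω) P :=
    fun σ => rs_act_incl (K := L) (F := L) W σ P
  have k : ∀ σ : Ω ≃ₐ[L] Ω, (act W (au σ) H' - H') + (act W (au σ) H' - H') = 0 := by
    intro σ
    rw [sub_add_sub_comm, ← map_add, hH, fixP, sub_self]
  obtain ⟨T, hT, hTf⟩ := sel_triv (R := R) (S := S) hW1 hW3 h2 hirr hsep hint hcond H Ω'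
    (cob_isCoc W H') k (fun v => by
    let ι : Ω →ₐ[L] Ω' v := IsSepClosed.lift
    refine ⟨ι, act W ι H', fun τ σ hc => ?_⟩
    rw [map_sub, act_act, act_act, ← hc])
  obtain ⟨Q, hQ⟩ := fixed_point (K := L) (F := L) (Ω := Ω) W (H' - T)
    (fun σ => by
      have h1 := hTf σ
      show act W (au σ) (H' - T) = H' - T
      rw [map_sub]
      have h2 : act W (au σ) H' = (act W (au σ) T - T) + H' := by rw [← h1]; abel
      rw [h2]; abel)
  refine ⟨Q, 0, add_zero _, ?_⟩
  apply act_inj W (incl L L Ω)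
  rw [map_add, map_add, map_zero, hQ, ← hH, add_zero]
  have : H' - T + (H' - T) = (H' + H') - (T + T) := by abel
  rw [this, hT, sub_zero]

omit Ω Ω' in
include R hW1 hW3 h2 hirr hsep hint hcond H in
/-- The conclusion of the descent. -/
theorem concl : Concl S L W := by
  refine ⟨pts (R := R) (S := S) (Ω := SeparableClosure L) hW1 hW3 h2 hirr hsep hint hcond H
    (fun v => SeparableClosure (v.adicCompletion L)), ?_⟩
  rintro f hf hloc ⟨m, hm⟩
  exact pow_coc (R := R) (S := S) hW1 hW3 h2 hirr hsep hint hcond H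
    (fun v => SeparableClosure (v.adicCompletion L)) hf m hm hloc

end sel

end Pool.Agent.NH7.Cub
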