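import Pool.Agent.NH7.Cub.Val1

/-!
Local analysis of the coordinates of points, and primitive quadratic expressions at a place where
the cubic has no root.
-/

set_option autoImplicit false
set_option linter.all false

open WithZero

namespace Pool.Agent.NH7.Cub

/-- The cubic has no root in the residue field of `v`. -/
def Sil {F Γ : Type*} [Field F] [LinearOrderedCommGroupWithZero Γ] (a b c : F)
    (v : Valuation F Γ) : Prop :=
  ∀ x : F, v x ≤ 1 → v (x ^ 3 + a * x ^ 2 + b * x + c) = 1

/-- The discriminant of the cubic. -/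
def disc3 {F : Type*} [Field F] (a b c : F) : F :=
  a ^ 2 * b ^ 2 - 4 * b ^ 3 - 4 * a ^ 3 * c + 18 * a * b * c - 27 * c ^ 2

section gen

variable {F Γ : Type*} [Field F] [LinearOrderedCommGroupWithZero Γ] (v : Valuation F Γ)

theorem le_mul' {x y : F} (hx : v x ≤ 1) (hy : v y ≤ 1) : v (x * y) ≤ 1 := by
  rw [map_mul]; exact mul_le_one' hx hy

theorem lt_mul_left' {x y : F} (hx : v x < 1) (hy : v y ≤ 1) : v (x * y) < 1 := by
  rw [map_mul]; exact mul_lt_one_of_lt_of_le hx hy

theorem lt_mul_right' {x y : F} (hx : v x ≤ 1) (hy : v y < 1) : v (x * y) < 1 := by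
  rw [mul_comm]; exact lt_mul_left' v hy hx

theorem le_add' {x y : F} (hx : v x ≤ 1) (hy : v y ≤ 1) : v (x + y) ≤ 1 :=
  (v.map_add x y).trans (max_le hx hy)

theorem lt_add' {x y : F} (hx : v x < 1) (hy : v y < 1) : v (x + y) < 1 :=
  lt_of_le_of_lt (v.map_add x y) (max_lt hx hy)

theorem le_pow' {x : F} (hx : v x ≤ 1) (n : ℕ) : v (x ^ n) ≤ 1 := by
  rw [map_pow]; exact pow_le_one' hx n

theorem le_neg' {x : F} (hx : v x ≤ 1) : v (-x) ≤ 1 := by rwa [Valuation.map_neg]

theorem le_sub' {x y : F} (hx : v x ≤ 1) (hy : v y ≤ 1) : v (x - y) ≤ 1 := by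
  rw [sub_eq_add_neg]; exact le_add' v hx (le_neg' v hy)

theorem lt_sub' {x y : F} (hx : v x < 1) (hy : v y < 1) : v (x - y) < 1 := by
  rw [sub_eq_add_neg]; exact lt_add' v hx (by rwa [Valuation.map_neg])

theorem le_nat' (n : ℕ) : v (n : F) ≤ 1 := by
  induction n with
  | zero => simp
  | succ n ih => rw [Nat.cast_succ]; exact le_add' v ih (by rw [map_one])

theorem le_ofNat' (n : ℕ) [n.AtLeastTwo] : v (OfNat.ofNat n : F) ≤ 1 := by
  have := le_nat' v (OfNat.ofNat n : ℕ)
  rwa [Nat.cast_ofNat] at this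

theorem eq_one_of_add {x y : F} (hx : v x < 1) (hy : v (x + y) = 1) : v y = 1 := by
  have := v.map_add_eq_of_lt_right (x := -x) (y := x + y) (by rw [Valuation.map_neg, hy]; exact hx)
  rw [neg_add_cancel_left, hy] at this
  exact this

/-- Integral elements. -/
theorem le_of_cubic {a b c t : F} (ha : v a ≤ 1) (hb : v b ≤ 1) (hc : v c ≤ 1)
    (h : v (t ^ 3 + a * t ^ 2 + b * t + c) ≤ 1) : v t ≤ 1 := by
  by_contra hcon
  rw [not_le] at hcon
  have ht0 : t ≠ 0 := by
    rintro rfl
    rw [map_zero] at hcon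
    exact not_lt_of_ge zero_le_one hcon
  have hi : v t⁻¹ < 1 := by
    rw [map_inv₀]
    exact inv_lt_one_of_one_lt₀ hcon
  have h1 : v (a * t⁻¹ + b * t⁻¹ ^ 2 + (c - (t ^ 3 + a * t ^ 2 + b * t + c)) * t⁻¹ ^ 3) < 1 := by
    have hi2 : v (t⁻¹ ^ 2) < 1 := by rw [map_pow]; exact pow_lt_one' hi (by norm_num)
    have hi3 : v (t⁻¹ ^ 3) < 1 := by rw [map_pow]; exact pow_lt_one' hi (by norm_num)
    exact lt_add' v (lt_add' v (lt_mul_right' v ha hi) (lt_mul_right' v hb hi2))
      (lt_mul_right' v (le_sub' v hc h) hi3)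
  have h2 : a * t⁻¹ + b * t⁻¹ ^ 2 + (c - (t ^ 3 + a * t ^ 2 + b * t + c)) * t⁻¹ ^ 3 = -1 := by
    field_simp
    ring
  rw [h2, Valuation.map_neg, map_one] at h1
  exact lt_irrefl _ h1

end gen

section prim

variable {F E Γ Γ' : Type*} [Field F] [Field E] [LinearOrderedCommGroupWithZero Γ]
  [LinearOrderedCommGroupWithZero Γ'] (j : F →+* E) (v : Valuation F Γ) (w : Valuation E Γ')
  (h1 : ∀ x, v x ≤ 1 → w (j x) ≤ 1) (h2 : ∀ x, v x < 1 → w (j x) < 1)

include h1 in
theorem map_one_of {x : F} (hx : v x = 1) : w (j x) = 1 := by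
  have e1 := h1 x hx.le
  have e2 := h1 x⁻¹ (by rw [map_inv₀, hx, inv_one])
  rw [map_inv₀, map_inv₀] at e2
  have hx0 : x ≠ 0 := by
    rintro rfl
    rw [map_zero] at hx
    exact zero_ne_one hx
  have h0 : w (j x) ≠ 0 := by
    rw [Valuation.ne_zero_iff]
    exact (map_ne_zero j).2 hx0
  apply le_antisymm e1
  exact (inv_le_one₀ (zero_lt_iff.2 h0)).1 e2

include h1 h2 in
/-- `a + b θ + c θ ^ 2` with primitive coefficients is a unit when `θ` is a root modulo the maximal
ideal of a cubic with no root in the residue field of `v`. -/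
theorem prim_unit {A B C : F} (hA : v A ≤ 1) (hB : v B ≤ 1) (hC : v C ≤ 1) (hs : Sil A B C v)
    {θ : E} (hθ : w (θ ^ 3 + j A * θ ^ 2 + j B * θ + j C) < 1) {a b c : F} (ha : v a ≤ 1)
    (hb : v b ≤ 1) (hc : v c ≤ 1) (hp : v a = 1 ∨ v b = 1 ∨ v c = 1) :
    w (j a + j b * θ + j c * θ ^ 2) = 1 := by
  have hθ1 : w θ ≤ 1 := le_of_cubic w (h1 _ hA) (h1 _ hB) (h1 _ hC) hθ.le
  -- no element of `F` is congruent to `θ`
  have hno : ∀ x : F, v x ≤ 1 → ¬ w (θ - j x) < 1 := by
    intro x hx hcon
    have e1 := map_one_of j v w h1 (hs x hx)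
    have e2 : w (j (x ^ 3 + A * x ^ 2 + B * x + C)) < 1 := by
      have : j (x ^ 3 + A * x ^ 2 + B * x + C) = (θ ^ 3 + j A * θ ^ 2 + j B * θ + j C) -
          (θ - j x) * (θ ^ 2 + θ * j x + j x ^ 2 + j A * (θ + j x) + j B) := by
        simp only [map_add, map_mul, map_pow]; ring
      rw [this]
      refine lt_sub' w hθ (lt_mul_left' w hcon ?_)
      have hx' := h1 x hx
      exact le_add' w (le_add' w (le_add' w (le_add' w (le_pow' w hθ1 2) (le_mul' w hθ1 hx'))
        (le_pow' w hx' 2)) (le_mul' w (h1 _ hA) (le_add' w hθ1 hx'))) (h1 _ hB)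
    rw [e1] at e2
    exact lt_irrefl _ e2
  -- linear expressions
  have hlin : ∀ a b : F, v a ≤ 1 → v b = 1 → ¬ w (j a + j b * θ) < 1 := by
    intro a b ha hb hcon
    have hb0 : b ≠ 0 := by
      rintro rfl
      rw [map_zero] at hb
      exact zero_ne_one hb
    have hvi : v b⁻¹ = 1 := by rw [map_inv₀, hb, inv_one]
    apply hno (-(a * b⁻¹)) (le_neg' v (le_mul' v ha hvi.le))
    have hjb : j b ≠ 0 := (map_ne_zero j).2 hb0
    have : θ - j (-(a * b⁻¹)) = (j a + j b * θ) * j b⁻¹ := by
      simp only [map_neg, map_mul, map_inv₀]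
      field_simp
      ring
    rw [this]
    exact lt_mul_left' w hcon (h1 _ hvi.le)
  have hle : w (j a + j b * θ + j c * θ ^ 2) ≤ 1 :=
    le_add' w (le_add' w (h1 _ ha) (le_mul' w (h1 _ hb) hθ1))
      (le_mul' w (h1 _ hc) (le_pow' w hθ1 2))
  refine le_antisymm hle (not_lt.1 fun hcon => ?_)
  rcases hc.eq_or_lt with hc1 | hc1
  · -- `c` is a unit
    have hc0 : c ≠ 0 := by
      rintro rfl
      rw [map_zero] at hc1
      exact zero_ne_one hc1
    have hci : v c⁻¹ = 1 := by rw [map_inv₀, hc1, inv_one]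
    have hjc : j c ≠ 0 := (map_ne_zero j).2 hc0
    -- monic version
    set b' := b * c⁻¹ with hb'
    set a' := a * c⁻¹ with ha'
    have vb' : v b' ≤ 1 := le_mul' v hb hci.le
    have va' : v a' ≤ 1 := le_mul' v ha hci.le
    have hq : w (j a' + j b' * θ + θ ^ 2) < 1 := by
      have : j a' + j b' * θ + θ ^ 2 = (j a + j b * θ + j c * θ ^ 2) * j c⁻¹ := by
        simp only [ha', hb', map_mul, map_inv₀]
        field_simp
      rw [this]
      exact lt_mul_left' w hcon (h1 _ hci.le)
    -- remainder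
    set r1 := B - a' - b' * (A - b') with hr1
    set r0 := C - a' * (A - b') with hr0
    have vr1 : v r1 ≤ 1 := le_sub' v (le_sub' v hB va') (le_mul' v vb' (le_sub' v hA vb'))
    have vr0 : v r0 ≤ 1 := le_sub' v hC (le_mul' v va' (le_sub' v hA vb'))
    have hrem : w (j r0 + j r1 * θ) < 1 := by
      have : j r0 + j r1 * θ = (θ ^ 3 + j A * θ ^ 2 + j B * θ + j C) -
          (j a' + j b' * θ + θ ^ 2) * (θ + (j A - j b')) := by
        simp only [hr1, hr0, map_sub, map_mul]; ring
      rw [this]
      exact lt_sub' w hθ (lt_mul_left' w hq (le_add' w hθ1 (le_sub' w (h1 _ hA) (h1 _ vb'))))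
    rcases vr1.eq_or_lt with hr | hr
    · exact hlin r0 r1 vr0 hr hrem
    · have hr0' : v r0 < 1 := by
        by_contra hcon2
        have e1 := map_one_of j v w h1 (le_antisymm vr0 (not_lt.1 hcon2))
        have e2 : w (j r0) < 1 := by
          have : j r0 = (j r0 + j r1 * θ) - j r1 * θ := by ring
          rw [this]
          exact lt_sub' w hrem (lt_mul_left' w (h2 _ hr) hθ1)
        rw [e1] at e2
        exact lt_irrefl _ e2
      have hx : v (b' - A) ≤ 1 := le_sub' v vb' hA
      have e1 := hs _ hx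
      have e2 : v ((b' - A) ^ 3 + A * (b' - A) ^ 2 + B * (b' - A) + C) < 1 := by
        have : (b' - A) ^ 3 + A * (b' - A) ^ 2 + B * (b' - A) + C = r0 + r1 * (b' - A) := by
          rw [hr1, hr0]; ring
        rw [this]
        exact lt_add' v hr0' (lt_mul_left' v hr hx)
      rw [e1] at e2
      exact lt_irrefl _ e2
  · have hcon' : w (j a + j b * θ) < 1 := by
      have : j a + j b * θ = (j a + j b * θ + j c * θ ^ 2) - j c * θ ^ 2 := by ring
      rw [this]
      exact lt_sub' w hcon (lt_mul_left' w (h2 _ hc1) (le_pow' w hθ1 2))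
    rcases hb.eq_or_lt with hb1 | hb1
    · exact hlin a b ha hb1 hcon'
    · have e2 : w (j a) < 1 := by
        have : j a = (j a + j b * θ) - j b * θ := by ring
        rw [this]
        exact lt_sub' w hcon' (lt_mul_left' w (h2 _ hb1) hθ1)
      have ha1 : v a = 1 := by
        rcases hp with h | h | h
        · exact h
        · exact absurd h hb1.ne
        · exact absurd h hc1.ne
      rw [map_one_of j v w h1 ha1] at e2
      exact lt_irrefl _ e2

end prim

section local_

variable {F M : Type} [Field F] [Field M] (j : F →+* M) (v : Valuation F ℤᵐ⁰)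
  (w : Valuation M ℤᵐ⁰) (h1 : ∀ x, v x ≤ 1 → w (j x) ≤ 1) (h2 : ∀ x, v x < 1 → w (j x) < 1)
  {π : F} (hπ : v π = exp (-1))

include h1 hπ in
theorem sq_map {x : F} (hx : IsSquare (v x)) : IsSquare (w (j x)) := by
  by_cases h0 : x = 0
  · subst h0
    rw [map_zero, map_zero]
    exact ⟨0, by rw [mul_zero]⟩
  obtain ⟨n, hn⟩ := exists_exp v h0
  rw [hn, isSquare_exp] at hx
  obtain ⟨m, rfl⟩ := hx
  have hπ0 : π ≠ 0 := by
    rintro rfl
    rw [map_zero] at hπ
    exact exp_ne_zero hπ.symm
  have e1 : v (x * (π ^ m * π ^ m)) = 1 := by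
    rw [map_mul, map_mul, map_zpow₀, hn, hπ, ← exp_zsmul, ← exp_add, ← exp_add, ← exp_zero, exp_inj]
    simp
  have e2 := map_one_of j v w h1 e1
  have hj : w (j (π ^ m)) ≠ 0 := by
    rw [Valuation.ne_zero_iff]
    exact (map_ne_zero j).2 (zpow_ne_zero _ hπ0)
  rw [map_mul, map_mul, map_mul, map_mul] at e2
  refine ⟨(w (j (π ^ m)))⁻¹, ?_⟩
  rw [← mul_inv]
  exact eq_inv_of_mul_eq_one_left e2

theorem sq_one : IsSquare (1 : ℤᵐ⁰) := ⟨1, by rw [mul_one]⟩

include h1 h2 hπ in
/-- The local lemma. -/
theorem loc_sq {a b c : F} (ha : v a ≤ 1) (hb : v b ≤ 1) (hc : v c ≤ 1)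
    (hcase : Sil a b c v ∨ exp (-1) ≤ v (disc3 a b c)) {θ : M}
    (hθ : θ ^ 3 + j a * θ ^ 2 + j b * θ + j c = 0) {x y : F}
    (hxy : y ^ 2 = x ^ 3 + a * x ^ 2 + b * x + c) :
    (j x ≠ θ → IsSquare (w (j x - θ))) ∧
      (j x = θ → IsSquare (w (3 * θ ^ 2 + 2 * j a * θ + j b))) := by
  have hθ1 : w θ ≤ 1 := le_of_cubic w (h1 _ ha) (h1 _ hb) (h1 _ hc) (by rw [hθ, map_zero]; simp)
  by_cases hx : v x ≤ 1
  · have hxw := h1 x hx
    -- integral first coordinate
    rcases hcase with hs | hd
    · -- silent case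
      have e0 := hs x hx
      have e1 := map_one_of j v w h1 e0
      have e2 : j (x ^ 3 + a * x ^ 2 + b * x + c) = (j x - θ) *
          (j x ^ 2 + (θ + j a) * j x + (θ ^ 2 + j a * θ + j b)) := by
        simp only [map_add, map_mul, map_pow]
        linear_combination hθ
      rw [e2, map_mul] at e1
      have f1 : w (j x - θ) ≤ 1 := le_sub' w hxw hθ1
      have f2 : w (j x ^ 2 + (θ + j a) * j x + (θ ^ 2 + j a * θ + j b)) ≤ 1 :=
        le_add' w (le_add' w (le_pow' w hxw 2) (le_mul' w (le_add' w hθ1 (h1 _ ha)) hxw))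
          (le_add' w (le_add' w (le_pow' w hθ1 2) (le_mul' w (h1 _ ha) hθ1)) (h1 _ hb))
      have f3 : w (j x - θ) = 1 := by
        apply le_antisymm f1
        rw [← e1]
        exact mul_le_of_le_one_right' f2
      refine ⟨fun _ => by rw [f3]; exact sq_one, fun h => ?_⟩
      rw [h, sub_self, map_zero] at f3
      exact absurd f3 zero_ne_one
    · -- discriminant case
      set p := 3 * x + a with hp
      set q := 3 * x ^ 2 + 2 * a * x + b with hq
      set r := x ^ 3 + a * x ^ 2 + b * x + c with hr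
      have n3 : v (3 : F) ≤ 1 := le_ofNat' v 3
      have n2 : v (2 : F) ≤ 1 := le_ofNat' v 2
      have n4 : v (4 : F) ≤ 1 := le_ofNat' v 4
      have n18 : v (18 : F) ≤ 1 := le_ofNat' v 18
      have n27 : v (27 : F) ≤ 1 := le_ofNat' v 27
      have vp : v p ≤ 1 := le_add' v (le_mul' v n3 hx) ha
      have vq : v q ≤ 1 := le_add' v (le_add' v (le_mul' v n3 (le_pow' v hx 2))
        (le_mul' v (le_mul' v n2 ha) hx)) hb
      have vr : v r ≤ 1 := le_add' v (le_add' v (le_add' v (le_pow' v hx 3)
        (le_mul' v ha (le_pow' v hx 2))) (le_mul' v hb hx)) hc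
      have hdisc : disc3 a b c = q * (q * (p ^ 2 - 4 * q)) +
          r * (-(4 * p ^ 3) + 18 * p * q - 27 * r) := by
        rw [disc3, hp, hq, hr]; ring
      -- if `v r < 1` then `v q = 1`
      have hkey : v r < 1 → v q = 1 := by
        intro hlt
        by_contra hne
        have hq1 : v q ≤ exp (-1) := lt_one_iff.1 (lt_of_le_of_ne vq hne)
        have hr2 : v r ≤ exp (-2) := by
          by_cases hr0 : r = 0
          · rw [hr0, map_zero]; exact zero_le'
          · obtain ⟨n, hn⟩ := exists_exp v hr0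
            have hy0 : y ≠ 0 := by
              rintro rfl
              exact hr0 (by rw [← hxy]; ring)
            obtain ⟨m, hm⟩ := exists_exp v hy0
            have e1 : v r = exp (2 * m) := by
              rw [← hxy, map_pow, hm, ← exp_nsmul]
              simp
            rw [e1] at hlt ⊢
            rw [← exp_zero, exp_lt_exp] at hlt
            rw [exp_le_exp]
            omega
        have g1 : v (q * (q * (p ^ 2 - 4 * q))) ≤ exp (-2) := by
          have t1 : v (p ^ 2 - 4 * q) ≤ 1 := le_sub' v (le_pow' v vp 2) (le_mul' v n4 vq)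
          rw [map_mul, map_mul]
          calc v q * (v q * v (p ^ 2 - 4 * q)) ≤ exp (-1) * (exp (-1) * 1) := by gcongr
            _ = exp (-2) := by rw [mul_one, ← exp_add]; norm_num
        have g2 : v (r * (-(4 * p ^ 3) + 18 * p * q - 27 * r)) ≤ exp (-2) := by
          have t1 : v (-(4 * p ^ 3) + 18 * p * q - 27 * r) ≤ 1 :=
            le_sub' v (le_add' v (le_neg' v (le_mul' v n4 (le_pow' v vp 3)))
              (le_mul' v (le_mul' v n18 vp) vq)) (le_mul' v n27 vr)
          rw [map_mul]
          calc v r * v (-(4 * p ^ 3) + 18 * p * q - 27 * r) ≤ exp (-2) * 1 := by gcongr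
            _ = exp (-2) := by rw [mul_one]
        have g3 : v (disc3 a b c) ≤ exp (-2) := by
          rw [hdisc]
          exact (v.map_add _ _).trans (max_le g1 g2)
        have g4 := hd.trans g3
        rw [exp_le_exp] at g4
        omega
      -- the polynomial relation for `η = θ - x`
      set η := θ - j x with hη
      have hηrel : η * (η ^ 2 + j p * η + j q) = - j r := by
        have : j r = j x ^ 3 + j a * j x ^ 2 + j b * j x + j c := by
          simp only [hr, map_add, map_mul, map_pow]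
        rw [this, hη, hp, hq]
        simp only [map_add, map_mul, map_pow, map_ofNat]
        linear_combination hθ
      have wη : w η ≤ 1 := le_sub' w hθ1 hxw
      have wpq : w (η ^ 2 + j p * η) ≤ 1 :=
        le_add' w (le_pow' w wη 2) (le_mul' w (h1 _ vp) wη)
      have hsym : j x - θ = -η := by rw [hη]; ring
      have hrsq : IsSquare (v r) := by
        rw [← hxy, map_pow]
        exact ⟨v y, pow_two _⟩
      have main : IsSquare (w η) ∧ (v r < 1 → w (j q) = 1) := by
        constructor
        · rcases wη.eq_or_lt with e | e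
          · rw [e]; exact sq_one
          · have hr1 : v r < 1 := by
              by_contra hcon
              have t1 := map_one_of j v w h1 (le_antisymm vr (not_lt.1 hcon))
              have t2 : w (η * (η ^ 2 + j p * η + j q)) < 1 :=
                lt_mul_left' w e (le_add' w wpq (h1 _ vq))
              rw [hηrel, Valuation.map_neg, t1] at t2
              exact lt_irrefl _ t2
            have hq1 := map_one_of j v w h1 (hkey hr1)
            have t3 : w (η ^ 2 + j p * η + j q) = 1 := by
              have t4 : w (η ^ 2 + j p * η) < w (j q) := by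
                rw [hq1]
                have : η ^ 2 + j p * η = η * (η + j p) := by ring
                rw [this]
                exact lt_mul_left' w e (le_add' w wη (h1 _ vp))
              rw [Valuation.map_add_eq_of_lt_right w t4, hq1]
            have t5 : w η = w (j r) := by
              have := congrArg w hηrel
              rw [map_mul, t3, mul_one, Valuation.map_neg] at this
              exact this
            rw [t5]
            exact sq_map j v w h1 hπ hrsq
        · intro hr1
          exact map_one_of j v w h1 (hkey hr1)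
      refine ⟨fun _ => by rw [hsym, Valuation.map_neg]; exact main.1, fun h => ?_⟩
      have hη0 : η = 0 := by rw [hη, h, sub_self]
      have hr0 : r = 0 := by
        have t1 := hηrel
        rw [hη0, zero_mul] at t1
        have : j r = 0 := by linear_combination t1
        exact (map_eq_zero j).1 this
      have t1 := main.2 (by rw [hr0, map_zero]; exact zero_lt_one)
      have t2 : 3 * θ ^ 2 + 2 * j a * θ + j b = j q := by
        rw [hq, ← h]
        simp only [map_add, map_mul, map_pow, map_ofNat]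
      rw [t2, t1]
      exact sq_one
  · -- non-integral first coordinate
    rw [not_le] at hx
    have hx0 : x ≠ 0 := by
      rintro rfl
      rw [map_zero] at hx
      exact not_lt_of_ge zero_le_one hx
    have hi : v x⁻¹ < 1 := by
      rw [map_inv₀]
      exact inv_lt_one_of_one_lt₀ hx
    have hwi : w (j x)⁻¹ < 1 := by
      have := h2 _ hi
      rwa [map_inv₀] at this
    have hjx0 : j x ≠ 0 := (map_ne_zero j).2 hx0
    have hwx : 1 < w (j x) := by
      rw [map_inv₀] at hwi
      exact (inv_lt_one₀ (zero_lt_iff.2 ((Valuation.ne_zero_iff _).2 hjx0))).1 hwi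
    have hlt : w θ < w (j x) := lt_of_le_of_lt hθ1 hwx
    have e1 : w (j x - θ) = w (j x) := Valuation.map_sub_eq_of_lt_left w hlt
    have hxsq : IsSquare (v x) := by
      have hi2 : v (x⁻¹ ^ 2) < 1 := by rw [map_pow]; exact pow_lt_one' hi (by norm_num)
      have hi3 : v (x⁻¹ ^ 3) < 1 := by rw [map_pow]; exact pow_lt_one' hi (by norm_num)
      have t1 : v (a * x⁻¹ + b * x⁻¹ ^ 2 + c * x⁻¹ ^ 3) < 1 :=
        lt_add' v (lt_add' v (lt_mul_right' v ha hi) (lt_mul_right' v hb hi2))
          (lt_mul_right' v hc hi3)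
      have t2 : v (1 + (a * x⁻¹ + b * x⁻¹ ^ 2 + c * x⁻¹ ^ 3)) = 1 := by
        rw [Valuation.map_add_eq_of_lt_left v (by rw [map_one]; exact t1), map_one]
      have t3 : y ^ 2 = x ^ 3 * (1 + (a * x⁻¹ + b * x⁻¹ ^ 2 + c * x⁻¹ ^ 3)) := by
        rw [hxy]
        field_simp
        ring
      have t4 := congrArg v t3
      rw [map_pow, map_mul, t2, mul_one, map_pow] at t4
      have hvx : v x ≠ 0 := (Valuation.ne_zero_iff _).2 hx0
      refine ⟨v y / v x, ?_⟩
      rw [div_mul_div_comm, ← pow_two, t4]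
      field_simp
    refine ⟨fun _ => by rw [e1]; exact sq_map j v w h1 hπ hxsq, fun h => ?_⟩
    rw [h] at hlt
    exact absurd hlt (lt_irrefl _)

end local_

end Pool.Agent.NH7.Cub
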