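import Pool.Agent.NH7.Cub.Loc

/-!
The norm from a cubic extension, and elements of square norm at a place where the cubic has no
root.
-/

set_option autoImplicit false
set_option linter.all false

open WithZero Polynomial

namespace Pool.Agent.NH7.Cub

/-- A valuation ring of an extension dominating the valuation ring of `v`. -/
theorem exists_dom {F E Γ : Type} [Field F] [Field E] [LinearOrderedCommGroupWithZero Γ]
    (v : Valuation F Γ) (j : F →+* E) :
    ∃ B : ValuationSubring E, (∀ x, v x ≤ 1 → B.valuation (j x) ≤ 1) ∧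
      ∀ x, v x < 1 → B.valuation (j x) < 1 := by
  let A : LocalSubring F := v.valuationSubring.toLocalSubring
  obtain ⟨B, hB⟩ := (LocalSubring.map j A).exists_le_valuationSubring
  obtain ⟨h1, h2⟩ := hB
  have hmem : ∀ x, v x ≤ 1 → j x ∈ (LocalSubring.map j A).toSubring := fun x hx =>
    Subring.mem_map.2 ⟨x, hx, rfl⟩
  have hle : ∀ x, v x ≤ 1 → B.valuation (j x) ≤ 1 := fun x hx =>
    (B.valuation_le_one_iff _).2 (h1 (hmem x hx))
  refine ⟨B, hle, fun x hx => lt_of_le_of_ne (hle x hx.le) fun hcon => ?_⟩
  have hx0 : j x ≠ 0 := by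
    intro h0
    rw [h0, map_zero] at hcon
    exact zero_ne_one hcon
  have hinv : (j x)⁻¹ ∈ B := by
    rw [← B.valuation_le_one_iff, map_inv₀, hcon, inv_one]
  have hu : IsUnit (Subring.inclusion h1 ⟨j x, hmem x hx.le⟩) := by
    refine IsUnit.of_mul_eq_one ⟨(j x)⁻¹, hinv⟩ (Subtype.ext ?_)
    exact mul_inv_cancel₀ hx0
  have hu2 := h2.map_nonunit _ hu
  obtain ⟨y, hy⟩ := isUnit_iff_exists_inv.1 hu2
  obtain ⟨z, hz, hzy⟩ := Subring.mem_map.1 y.2
  have h3 : j x * (y : E) = 1 := congrArg Subtype.val hy
  rw [← hzy, ← map_mul, ← map_one j] at h3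
  have h4 := j.injective h3
  have h5 := lt_mul_left' v hx (show v z ≤ 1 from hz)
  rw [h4, map_one] at h5
  exact lt_irrefl _ h5

/-- The cubic polynomial. -/
noncomputable def cub {F : Type*} [Field F] (a b c : F) : F[X] :=
  X ^ 3 + C a * X ^ 2 + C b * X + C c

theorem cub_natDegree {F : Type*} [Field F] (a b c : F) : (cub a b c).natDegree = 3 := by
  unfold cub; compute_degree!

theorem cub_monic {F : Type*} [Field F] (a b c : F) : (cub a b c).Monic := by
  unfold cub; monicity!

theorem cub_aeval {F A : Type*} [Field F] [CommRing A] [Algebra F A] (a b c : F) (x : A) :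
    aeval x (cub a b c) = x ^ 3 + algebraMap F A a * x ^ 2 + algebraMap F A b * x +
      algebraMap F A c := by
  simp [cub]

theorem cub_map {F E : Type*} [Field F] [Field E] (j : F →+* E) (a b c : F) :
    (cub a b c).map j = cub (j a) (j b) (j c) := by
  simp [cub]

theorem cub_split {E : Type*} [Field E] {a b c p q r : E} (ha : a = -(p + q + r))
    (hb : b = p * q + q * r + r * p) (hc : c = -(p * q * r)) :
    cub a b c = (X - C p) * (X - C q) * (X - C r) := by
  subst ha hb hc
  simp only [cub, map_neg, map_add, map_mul]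
  ring

theorem cub_sep {F E : Type} [Field F] [Field E] [Algebra F E] {a b c : F} {p q r : E}
    (ha : algebraMap F E a = -(p + q + r)) (hb : algebraMap F E b = p * q + q * r + r * p)
    (hc : algebraMap F E c = -(p * q * r)) (pq : p ≠ q) (qr : q ≠ r) (rp : r ≠ p) :
    (cub a b c).Separable := by
  rw [← separable_map (algebraMap F E), cub_map, cub_split ha hb hc]
  refine Separable.mul (Separable.mul (separable_X_sub_C) (separable_X_sub_C) ?_)
    (separable_X_sub_C) ?_
  · exact (isCoprime_X_sub_C_of_isUnit_sub (sub_ne_zero.2 pq).isUnit)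
  · exact IsCoprime.mul_left (isCoprime_X_sub_C_of_isUnit_sub (sub_ne_zero.2 rp.symm).isUnit)
      (isCoprime_X_sub_C_of_isUnit_sub (sub_ne_zero.2 qr).isUnit)

section norm

variable {F A E : Type} [Field F] [Field A] [Field E] [Algebra F A] [Algebra F E]

theorem adjoin_top {a b c : F} (hirr : Irreducible (cub a b c)) (h3 : Module.finrank F A = 3)
    {θ : A} (hθ : θ ^ 3 + algebraMap F A a * θ ^ 2 + algebraMap F A b * θ + algebraMap F A c = 0) :
    IntermediateField.adjoin F {θ} = ⊤ := by
  haveI : FiniteDimensional F A := FiniteDimensional.of_finrank_pos (by rw [h3]; norm_num)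
  have hmin : minpoly F θ = cub a b c := by
    refine (minpoly.eq_of_irreducible_of_monic hirr ?_ (cub_monic a b c)).symm
    rw [cub_aeval, hθ]
  apply IntermediateField.eq_of_le_of_finrank_eq le_top
  rw [IntermediateField.adjoin.finrank (Algebra.IsIntegral.isIntegral θ), hmin, cub_natDegree,
    IntermediateField.finrank_top', h3]

theorem exists_basis {a b c : F} (hirr : Irreducible (cub a b c)) (h3 : Module.finrank F A = 3)
    {θ : A} (hθ : θ ^ 3 + algebraMap F A a * θ ^ 2 + algebraMap F A b * θ + algebraMap F A c = 0)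
    (α : A) : ∃ x y z : F, α = algebraMap F A x + algebraMap F A y * θ + algebraMap F A z * θ ^ 2 := by
  haveI : FiniteDimensional F A := FiniteDimensional.of_finrank_pos (by rw [h3]; norm_num)
  have h1 : α ∈ IntermediateField.adjoin F {θ} := by
    rw [adjoin_top hirr h3 hθ]; trivial
  rw [IntermediateField.mem_adjoin_simple_iff] at h1
  have h2 : α ∈ (IntermediateField.adjoin F {θ}).toSubalgebra := by
    rw [adjoin_top hirr h3 hθ]; trivial
  rw [IntermediateField.adjoin_simple_toSubalgebra_of_isAlgebraic
    (Algebra.IsAlgebraic.isAlgebraic θ), Algebra.adjoin_singleton_eq_range_aeval] at h2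
  obtain ⟨g, hg⟩ := h2
  have hg' : aeval θ g = α := hg
  have hcub : aeval θ (cub a b c) = 0 := by rw [cub_aeval, hθ]
  have hdiv := modByMonic_add_div g (cub a b c)
  have hdeg : (g %ₘ cub a b c).natDegree < 3 := by
    have := natDegree_modByMonic_lt g (cub_monic a b c) (by
      intro h; have := cub_natDegree a b c; rw [h, natDegree_one] at this; omega)
    rwa [cub_natDegree] at this
  refine ⟨(g %ₘ cub a b c).coeff 0, (g %ₘ cub a b c).coeff 1, (g %ₘ cub a b c).coeff 2, ?_⟩
  rw [← hg', ← hdiv, map_add, map_mul, hcub, zero_mul, add_zero,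
    aeval_eq_sum_range' hdeg, Finset.sum_range_succ, Finset.sum_range_succ, Finset.sum_range_one]
  simp [Algebra.smul_def, hdiv]

theorem sep_alg {a b c : F} (hirr : Irreducible (cub a b c)) (hsep : (cub a b c).Separable)
    (h3 : Module.finrank F A = 3) {θ : A}
    (hθ : θ ^ 3 + algebraMap F A a * θ ^ 2 + algebraMap F A b * θ + algebraMap F A c = 0) :
    Algebra.IsSeparable F A := by
  haveI : FiniteDimensional F A := FiniteDimensional.of_finrank_pos (by rw [h3]; norm_num)
  have h1 : IsSeparable F θ := by
    have : minpoly F θ = cub a b c := by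
      refine (minpoly.eq_of_irreducible_of_monic hirr ?_ (cub_monic a b c)).symm
      rw [cub_aeval, hθ]
    unfold IsSeparable
    rw [this]; exact hsep
  have h2 := (IntermediateField.isSeparable_adjoin_simple_iff_isSeparable F A).2 h1
  rw [adjoin_top hirr h3 hθ] at h2
  exact (AlgEquiv.Algebra.isSeparable_iff (IntermediateField.topEquiv (F := F) (E := A))).1 h2

theorem norm_prod {a b c : F} (hirr : Irreducible (cub a b c)) (h3 : Module.finrank F A = 3)
    {θ : A} (hθ : θ ^ 3 + algebraMap F A a * θ ^ 2 + algebraMap F A b * θ + algebraMap F A c = 0)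
    {p q r : E} (ha : algebraMap F E a = -(p + q + r))
    (hb : algebraMap F E b = p * q + q * r + r * p)
    (hc : algebraMap F E c = -(p * q * r)) (pq : p ≠ q) (qr : q ≠ r) (rp : r ≠ p) (g : F[X]) :
    algebraMap F E (Algebra.norm F (aeval θ g)) = aeval p g * aeval q g * aeval r g := by
  classical
  haveI : FiniteDimensional F A := FiniteDimensional.of_finrank_pos (by rw [h3]; norm_num)
  have hsep := cub_sep ha hb hc pq qr rp
  haveI := sep_alg hirr hsep h3 hθ
  let Ω := AlgebraicClosure E
  have hi : Function.Injective (algebraMap E Ω) := (algebraMap E Ω).injective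
  apply hi
  rw [← IsScalarTower.algebraMap_apply, Algebra.norm_eq_prod_embeddings F Ω]
  have hst : ∀ σ : A →ₐ[F] Ω, σ (aeval θ g) = aeval (σ θ) g := fun σ =>
    (Polynomial.aeval_algHom_apply σ θ g).symm
  rw [Finset.prod_congr rfl (fun σ _ => hst σ)]
  have hinj : Function.Injective (fun σ : A →ₐ[F] Ω => σ θ) := by
    intro σ τ h
    have hst' : σ θ = τ θ := h
    refine AlgHom.ext fun x => ?_
    obtain ⟨x0, x1, x2, rfl⟩ := exists_basis hirr h3 hθ x
    simp only [map_add, map_mul, map_pow, AlgHom.commutes, hst']
  have himg : Finset.univ.image (fun σ : A →ₐ[F] Ω => σ θ) =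
      {algebraMap E Ω p, algebraMap E Ω q, algebraMap E Ω r} := by
    apply Finset.eq_of_subset_of_card_le
    · intro y hy
      rw [Finset.mem_image] at hy
      obtain ⟨σ, -, rfl⟩ := hy
      have e1 := congrArg σ hθ
      simp only [map_add, map_mul, map_pow, AlgHom.commutes, map_zero] at e1
      rw [IsScalarTower.algebraMap_apply F E Ω a, IsScalarTower.algebraMap_apply F E Ω b,
        IsScalarTower.algebraMap_apply F E Ω c, ha, hb, hc] at e1
      simp only [map_add, map_mul, map_neg] at e1
      have e2 : (σ θ - algebraMap E Ω p) * (σ θ - algebraMap E Ω q) * (σ θ - algebraMap E Ω r) = 0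
          := by rw [← e1]; ring
      simp only [Finset.mem_insert, Finset.mem_singleton]
      rcases mul_eq_zero.1 e2 with e3 | e3
      · rcases mul_eq_zero.1 e3 with e4 | e4
        · left; linear_combination e4
        · right; left; linear_combination e4
      · right; right; linear_combination e3
    · rw [Finset.card_image_of_injective _ hinj, Finset.card_univ, AlgHom.card F A Ω, h3]
      exact Finset.card_le_three
  rw [← Finset.prod_image (s := Finset.univ) (g := fun σ : A →ₐ[F] Ω => σ θ)
    (f := fun y => aeval y g) (fun x _ y _ h => hinj h), himg]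
  rw [Finset.prod_insert, Finset.prod_insert, Finset.prod_singleton, map_mul, map_mul,
    aeval_algebraMap_apply, aeval_algebraMap_apply, aeval_algebraMap_apply, mul_assoc]
  · rw [Finset.mem_singleton]
    exact fun h => qr (hi h)
  · rw [Finset.mem_insert, Finset.mem_singleton]
    rintro (h | h)
    · exact pq (hi h)
    · exact rp (hi h).symm

end norm

end Pool.Agent.NH7.Cub
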