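import Pool.Agent.NH7.Cub.Val1

/-!
Valuations in a quadratic extension.
-/

set_option autoImplicit false
set_option linter.all false

open WithZero Polynomial

namespace Pool.Agent.NH7.Cub

section quad

variable {A A' : Type} [Field A] [Field A'] [Algebra A A'] (h2 : (2 : A) ≠ 0) {d : A} {s : A'}
  (hs : s ^ 2 = algebraMap A A' d) (hf : Module.finrank A A' = 2)
  (hns : ∀ y : A, algebraMap A A' y ≠ s)

include hf hns in
theorem quad_basis (x : A') : ∃ y z : A, x = algebraMap A A' y + algebraMap A A' z * s := by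
  haveI : FiniteDimensional A A' := FiniteDimensional.of_finrank_pos (by rw [hf]; norm_num)
  have hli : LinearIndependent A ![(1 : A'), s] := by
    rw [LinearIndependent.pair_iff]
    intro y z h
    have hz : z = 0 := by
      by_contra hz
      apply hns (-(y / z))
      have hz' : algebraMap A A' z ≠ 0 := (_root_.map_ne_zero _).2 hz
      rw [Algebra.smul_def, Algebra.smul_def, mul_one] at h
      rw [map_neg, map_div₀]
      field_simp
      linear_combination -h
    refine ⟨?_, hz⟩
    rw [hz, zero_smul, add_zero, Algebra.smul_def, mul_one] at h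
    exact (map_eq_zero _).1 h
  let bs := basisOfLinearIndependentOfCardEqFinrank hli (by rw [hf]; rfl)
  have h := bs.sum_repr x
  rw [Fin.sum_univ_two] at h
  refine ⟨bs.repr x 0, bs.repr x 1, ?_⟩
  have e0 : bs 0 = 1 := by simp [bs]
  have e1 : bs 1 = s := by simp [bs]
  rw [e0, e1, Algebra.smul_def, Algebra.smul_def, mul_one] at h
  exact h.symm

include hns hs in
theorem quad_ne (h : s = 0) : False := by
  apply hns 0
  rw [h, map_zero]

include h2 hs hf hns in
theorem quad_galois : IsGalois A A' := by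
  haveI : FiniteDimensional A A' := FiniteDimensional.of_finrank_pos (by rw [hf]; norm_num)
  have hs0 : s ≠ 0 := fun h => quad_ne hs hns h
  have hd0 : d ≠ 0 := by
    rintro rfl
    rw [map_zero] at hs
    exact hs0 (pow_eq_zero_iff (two_ne_zero) |>.1 hs)
  have hsep : (X ^ 2 - C d : A[X]).Separable := by
    have := separable_X_pow_sub_C (F := A) (n := 2) d (by exact_mod_cast h2) hd0
    exact this
  have hssep : IsSeparable A s := by
    refine Separable.of_dvd hsep (minpoly.dvd A s ?_)
    simp [hs]
  have htop : IntermediateField.adjoin A {s} = ⊤ := by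
    rw [eq_top_iff]
    intro x _
    obtain ⟨y, z, rfl⟩ := quad_basis hf hns x
    exact add_mem (IntermediateField.algebraMap_mem _ _)
      (mul_mem (IntermediateField.algebraMap_mem _ _) (IntermediateField.mem_adjoin_simple_self A s))
  haveI : Algebra.IsSeparable A A' := by
    have h2 := (IntermediateField.isSeparable_adjoin_simple_iff_isSeparable A A').2 hssep
    rw [htop] at h2
    exact (AlgEquiv.Algebra.isSeparable_iff (IntermediateField.topEquiv (F := A) (E := A'))).1 h2
  haveI : Algebra.IsQuadraticExtension A A' := { finrank_eq_two' := hf }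
  infer_instance

include h2 hs hf hns in
theorem quad_conj : ∃ σ : A' ≃ₐ[A] A', σ s = -s ∧
    ∀ x, algebraMap A A' (Algebra.norm A x) = x * σ x := by
  classical
  haveI : FiniteDimensional A A' := FiniteDimensional.of_finrank_pos (by rw [hf]; norm_num)
  haveI := quad_galois h2 hs hf hns
  have hcard : Fintype.card (A' ≃ₐ[A] A') = 2 := by
    rw [← Nat.card_eq_fintype_card, IsGalois.card_aut_eq_finrank, hf]
  obtain ⟨σ, hσ⟩ : ∃ σ : A' ≃ₐ[A] A', σ ≠ 1 := by
    by_contra hcon
    push Not at hcon
    have : Fintype.card (A' ≃ₐ[A] A') ≤ 1 := Fintype.card_le_one_iff.2 fun x y => by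
      rw [hcon x, hcon y]
    omega
  have hu : (Finset.univ : Finset (A' ≃ₐ[A] A')) = {1, σ} := by
    symm
    apply Finset.eq_of_subset_of_card_le (Finset.subset_univ _)
    rw [Finset.card_univ, hcard, Finset.card_pair hσ.symm]
  refine ⟨σ, ?_, fun x => ?_⟩
  · have h1 : (σ s) ^ 2 = s ^ 2 := by
      rw [← map_pow, hs, σ.commutes]
    rcases sq_eq_sq_iff_eq_or_eq_neg.1 h1 with h | h
    · exfalso
      apply hσ
      refine AlgEquiv.ext fun x => ?_
      obtain ⟨y, z, rfl⟩ := quad_basis hf hns x
      rw [map_add, map_mul, σ.commutes, σ.commutes, h]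
      rfl
    · exact h
  · rw [Algebra.norm_eq_prod_automorphisms, hu, Finset.prod_pair hσ.symm]
    rfl

variable (u : Valuation A ℤᵐ⁰) (hu : Function.Surjective u) (u' : Valuation A' ℤᵐ⁰)
  (hu' : Function.Surjective u') {e : ℕ} (he : 0 < e)
  (hue : ∀ x : A, u' (algebraMap A A' x) = u x ^ e)

include hue in
theorem val_exp {x : A} (hx : x ≠ 0) : ∃ n : ℤ, u' (algebraMap A A' x) = exp (e * n) ∧
    u x = exp n := by
  obtain ⟨n, hn⟩ := exists_exp u hx
  refine ⟨n, ?_, hn⟩
  rw [hue, hn, ← exp_nsmul]
  simp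

include h2 hs hf hns hu' hue he in
/-- The ramification index is at most two. -/
theorem quad_le_two : e ≤ 2 := by
  by_contra hcon
  rw [not_le] at hcon
  obtain ⟨P, hP0, hP⟩ := surj_unif u' hu'
  obtain ⟨y, z, hyz⟩ := quad_basis hf hns P
  -- P ^ 2 = t P - n
  set t := 2 * y with ht
  set n := y ^ 2 - d * z ^ 2 with hn
  have hrel : P ^ 2 = algebraMap A A' t * P - algebraMap A A' n := by
    rw [ht, hn, hyz]
    simp only [map_sub, map_mul, map_pow, map_ofNat]
    linear_combination (algebraMap A A' z) ^ 2 * hs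
  have hP2 : u' (P ^ 2) = exp (-2) := by
    rw [map_pow, hP, ← exp_nsmul]; simp
  have he' : (3 : ℤ) ≤ e := by exact_mod_cast hcon
  have key : ∀ i : ℤ, (e : ℤ) * i ≠ -1 ∧ (e : ℤ) * i ≠ -2 := by
    intro i
    constructor
    · intro h
      have : (e : ℤ) ∣ 1 := ⟨-i, by linarith⟩
      have := Int.le_of_dvd (by norm_num) this
      omega
    · intro h
      have : (e : ℤ) ∣ 2 := ⟨-i, by linarith⟩
      have := Int.le_of_dvd (by norm_num) this
      omega
  by_cases ht0 : t = 0
  · have h1 : P ^ 2 = -algebraMap A A' n := by rw [hrel, ht0, map_zero]; ring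
    have hn0 : n ≠ 0 := by
      intro h
      rw [h, map_zero, neg_zero] at h1
      exact pow_ne_zero 2 hP0 h1
    obtain ⟨j, hj, -⟩ := val_exp u u' hue hn0
    rw [h1, Valuation.map_neg, hj, exp_inj] at hP2
    exact (key j).2 hP2
  · obtain ⟨i, hi, -⟩ := val_exp u u' hue ht0
    have h3 : u' (algebraMap A A' t * P) = exp (e * i - 1) := by
      rw [map_mul, hi, hP, ← exp_add]; rfl
    by_cases hn0 : n = 0
    · rw [hrel, hn0, map_zero, sub_zero, h3, exp_inj] at hP2
      exact (key i).1 (by omega)
    · obtain ⟨j, hj, -⟩ := val_exp u u' hue hn0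
      rcases lt_trichotomy (e * i - 1 : ℤ) (e * j) with h | h | h
      · have h4 : u' (algebraMap A A' t * P) < u' (algebraMap A A' n) := by
          rw [h3, hj, exp_lt_exp]; exact h
        rw [hrel, Valuation.map_sub_eq_of_lt_right _ h4, hj, exp_inj] at hP2
        exact (key j).2 hP2
      · exact (key (j - i)).1 (by rw [mul_sub]; omega)
      · have h4 : u' (algebraMap A A' n) < u' (algebraMap A A' t * P) := by
          rw [h3, hj, exp_lt_exp]; exact h
        rw [hrel, Valuation.map_sub_eq_of_lt_left _ h4, h3, exp_inj] at hP2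
        exact (key i).1 (by omega)

include h2 hs hf hns hu' hue he hu in
/-- If the radicand has even valuation and `2` is a unit then the index is one. -/
theorem quad_unram (h2u : u 2 = 1) (hd : IsSquare (u d)) : e = 1 := by
  by_contra hcon
  have he2 : (2 : ℤ) ≤ e := by
    have : 2 ≤ e := by omega
    exact_mod_cast this
  have hs0 : s ≠ 0 := fun h => quad_ne hs hns h
  have hd0 : d ≠ 0 := by
    rintro rfl
    rw [map_zero] at hs
    exact hs0 (pow_eq_zero_iff (two_ne_zero) |>.1 hs)
  obtain ⟨m, hm⟩ := exists_exp u hd0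
  rw [hm, isSquare_exp] at hd
  obtain ⟨k, rfl⟩ := hd
  obtain ⟨π, hπ0, hπ⟩ := surj_unif u hu
  -- scaled root
  set δ : A' := s * algebraMap A A' (π ^ k) with hδ
  set d0 : A := d * (π ^ k) ^ 2 with hd0'
  have hδ2 : δ ^ 2 = algebraMap A A' d0 := by
    rw [hδ, hd0', mul_pow, hs, map_mul, map_pow]
  have hπk : u (π ^ k) = exp (-k) := by
    rw [map_zpow₀, hπ, ← exp_zsmul]; simp
  have hud0 : u d0 = 1 := by
    rw [hd0', map_mul, map_pow, hπk, hm, ← exp_nsmul, ← exp_add, ← exp_zero, exp_inj]
    simp
    ring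
  have hd00 : d0 ≠ 0 := by
    intro h
    rw [h, map_zero] at hud0
    exact zero_ne_one hud0
  have huδ : u' δ = 1 := by
    have h1 : u' δ ^ 2 = 1 := by
      rw [← map_pow, hδ2, hue, hud0, one_pow]
    have hδ0 : δ ≠ 0 := by
      rintro h0
      rw [h0, map_zero, zero_pow two_ne_zero] at h1
      exact zero_ne_one h1
    obtain ⟨m, hm'⟩ := exists_exp u' hδ0
    rw [hm', ← exp_nsmul, ← exp_zero, exp_inj, nsmul_eq_mul] at h1
    rw [hm', ← exp_zero, exp_inj]
    push_cast at h1
    omega
  obtain ⟨P, hP0, hP⟩ := surj_unif u' hu'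
  obtain ⟨y, z, hyz⟩ := quad_basis hf hns P
  have hπk0 : π ^ k ≠ 0 := zpow_ne_zero _ hπ0
  set z' : A := z / π ^ k with hz'
  have hyz' : P = algebraMap A A' y + algebraMap A A' z' * δ := by
    rw [hyz, hz', hδ, map_div₀]
    have : algebraMap A A' (π ^ k) ≠ 0 := (_root_.map_ne_zero _).2 hπk0
    field_simp
  have key : ∀ i : ℤ, (e : ℤ) * i ≠ -1 := by
    intro i h
    have : (e : ℤ) ∣ 1 := ⟨-i, by linarith⟩
    have := Int.le_of_dvd (by norm_num) this
    omega
  have hy0 : y ≠ 0 := by
    intro h
    by_cases hz0 : z' = 0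
    · rw [h, hz0, map_zero, zero_mul, add_zero] at hyz'
      exact hP0 hyz'
    · obtain ⟨j, hj, -⟩ := val_exp u u' hue hz0
      rw [hyz', h, map_zero, zero_add, map_mul, huδ, mul_one, hj, exp_inj] at hP
      exact key j hP
  have hz0 : z' ≠ 0 := by
    intro h
    obtain ⟨j, hj, -⟩ := val_exp u u' hue hy0
    rw [hyz', h, map_zero, zero_mul, add_zero, hj, exp_inj] at hP
    exact key j hP
  obtain ⟨i, hi, hi'⟩ := val_exp u u' hue hy0
  obtain ⟨j, hj, hj'⟩ := val_exp u u' hue hz0
  have hzδ : u' (algebraMap A A' z' * δ) = exp (e * j) := by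
    rw [map_mul, huδ, mul_one, hj]
  have hij : (e : ℤ) * i = e * j := by
    rcases lt_trichotomy ((e : ℤ) * i) (e * j) with h | h | h
    · exfalso
      have h4 : u' (algebraMap A A' y) < u' (algebraMap A A' z' * δ) := by
        rw [hi, hzδ, exp_lt_exp]; exact h
      rw [hyz', Valuation.map_add_eq_of_lt_right _ h4, hzδ, exp_inj] at hP
      exact key j hP
    · exact h
    · exfalso
      have h4 : u' (algebraMap A A' z' * δ) < u' (algebraMap A A' y) := by
        rw [hi, hzδ, exp_lt_exp]; exact h
      rw [hyz', Valuation.map_add_eq_of_lt_left _ h4, hi, exp_inj] at hP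
      exact key i hP
  -- divide by `z'`
  have hjnn : 0 ≤ (e : ℤ) * j := by
    by_contra hneg
    rw [not_le] at hneg
    have h5 : u' P ≤ exp (e * j) := by
      rw [hyz']
      refine (u'.map_add _ _).trans (max_le ?_ hzδ.le)
      rw [hi, hij]
    rw [hP, exp_le_exp] at h5
    have := key j
    omega
  set w := y / z' with hw
  have huw : u w = 1 := by
    have : i = j := by
      have he0 : (e : ℤ) ≠ 0 := by omega
      exact mul_left_cancel₀ he0 hij
    rw [hw, map_div₀, hi', hj', this, div_self exp_ne_zero]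
  have hzA : algebraMap A A' z' ≠ 0 := (_root_.map_ne_zero _).2 hz0
  have h6 : u' (algebraMap A A' w + δ) = exp (-1 - e * j) := by
    have : algebraMap A A' w + δ = P / algebraMap A A' z' := by
      rw [hyz', hw, map_div₀]
      field_simp
    rw [this, map_div₀, hP, hj, ← exp_sub]
  have h7 : u' (algebraMap A A' w + δ) < 1 := by
    rw [h6, ← exp_zero, exp_lt_exp]
    omega
  have h8 : u' (2 * δ) = 1 := by
    have : (2 : A') = algebraMap A A' 2 := (map_ofNat _ 2).symm
    rw [map_mul, huδ, mul_one, this, hue, h2u, one_pow]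
  have h9 : u' (algebraMap A A' w - δ) = 1 := by
    have : algebraMap A A' w - δ = (algebraMap A A' w + δ) - 2 * δ := by ring
    rw [this, Valuation.map_sub_eq_of_lt_right _ (by rw [h8]; exact h7), h8]
  have h10 : algebraMap A A' (w ^ 2 - d0) = (algebraMap A A' w + δ) * (algebraMap A A' w - δ) := by
    rw [map_sub, map_pow, ← hδ2]; ring
  have h11 : u' (algebraMap A A' (w ^ 2 - d0)) = exp (-1 - e * j) := by
    rw [h10, map_mul, h6, h9, mul_one]
  have h12 : w ^ 2 - d0 ≠ 0 := by
    intro h
    rw [h, map_zero, map_zero] at h11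
    exact exp_ne_zero h11.symm
  obtain ⟨l, hl, -⟩ := val_exp u u' hue h12
  rw [hl, exp_inj] at h11
  exact key (l + j) (by rw [mul_add]; omega)

include h2 hs hf hns hu' hue he hu in
/-- The norm of an element with even valuations has even valuation. -/
theorem quad_norm {α : A'} (hα : α ≠ 0) (h : ∀ w : Valuation A' ℤᵐ⁰, Function.Surjective w →
    (∀ x : A, w (algebraMap A A' x) = u x ^ e) → IsSquare (w α)) :
    IsSquare (u (Algebra.norm A α)) := by
  obtain ⟨σ, hσs, hσ⟩ := quad_conj h2 hs hf hns
  have he2 := quad_le_two h2 hs hf hns u u' hu' he hue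
  have hN0 : Algebra.norm A α ≠ 0 := by
    intro h0
    have := hσ α
    rw [h0, map_zero] at this
    rcases mul_eq_zero.1 this.symm with h1 | h1
    · exact hα h1
    · exact hα ((map_eq_zero σ).1 h1)
  -- the conjugate valuation
  have hcomap : ∀ x : A, (u'.comap (σ : A' →+* A')) (algebraMap A A' x) = u x ^ e := by
    intro x
    show u' (σ (algebraMap A A' x)) = _
    rw [σ.commutes, hue]
  have hcsurj : Function.Surjective (u'.comap (σ : A' →+* A')) := by
    intro z
    obtain ⟨x, hx⟩ := hu' z
    exact ⟨σ.symm x, by show u' (σ (σ.symm x)) = z; rw [σ.apply_symm_apply, hx]⟩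
  have s1 := h u' hu' hue
  have s2 : IsSquare (u' (σ α)) := h _ hcsurj hcomap
  rcases Nat.lt_or_ge e 2 with he1 | he1
  · obtain rfl : e = 1 := by omega
    have h1 := hue (Algebra.norm A α)
    rw [hσ, pow_one, map_mul] at h1
    rw [← h1]
    exact s1.mul s2
  · obtain rfl : e = 2 := by omega
    -- the conjugate valuation is equal to `u'`
    obtain ⟨P, hP0, hP⟩ := surj_unif u' hu'
    obtain ⟨y0, z0, hyz0⟩ := quad_basis hf hns P
    have hodd : ∀ i : ℤ, ((2 : ℕ) : ℤ) * i ≠ -1 := by intro i; push_cast; omega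
    have hz00 : z0 ≠ 0 := by
      intro h0
      rw [h0, map_zero, zero_mul, add_zero] at hyz0
      have hy0 : y0 ≠ 0 := by
        rintro rfl
        rw [map_zero] at hyz0
        exact hP0 hyz0
      obtain ⟨i, hi, -⟩ := val_exp u u' hue hy0
      rw [hyz0, hi, exp_inj] at hP
      exact hodd i hP
    have htr : P + σ P = algebraMap A A' (2 * y0) := by
      rw [hyz0, map_add, map_mul, σ.commutes, σ.commutes, hσs, map_mul, map_ofNat]
      ring
    have hσP0 : σ P ≠ 0 := (_root_.map_ne_zero σ).2 hP0
    have hσP : u' (σ P) = exp (-1) := by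
      obtain ⟨m, hm⟩ := exists_exp u' hσP0
      have hNP : Algebra.norm A P ≠ 0 := by
        intro h0
        have := hσ P
        rw [h0, map_zero] at this
        exact mul_ne_zero hP0 hσP0 this.symm
      obtain ⟨k, hk, -⟩ := val_exp u u' hue hNP
      rw [hσ, map_mul, hP, hm, ← exp_add, exp_inj] at hk
      rw [hm, exp_inj]
      by_contra hne
      have h5 : 2 * y0 ≠ 0 ∧ ∃ l : ℤ, u' (P + σ P) = exp (2 * l + 1) := by
        have hl : ∃ l : ℤ, u' (P + σ P) = exp (2 * l + 1) := by
          rcases lt_or_gt_of_ne hne with h6 | h6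
          · have h7 : u' (σ P) < u' P := by rw [hP, hm, exp_lt_exp]; exact h6
            refine ⟨-1, ?_⟩
            rw [Valuation.map_add_eq_of_lt_left _ h7, hP]
            norm_num
          · have h7 : u' P < u' (σ P) := by rw [hP, hm, exp_lt_exp]; exact h6
            refine ⟨k, ?_⟩
            rw [Valuation.map_add_eq_of_lt_right _ h7, hm, exp_inj]
            push_cast at hk
            omega
        refine ⟨?_, hl⟩
        intro h0
        obtain ⟨l, hl⟩ := hl
        rw [htr, h0, map_zero, map_zero] at hl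
        exact exp_ne_zero hl.symm
      obtain ⟨h6, l, hl⟩ := h5
      obtain ⟨i, hi, -⟩ := val_exp u u' hue h6
      rw [htr, hi, exp_inj] at hl
      push_cast at hl
      omega
    have hz00' : algebraMap A A' z0 ≠ 0 := (_root_.map_ne_zero _).2 hz00
    have hdec : ∀ x : A', ∃ y z : A, x = algebraMap A A' y + algebraMap A A' z * P := by
      intro x
      obtain ⟨y, z, rfl⟩ := quad_basis hf hns x
      refine ⟨y - z * y0 / z0, z / z0, ?_⟩
      rw [hyz0, map_sub, map_div₀, map_div₀, map_mul]
      field_simp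
      ring
    have hmax : ∀ (Q : A') (hQ : u' Q = exp (-1)) (y z : A),
        u' (algebraMap A A' y + algebraMap A A' z * Q) =
          max (u' (algebraMap A A' y)) (u' (algebraMap A A' z) * exp (-1)) := by
      intro Q hQ y z
      by_cases hy : y = 0
      · subst hy
        rw [map_zero, zero_add, map_mul, hQ, map_zero, max_eq_right zero_le']
      by_cases hz : z = 0
      · subst hz
        rw [map_zero, zero_mul, add_zero, map_zero, zero_mul, max_eq_left zero_le']
      obtain ⟨i, hi, -⟩ := val_exp u u' hue hy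
      obtain ⟨j, hj, -⟩ := val_exp u u' hue hz
      have h6 : u' (algebraMap A A' z * Q) = exp (((2 : ℕ) : ℤ) * j - 1) := by
        rw [map_mul, hj, hQ, ← exp_add]; rfl
      have h6' : u' (algebraMap A A' z) * exp (-1) = exp (((2 : ℕ) : ℤ) * j - 1) := by
        rw [hj, ← exp_add]; rfl
      rw [h6', hi]
      rcases lt_trichotomy (((2 : ℕ) : ℤ) * i) (((2 : ℕ) : ℤ) * j - 1) with h7 | h7 | h7
      · have h8 : u' (algebraMap A A' y) < u' (algebraMap A A' z * Q) := by
          rw [hi, h6, exp_lt_exp]; exact h7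
        rw [Valuation.map_add_eq_of_lt_right _ h8, h6, max_eq_right]
        rw [exp_le_exp]; exact h7.le
      · exfalso
        push_cast at h7
        omega
      · have h8 : u' (algebraMap A A' z * Q) < u' (algebraMap A A' y) := by
          rw [hi, h6, exp_lt_exp]; exact h7
        rw [Valuation.map_add_eq_of_lt_left _ h8, hi, max_eq_left]
        rw [exp_le_exp]; exact h7.le
    have hinv : u' (σ α) = u' α := by
      obtain ⟨y, z, hyz⟩ := hdec α
      rw [hyz, map_add, map_mul, σ.commutes, σ.commutes, hmax _ hσP, hmax _ hP]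
    have h1 := hue (Algebra.norm A α)
    rw [hσ, map_mul, hinv] at h1
    obtain ⟨m, hm⟩ := exists_exp u' hα
    obtain ⟨n, hn⟩ := exists_exp u hN0
    rw [hm] at s1 h1
    rw [hn, ← exp_add, ← exp_nsmul, exp_inj] at h1
    rw [isSquare_exp] at s1
    rw [hn, isSquare_exp]
    have : n = m := by
      rw [nsmul_eq_mul] at h1
      push_cast at h1
      omega
    rw [this]
    exact s1

end quad

end Pool.Agent.NH7.Cub
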