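import Pool.Agent.NH7.Cub.Fin3

/-!
Twists of rank one over `k(s)`.
-/

set_option autoImplicit false
set_option linter.all false

open WithZero Polynomial IsDedekindDomain

namespace Pool.Agent.NH7.Cub

open Pool.Agent.W309.Sha (PointsComplete ShaTwoTrivial ShaTateTrivial Points)

theorem discR_nd {k K : Type} [Field k] [Field K] [Algebra k[X] K] [IsFractionRing k[X] K]
    (h2 : (2 : k) ≠ 0) (a b c : k) (hab : a ^ 2 ≠ 3 * b) :
    discR (C a) (C b) (C c - X) ≠ 0 ∧
      ∀ v : HeightOneSpectrum k[X], discR (C a) (C b) (C c - X) ∉ v.asIdeal ^ 2 := by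
  have key : ∀ v : HeightOneSpectrum k[X], discR (C a) (C b) (C c - X) ∉ v.asIdeal ^ 2 := by
    intro v
    have h1 := disc_cond (K := K) a b c h2 hab v
    have e1 : disc3 (cf K a) (cf K b) (cs K c) =
        algebraMap k[X] K (discR (C a) (C b) (C c - X)) := discR_map (C a) (C b) (C c - X)
    rw [e1, v.valuation_of_algebraMap] at h1
    intro h
    rw [← v.intValuation_le_pow_iff_mem] at h
    have h3 := h1.trans h
    rw [exp_le_exp] at h3
    push_cast at h3
  refine ⟨fun h0 => ?_, key⟩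
  have hX : Prime (X : k[X]) := prime_X
  let v : HeightOneSpectrum k[X] := ⟨Ideal.span {X}, (Ideal.span_singleton_prime X_ne_zero).2 hX,
    by rw [Ne, Ideal.span_singleton_eq_bot]; exact X_ne_zero⟩
  apply key v
  rw [h0]
  exact Ideal.zero_mem _

section fin

variable {k K L S : Type} [Field k] [Field K] [Algebra k[X] K] [IsFractionRing k[X] K] [Field L]
  [Algebra K L] [Algebra k[X] L] [IsScalarTower k[X] K L] [CommRing S] [IsDedekindDomain S]
  [Algebra S L] [IsFractionRing S L] [Algebra k[X] S] [IsScalarTower k[X] S L]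

theorem rk_tower [Algebra.IsIntegral k[X] S] (h2 : (2 : k) ≠ 0) (hL : TwoTower K L) (a b c : k)
    (hab : a ^ 2 ≠ 3 * b) (D : L) (hD : D ≠ 0)
    (w₀ : HeightOneSpectrum S)
    (hun : ¬ (w₀.asIdeal.under k[X]).map (algebraMap k[X] S) ≤ w₀.asIdeal ^ 2)
    (hodd : ¬ IsSquare (w₀.valuation L D)) (hone : OneRoot S w₀.asIdeal (C a) (C b) (C c - X))
    (hram : ∀ w : HeightOneSpectrum S, w ≠ w₀ →
      ((w.asIdeal.under k[X]).map (algebraMap k[X] S) ≤ w.asIdeal ^ 2 ∨
        ¬ IsSquare (w.valuation L D)) →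
      ∀ g : k[X], g ^ 3 + C a * g ^ 2 + C b * g + C c - X ∉ w.asIdeal.under k[X])
    (x₀ y₀ : L) (hxy : D * y₀ ^ 2 = x₀ ^ 3 + algebraMap k[X] L (C a) * x₀ ^ 2 +
      algebraMap k[X] L (C b) * x₀ + algebraMap k[X] L (C c - X))
    (hx₀ : w₀.valuation L x₀ ≤ 1) :
    TwoRankOne (crvD k L a b c D) ∧
      ShaTwoTrivial S (crvD k L a b c D) ∧ ShaTateTrivial S (crvD k L a b c D) := by
  have h2R : IsUnit (2 : k[X]) := by
    have : (2 : k[X]) = C 2 := (map_ofNat C 2).symm
    rw [this]
    exact isUnit_C.2 h2.isUnit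
  obtain ⟨h0, hdisc⟩ := discR_nd (K := K) h2 a b c hab
  exact main_one (K := K) (L := L) (S := S) h2R hL (C a) (C b) (C c - X) (cub_irr (K := K) a b c)
    h0 hdisc (base_H1 a b c) D hD w₀ hun hodd hone
    (fun w hw h g => by
      have h1 := hram w hw h g
      rwa [add_sub_assoc] at h1) x₀ y₀ hxy hx₀

end fin

section base

variable {k K : Type} [Field k] [Field K] [Algebra k[X] K] [IsFractionRing k[X] K]

/-- The twist by `h(g) - s` has rank one if `h(g) - s` is irreducible and `h(x) - h(g)` has only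
one root modulo `h(g) - s`. -/
theorem rk_base (h2 : (2 : k) ≠ 0) (a b c : k) (hab : a ^ 2 ≠ 3 * b) (g : k[X])
    (hirr : Irreducible (g ^ 3 + C a * g ^ 2 + C b * g + C c - X))
    (hδ : ∀ r : k[X], ¬ (g ^ 3 + C a * g ^ 2 + C b * g + C c - X) ∣
      r ^ 2 - (C (a ^ 2 - 4 * b) - C (2 * a) * g - 3 * g ^ 2)) :
    TwoRankOne (crvD k K a b c (algebraMap k[X] K (g ^ 3 + C a * g ^ 2 + C b * g + C c - X))) ∧
      ShaTwoTrivial k[X] (crvD k K a b c (algebraMap k[X] K
        (g ^ 3 + C a * g ^ 2 + C b * g + C c - X))) ∧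
      ShaTateTrivial k[X] (crvD k K a b c (algebraMap k[X] K
        (g ^ 3 + C a * g ^ 2 + C b * g + C c - X))) := by
  set D := g ^ 3 + C a * g ^ 2 + C b * g + C c - X with hD
  have hD0 : D ≠ 0 := hirr.ne_zero
  have hprime : Prime D := hirr.prime
  have hinj : Function.Injective (algebraMap k[X] K) := IsFractionRing.injective k[X] K
  let w₀ : HeightOneSpectrum k[X] := ⟨Ideal.span {D}, (Ideal.span_singleton_prime hD0).2 hprime,
    by rw [Ne, Ideal.span_singleton_eq_bot]; exact hD0⟩
  have hw₀ : w₀.asIdeal = Ideal.span {D} := rfl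
  have hmem : ∀ r : k[X], r ∈ w₀.asIdeal ↔ D ∣ r := fun r => by
    rw [hw₀, Ideal.mem_span_singleton]
  have hval : w₀.valuation K (algebraMap k[X] K D) = exp (-1) := by
    rw [w₀.valuation_of_algebraMap, w₀.intValuation_singleton hD0 hw₀]
  have h2D : ∀ r : k[X], D ∣ 2 * r → D ∣ r := by
    intro r hr
    have h3 : r = C (2⁻¹ : k) * (2 * r) := by
      have : (2 : k[X]) = C 2 := (map_ofNat C 2).symm
      rw [this, ← mul_assoc, ← C_mul, inv_mul_cancel₀ h2, C_1, one_mul]
    rw [h3]
    exact hr.mul_left _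
  have key : ∀ x : k[X], D ∣ x ^ 3 + C a * x ^ 2 + C b * x + (C c - X) → D ∣ x - g := by
    intro x hx
    have h1 : D ∣ (x - g) * (x ^ 2 + x * g + g ^ 2 + C a * (x + g) + C b) := by
      have h3 : (x - g) * (x ^ 2 + x * g + g ^ 2 + C a * (x + g) + C b) =
          (x ^ 3 + C a * x ^ 2 + C b * x + (C c - X)) - D := by rw [hD]; ring
      rw [h3]
      exact dvd_sub hx (dvd_refl _)
    rcases hprime.dvd_or_dvd h1 with h4 | h4
    · exact h4
    · exfalso
      apply hδ (2 * x + g + C a)
      have h5 : (2 * x + g + C a) ^ 2 - (C (a ^ 2 - 4 * b) - C (2 * a) * g - 3 * g ^ 2) =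
          (x ^ 2 + x * g + g ^ 2 + C a * (x + g) + C b) * 4 := by
        simp only [map_sub, map_mul, map_pow, map_ofNat]
        ring
      rw [h5]
      exact h4.mul_right _
  have hsimp : ∀ x : k[X], D ∣ x - g → ¬ D ∣ 3 * x ^ 2 + 2 * C a * x + C b := by
    intro x hx hd
    apply hδ (3 * g + C a)
    have h5 : (3 * g + C a) ^ 2 - (C (a ^ 2 - 4 * b) - C (2 * a) * g - 3 * g ^ 2) =
        (3 * x ^ 2 + 2 * C a * x + C b) * 4 - (x - g) * (12 * (x + g) + 8 * C a) := by
      simp only [map_sub, map_mul, map_pow, map_ofNat]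
      ring
    rw [h5]
    exact dvd_sub (hd.mul_right _) (hx.mul_right _)
  refine rk_tower (K := K) (L := K) (S := k[X]) h2 (TwoTower.base K fun x => ⟨x, rfl⟩) a b c hab
    (algebraMap k[X] K D) (by rwa [Ne, map_eq_zero_iff _ hinj]) w₀ ?_ ?_ ?_ ?_
    (algebraMap k[X] K g) 1 ?_ (w₀.valuation_le_one _)
  · intro h
    have h1 : D ∈ w₀.asIdeal ^ 2 := by
      apply h
      have h3 : algebraMap k[X] k[X] D ∈ (w₀.asIdeal.under k[X]).map (algebraMap k[X] k[X]) := by
        apply Ideal.mem_map_of_mem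
        show algebraMap k[X] k[X] D ∈ w₀.asIdeal
        exact (hmem D).2 (dvd_refl _)
      exact h3
    rw [hw₀, Ideal.span_singleton_pow, Ideal.mem_span_singleton] at h1
    exact hprime.not_unit (by
      obtain ⟨r, hr⟩ := h1
      have h4 : D * 1 = D * (D * r) := by rw [mul_one, ← mul_assoc, ← pow_two]; exact hr
      exact IsUnit.of_mul_eq_one _ (mul_left_cancel₀ hD0 h4).symm)
  · rw [hval]
    rintro ⟨z, hz⟩
    have hz0 : z ≠ 0 := by
      rintro rfl
      rw [mul_zero] at hz
      exact exp_ne_zero hz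
    rw [← exp_log hz0, ← exp_add, exp_inj] at hz
    omega
  · constructor
    · intro x y hx hy
      rw [hmem] at hx hy ⊢
      have h3 := dvd_sub (key x hx) (key y hy)
      rwa [sub_sub_sub_cancel_right] at h3
    · intro x hx hd
      rw [hmem] at hx hd
      exact hsimp x (key x hx) hd
  · intro w hw hor u
    exfalso
    have hDw : D ∉ w.asIdeal := by
      intro h
      apply hw
      apply HeightOneSpectrum.ext
      haveI := w₀.isMaximal
      refine (Ideal.IsMaximal.eq_of_le inferInstance w.isPrime.ne_top ?_).symm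
      rw [hw₀, Ideal.span_singleton_le_iff_mem]
      exact h
    rcases hor with h | h
    · obtain ⟨π, hπ⟩ : ∃ π : k[X], w.asIdeal = Ideal.span {π} :=
        ⟨Submodule.IsPrincipal.generator w.asIdeal, (Ideal.span_singleton_generator _).symm⟩
      have hπ0 : π ≠ 0 := by
        rintro rfl
        exact w.ne_bot (by rw [hπ]; simp)
      have h1 : π ∈ w.asIdeal ^ 2 := by
        apply h
        have h3 : algebraMap k[X] k[X] π ∈ (w.asIdeal.under k[X]).map (algebraMap k[X] k[X]) := by
          apply Ideal.mem_map_of_mem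
          show algebraMap k[X] k[X] π ∈ w.asIdeal
          rw [hπ]
          exact Ideal.mem_span_singleton_self π
        exact h3
      rw [hπ, Ideal.span_singleton_pow, Ideal.mem_span_singleton] at h1
      apply w.isPrime.ne_top
      rw [hπ, Ideal.span_singleton_eq_top]
      obtain ⟨r, hr⟩ := h1
      have h4 : π * 1 = π * (π * r) := by rw [mul_one, ← mul_assoc, ← pow_two]; exact hr
      exact IsUnit.of_mul_eq_one _ (mul_left_cancel₀ hπ0 h4).symm
    · apply h
      have h1 : w.valuation K (algebraMap k[X] K D) = 1 := by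
        apply le_antisymm (w.valuation_le_one _)
        rw [← not_lt, w.valuation_lt_one_iff_mem]
        exact hDw
      rw [h1]
      exact ⟨1, (mul_one 1).symm⟩
  · rw [hD]
    simp only [map_add, map_sub, map_mul, map_pow, one_pow, mul_one]
    ring

end base

end Pool.Agent.NH7.Cub
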