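import Pool.Agent.NH7.Cub.Rk1

/-!
The generic twist of rank one.
-/

set_option autoImplicit false
set_option linter.all false

open WithZero Polynomial IsDedekindDomain

namespace Pool.Agent.NH7.Cub

open Pool.Agent.W309.Sha (PointsComplete ShaTwoTrivial ShaTateTrivial Points)

section gen

variable {k₀ k : Type} [Field k₀] [Field k] [Algebra k₀[X] k] [IsFractionRing k₀[X] k]

/-- The polynomial `g(s) + u` over `k₀(u)`. -/
noncomputable def gu (k : Type) [Field k] [Algebra k₀[X] k] (g : k₀[X]) : k[X] :=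
  g.map ((algebraMap k₀[X] k).comp C) + C (algebraMap k₀[X] k X)

/-- A constant of `k₀` in `k₀(u)`. -/
noncomputable def cu (k : Type) [Field k] [Algebra k₀[X] k] (a : k₀) : k :=
  algebraMap k₀[X] k (C a)

/-- The polynomial `h(u + g(s)) - s` in `k₀[s][u]`. -/
noncomputable def Pu (a b c : k₀) (g : k₀[X]) : k₀[X][X] :=
  (X + C g) ^ 3 + C (C a) * (X + C g) ^ 2 + C (C b) * (X + C g) + C (C c) - C X

theorem Pu_irr (a b c : k₀) (g : k₀[X]) : Irreducible (Pu a b c g) := by
  set Q : k₀[X][X] := X ^ 3 + C (C a) * X ^ 2 + C (C b) * X + C (C c - X) with hQ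
  have hQm : Q.Monic := by rw [hQ]; monicity!
  have hQirr : Irreducible Q := by
    rw [hQm.irreducible_iff_irreducible_map_fraction_map (K := RatFunc k₀)]
    have h1 : Q.map (algebraMap k₀[X] (RatFunc k₀)) =
        cub (cf (RatFunc k₀) a) (cf (RatFunc k₀) b) (cs (RatFunc k₀) c) := by
      rw [hQ]
      simp only [cub, cf, cs, Polynomial.map_add, Polynomial.map_mul, Polynomial.map_pow, map_X,
        map_C]
    rw [h1]
    exact cub_irr a b c
  have h2 : Pu a b c g = Polynomial.algEquivAevalXAddC g Q := by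
    rw [Pu, hQ]
    simp only [map_add, map_mul, map_pow, algEquivAevalXAddC_apply, aeval_X, aeval_C, map_sub]
    simp only [algebraMap_eq]
    ring
  rw [h2]
  exact (MulEquiv.irreducible_iff (Polynomial.algEquivAevalXAddC g).toMulEquiv).2 hQirr

/-- The polynomial `h`. -/
noncomputable def hcub (a b c : k₀) : k₀[X] := X ^ 3 + C a * X ^ 2 + C b * X + C c

theorem hcub_deg (a b c : k₀) : (hcub a b c).natDegree = 3 := by
  unfold hcub; compute_degree!

/-- The image of `u`. -/
noncomputable def ww (a b c : k₀) (g : k₀[X]) : k₀[X] := X - g.comp (hcub a b c)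

theorem ww_deg (a b c : k₀) (g : k₀[X]) : (ww a b c g).natDegree ≠ 0 := by
  have h1 : (g.comp (hcub a b c)).natDegree = g.natDegree * 3 := by
    rw [natDegree_comp, hcub_deg]
  unfold ww
  by_cases hg : g.natDegree = 0
  · have h2 : (g.comp (hcub a b c)).natDegree < (X : k₀[X]).natDegree := by
      rw [h1, hg, natDegree_X]; norm_num
    rw [natDegree_sub_eq_left_of_natDegree_lt h2, natDegree_X]
    norm_num
  · have h2 : (X : k₀[X]).natDegree < (g.comp (hcub a b c)).natDegree := by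
      rw [h1, natDegree_X]; omega
    rw [natDegree_sub_eq_right_of_natDegree_lt h2, h1]
    omega

theorem comp_inj {w : k₀[X]} (hw : w.natDegree ≠ 0) :
    Function.Injective (compRingHom w : k₀[X] →+* k₀[X]) := by
  rw [injective_iff_map_eq_zero]
  intro p hp
  have h1 : p.comp w = 0 := hp
  rcases comp_eq_zero_iff.1 h1 with h | ⟨-, h⟩
  · exact h
  · exfalso
    apply hw
    rw [h, natDegree_C]

/-- `δ` is not a square. -/
theorem del_nsq (h2 : (2 : k₀) ≠ 0) (a b : k₀) (hab : a ^ 2 ≠ 3 * b) (z : RatFunc k₀) :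
    z ^ 2 ≠ algebraMap k₀[X] (RatFunc k₀) (C (a ^ 2 - 4 * b) - C (2 * a) * X - 3 * X ^ 2) := by
  intro hz
  have hint : IsIntegral k₀[X] z := by
    refine IsIntegral.of_pow (n := 2) (by norm_num) ?_
    rw [hz]
    exact isIntegral_algebraMap
  obtain ⟨ρ, hρ⟩ := IsIntegrallyClosed.isIntegral_iff.1 hint
  rw [← hρ, ← map_pow] at hz
  have h3 : ρ ^ 2 = C (a ^ 2 - 4 * b) - C (2 * a) * X - 3 * X ^ 2 :=
    IsFractionRing.injective k₀[X] (RatFunc k₀) hz
  have h4 : ρ.natDegree ≤ 1 := by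
    have h5 := congrArg natDegree h3
    rw [natDegree_pow] at h5
    have h6 : (C (a ^ 2 - 4 * b) - C (2 * a) * X - 3 * X ^ 2 : k₀[X]).natDegree ≤ 2 := by
      compute_degree
    omega
  obtain ⟨m, l, hml⟩ : ∃ m l : k₀, ρ = C m * X + C l :=
    ⟨_, _, eq_X_add_C_of_natDegree_le_one h4⟩
  have h5 : ρ ^ 2 = C (m ^ 2) * X ^ 2 + C (2 * (m * l)) * X + C (l ^ 2) := by
    rw [hml]
    simp only [map_mul, map_pow, map_ofNat]
    ring
  have h6 : (3 : k₀[X]) = C 3 := (map_ofNat C 3).symm
  rw [h5, h6] at h3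
  have c0 := congrArg (fun f => coeff f 0) h3
  have c1 := congrArg (fun f => coeff f 1) h3
  have c2 := congrArg (fun f => coeff f 2) h3
  simp only [coeff_add, coeff_sub, coeff_C_mul, coeff_X_pow, coeff_X, coeff_C] at c0 c1 c2
  norm_num at c0 c1 c2
  have e1 : m * l = -a := by
    have : 2 * (m * l + a) = 0 := by linear_combination c1
    rcases mul_eq_zero.1 this with h | h
    · exact absurd h h2
    · linear_combination h
  apply hab
  have e2 : 4 * (a ^ 2 - 3 * b) = 0 := by
    have : (m * l) ^ 2 = m ^ 2 * l ^ 2 := by ring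
    rw [e1, c2, c0] at this
    linear_combination this
  have h4' : (4 : k₀) ≠ 0 := by
    have : (4 : k₀) = 2 * 2 := by norm_num
    rw [this]
    exact mul_ne_zero h2 h2
  rcases mul_eq_zero.1 e2 with h | h
  · exact absurd h h4'
  · exact sub_eq_zero.1 h

open Polynomial.Bivariate in
theorem swap_Pu (a b c : k₀) (g : k₀[X]) : (swap (Pu a b c g)).map (algebraMap k₀[X] k) =
    gu k g ^ 3 + C (cu k a) * gu k g ^ 2 + C (cu k b) * gu k g + C (cu k c) - X := by
  have e1 : ∀ q : k₀[X], (swap (C q)).map (algebraMap k₀[X] k) =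
      q.map ((algebraMap k₀[X] k).comp C) := by
    intro q
    rw [swap_C, Polynomial.map_map]
  have e2 : (swap (Y : k₀[X][Y])).map (algebraMap k₀[X] k) = C (algebraMap k₀[X] k X) := by
    rw [swap_Y, map_C]
  have e3 : (swap (X + C g : k₀[X][Y])).map (algebraMap k₀[X] k) = gu k g := by
    rw [map_add, Polynomial.map_add, e1, e2, gu, add_comm]
  have e4 : ∀ t : k₀, (swap (C (C t) : k₀[X][Y])).map (algebraMap k₀[X] k) = C (cu k t) := by
    intro t
    rw [e1, map_C]; rfl
  have e5 : (swap (C X : k₀[X][Y])).map (algebraMap k₀[X] k) = X := by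
    rw [e1, map_X]
  simp only [Pu, map_add, map_sub, map_mul, map_pow, Polynomial.map_add, Polynomial.map_sub,
    Polynomial.map_mul, Polynomial.map_pow] at e3 ⊢
  rw [e3, e4, e4, e4, e5]

/-- The homomorphism `u ↦ w`, `s ↦ h` from `k₀(u)[s]` to `k₀(X)`. -/
noncomputable def lu (k : Type) [Field k] [Algebra k₀[X] k] [IsFractionRing k₀[X] k] (a b c : k₀)
    (g : k₀[X]) : k →+* RatFunc k₀ :=
  IsFractionRing.lift (A := k₀[X]) (g := (algebraMap k₀[X] (RatFunc k₀)).comp
    (compRingHom (ww a b c g))) ((IsFractionRing.injective k₀[X] (RatFunc k₀)).comp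
      (comp_inj (ww_deg a b c g)))

theorem lu_alg (a b c : k₀) (g r : k₀[X]) : lu k a b c g (algebraMap k₀[X] k r) =
    algebraMap k₀[X] (RatFunc k₀) (r.comp (ww a b c g)) :=
  IsFractionRing.lift_algebraMap _ _

noncomputable def psi (k : Type) [Field k] [Algebra k₀[X] k] [IsFractionRing k₀[X] k] (a b c : k₀)
    (g : k₀[X]) : k[X] →+* RatFunc k₀ :=
  eval₂RingHom (lu k a b c g) (algebraMap k₀[X] (RatFunc k₀) (hcub a b c))

theorem psi_X (a b c : k₀) (g : k₀[X]) : psi k a b c g X =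
    algebraMap k₀[X] (RatFunc k₀) (hcub a b c) := by
  unfold psi
  rw [coe_eval₂RingHom, eval₂_X]

theorem psi_C (a b c : k₀) (g r : k₀[X]) : psi k a b c g (C (algebraMap k₀[X] k r)) =
    algebraMap k₀[X] (RatFunc k₀) (r.comp (ww a b c g)) := by
  unfold psi
  rw [coe_eval₂RingHom, eval₂_C, lu_alg]

theorem psi_map (a b c : k₀) (g q : k₀[X]) :
    psi k a b c g (q.map ((algebraMap k₀[X] k).comp C)) =
    algebraMap k₀[X] (RatFunc k₀) (q.comp (hcub a b c)) := by
  induction q using Polynomial.induction_on' with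
  | add p q hp hq => rw [Polynomial.map_add, map_add, hp, hq, add_comp, map_add]
  | monomial n t =>
    rw [← C_mul_X_pow_eq_monomial, Polynomial.map_mul, Polynomial.map_pow, map_X, map_C, map_mul,
      map_pow, psi_X, mul_comp, pow_comp, X_comp, C_comp, map_mul, map_pow]
    congr 1
    show psi k a b c g (C (algebraMap k₀[X] k (C t))) = _
    rw [psi_C, C_comp]

theorem psi_gu (a b c : k₀) (g : k₀[X]) : psi k a b c g (gu k g) =
    algebraMap k₀[X] (RatFunc k₀) X := by
  rw [gu, map_add, psi_map, psi_C, X_comp, ← map_add, ww]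
  congr 1
  ring

theorem psi_cu (a b c : k₀) (g : k₀[X]) (t : k₀) : psi k a b c g (C (cu k t)) =
    algebraMap k₀[X] (RatFunc k₀) (C t) := by
  unfold cu
  rw [psi_C, C_comp]

theorem psi_Du (a b c : k₀) (g : k₀[X]) : psi k a b c g (gu k g ^ 3 + C (cu k a) * gu k g ^ 2 +
    C (cu k b) * gu k g + C (cu k c) - X) = 0 := by
  simp only [map_add, map_sub, map_mul, map_pow, psi_gu, psi_cu, psi_X]
  simp only [← map_add, ← map_sub, ← map_mul, ← map_pow, hcub]
  rw [sub_self, map_zero]

theorem Du_irr (a b c : k₀) (g : k₀[X]) : Irreducible (gu k g ^ 3 + C (cu k a) * gu k g ^ 2 +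
    C (cu k b) * gu k g + C (cu k c) - X) := by
  set Q := Polynomial.Bivariate.swap (Pu a b c g) with hQ
  have hirr : Irreducible Q :=
    (MulEquiv.irreducible_iff (Polynomial.Bivariate.swap (R := k₀)).toMulEquiv).2 (Pu_irr a b c g)
  have hmap : Q.map (algebraMap k₀[X] k) = gu k g ^ 3 + C (cu k a) * gu k g ^ 2 +
    C (cu k b) * gu k g + C (cu k c) - X := swap_Pu a b c g
  have hdeg : Q.natDegree ≠ 0 := by
    intro h0
    rw [natDegree_eq_zero] at h0
    obtain ⟨r, hr⟩ := h0
    have h1 : psi k a b c g (Q.map (algebraMap k₀[X] k)) = 0 := by rw [hmap]; exact psi_Du a b c g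
    rw [← hr, map_C, psi_C] at h1
    have h2 : r = 0 := by
      apply comp_inj (ww_deg a b c g)
      rw [map_zero]
      apply IsFractionRing.injective k₀[X] (RatFunc k₀)
      rw [map_zero]
      exact h1
    apply hirr.ne_zero
    rw [← hr, h2, C_0]
  rw [← hmap]
  exact ((hirr.isPrimitive hdeg).irreducible_iff_irreducible_map_fraction_map (K := k)).1 hirr

theorem Du_nsq (h2 : (2 : k₀) ≠ 0) (a b c : k₀) (hab : a ^ 2 ≠ 3 * b) (g : k₀[X]) (r : k[X]) :
    ¬ (gu k g ^ 3 + C (cu k a) * gu k g ^ 2 + C (cu k b) * gu k g + C (cu k c) - X) ∣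
      r ^ 2 - (C (cu k a ^ 2 - 4 * cu k b) - C (2 * cu k a) * gu k g - 3 * gu k g ^ 2) := by
  rintro ⟨q, hq⟩
  have h1 := congrArg (psi k a b c g) hq
  rw [map_mul (psi k a b c g), psi_Du, zero_mul] at h1
  apply del_nsq h2 a b hab (psi k a b c g r)
  simp only [map_sub, map_mul, map_pow, map_ofNat, psi_cu, psi_gu] at h1 ⊢
  linear_combination h1

variable {K : Type} [Field K] [Algebra k[X] K] [IsFractionRing k[X] K]

theorem rk_generic (h2 : (2 : k₀) ≠ 0) (a b c : k₀) (hab : a ^ 2 ≠ 3 * b) (g : k₀[X]) :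
    TwoRankOne (crvD k K (cu k a) (cu k b) (cu k c) (algebraMap k[X] K (gu k g ^ 3 +
      C (cu k a) * gu k g ^ 2 + C (cu k b) * gu k g + C (cu k c) - X))) ∧
      ShaTwoTrivial k[X] (crvD k K (cu k a) (cu k b) (cu k c) (algebraMap k[X] K (gu k g ^ 3 +
        C (cu k a) * gu k g ^ 2 + C (cu k b) * gu k g + C (cu k c) - X))) ∧
      ShaTateTrivial k[X] (crvD k K (cu k a) (cu k b) (cu k c) (algebraMap k[X] K (gu k g ^ 3 +
        C (cu k a) * gu k g ^ 2 + C (cu k b) * gu k g + C (cu k c) - X))) := by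
  have hinj : Function.Injective ((algebraMap k₀[X] k).comp C) :=
    (IsFractionRing.injective k₀[X] k).comp C_injective
  have hcu : ∀ t : k₀, cu k t = (algebraMap k₀[X] k).comp C t := fun t => rfl
  refine rk_base ?_ _ _ _ ?_ _ (Du_irr a b c g) (Du_nsq h2 a b c hab g)
  · have h3 : (algebraMap k₀[X] k).comp C (2 : k₀) ≠ 0 := (map_ne_zero_iff _ hinj).2 h2
    rwa [map_ofNat] at h3
  · rw [hcu, hcu, ← map_pow]
    have : (3 : k) = (algebraMap k₀[X] k).comp C (3 : k₀) := (map_ofNat _ 3).symm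
    rw [this, ← map_mul]
    exact fun h => hab (hinj h)

end gen

end Pool.Agent.NH7.Cub
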