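import Pool.Agent.NH7.Cub.Gen

/-!
The descent over the function field of a curve over `k₀(u)`, for the curves
`y ^ 2 = x ^ 3 + a x ^ 2 + b x + c - u` with `a`, `b`, `c` regular functions on a curve over `k₀`.
-/

set_option autoImplicit false
set_option linter.all false

open WithZero Polynomial IsDedekindDomain

namespace Pool.Agent.NH7.Cub

section trans

variable {k₀ A₀ F₀ : Type} (K : Type) [Field k₀] [CommRing A₀] [Algebra k₀ A₀]
  [Field F₀] [Algebra A₀ F₀] [Algebra k₀ F₀]
  [Field K] [Algebra F₀[X] K]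

/-- Polynomials over a subring of `F₀` as elements of `K = F₀(u)`. -/
noncomputable def io (T : Type) [CommRing T] [Algebra T F₀] : T[X] →+* K :=
  (algebraMap F₀[X] K).comp (mapRingHom (algebraMap T F₀))

theorem io_apply (T : Type) [CommRing T] [Algebra T F₀] (p : T[X]) :
    io (F₀ := F₀) K T p = algebraMap F₀[X] K (p.map (algebraMap T F₀)) := rfl

/-- No root modulo a prime of `F₀[u]` containing a polynomial over `k₀`. -/
theorem vert_sil {a b c : F₀}
    (hI : ∀ x : AlgebraicClosure F₀,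
      IsAlgebraic k₀ (x ^ 3 + algebraMap F₀ _ a * x ^ 2 + algebraMap F₀ _ b * x +
        algebraMap F₀ _ c) →
      x ∉ IntermediateField.adjoin F₀ {x ^ 3 + algebraMap F₀ _ a * x ^ 2 +
        algebraMap F₀ _ b * x + algebraMap F₀ _ c})
    (v : HeightOneSpectrum F₀[X]) {q : k₀[X]} (hq : q ≠ 0)
    (hqv : q.map (algebraMap k₀ F₀) ∈ v.asIdeal) (g : F₀[X]) :
    g ^ 3 + C a * g ^ 2 + C b * g + (C c - X) ∉ v.asIdeal := by
  intro hg
  obtain ⟨π, hπ, hv⟩ := Pool.Agent.W309.TD.exists_gen v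
  have hπ' : Irreducible π := hπ
  have hdeg : π.degree ≠ 0 := by
    intro h0
    exact hπ'.not_isUnit (isUnit_iff_degree_eq_zero.2 h0)
  obtain ⟨u₀, hu₀⟩ := IsAlgClosed.exists_aeval_eq_zero (AlgebraicClosure F₀) π hdeg
  have hkill : ∀ f ∈ v.asIdeal, aeval u₀ f = 0 := by
    intro f hf
    rw [hv, Ideal.mem_span_singleton] at hf
    obtain ⟨r, rfl⟩ := hf
    rw [map_mul, hu₀, zero_mul]
  have h1 := hkill _ hg
  simp only [map_add, map_sub, map_mul, map_pow, aeval_C, aeval_X] at h1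
  have h2 : (aeval u₀ g) ^ 3 + algebraMap F₀ _ a * (aeval u₀ g) ^ 2 +
      algebraMap F₀ _ b * (aeval u₀ g) + algebraMap F₀ _ c = u₀ := by
    linear_combination h1
  apply hI (aeval u₀ g)
  · rw [h2]
    refine ⟨q, hq, ?_⟩
    have := hkill _ hqv
    rwa [aeval_map_algebraMap] at this
  · rw [h2]
    exact IntermediateField.algebra_adjoin_le_adjoin F₀ _
      (aeval_mem_adjoin_singleton F₀ u₀)

variable [IsFractionRing F₀[X] K] {R : Type} [CommRing R] [Algebra R K]

/-- The descent condition for the generic translates. -/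
theorem trans_H1 (h2 : (2 : F₀) ≠ 0) {a b c : F₀} (hab : a ^ 2 ≠ 3 * b)
    (hI : ∀ x : AlgebraicClosure F₀,
      IsAlgebraic k₀ (x ^ 3 + algebraMap F₀ _ a * x ^ 2 + algebraMap F₀ _ b * x +
        algebraMap F₀ _ c) →
      x ∉ IntermediateField.adjoin F₀ {x ^ 3 + algebraMap F₀ _ a * x ^ 2 +
        algebraMap F₀ _ b * x + algebraMap F₀ _ c})
    (hR : ∀ r : R, ∃ (p : A₀[X]) (q : k₀[X]), q ≠ 0 ∧
      algebraMap R K r = io (F₀ := F₀) K A₀ p / io (F₀ := F₀) K k₀ q) :
    H1 R K (cf K a) (cf K b) (cs K c) := by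
  intro A _ _ θ hθ h3 α hα hN hEv
  haveI : FiniteDimensional K A := FiniteDimensional.of_finrank_pos (by rw [h3]; norm_num)
  refine base_H1 a b c A θ hθ h3 α hα hN ?_
  intro v hv hvF
  by_cases hcase : ∀ q : k₀[X], q ≠ 0 → v (algebraMap K A (io (F₀ := F₀) K k₀ q)) = 1
  · apply hEv v hv
    intro r
    obtain ⟨p, q, hq, hx⟩ := hR r
    rw [hx, map_div₀, map_div₀, hcase q hq, div_one]
    exact hvF _
  · push Not at hcase
    obtain ⟨q, hq, hne⟩ := hcase
    have hlt : v (algebraMap K A (io (F₀ := F₀) K k₀ q)) < 1 := lt_of_le_of_ne (hvF _) hne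
    obtain ⟨v₀, e, hv₀, he, hve⟩ := exists_res (F := K) v hv
    have hv₀F : ∀ f : F₀[X], v₀ (algebraMap F₀[X] K f) ≤ 1 := by
      intro f
      apply of_pow_le he
      rw [← hve]
      exact hvF f
    obtain ⟨p, hp⟩ := exists_center (S := F₀[X]) v₀ hv₀ hv₀F
    have hqp : q.map (algebraMap k₀ F₀) ∈ p.asIdeal := by
      rw [← p.valuation_lt_one_iff_mem (K := K), hp]
      rw [hve] at hlt
      exact (pow_lt_one_iff_of_nonneg zero_le' he.ne').1 hlt
    have hs : Sil (cf K a) (cf K b) (cs K c) (p.valuation K) := by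
      intro x hx
      exact sil_ofG (R := F₀[X]) (K := K) (L := K) (S := F₀[X]) (C a) (C b) (C c - X) p
        (fun g => vert_sil hI p hq hqp g) x hx
    have hpe : ∀ x : K, v (algebraMap K A x) = p.valuation K x ^ e := fun x => by
      rw [hve, hp]
    refine sil_norm (cub_irr a b c) (cub_sepb a b c h2 hab) h3 hθ (p.valuation K)
      (p.valuation_surjective K) (p.valuation_le_one _) (p.valuation_le_one _)
      (p.valuation_le_one _) hs v ?_ ?_ hα hN
    · intro x hx
      rw [hpe]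
      exact pow_le_one' hx e
    · intro x hx
      rw [hpe]
      exact pow_lt_one' hx he.ne'

end trans

end Pool.Agent.NH7.Cub
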