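import Pool.Agent.NH7.Cub.Trans

/-!
Residue fields at the points of the curve over `k₀`.
-/

set_option autoImplicit false
set_option linter.all false

open WithZero Polynomial IsDedekindDomain

namespace Pool.Agent.NH7.Cub

section lift

variable {k₀ A₀ F₀ : Type} {K : Type} [Field k₀] [CommRing A₀] [Algebra k₀ A₀]
  [Field F₀] [Algebra A₀ F₀] [Algebra k₀ F₀]
  [Field K] [Algebra F₀[X] K] {R : Type} [CommRing R] [Algebra R K]

/-- The ring `R` contains the polynomials over `A₀`. -/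
theorem exists_polyMap [FaithfulSMul R K]
    (hA : ∀ p : A₀[X], ∃ r : R, algebraMap R K r = io (F₀ := F₀) K A₀ p) :
    ∃ ρ : A₀[X] →+* R, ∀ p, algebraMap R K (ρ p) = io (F₀ := F₀) K A₀ p := by
  have hinj : Function.Injective (algebraMap R K) := FaithfulSMul.algebraMap_injective R K
  choose f hf using hA
  refine ⟨
    { toFun := f
      map_one' := hinj (by rw [hf, map_one, map_one])
      map_mul' := fun x y => hinj (by rw [hf, map_mul, map_mul, hf, hf])
      map_zero' := hinj (by rw [hf, map_zero, map_zero])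
      map_add' := fun x y => hinj (by rw [hf, map_add, map_add, hf, hf]) }, hf⟩

end lift

section resid

variable {k₀ A₀ : Type} [Field k₀] [CommRing A₀] [IsDedekindDomain A₀] [Algebra k₀ A₀]
  [Algebra.FiniteType k₀ A₀] {R : Type} [CommRing R] [IsDedekindDomain R] (ρ : A₀[X] →+* R)
  (hR1 : ∀ q : k₀[X], q ≠ 0 → IsUnit (ρ (q.map (algebraMap k₀ A₀))))
  (hR2 : ∀ r : R, ∃ (p : A₀[X]) (q : k₀[X]), q ≠ 0 ∧
    r * ρ (q.map (algebraMap k₀ A₀)) = ρ p)

include hR1 hR2 in
theorem resid_aux {κ : Type} [Field κ] (π : R →+* κ) (hsurj : Function.Surjective π)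
    (v : HeightOneSpectrum R) (hπ0 : ∀ r, π r = 0 ↔ r ∈ v.asIdeal) {β : A₀} (hβ : β ≠ 0)
    (hβv : ρ (C β) ∈ v.asIdeal) :
    ∃ (F₁ : Type) (_ : Field F₁) (_ : Algebra F₁[X] κ)
      (_ : IsFractionRing F₁[X] κ) (j : A₀ →+* F₁),
      (∀ α, π (ρ (C α)) = algebraMap F₁[X] κ (C (j α))) ∧
        π (ρ X) = algebraMap F₁[X] κ X := by
  set τ : A₀ →+* κ := π.comp (ρ.comp C) with hτ
  letI : Algebra k₀ κ := (τ.comp (algebraMap k₀ A₀)).toAlgebra
  have hk : ∀ t : k₀, algebraMap k₀ κ t = τ (algebraMap k₀ A₀ t) := fun _ => rfl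
  -- elements of `A₀` are algebraic
  have halg : ∀ α : A₀, IsAlgebraic k₀ (τ α) := by
    intro α
    set m := RingHom.ker τ with hm
    haveI hmp : m.IsPrime := RingHom.ker_isPrime τ
    have hm0 : m ≠ ⊥ := by
      intro h0
      have : β ∈ m := by
        rw [hm, RingHom.mem_ker]
        exact (hπ0 _).2 hβv
      rw [h0, Ideal.mem_bot] at this
      exact hβ this
    haveI hmax : m.IsMaximal := hmp.isMaximal hm0
    letI : Field (A₀ ⧸ m) := Ideal.Quotient.field m
    haveI : Module.Finite k₀ (A₀ ⧸ m) := finite_of_finite_type_of_isJacobsonRing k₀ (A₀ ⧸ m)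
    obtain ⟨p, hp0, hp⟩ := Algebra.IsAlgebraic.isAlgebraic (R := k₀) (Ideal.Quotient.mk m α)
    refine ⟨p, hp0, ?_⟩
    have h1 : (Ideal.Quotient.mk m) (aeval α p) = 0 := by
      rw [← hp]
      exact (Polynomial.aeval_algHom_apply (Ideal.Quotient.mkₐ k₀ m) α p).symm
    rw [Ideal.Quotient.eq_zero_iff_mem, hm, RingHom.mem_ker] at h1
    rw [← h1, aeval_def, aeval_def, hom_eval₂]
    rfl
  -- `u` is transcendental
  have htr : ∀ q : k₀[X], q ≠ 0 → aeval (π (ρ X)) q ≠ 0 := by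
    intro q hq h0
    have h1 : π (ρ (q.map (algebraMap k₀ A₀))) = aeval (π (ρ X)) q := by
      rw [aeval_def, ← eval₂_C_X (p := q.map (algebraMap k₀ A₀)), hom_eval₂, hom_eval₂,
        eval₂_map]
      rfl
    rw [h0, hπ0] at h1
    exact v.isPrime.ne_top (Ideal.eq_top_of_isUnit_mem _ h1 (hR1 q hq))
  let F₁ : IntermediateField k₀ κ := algebraicClosure k₀ κ
  have hmemF : ∀ α : A₀, τ α ∈ F₁ := fun α => mem_algebraicClosure_iff.2 (halg α)
  let j : A₀ →+* F₁ := τ.codRestrict F₁.toSubfield hmemF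
  let φ : F₁[X] →+* κ := (aeval (π (ρ X)) : F₁[X] →ₐ[F₁] κ).toRingHom
  have hφC : ∀ t : F₁, φ (C t) = (t : κ) := fun t => by
    show aeval (π (ρ X)) (C t : F₁[X]) = _
    rw [aeval_C]; rfl
  have hφX : φ X = π (ρ X) := by
    show aeval (π (ρ X)) (X : F₁[X]) = _
    rw [aeval_X]
  have hφinj : Function.Injective φ := by
    rw [injective_iff_map_eq_zero]
    intro f hf
    by_contra hf0
    have h1 : IsAlgebraic F₁ (π (ρ X)) := ⟨f, hf0, hf⟩
    haveI : Algebra.IsAlgebraic k₀ F₁ := algebraicClosure.isAlgebraic k₀ κ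
    have h2 : IsAlgebraic k₀ (π (ρ X)) := IsAlgebraic.restrictScalars k₀ h1
    obtain ⟨q, hq, hq0⟩ := h2
    exact htr q hq hq0
  have hφρ : ∀ p : A₀[X], π (ρ p) = φ (p.map j) := by
    intro p
    have : (π.comp ρ) = φ.comp (mapRingHom j) := by
      apply Polynomial.ringHom_ext
      · intro α
        show π (ρ (C α)) = φ ((C α).map j)
        rw [Polynomial.map_C, hφC]
        rfl
      · show π (ρ X) = φ (X.map j)
        rw [Polynomial.map_X, hφX]
    exact RingHom.congr_fun this p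
  letI : Algebra F₁[X] κ := φ.toAlgebra
  haveI : FaithfulSMul F₁[X] κ := by
    rw [faithfulSMul_iff_algebraMap_injective]
    exact hφinj
  have hfr : IsFractionRing F₁[X] κ := by
    apply IsFractionRing.of_field
    intro z
    obtain ⟨r, rfl⟩ := hsurj z
    obtain ⟨p, q, hq, hpq⟩ := hR2 r
    refine ⟨p.map j, (q.map (algebraMap k₀ A₀)).map j, ?_⟩
    show π r = φ _ / φ _
    rw [← hφρ, ← hφρ, ← hpq, map_mul, mul_div_cancel_right₀]
    exact ((hR1 q hq).map π).ne_zero
  exact ⟨F₁, inferInstance, inferInstance, hfr, j, fun α => by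
      rw [hφρ (C α), Polynomial.map_C]; rfl, by
      rw [hφρ X, Polynomial.map_X]; rfl⟩

include hR1 hR2 in
/-- The residue field at a prime above a closed point of the curve over `k₀`. -/
theorem resid (v : HeightOneSpectrum R) {β : A₀} (hβ : β ≠ 0) (hβv : ρ (C β) ∈ v.asIdeal) :
    ∃ (κ : Type) (_ : Field κ) (π : R →+* κ) (F₁ : Type) (_ : Field F₁) (_ : Algebra F₁[X] κ)
      (_ : IsFractionRing F₁[X] κ) (j : A₀ →+* F₁),
      (∀ r, π r = 0 ↔ r ∈ v.asIdeal) ∧ (∀ α, π (ρ (C α)) = algebraMap F₁[X] κ (C (j α))) ∧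
        π (ρ X) = algebraMap F₁[X] κ X := by
  haveI := v.isMaximal
  letI : Field (R ⧸ v.asIdeal) := Ideal.Quotient.field v.asIdeal
  obtain ⟨F₁, i1, i2, i3, j, h1, h2⟩ := resid_aux ρ hR1 hR2 (Ideal.Quotient.mk v.asIdeal)
    Ideal.Quotient.mk_surjective v (fun r => Ideal.Quotient.eq_zero_iff_mem) hβ hβv
  exact ⟨R ⧸ v.asIdeal, inferInstance, Ideal.Quotient.mk v.asIdeal, F₁, i1, i2, i3, j,
    fun r => Ideal.Quotient.eq_zero_iff_mem, h1, h2⟩

include hR1 hR2 in
/-- The discriminant is a unit at the primes above closed points of the curve over `k₀`. -/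
theorem disc_over (h6 : (6 : k₀) ≠ 0) (a b c : A₀) (v : HeightOneSpectrum R) {β : A₀}
    (hβ : β ≠ 0) (hβv : ρ (C β) ∈ v.asIdeal) :
    discR (ρ (C a)) (ρ (C b)) (ρ (C c - X)) ∉ v.asIdeal := by
  obtain ⟨κ, _, π, F₁, _, _, _, j, hπ0, hC, hX⟩ := resid ρ hR1 hR2 v hβ hβv
  intro hmem
  rw [← hπ0] at hmem
  have e1 : π (discR (ρ (C a)) (ρ (C b)) (ρ (C c - X))) =
      algebraMap F₁[X] κ (discR (C (j a)) (C (j b)) (C (j c) - X)) := by
    simp only [discR, map_add, map_sub, map_mul, map_pow, map_ofNat, hC, hX]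
  rw [e1, map_eq_zero_iff _ (IsFractionRing.injective F₁[X] κ)] at hmem
  have h2 := congrArg (fun f => coeff f 2) hmem
  have e2 : discR (C (j a)) (C (j b)) (C (j c) - X) =
      C (-27 : F₁) * X ^ 2 + C (4 * j a ^ 3 - 18 * j a * j b + 54 * j c) * X +
        C (discR (j a) (j b) (j c)) := by
    simp only [discR, map_add, map_sub, map_mul, map_pow, map_ofNat, map_neg]
    ring
  rw [e2] at h2
  simp only [coeff_add, coeff_C_mul, coeff_X_pow, coeff_X, coeff_C, coeff_zero] at h2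
  norm_num at h2
  have h3 : (27 : k₀) ≠ 0 := by
    intro h0
    have h4 : ((3 : k₀)) ^ 3 = 0 := by rw [← h0]; norm_num
    have h5 : (3 : k₀) = 0 := by simpa using h4
    apply h6
    have : (6 : k₀) = 2 * 3 := by norm_num
    rw [this, h5, mul_zero]
  have h7 : (j.comp (algebraMap k₀ A₀)) 27 = 0 := by
    rw [map_ofNat]
    exact h2
  exact h3 ((map_eq_zero _).1 h7)

include hR1 hR2 in
/-- The cubic has no root modulo the primes above closed points of the curve over `k₀`. -/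
theorem sil_over (a b c : A₀) (v : HeightOneSpectrum R) {β : A₀}
    (hβ : β ≠ 0) (hβv : ρ (C β) ∈ v.asIdeal) (g : R) :
    g ^ 3 + ρ (C a) * g ^ 2 + ρ (C b) * g + ρ (C c - X) ∉ v.asIdeal := by
  obtain ⟨κ, _, π, F₁, _, _, _, j, hπ0, hC, hX⟩ := resid ρ hR1 hR2 v hβ hβv
  intro hmem
  rw [← hπ0] at hmem
  have hirr := cub_irr (K := κ) (j a) (j b) (j c)
  rw [(cub_monic _ _ _).irreducible_iff_roots_eq_zero_of_degree_le_three
    (by rw [cub_natDegree]; norm_num) (by rw [cub_natDegree])] at hirr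
  have h1 : π g ∈ (cub (cf κ (j a)) (cf κ (j b)) (cs κ (j c))).roots := by
    rw [mem_roots (cub_monic _ _ _).ne_zero]
    simp only [map_add, map_sub, map_mul, map_pow, hC, hX] at hmem
    simp only [cub, cf, cs, IsRoot.def, eval_add, eval_sub, eval_mul, eval_pow, eval_C, eval_X,
      map_sub]
    exact hmem
  rw [hirr] at h1
  simp at h1

end resid

end Pool.Agent.NH7.Cub
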