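import Pool.Agent.NH7.Cub.Trans2

/-!
The main theorem on generic translates.
-/

set_option autoImplicit false
set_option linter.all false

open WithZero Polynomial IsDedekindDomain

namespace Pool.Agent.NH7.Cub

open Pool.Agent.W309.Sha (PointsComplete ShaTwoTrivial ShaTateTrivial Points)

section trans

variable {k₀ A₀ F₀ K R : Type} [Field k₀] [CommRing A₀] [IsDedekindDomain A₀] [Algebra k₀ A₀]
  [Algebra.FiniteType k₀ A₀] [Field F₀] [Algebra A₀ F₀] [IsFractionRing A₀ F₀] [Algebra k₀ F₀]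
  [IsScalarTower k₀ A₀ F₀] [Field K] [Algebra F₀[X] K] [IsFractionRing F₀[X] K] [CommRing R]
  [IsDedekindDomain R] [Algebra R K] [IsFractionRing R K]

theorem trans_disc (h2 : (2 : F₀) ≠ 0) (h6 : (6 : k₀) ≠ 0) {a b c : A₀}
    (hab : (algebraMap A₀ F₀ a) ^ 2 ≠ 3 * algebraMap A₀ F₀ b) (ρ : A₀[X] →+* R)
    (hρ : ∀ p, algebraMap R K (ρ p) = io (F₀ := F₀) K A₀ p)
    (hR1 : ∀ q : k₀[X], q ≠ 0 → IsUnit (ρ (q.map (algebraMap k₀ A₀))))
    (hR2 : ∀ r : R, ∃ (p : A₀[X]) (q : k₀[X]), q ≠ 0 ∧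
      r * ρ (q.map (algebraMap k₀ A₀)) = ρ p) (v : HeightOneSpectrum R) :
    discR (ρ (C a)) (ρ (C b)) (ρ (C c - X)) ∉ v.asIdeal ^ 2 := by
  by_cases hβ : ∃ β : A₀, β ≠ 0 ∧ ρ (C β) ∈ v.asIdeal
  · obtain ⟨β, hβ, hβv⟩ := hβ
    intro h
    exact disc_over ρ hR1 hR2 h6 a b c v hβ hβv (Ideal.pow_le_self two_ne_zero h)
  · push Not at hβ
    have hC : ∀ s : F₀, v.valuation K (algebraMap F₀[X] K (C s)) ≤ 1 := by
      intro s
      obtain ⟨n, d, hd, rfl⟩ := IsFractionRing.div_surjective (A := A₀) s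
      have hd0 : d ≠ 0 := nonZeroDivisors.ne_zero hd
      have e1 : ∀ α : A₀, algebraMap F₀[X] K (C (algebraMap A₀ F₀ α)) =
          algebraMap R K (ρ (C α)) := by
        intro α
        rw [hρ, io_apply, Polynomial.map_C]
      have e2 : (C (algebraMap A₀ F₀ n / algebraMap A₀ F₀ d) : F₀[X]) * C (algebraMap A₀ F₀ d) =
          C (algebraMap A₀ F₀ n) := by
        rw [← C_mul, div_mul_cancel₀]
        rw [Ne, map_eq_zero_iff _ (IsFractionRing.injective A₀ F₀)]
        exact hd0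
      have e3 := congrArg (fun f => v.valuation K (algebraMap F₀[X] K f)) e2
      simp only [map_mul, e1] at e3
      have e4 : v.valuation K (algebraMap R K (ρ (C d))) = 1 := by
        apply le_antisymm (v.valuation_le_one _)
        rw [← not_lt, v.valuation_lt_one_iff_mem]
        exact hβ d hd0
      rw [e4, mul_one] at e3
      rw [e3]
      exact v.valuation_le_one _
    have hX : v.valuation K (algebraMap F₀[X] K X) ≤ 1 := by
      have : algebraMap F₀[X] K X = algebraMap R K (ρ X) := by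
        rw [hρ, io_apply, Polynomial.map_X]
      rw [this]
      exact v.valuation_le_one _
    have hall : ∀ f : F₀[X], v.valuation K (algebraMap F₀[X] K f) ≤ 1 := by
      intro f
      induction f using Polynomial.induction_on' with
      | add p q hp hq => rw [map_add]; exact le_add' _ hp hq
      | monomial n t =>
        rw [← C_mul_X_pow_eq_monomial, map_mul, map_pow]
        exact le_mul' _ (hC t) (le_pow' _ hX n)
    obtain ⟨p, hp⟩ := exists_center (S := F₀[X]) (v.valuation K) (v.valuation_surjective K) hall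
    have h1 := disc_cond (K := K) (algebraMap A₀ F₀ a) (algebraMap A₀ F₀ b) (algebraMap A₀ F₀ c)
      h2 hab p
    rw [hp] at h1
    have e1 : disc3 (cf K (algebraMap A₀ F₀ a)) (cf K (algebraMap A₀ F₀ b))
        (cs K (algebraMap A₀ F₀ c)) =
        algebraMap R K (discR (ρ (C a)) (ρ (C b)) (ρ (C c - X))) := by
      rw [← discR_map, hρ, hρ, hρ, io_apply, io_apply, io_apply]
      simp only [Polynomial.map_C, Polynomial.map_sub, Polynomial.map_X]
      rfl
    rw [e1, v.valuation_of_algebraMap] at h1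
    intro h
    rw [← v.intValuation_le_pow_iff_mem] at h
    have h3 := h1.trans h
    rw [exp_le_exp] at h3
    push_cast at h3

variable {L S : Type} [Field L]
  [Algebra K L] [Algebra R L] [IsScalarTower R K L] [CommRing S]
  [IsDedekindDomain S] [Algebra S L] [IsFractionRing S L] [Algebra R S] [IsScalarTower R S L]

open scoped Classical in
theorem trans_main [Algebra.IsIntegral R S] (h6 : (6 : k₀) ≠ 0) (hL : TwoTower K L) (a b c : A₀)
    (hab : a ^ 2 ≠ 3 * b)
    (hI : ∀ x : AlgebraicClosure F₀,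
      IsAlgebraic k₀ (x ^ 3 + algebraMap F₀ _ (algebraMap A₀ F₀ a) * x ^ 2 +
        algebraMap F₀ _ (algebraMap A₀ F₀ b) * x + algebraMap F₀ _ (algebraMap A₀ F₀ c)) →
      x ∉ IntermediateField.adjoin F₀ {x ^ 3 + algebraMap F₀ _ (algebraMap A₀ F₀ a) * x ^ 2 +
        algebraMap F₀ _ (algebraMap A₀ F₀ b) * x + algebraMap F₀ _ (algebraMap A₀ F₀ c)})
    (hR : ∀ z : K, (∃ r : R, algebraMap R K r = z) ↔ ∃ (p : A₀[X]) (q : k₀[X]), q ≠ 0 ∧
      z = io (F₀ := F₀) K A₀ p / io (F₀ := F₀) K k₀ q) (D : L) (hD : D ≠ 0)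
    (hram : ∀ w : HeightOneSpectrum S,
      ((w.asIdeal.under R).map (algebraMap R S) ≤ w.asIdeal ^ 2 ∨
        ¬ IsSquare (w.valuation L D)) →
      (∃ β : A₀, β ≠ 0 ∧ w.valuation L (algebraMap K L (cf K (algebraMap A₀ F₀ β))) < 1) ∨
      ∀ g : R, w.valuation L (algebraMap K L ((algebraMap R K g) ^ 3 +
        cf K (algebraMap A₀ F₀ a) * (algebraMap R K g) ^ 2 +
        cf K (algebraMap A₀ F₀ b) * (algebraMap R K g) + cs K (algebraMap A₀ F₀ c))) = 1)
    (W : WeierstrassCurve L) (hW1 : W.a₁ = 0) (hW3 : W.a₃ = 0)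
    (hW2 : W.a₂ = D * algebraMap K L (cf K (algebraMap A₀ F₀ a)))
    (hW4 : W.a₄ = D ^ 2 * algebraMap K L (cf K (algebraMap A₀ F₀ b)))
    (hW6 : W.a₆ = D ^ 3 * algebraMap K L (cs K (algebraMap A₀ F₀ c))) :
    (∀ P : Points W L, ∃! Q, Q + Q = P) ∧ ShaTwoTrivial S W ∧ ShaTateTrivial S W := by
  have hinj : Function.Injective (algebraMap R K) := IsFractionRing.injective R K
  have hiof : Function.Injective (algebraMap F₀[X] K) := IsFractionRing.injective F₀[X] K
  have hk6 : (6 : F₀) ≠ 0 := by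
    have : (6 : F₀) = algebraMap k₀ F₀ 6 := (map_ofNat _ 6).symm
    rw [this]
    exact (_root_.map_ne_zero _).2 h6
  have hF2 : (2 : F₀) ≠ 0 := by
    intro h0
    apply hk6
    have : (6 : F₀) = 2 * 3 := by norm_num
    rw [this, h0, zero_mul]
  have h2k : (2 : k₀) ≠ 0 := by
    intro h0
    apply h6
    have : (6 : k₀) = 2 * 3 := by norm_num
    rw [this, h0, zero_mul]
  have hab' : (algebraMap A₀ F₀ a) ^ 2 ≠ 3 * algebraMap A₀ F₀ b := by
    intro h0
    apply hab
    apply IsFractionRing.injective A₀ F₀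
    rw [map_pow, map_mul, map_ofNat]
    exact h0
  have hio1 : ∀ T : Type, ∀ [CommRing T] [Algebra T F₀], io (F₀ := F₀) K T 1 = 1 := by
    intro T _ _
    exact map_one _
  haveI : FaithfulSMul R K := by
    rw [faithfulSMul_iff_algebraMap_injective]; exact hinj
  obtain ⟨ρ, hρ⟩ := exists_polyMap (R := R) (K := K) (A₀ := A₀) (F₀ := F₀) (fun p =>
    (hR _).2 ⟨p, 1, one_ne_zero, by rw [hio1, div_one]⟩)
  have hioq : ∀ q : k₀[X], io (F₀ := F₀) K A₀ (q.map (algebraMap k₀ A₀)) =
      io (F₀ := F₀) K k₀ q := by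
    intro q
    rw [io_apply, io_apply, Polynomial.map_map, ← IsScalarTower.algebraMap_eq]
  have hioq0 : ∀ q : k₀[X], q ≠ 0 → io (F₀ := F₀) K k₀ q ≠ 0 := by
    intro q hq
    rw [io_apply, Ne, map_eq_zero_iff _ hiof, Polynomial.map_eq_zero_iff
      (algebraMap k₀ F₀).injective]
    exact hq
  have hR1 : ∀ q : k₀[X], q ≠ 0 → IsUnit (ρ (q.map (algebraMap k₀ A₀))) := by
    intro q hq
    obtain ⟨r, hr⟩ := (hR (1 / io (F₀ := F₀) K k₀ q)).2 ⟨1, q, hq, by rw [hio1]⟩
    refine IsUnit.of_mul_eq_one r (hinj ?_)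
    rw [map_mul, hρ, hioq, hr, map_one, mul_one_div_cancel (hioq0 q hq)]
  have hR2 : ∀ r : R, ∃ (p : A₀[X]) (q : k₀[X]), q ≠ 0 ∧
      r * ρ (q.map (algebraMap k₀ A₀)) = ρ p := by
    intro r
    obtain ⟨p, q, hq, h⟩ := (hR (algebraMap R K r)).1 ⟨r, rfl⟩
    refine ⟨p, q, hq, hinj ?_⟩
    rw [map_mul, hρ, hρ, hioq, h, div_mul_cancel₀ _ (hioq0 q hq)]
  have ea : algebraMap R K (ρ (C a)) = cf K (algebraMap A₀ F₀ a) := by
    rw [hρ, io_apply, Polynomial.map_C]; rfl
  have eb : algebraMap R K (ρ (C b)) = cf K (algebraMap A₀ F₀ b) := by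
    rw [hρ, io_apply, Polynomial.map_C]; rfl
  have ec : algebraMap R K (ρ (C c - X)) = cs K (algebraMap A₀ F₀ c) := by
    rw [hρ, io_apply, Polynomial.map_sub, Polynomial.map_C, Polynomial.map_X]; rfl
  have h2R : IsUnit (2 : R) := by
    have h1 := hR1 (C 2) (by rw [Ne, C_eq_zero]; exact h2k)
    rwa [Polynomial.map_C, map_ofNat, map_ofNat, map_ofNat] at h1
  have hirr := cub_irr (K := K) (algebraMap A₀ F₀ a) (algebraMap A₀ F₀ b) (algebraMap A₀ F₀ c)
  rw [← ea, ← eb, ← ec] at hirr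
  have H := trans_H1 (k₀ := k₀) (A₀ := A₀) (K := K) (R := R) hF2 hab' hI (fun r =>
    (hR _).1 ⟨r, rfl⟩)
  rw [← ea, ← eb, ← ec] at H
  have hdisc := trans_disc (K := K) hF2 h6 (c := c) hab' ρ hρ hR1 hR2
  have h0 : discR (ρ (C a)) (ρ (C b)) (ρ (C c - X)) ≠ 0 := by
    intro h0
    have h1 : algebraMap F₀[X] K (discR (C (algebraMap A₀ F₀ a)) (C (algebraMap A₀ F₀ b))
        (C (algebraMap A₀ F₀ c) - X)) = 0 := by
      have h2 := congrArg (algebraMap R K) h0
      rw [map_zero, ← discR_map, ea, eb, ec] at h2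
      rw [← discR_map]
      exact h2
    rw [map_eq_zero_iff _ hiof] at h1
    have h2 := congrArg (fun f => coeff f 2) h1
    have e2 : discR (C (algebraMap A₀ F₀ a)) (C (algebraMap A₀ F₀ b))
        (C (algebraMap A₀ F₀ c) - X) =
        C (-27 : F₀) * X ^ 2 + C (4 * algebraMap A₀ F₀ a ^ 3 -
          18 * algebraMap A₀ F₀ a * algebraMap A₀ F₀ b + 54 * algebraMap A₀ F₀ c) * X +
          C (discR (algebraMap A₀ F₀ a) (algebraMap A₀ F₀ b) (algebraMap A₀ F₀ c)) := by
      simp only [discR, map_add, map_sub, map_mul, map_pow, map_ofNat, map_neg]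
      ring
    rw [e2] at h2
    simp only [coeff_add, coeff_C_mul, coeff_X_pow, coeff_X, coeff_C, coeff_zero] at h2
    norm_num at h2
    have h4 : ((3 : F₀)) ^ 3 = 0 := by rw [← h2]; norm_num
    have h5 : (3 : F₀) = 0 := by simpa using h4
    apply hk6
    have : (6 : F₀) = 2 * 3 := by norm_num
    rw [this, h5, mul_zero]
  have hmain := main_gen (K := K) (L := L) (S := S) h2R hL (ρ (C a)) (ρ (C b)) (ρ (C c - X)) hirr
    h0 hdisc H D hD (fun w hw g => by
      rcases hram w hw with ⟨β, hβ, hβw⟩ | hs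
      · have hmem : ρ (C β) ∈ w.asIdeal.under R := by
          have e1 : cf K (algebraMap A₀ F₀ β) = algebraMap R K (ρ (C β)) := by
            rw [hρ, io_apply, Polynomial.map_C]; rfl
          rw [e1, ← IsScalarTower.algebraMap_apply R K L, IsScalarTower.algebraMap_apply R S L,
            w.valuation_lt_one_iff_mem] at hβw
          exact hβw
        have hρβ : ρ (C β) ≠ 0 := by
          intro h
          have h1 := congrArg (algebraMap R K) h
          rw [hρ, io_apply, Polynomial.map_C, map_zero, map_eq_zero_iff _ hiof, C_eq_zero,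
            map_eq_zero_iff _ (IsFractionRing.injective A₀ F₀)] at h1
          exact hβ h1
        have hprime : (w.asIdeal.under R).IsPrime := inferInstance
        have hbot : w.asIdeal.under R ≠ ⊥ := by
          intro h
          rw [h, Ideal.mem_bot] at hmem
          exact hρβ hmem
        exact sil_over ρ hR1 hR2 a b c ⟨w.asIdeal.under R, hprime, hbot⟩ hβ hmem g
      · intro hmem
        have h1 := hs g
        rw [← ea, ← eb, ← ec, ← map_pow, ← map_pow, ← map_mul, ← map_mul, ← map_add, ← map_add,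
          ← map_add, ← IsScalarTower.algebraMap_apply R K L,
          IsScalarTower.algebraMap_apply R S L] at h1
        have h2 : algebraMap R S (g ^ 3 + ρ (C a) * g ^ 2 + ρ (C b) * g + ρ (C c - X)) ∈
            w.asIdeal := hmem
        rw [← w.valuation_lt_one_iff_mem (K := L), h1] at h2
        exact lt_irrefl _ h2)
  have hWeq : W = crvG L (ρ (C a)) (ρ (C b)) (ρ (C c - X)) D := by
    ext
    · exact hW1
    · rw [hW2, ← ea, ← IsScalarTower.algebraMap_apply R K L]; rfl
    · exact hW3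
    · rw [hW4, ← eb, ← IsScalarTower.algebraMap_apply R K L]; rfl
    · rw [hW6, ← ec, ← IsScalarTower.algebraMap_apply R K L]; rfl
  rw [hWeq]
  exact hmain

end trans

end Pool.Agent.NH7.Cub
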