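import Mathlib

/-!
# Surjective valuations with values in the integers, and their extensions
-/

set_option autoImplicit false
set_option linter.unusedSectionVars false
set_option linter.style.haveILetI false

namespace Pool.Agent.NH7.Cub

open IsDedekindDomain WithZero Valuation

section basic

variable {A : Type} [Field A] (u : Valuation A ℤᵐ⁰)

theorem exists_exp {x : A} (hx : x ≠ 0) : ∃ n : ℤ, u x = exp n := by
  have h : u x ≠ 0 := (Valuation.ne_zero_iff _).2 hx
  exact ⟨log (u x), (exp_log h).symm⟩

theorem isSquare_exp {n : ℤ} : IsSquare (exp n : ℤᵐ⁰) ↔ Even n := by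
  constructor
  · rintro ⟨z, hz⟩
    have hz0 : z ≠ 0 := by
      rintro rfl
      rw [mul_zero] at hz
      exact exp_ne_zero hz
    refine ⟨log z, ?_⟩
    have h1 : z = exp (log z) := (exp_log hz0).symm
    rw [h1, ← exp_add, exp_inj] at hz
    exact hz
  · rintro ⟨m, rfl⟩
    exact ⟨exp m, by rw [exp_add]⟩

theorem surj_unif (hu : Function.Surjective u) : ∃ π : A, π ≠ 0 ∧ u π = exp (-1) := by
  obtain ⟨π, hπ⟩ := hu (exp (-1))
  refine ⟨π, ?_, hπ⟩
  rintro rfl
  rw [map_zero] at hπ
  exact exp_ne_zero hπ.symm

theorem lt_one_iff {z : ℤᵐ⁰} : z < 1 ↔ z ≤ exp (-1) := by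
  by_cases h : z = 0
  · subst h
    simp
  · have h1 : z = exp (log z) := (exp_log h).symm
    rw [h1, ← exp_zero, exp_lt_exp, exp_le_exp]
    omega

end basic

section spec

variable {A : Type} [Field A] (u : Valuation A ℤᵐ⁰)

theorem dvr_of (hu : Function.Surjective u) : IsDiscreteValuationRing u.valuationSubring := by
  obtain ⟨π, hπ0, hπ⟩ := surj_unif u hu
  have hne : Nontrivial (MonoidWithZeroHom.valueGroup (.ofClass u)) := by
    rw [Subgroup.nontrivial_iff_exists_ne_one]
    refine ⟨Units.mk0 (u π) ((Valuation.ne_zero_iff _).2 hπ0), ?_, ?_⟩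
    · exact MonoidWithZeroHom.mem_valueGroup _ ⟨π, rfl⟩
    · intro h
      have h1 : u π = 1 := congrArg Units.val h
      rw [hπ, ← exp_zero, exp_inj] at h1
      omega
  infer_instance

theorem exists_spec (hu : Function.Surjective u) :
    ∃ (B : Type) (_ : CommRing B) (_ : IsDedekindDomain B) (_ : Algebra B A)
      (_ : IsFractionRing B A) (w : HeightOneSpectrum B), w.valuation A = u := by
  have hd := dvr_of u hu
  refine ⟨u.valuationSubring, inferInstance, inferInstance, inferInstance, inferInstance,
    IsDiscreteValuationRing.maximalIdeal u.valuationSubring, ?_⟩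
  set w := IsDiscreteValuationRing.maximalIdeal u.valuationSubring with hw
  obtain ⟨π, hπ0, hπ⟩ := surj_unif u hu
  have hπ1 : π ∈ u.valuationSubring := by
    rw [Valuation.mem_valuationSubring_iff, hπ, ← exp_zero, exp_le_exp]
    norm_num
  have hunit : ∀ y : u.valuationSubring, u (y : A) = 1 → IsUnit y := by
    intro y hy
    have hy0 : (y : A) ≠ 0 := by
      intro h
      rw [h, map_zero] at hy
      exact zero_ne_one hy
    have h1 : (y : A)⁻¹ ∈ u.valuationSubring := by
      rw [Valuation.mem_valuationSubring_iff, map_inv₀, hy, inv_one]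
    refine IsUnit.of_mul_eq_one ⟨(y : A)⁻¹, h1⟩ (Subtype.ext ?_)
    exact mul_inv_cancel₀ hy0
  have hu1 : ∀ x : A, u x = 1 → w.valuation A x = 1 := by
    intro x hx
    have hx1 : x ∈ u.valuationSubring := by
      rw [Valuation.mem_valuationSubring_iff, hx]
    have h1 := hunit ⟨x, hx1⟩ hx
    have h2 : w.intValuation (⟨x, hx1⟩ : u.valuationSubring) = 1 := by
      rw [HeightOneSpectrum.intValuation_eq_one_iff]
      intro h3
      exact w.isPrime.ne_top (Ideal.eq_top_of_isUnit_mem _ h3 h1)
    have h3 := w.valuation_of_algebraMap (K := A) (⟨x, hx1⟩ : u.valuationSubring)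
    rw [h2] at h3
    exact h3
  have hspan : w.asIdeal = Ideal.span {(⟨π, hπ1⟩ : u.valuationSubring)} := by
    apply le_antisymm
    · intro y hy
      have hy1 : u (y : A) < 1 := by
        by_contra hcon
        have h2 : u (y : A) = 1 := le_antisymm y.2 (not_lt.1 hcon)
        exact w.isPrime.ne_top (Ideal.eq_top_of_isUnit_mem _ hy (hunit y h2))
      rw [Ideal.mem_span_singleton]
      have h3 : (y : A) / π ∈ u.valuationSubring := by
        rw [Valuation.mem_valuationSubring_iff, map_div₀, hπ]
        rw [div_le_one₀ (by exact zero_lt_iff.2 exp_ne_zero)]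
        exact lt_one_iff.1 hy1
      refine ⟨⟨(y : A) / π, h3⟩, Subtype.ext ?_⟩
      show (y : A) = π * ((y : A) / π)
      field_simp
    · rw [Ideal.span_singleton_le_iff_mem]
      show (⟨π, hπ1⟩ : u.valuationSubring) ∈ IsLocalRing.maximalIdeal u.valuationSubring
      rw [IsLocalRing.mem_maximalIdeal, mem_nonunits_iff]
      intro hun
      have hb := hun.choose_spec
      have hab : (hun.choose : u.valuationSubring) * ((hun.choose⁻¹ : (u.valuationSubring)ˣ) :
          u.valuationSubring) = 1 := Units.mul_inv _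
      rw [hb] at hab
      have h4 : u (((⟨π, hπ1⟩ : u.valuationSubring) *
          ((hun.choose⁻¹ : (u.valuationSubring)ˣ) : u.valuationSubring) :
          u.valuationSubring) : A) = 1 := by
        rw [hab]
        exact map_one u
      set b : u.valuationSubring := ((hun.choose⁻¹ : (u.valuationSubring)ˣ) : u.valuationSubring)
      have h6 : u (((⟨π, hπ1⟩ : u.valuationSubring) * b : u.valuationSubring) : A)
          = u π * u (b : A) := map_mul u _ _
      rw [h6, hπ] at h4
      have h7 : u (b : A) ≤ 1 := b.2
      have h8 : exp (-1) * u (b : A) ≤ exp (-1) * 1 := mul_le_mul' le_rfl h7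
      rw [h4, mul_one, ← exp_zero, exp_le_exp] at h8
      norm_num at h8
  have hwπ : w.valuation A π = exp (-1) := by
    have h1 := w.valuation_of_algebraMap (K := A) (⟨π, hπ1⟩ : u.valuationSubring)
    rw [w.intValuation_singleton (fun h => hπ0 (congrArg Subtype.val h)) hspan] at h1
    exact h1
  refine Valuation.ext fun x => ?_
  by_cases hx : x = 0
  · subst hx
    rw [map_zero, map_zero]
  obtain ⟨n, hn⟩ := exists_exp u hx
  have h1 : u (x * π ^ n) = 1 := by
    rw [map_mul, map_zpow₀, hn, hπ, ← exp_zsmul, ← exp_add, ← exp_zero, exp_inj]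
    simp
  have h2 := hu1 _ h1
  rw [map_mul, map_zpow₀, hwπ, ← exp_zsmul] at h2
  rw [hn]
  have h3 : w.valuation A x = w.valuation A x * exp (n • (-1 : ℤ)) * exp n := by
    rw [mul_assoc, ← exp_add]
    have : n • (-1 : ℤ) + n = 0 := by simp
    rw [this, exp_zero, mul_one]
  rw [h3, h2, one_mul]

end spec

section ext

variable {A A' : Type} [Field A] [Field A'] [Algebra A A'] [FiniteDimensional A A']
  [Algebra.IsSeparable A A']

/-- Extension of a surjective valuation to a finite separable extension. -/
theorem exists_ext (u : Valuation A ℤᵐ⁰) (hu : Function.Surjective u) :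
    ∃ (u' : Valuation A' ℤᵐ⁰) (e : ℕ), Function.Surjective u' ∧ 0 < e ∧
      ∀ x : A, u' (algebraMap A A' x) = u x ^ e := by
  obtain ⟨B, _, _, _, _, w, hw⟩ := exists_spec u hu
  letI : Algebra B A' := ((algebraMap A A').comp (algebraMap B A)).toAlgebra
  haveI : IsScalarTower B A A' := IsScalarTower.of_algebraMap_eq fun _ => rfl
  let B' := integralClosure B A'
  haveI : IsDedekindDomain B' := IsIntegralClosure.isDedekindDomain B A A' B'
  haveI : IsFractionRing B' A' := IsIntegralClosure.isFractionRing_of_finite_extension B A A' B'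
  haveI hinj : FaithfulSMul B B' := by
    rw [faithfulSMul_iff_algebraMap_injective]
    intro x y hxy
    have h1 : algebraMap B A' x = algebraMap B A' y := by
      have := congrArg (algebraMap B' A') hxy
      rwa [← IsScalarTower.algebraMap_apply, ← IsScalarTower.algebraMap_apply] at this
    exact IsFractionRing.injective B A ((algebraMap A A').injective h1)
  haveI : Module.IsTorsionFree B B' := inferInstance
  haveI : Algebra.IsIntegral B B' := IsIntegralClosure.isIntegral_algebra B A'
  obtain ⟨Q, hQ1, hQ2⟩ := Ideal.exists_ideal_over_maximal_of_isIntegral w.asIdeal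
    (S := B') (by
      rw [(RingHom.injective_iff_ker_eq_bot _).1 (FaithfulSMul.algebraMap_injective B B')]
      exact bot_le)
  have hQ0 : Q ≠ ⊥ := by
    rintro rfl
    apply w.ne_bot
    rw [← hQ2]
    exact Ideal.comap_bot_of_injective _ (FaithfulSMul.algebraMap_injective B B')
  let w' : HeightOneSpectrum B' := ⟨Q, hQ1.isPrime, hQ0⟩
  haveI : w'.asIdeal.LiesOver w.asIdeal := ⟨hQ2.symm⟩
  refine ⟨w'.valuation A', w.asIdeal.ramificationIdx' w'.asIdeal, w'.valuation_surjective A', ?_,
    fun x => ?_⟩
  · exact Nat.pos_of_ne_zero (Ideal.IsDedekindDomain.ramificationIdx'_ne_zero_of_liesOver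
      w'.asIdeal w.ne_bot)
  · rw [← hw]
    exact (HeightOneSpectrum.valuation_liesOver A' w w' x).symm

end ext

end Pool.Agent.NH7.Cub
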